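import Mathlib

set_option autoImplicit false

/-! The smooth and the rough part of an integer. -/

namespace Pool.Agent.TH445.OI
open Finset ArithmeticFunction

/-- the part of `n` composed of the primes `p ≤ w` -/
noncomputable def sp (w n : ℕ) : ℕ := (n.factorization.filter (fun p => p ≤ w)).prod (fun p k => p ^ k)

/-- the part of `n` composed of the primes `p > w` -/
noncomputable def rp (w n : ℕ) : ℕ := (n.factorization.filter (fun p => ¬ p ≤ w)).prod (fun p k => p ^ k)

lemma sp_mul_rp (w : ℕ) {n : ℕ} (hn : n ≠ 0) : sp w n * rp w n = n := by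
  unfold sp rp
  rw [← Finsupp.prod_add_index' (by simp) (by intros; rw [pow_add]), Finsupp.filter_add_filter_not]
  exact Nat.prod_factorization_pow_eq_self hn

lemma sp_mul (w : ℕ) {n m : ℕ} (hn : n ≠ 0) (hm : m ≠ 0) : sp w (n * m) = sp w n * sp w m := by
  unfold sp
  rw [Nat.factorization_mul hn hm, Finsupp.filter_add, Finsupp.prod_add_index' (by simp) (by intros; rw [pow_add])]

lemma rp_mul (w : ℕ) {n m : ℕ} (hn : n ≠ 0) (hm : m ≠ 0) : rp w (n * m) = rp w n * rp w m := by
  unfold rp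
  rw [Nat.factorization_mul hn hm, Finsupp.filter_add, Finsupp.prod_add_index' (by simp) (by intros; rw [pow_add])]

/-- all prime factors `≤ w` -/
def Smo (w s : ℕ) : Prop := ∀ p, p.Prime → p ∣ s → p ≤ w

/-- all prime factors `> w` -/
def Rou (w s : ℕ) : Prop := ∀ p, p.Prime → p ∣ s → w < p

lemma sp_ne (w n : ℕ) : sp w n ≠ 0 := by
  unfold sp Finsupp.prod
  rw [prod_ne_zero_iff]
  intro p hp
  rw [Finsupp.support_filter, mem_filter, Nat.support_factorization] at hp
  exact pow_ne_zero _ (Nat.prime_of_mem_primeFactors hp.1).ne_zero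

lemma rp_ne (w n : ℕ) : rp w n ≠ 0 := by
  unfold rp Finsupp.prod
  rw [prod_ne_zero_iff]
  intro p hp
  rw [Finsupp.support_filter, mem_filter, Nat.support_factorization] at hp
  exact pow_ne_zero _ (Nat.prime_of_mem_primeFactors hp.1).ne_zero

lemma smo_sp (w n : ℕ) : Smo w (sp w n) := by
  intro p hp hd
  unfold sp Finsupp.prod at hd
  obtain ⟨q, hq, hd⟩ := (Prime.dvd_finsetProd_iff hp.prime _).1 hd
  rw [Finsupp.support_filter, mem_filter, Nat.support_factorization] at hq
  have h1 := hp.dvd_of_dvd_pow hd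
  rw [(Nat.prime_dvd_prime_iff_eq hp (Nat.prime_of_mem_primeFactors hq.1)).1 h1]
  exact hq.2

lemma rou_rp (w n : ℕ) : Rou w (rp w n) := by
  intro p hp hd
  unfold rp Finsupp.prod at hd
  obtain ⟨q, hq, hd⟩ := (Prime.dvd_finsetProd_iff hp.prime _).1 hd
  rw [Finsupp.support_filter, mem_filter, Nat.support_factorization] at hq
  have h1 := hp.dvd_of_dvd_pow hd
  rw [(Nat.prime_dvd_prime_iff_eq hp (Nat.prime_of_mem_primeFactors hq.1)).1 h1]
  exact not_le.1 hq.2

lemma sp_smo {w s : ℕ} (hs0 : s ≠ 0) (hs : Smo w s) : sp w s = s := by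
  unfold sp
  rw [(Finsupp.filter_eq_self_iff _ _).2]
  · exact Nat.prod_factorization_pow_eq_self hs0
  · intro p hp
    have := Finsupp.mem_support_iff.2 hp
    rw [Nat.support_factorization] at this
    exact hs p (Nat.prime_of_mem_primeFactors this) (Nat.dvd_of_mem_primeFactors this)

lemma rp_smo {w s : ℕ} (hs : Smo w s) : rp w s = 1 := by
  unfold rp
  rw [(Finsupp.filter_eq_zero_iff _ _).2]
  · simp
  · intro p hp
    by_contra h0
    have := Finsupp.mem_support_iff.2 h0
    rw [Nat.support_factorization] at this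
    exact hp (hs p (Nat.prime_of_mem_primeFactors this) (Nat.dvd_of_mem_primeFactors this))

lemma rp_rou {w s : ℕ} (hs0 : s ≠ 0) (hs : Rou w s) : rp w s = s := by
  unfold rp
  rw [(Finsupp.filter_eq_self_iff _ _).2]
  · exact Nat.prod_factorization_pow_eq_self hs0
  · intro p hp
    have := Finsupp.mem_support_iff.2 hp
    rw [Nat.support_factorization] at this
    exact not_le.2 (hs p (Nat.prime_of_mem_primeFactors this) (Nat.dvd_of_mem_primeFactors this))

lemma sp_rou {w s : ℕ} (hs : Rou w s) : sp w s = 1 := by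
  unfold sp
  rw [(Finsupp.filter_eq_zero_iff _ _).2]
  · simp
  · intro p hp
    by_contra h0
    have := Finsupp.mem_support_iff.2 h0
    rw [Nat.support_factorization] at this
    exact absurd (hs p (Nat.prime_of_mem_primeFactors this) (Nat.dvd_of_mem_primeFactors this)) (not_lt.2 hp)

/-- the number of the prime factors `≤ w` -/
noncomputable def X (w n : ℕ) : ℕ := cardFactors (sp w n)

/-- the number of the prime factors `> w` -/
noncomputable def Y (w n : ℕ) : ℕ := cardFactors (rp w n)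

lemma X_add_Y (w : ℕ) {n : ℕ} (hn : n ≠ 0) : X w n + Y w n = cardFactors n := by
  unfold X Y
  rw [← cardFactors_mul (sp_ne w n) (rp_ne w n), sp_mul_rp w hn]

lemma X_mul (w : ℕ) {n m : ℕ} (hn : n ≠ 0) (hm : m ≠ 0) : X w (n * m) = X w n + X w m := by
  unfold X
  rw [sp_mul w hn hm, cardFactors_mul (sp_ne w n) (sp_ne w m)]

lemma Y_mul (w : ℕ) {n m : ℕ} (hn : n ≠ 0) (hm : m ≠ 0) : Y w (n * m) = Y w n + Y w m := by
  unfold Y
  rw [rp_mul w hn hm, cardFactors_mul (rp_ne w n) (rp_ne w m)]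

lemma rou_prime {w p : ℕ} (hp : p.Prime) (h : w < p) : Rou w p := by
  intro q hq hd
  rw [(Nat.prime_dvd_prime_iff_eq hq hp).1 hd]
  exact h

lemma X_prime {w p : ℕ} (hp : p.Prime) (h : w < p) : X w p = 0 := by
  unfold X
  rw [sp_rou (rou_prime hp h), cardFactors_one]

lemma Y_prime {w p : ℕ} (hp : p.Prime) (h : w < p) : Y w p = 1 := by
  unfold Y
  rw [rp_rou hp.ne_zero (rou_prime hp h), cardFactors_apply_prime hp]

lemma sp_eq (w n : ℕ) : sp w n = ∏ p ∈ (Icc 1 w).filter Nat.Prime, p ^ (n.factorization p) := by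
  unfold sp
  rw [Finsupp.prod_of_support_subset (s := (Icc 1 w).filter Nat.Prime)]
  · apply prod_congr rfl
    intro p hp
    rw [mem_filter, mem_Icc] at hp
    rw [Finsupp.filter_apply_pos (fun p => p ≤ w) _ hp.1.2]
  · intro p hp
    rw [Finsupp.support_filter, mem_filter, Nat.support_factorization] at hp
    have := Nat.prime_of_mem_primeFactors hp.1
    exact mem_filter.2 ⟨mem_Icc.2 ⟨this.one_lt.le, hp.2⟩, this⟩
  · intro p _
    exact pow_zero _

lemma log_sp (w n : ℕ) : Real.log (sp w n) = ∑ p ∈ (Icc 1 w).filter Nat.Prime, (n.factorization p : ℝ) * Real.log p := by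
  rw [sp_eq]
  push_cast
  rw [Real.log_prod]
  · apply sum_congr rfl
    intro p _
    rw [Real.log_pow]
  · intro p hp
    have := (mem_filter.1 hp).2.pos
    positivity

lemma X_eq (w n : ℕ) : X w n = ∑ p ∈ (Icc 1 w).filter Nat.Prime, n.factorization p := by
  unfold X
  rw [sp_eq]
  have : ∀ T : Finset ℕ, (∀ p ∈ T, p.Prime) → cardFactors (∏ p ∈ T, p ^ (n.factorization p)) = ∑ p ∈ T, n.factorization p := by
    intro T
    induction T using Finset.induction_on with
    | empty => intro _; simp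
    | insert a s ha ih =>
      intro hT
      rw [prod_insert ha, sum_insert ha, cardFactors_mul, cardFactors_apply_prime_pow (hT a (mem_insert_self _ _)),
        ih (fun p hp => hT p (mem_insert_of_mem hp))]
      · exact pow_ne_zero _ (hT a (mem_insert_self _ _)).ne_zero
      · rw [prod_ne_zero_iff]
        exact fun p hp => pow_ne_zero _ (hT p (mem_insert_of_mem hp)).ne_zero
  exact this _ (fun p hp => (mem_filter.1 hp).2)

lemma smo_of_le {w n : ℕ} (hn : n ≠ 0) (h : n ≤ w) : Smo w n :=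
  fun _ _ hd => (Nat.le_of_dvd (Nat.pos_of_ne_zero hn) hd).trans h

lemma card_eq_X {w n : ℕ} (hn : n ≠ 0) (h : n ≤ w) : cardFactors n = X w n := by
  unfold X
  rw [sp_smo hn (smo_of_le hn h)]

/-- multiples of `p` -/
lemma sum_mult (p M : ℕ) (hp : p.Prime) (g : ℕ → ℝ) (hg : ∀ m, ¬ p ∣ m → g m = 0) :
    ∑ m ∈ Icc 1 M, g m = ∑ m ∈ Icc 1 (M / p), g (p * m) := by
  have hp0 : 0 < p := hp.pos
  have h1 : ∑ m ∈ Icc 1 M, g m = ∑ m ∈ (Icc 1 M).filter (p ∣ ·), g m := by
    rw [sum_filter]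
    apply sum_congr rfl
    intro m _
    split_ifs with h
    · rfl
    · exact hg m h
  rw [h1]
  symm
  apply sum_nbij' (fun m => p * m) (fun m => m / p)
  · intro m hm
    rw [mem_Icc] at hm
    rw [mem_filter, mem_Icc]
    refine ⟨⟨?_, ?_⟩, dvd_mul_right _ _⟩
    · nlinarith [hm.1]
    · calc p * m ≤ p * (M / p) := Nat.mul_le_mul_left _ hm.2
        _ ≤ M := Nat.mul_div_le _ _
  · intro m hm
    rw [mem_filter, mem_Icc] at hm
    rw [mem_Icc]
    exact ⟨Nat.div_pos (Nat.le_of_dvd hm.1.1 hm.2) hp0, Nat.div_le_div_right hm.1.2⟩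
  · intro m _
    exact Nat.mul_div_cancel_left m hp0
  · intro m hm
    exact Nat.mul_div_cancel' (mem_filter.1 hm).2
  · intro m _
    rfl

/-- harmonic sum -/
noncomputable def H (M : ℕ) : ℝ := ∑ m ∈ Icc 1 M, (1 : ℝ) / m

lemma H_nonneg (M : ℕ) : 0 ≤ H M := sum_nonneg fun _ _ => by positivity

lemma H_mono {M M' : ℕ} (h : M ≤ M') : H M ≤ H M' :=
  sum_le_sum_of_subset_of_nonneg (Icc_subset_Icc le_rfl h) (fun _ _ _ => by positivity)

lemma vp_mul {p m : ℕ} (hp : p.Prime) (hm : m ≠ 0) : (p * m).factorization p = m.factorization p + 1 := by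
  rw [Nat.factorization_mul hp.ne_zero hm, Finsupp.add_apply, hp.factorization_self, add_comm]

lemma vp_log (p M : ℕ) (hp : p.Prime) :
    ∑ m ∈ Icc 1 M, (m.factorization p : ℝ) / m ≤ 2 / p * H M := by
  have hp2 : (2 : ℝ) ≤ p := by exact_mod_cast hp.two_le
  have h1 := sum_mult p M hp (fun m => (m.factorization p : ℝ) / m) (fun m h => by
    rw [Nat.factorization_eq_zero_of_not_dvd h]; simp)
  set T := ∑ m ∈ Icc 1 M, (m.factorization p : ℝ) / m with hT
  have h2 : ∑ m ∈ Icc 1 (M / p), ((p * m).factorization p : ℝ) / ((p * m : ℕ) : ℝ) ≤ (1 / p) * (T + H M) := by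
    have h3 : ∑ m ∈ Icc 1 (M / p), ((p * m).factorization p : ℝ) / ((p * m : ℕ) : ℝ) =
        (1 / p) * (∑ m ∈ Icc 1 (M / p), (m.factorization p : ℝ) / m + H (M / p)) := by
      unfold H
      rw [← sum_add_distrib, mul_sum]
      apply sum_congr rfl
      intro m hm
      have hm1 : m ≠ 0 := by have := (mem_Icc.1 hm).1; omega
      rw [vp_mul hp hm1]
      have : (m : ℝ) ≠ 0 := by exact_mod_cast hm1
      push_cast
      field_simp
    rw [h3]
    have h4 : ∑ m ∈ Icc 1 (M / p), (m.factorization p : ℝ) / m ≤ T :=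
      sum_le_sum_of_subset_of_nonneg (Icc_subset_Icc le_rfl (Nat.div_le_self _ _)) (fun _ _ _ => by positivity)
    have h5 := H_mono (Nat.div_le_self M p)
    gcongr
  rw [← h1] at h2
  have h6 : T * (p - 1) ≤ H M := by
    have : T * p ≤ T + H M := by
      calc T * p ≤ (1 / p) * (T + H M) * p := by gcongr
        _ = T + H M := by field_simp
    linarith
  have hT0 : 0 ≤ T := sum_nonneg fun _ _ => by positivity
  rw [div_mul_eq_mul_div, le_div_iff₀ (by linarith)]
  nlinarith

lemma vp_sum (p : ℕ) (hp : p.Prime) : ∀ M : ℕ, ∑ m ∈ Icc 1 M, (m.factorization p : ℝ) ≤ 2 / p * M := by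
  have hp2 : (2 : ℝ) ≤ p := by exact_mod_cast hp.two_le
  intro M
  induction M using Nat.strong_induction_on with
  | _ M ih =>
    rcases Nat.eq_zero_or_pos M with h0 | h0
    · subst h0; simp
    have h1 := sum_mult p M hp (fun m => (m.factorization p : ℝ)) (fun m h => by
      rw [Nat.factorization_eq_zero_of_not_dvd h]; simp)
    rw [h1]
    have h3 : ∑ m ∈ Icc 1 (M / p), ((p * m).factorization p : ℝ) = ∑ m ∈ Icc 1 (M / p), (m.factorization p : ℝ) + (M / p : ℕ) := by
      have : ((M / p : ℕ) : ℝ) = ∑ m ∈ Icc 1 (M / p), (1 : ℝ) := by simp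
      rw [this, ← sum_add_distrib]
      apply sum_congr rfl
      intro m hm
      have hm1 : m ≠ 0 := by have := (mem_Icc.1 hm).1; omega
      rw [vp_mul hp hm1]
      push_cast
      rfl
    rw [h3]
    have h4 := ih (M / p) (Nat.div_lt_self h0 hp.one_lt)
    have h5 : ((M / p : ℕ) : ℝ) ≤ M / p := Nat.cast_div_le
    have h6 : 2 / (p : ℝ) * ((M / p : ℕ) : ℝ) ≤ ((M / p : ℕ) : ℝ) := by
      have : 2 / (p : ℝ) ≤ 1 := by rw [div_le_one (by linarith)]; exact hp2
      exact mul_le_of_le_one_left (Nat.cast_nonneg _) this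
    calc _ ≤ (M : ℝ) / p + M / p := by linarith
      _ = _ := by ring

/-- the sum of `1 / p` -/
noncomputable def P1 (w : ℕ) : ℝ := ∑ p ∈ (Icc 1 w).filter Nat.Prime, (1 : ℝ) / p

/-- the sum of `log p / p` -/
noncomputable def P2 (w : ℕ) : ℝ := ∑ p ∈ (Icc 1 w).filter Nat.Prime, Real.log p / p

lemma X_sum (w M : ℕ) : ∑ m ∈ Icc 1 M, (X w m : ℝ) ≤ 2 * P1 w * M := by
  simp_rw [X_eq]
  push_cast
  rw [sum_comm]
  unfold P1
  rw [mul_sum, sum_mul]
  apply sum_le_sum
  intro p hp
  refine (vp_sum p (mem_filter.1 hp).2 M).trans (le_of_eq ?_)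
  ring

lemma X_logsum (w M : ℕ) : ∑ m ∈ Icc 1 M, (X w m : ℝ) / m ≤ 2 * P1 w * H M := by
  simp_rw [X_eq]
  push_cast
  simp_rw [sum_div]
  rw [sum_comm]
  unfold P1
  rw [mul_sum, sum_mul]
  apply sum_le_sum
  intro p hp
  refine (vp_log p M (mem_filter.1 hp).2).trans (le_of_eq ?_)
  ring

lemma logsp_sum (w M : ℕ) : ∑ m ∈ Icc 1 M, Real.log (sp w m) / m ≤ 2 * P2 w * H M := by
  simp_rw [log_sp]
  simp_rw [sum_div]
  rw [sum_comm]
  unfold P2
  rw [mul_sum, sum_mul]
  apply sum_le_sum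
  intro p hp
  have hp1 : (1 : ℝ) ≤ p := by exact_mod_cast (mem_filter.1 hp).2.one_lt.le
  have h1 := vp_log p M (mem_filter.1 hp).2
  have h2 := Real.log_nonneg hp1
  calc ∑ m ∈ Icc 1 M, (m.factorization p : ℝ) * Real.log p / m = Real.log p * ∑ m ∈ Icc 1 M, (m.factorization p : ℝ) / m := by
        rw [mul_sum]; apply sum_congr rfl; intro m _; ring
    _ ≤ Real.log p * (2 / p * H M) := by gcongr
    _ = _ := by ring

end Pool.Agent.TH445.OI
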