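import Mathlib
import Pool.Agent.H807R2.Dav4

set_option autoImplicit false

/-! The logarithmic identity and the minor arcs for functions which do not notice a large prime factor. -/

open Finset

open scoped ArithmeticFunction.vonMangoldt

namespace Pool.Agent.TH445.OI

open Pool.Agent.H807R2.Dav

/-- the summand -/
noncomputable def FG (g : ℕ → ℝ) (α : ℝ) (x : ℕ × ℕ) : ℂ :=
  ((Λ x.1 * g x.2 : ℝ) : ℂ) * ee ((x.1 * x.2 : ℕ) * α)

lemma norm_FG_le (g : ℕ → ℝ) (hg : ∀ n, |g n| ≤ 1) (α : ℝ) (x : ℕ × ℕ) : ‖FG g α x‖ ≤ Λ x.1 := by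
  unfold FG
  rw [norm_mul, norm_ee, mul_one, Complex.norm_real, Real.norm_eq_abs, abs_mul,
    abs_of_nonneg ArithmeticFunction.vonMangoldt_nonneg]
  exact mul_le_of_le_one_right ArithmeticFunction.vonMangoldt_nonneg (hg _)

lemma BB_sumg (g : ℕ → ℝ) {N D P : ℕ} (hP : 1 ≤ P) (hD : 1 ≤ D) (α : ℝ) :
    ∑ x ∈ BB N D P, FG g α x = ∑ m ∈ Ico D (N / P + 1), (g m : ℂ) * AA N D P α m := by
  have h1 : BB N D P = ((Ico P (2 * P)) ×ˢ (Ico D (N / P + 1))).filter
      (fun x => D ≤ x.1 ∧ x.1 * x.2 < N) := by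
    ext x
    unfold BB
    simp only [mem_filter, mem_QQ, mem_product, mem_Ico]
    constructor
    · rintro ⟨⟨h1, h2, h3⟩, ⟨h4, h5⟩, h6, h7⟩
      refine ⟨⟨⟨h6, h7⟩, h5, ?_⟩, h4, h3⟩
      apply Nat.lt_succ_of_le
      refine (Nat.le_div_iff_mul_le (by omega)).2 ?_
      nlinarith
    · rintro ⟨⟨⟨h6, h7⟩, h5, h8⟩, h4, h3⟩
      exact ⟨⟨by omega, by omega, h3⟩, ⟨h4, h5⟩, h6, h7⟩
  rw [h1, sum_filter, sum_product_right]
  refine sum_congr rfl fun m _ => ?_
  unfold AA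
  rw [mul_sum]
  refine sum_congr rfl fun d _ => ?_
  unfold cf FG
  by_cases h : D ≤ d ∧ d * m < N
  · rw [if_pos h, if_pos h]
    push_cast
    ring
  · rw [if_neg h, if_neg h]
    simp

set_option maxHeartbeats 2000000 in
lemma block_boundg (g : ℕ → ℝ) (hg : ∀ n, |g n| ≤ 1) {N D P : ℕ} (hP : 1 ≤ P) (hD : 1 ≤ D) (hN : 1 ≤ Real.log N)
    (hDL : (Real.log N) ^ 5 ≤ D) {q : ℕ} (hqD : D ≤ q) (hqN : q * D ≤ N) {a : ℤ}
    (hcop : IsCoprime a (q : ℤ)) {α : ℝ} (hα : |α - a / q| ≤ 1 / (q : ℝ) ^ 2) :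
    ‖∑ x ∈ BB N D P, FG g α x‖ ≤ 23 * N / Real.log N := by
  have hN0 : 0 < Real.log N := by linarith
  have hq : 1 ≤ q := by omega
  have hN1 : 1 ≤ N := by nlinarith
  have hN1' : (1 : ℝ) ≤ N := by exact_mod_cast hN1
  rcases (BB N D P).eq_empty_or_nonempty with he | ⟨x, hx⟩
  · rw [he]
    simp only [sum_empty, norm_zero]
    positivity
  unfold BB at hx
  simp only [mem_filter, mem_QQ] at hx
  obtain ⟨⟨h1, h2, h3⟩, ⟨h4, h5⟩, h6, h7⟩ := hx
  have hPD : P * D ≤ N := by nlinarith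
  have hDP : D ≤ 2 * P := by omega
  rw [BB_sumg g hP hD]
  set M : ℕ := N / P + 1 with hM
  have hstep1 : ‖∑ m ∈ Ico D M, (g m : ℂ) * AA N D P α m‖ ≤ ∑ m ∈ Ico D M, ‖AA N D P α m‖ := by
    refine (norm_sum_le _ _).trans (sum_le_sum fun m _ => ?_)
    rw [norm_mul, Complex.norm_real, Real.norm_eq_abs]
    exact mul_le_of_le_one_left (norm_nonneg _) (hg m)
  have hstep2 : (∑ m ∈ Ico D M, ‖AA N D P α m‖) ^ 2 ≤ M * ∑ m ∈ Ico D M, ‖AA N D P α m‖ ^ 2 := by
    refine (sq_sum_le_card_mul_sum_sq).trans ?_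
    apply mul_le_mul_of_nonneg_right _ (sum_nonneg fun _ _ => sq_nonneg _)
    rw [Nat.card_Ico]
    exact_mod_cast Nat.sub_le _ _
  have hstep3 := sum_sq_bound (N := N) (D := D) (P := P) (M := M) hD hN1 hq hcop hα
  set L : ℝ := Real.log N with hL
  have hPr : (0 : ℝ) < P := by exact_mod_cast hP
  have hqr : (0 : ℝ) < q := by exact_mod_cast hq
  have hDr : (0 : ℝ) < D := by exact_mod_cast hD
  have hPDr : (P : ℝ) * D ≤ N := by exact_mod_cast hPD
  have hDPr : (D : ℝ) ≤ 2 * P := by exact_mod_cast hDP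
  have hqDr : (D : ℝ) ≤ q := by exact_mod_cast hqD
  have hqNr : (q : ℝ) * D ≤ N := by exact_mod_cast hqN
  have hD1r : (1 : ℝ) ≤ D := by exact_mod_cast hD
  have hPN : (P : ℝ) ≤ N := by nlinarith
  have hqN2 : (q : ℝ) ≤ N := by nlinarith
  have hMr : (M : ℝ) ≤ 2 * N / P := by
    rw [hM]
    push_cast
    have h8 : ((N / P : ℕ) : ℝ) ≤ N / P := Nat.cast_div_le
    have h9 : (1 : ℝ) ≤ N / P := by rw [le_div_iff₀ hPr]; linarith
    calc ((N / P : ℕ) : ℝ) + 1 ≤ N / P + N / P := add_le_add h8 h9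
      _ = _ := by ring
  have hlq : 1 + Real.log q ≤ 2 * L := by
    have : Real.log q ≤ L := Real.log_le_log hqr hqN2
    linarith
  have hlq0 : 0 ≤ 1 + Real.log q := by
    have : 0 ≤ Real.log (q : ℝ) := Real.log_nonneg (by exact_mod_cast hq)
    linarith
  -- the main numerical inequality
  have hmain : ((P : ℝ) / q + 1) * (39 * M + 3 * q * (1 + Real.log q)) ≤ 246 * L * N / D := by
    have e1 : 39 * (M : ℝ) + 3 * q * (1 + Real.log q) ≤ 78 * N / P + 6 * q * L := by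
      have e2 : 39 * (M : ℝ) ≤ 78 * N / P := by
        calc 39 * (M : ℝ) ≤ 39 * (2 * N / P) := by linarith
          _ = _ := by ring
      have e3 : 3 * (q : ℝ) * (1 + Real.log q) ≤ 3 * q * (2 * L) :=
        mul_le_mul_of_nonneg_left hlq (by positivity)
      linarith
    have e4 : ((P : ℝ) / q + 1) * (39 * M + 3 * q * (1 + Real.log q)) ≤
        ((P : ℝ) / q + 1) * (78 * N / P + 6 * q * L) :=
      mul_le_mul_of_nonneg_left e1 (by positivity)
    have e5 : ((P : ℝ) / q + 1) * (78 * N / P + 6 * q * L) =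
        78 * (N / q) + 6 * L * P + 78 * (N / P) + 6 * L * q := by
      field_simp
      ring
    have f1 : (N : ℝ) / q ≤ N / D := div_le_div_of_nonneg_left (by positivity) hDr hqDr
    have f2 : (P : ℝ) ≤ N / D := by rw [le_div_iff₀ hDr]; exact hPDr
    have f3 : (N : ℝ) / P ≤ 2 * (N / D) := by
      rw [div_le_iff₀ hPr]
      have : 2 * ((N : ℝ) / D) * P = N * ((2 * P) / D) := by ring
      rw [this]
      have h10 : (1 : ℝ) ≤ (2 * P) / D := by rw [le_div_iff₀ hDr]; linarith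
      nlinarith
    have f4 : (q : ℝ) ≤ N / D := by rw [le_div_iff₀ hDr]; exact hqNr
    have f5 : 0 ≤ (N : ℝ) / D := by positivity
    have f6 : 6 * L * P ≤ 6 * L * (N / D) := mul_le_mul_of_nonneg_left f2 (by positivity)
    have f7 : 6 * L * q ≤ 6 * L * (N / D) := mul_le_mul_of_nonneg_left f4 (by positivity)
    have f8 : (N : ℝ) / D ≤ L * (N / D) := by nlinarith
    calc _ ≤ 78 * ((N : ℝ) / q) + 6 * L * P + 78 * (N / P) + 6 * L * q := by rw [← e5]; exact e4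
      _ ≤ 246 * (L * (N / D)) := by linarith
      _ = _ := by ring
  have hsq : (∑ m ∈ Ico D M, ‖AA N D P α m‖) ^ 2 ≤ (23 * N / L) ^ 2 := by
    calc (∑ m ∈ Ico D M, ‖AA N D P α m‖) ^ 2
        ≤ M * ∑ m ∈ Ico D M, ‖AA N D P α m‖ ^ 2 := hstep2
      _ ≤ (2 * N / P) * (L ^ 2 * (P * (246 * L * N / D))) := by
          apply mul_le_mul hMr _ (sum_nonneg fun _ _ => sq_nonneg _) (by positivity)
          refine hstep3.trans ?_
          apply mul_le_mul_of_nonneg_left _ (sq_nonneg _)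
          exact mul_le_mul_of_nonneg_left hmain hPr.le
      _ = 492 * N ^ 2 * L ^ 3 / D := by field_simp; ring
      _ ≤ 492 * N ^ 2 * L ^ 3 / L ^ 5 :=
          div_le_div_of_nonneg_left (by positivity) (by positivity) hDL
      _ = 492 * (N ^ 2 / L ^ 2) := by field_simp
      _ ≤ 529 * (N ^ 2 / L ^ 2) := by
          have : 0 ≤ (N : ℝ) ^ 2 / L ^ 2 := by positivity
          linarith
      _ = (23 * N / L) ^ 2 := by ring
  exact hstep1.trans (abs_le_of_sq_le_sq' hsq (by positivity)).2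

lemma region3g (g : ℕ → ℝ) (hg : ∀ n, |g n| ≤ 1) {N D : ℕ} (hD : 1 ≤ D) (hN : 1 ≤ Real.log N)
    (hDL : (Real.log N) ^ 5 ≤ D) {q : ℕ} (hqD : D ≤ q) (hqN : q * D ≤ N) {a : ℤ}
    (hcop : IsCoprime a (q : ℤ)) {α : ℝ} (hα : |α - a / q| ≤ 1 / (q : ℝ) ^ 2) :
    ‖∑ x ∈ (QQ N).filter (fun x => D ≤ x.1 ∧ D ≤ x.2), FG g α x‖ ≤ 69 * N := by
  have h1 : ∑ x ∈ (QQ N).filter (fun x => D ≤ x.1 ∧ D ≤ x.2), FG g α x =
      ∑ j ∈ range (Nat.log 2 N + 1), ∑ x ∈ BB N D (2 ^ j), FG g α x := by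
    rw [← sum_fiberwise_of_maps_to (t := range (Nat.log 2 N + 1)) (g := fun x => Nat.log 2 x.1)]
    · refine sum_congr rfl fun j _ => ?_
      apply sum_congr _ (fun _ _ => rfl)
      ext x
      unfold BB
      simp only [mem_filter, mem_QQ]
      constructor
      · rintro ⟨⟨⟨h1, h2, h3⟩, h4⟩, h5⟩
        refine ⟨⟨h1, h2, h3⟩, h4, ?_, ?_⟩
        · rw [← h5]; exact Nat.pow_log_le_self 2 (by omega)
        · rw [← h5, ← pow_succ']; exact Nat.lt_pow_succ_log_self (by norm_num) _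
      · rintro ⟨⟨h1, h2, h3⟩, h4, h5, h6⟩
        refine ⟨⟨⟨h1, h2, h3⟩, h4⟩, ?_⟩
        rw [← pow_succ'] at h6
        exact (Nat.log_eq_iff (Or.inr ⟨by norm_num, by omega⟩)).2 ⟨h5, h6⟩
    · intro x hx
      simp only [mem_filter, mem_QQ] at hx
      rw [mem_range]
      apply Nat.lt_succ_of_le
      apply Nat.log_mono_right
      nlinarith [hx.1.1, hx.1.2.1, hx.1.2.2]
  rw [h1]
  refine (norm_sum_le _ _).trans ?_
  calc ∑ j ∈ range (Nat.log 2 N + 1), ‖∑ x ∈ BB N D (2 ^ j), FG g α x‖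
      ≤ ∑ j ∈ range (Nat.log 2 N + 1), 23 * N / Real.log N :=
        sum_le_sum fun j _ => block_boundg g hg Nat.one_le_two_pow hD hN hDL hqD hqN hcop hα
    _ = ((Nat.log 2 N + 1 : ℕ) : ℝ) * (23 * N / Real.log N) := by
        rw [sum_const, card_range, nsmul_eq_mul]
    _ ≤ (3 * Real.log N) * (23 * N / Real.log N) :=
        mul_le_mul_of_nonneg_right (log2_bound hN) (by positivity)
    _ = 69 * N := by
        have : Real.log N ≠ 0 := by linarith
        field_simp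
        ring

/-- the full summand -/
noncomputable def FH (F : ℕ → ℝ) (α : ℝ) (x : ℕ × ℕ) : ℂ :=
  ((Λ x.1 * F (x.1 * x.2) : ℝ) : ℂ) * ee ((x.1 * x.2 : ℕ) * α)

lemma norm_FH_le (F : ℕ → ℝ) (hF : ∀ n, |F n| ≤ 1) (α : ℝ) (x : ℕ × ℕ) : ‖FH F α x‖ ≤ Λ x.1 := by
  unfold FH
  rw [norm_mul, norm_ee, mul_one, Complex.norm_real, Real.norm_eq_abs, abs_mul,
    abs_of_nonneg ArithmeticFunction.vonMangoldt_nonneg]
  exact mul_le_of_le_one_right ArithmeticFunction.vonMangoldt_nonneg (hF _)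

lemma T_eqF (F : ℕ → ℝ) (N : ℕ) (α : ℝ) :
    ∑ n ∈ range N, ((F n * Real.log n : ℝ) : ℂ) * ee (n * α) = ∑ x ∈ QQ N, FH F α x := by
  rw [← sum_QQ]
  refine sum_congr rfl fun n _ => ?_
  have h0 : Real.log n = ∑ x ∈ n.divisorsAntidiagonal, Λ x.1 := by
    rw [Nat.sum_divisorsAntidiagonal (fun i _ => Λ i), ArithmeticFunction.vonMangoldt_sum]
  rw [h0]
  push_cast
  rw [mul_sum, sum_mul]
  refine sum_congr rfl fun x hx => ?_
  have h1 := (Nat.mem_divisorsAntidiagonal.1 hx).1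
  unfold FH
  rw [h1]
  push_cast
  ring

/-- the higher prime powers -/
lemma nonprime_bound : ∃ C : ℝ, 0 ≤ C ∧ ∀ N : ℕ, ∑ x ∈ (QQ N).filter (fun x => ¬ x.1.Prime), Λ x.1 ≤ C * N := by
  obtain ⟨C1, h1⟩ := Chebyshev.psi_sub_theta_le_mul_sqrt
  refine ⟨2 * |C1|, by positivity, fun N => ?_⟩
  have h2 : (QQ N).filter (fun x => ¬ x.1.Prime) ⊆
      ((Icc 1 N).sigma (fun d => (Icc 1 (N / d)).filter (fun k => ¬ k.Prime))).image (fun x => ((x.2, x.1) : ℕ × ℕ)) := by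
    intro x hx
    simp only [mem_filter, mem_QQ] at hx
    obtain ⟨⟨h1, h2, h3⟩, h4⟩ := hx
    simp only [mem_image, mem_sigma, mem_Icc, mem_filter]
    refine ⟨⟨x.2, x.1⟩, ⟨⟨h2, ?_⟩, ⟨h1, ?_⟩, h4⟩, rfl⟩
    · nlinarith
    · exact (Nat.le_div_iff_mul_le (Nat.lt_of_lt_of_le Nat.zero_lt_one h2)).2 h3.le
  calc ∑ x ∈ (QQ N).filter (fun x => ¬ x.1.Prime), Λ x.1
      ≤ ∑ x ∈ ((Icc 1 N).sigma (fun d => (Icc 1 (N / d)).filter (fun k => ¬ k.Prime))).image
          (fun x => ((x.2, x.1) : ℕ × ℕ)), Λ x.1 :=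
        sum_le_sum_of_subset_of_nonneg h2 (fun _ _ _ => ArithmeticFunction.vonMangoldt_nonneg)
    _ = ∑ x ∈ (Icc 1 N).sigma (fun d => (Icc 1 (N / d)).filter (fun k => ¬ k.Prime)), Λ x.2 := by
        rw [sum_image]
        rintro ⟨a, b⟩ _ ⟨c, d⟩ _ h
        simp only [Prod.mk.injEq] at h
        obtain ⟨rfl, rfl⟩ := h
        rfl
    _ = ∑ m ∈ Icc 1 N, ∑ d ∈ (Icc 1 (N / m)).filter (fun k => ¬ k.Prime), Λ d := by rw [sum_sigma]
    _ ≤ ∑ m ∈ Icc 1 N, |C1| * (√(N : ℝ) * (1 / √(m : ℝ))) := by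
        refine sum_le_sum fun m hm => ?_
        rcases Nat.eq_zero_or_pos (N / m) with h0 | h0
        · rw [h0]; simp
          positivity
        have h3 := h1 ((N / m : ℕ) : ℝ)
        rw [Chebyshev.psi_sub_theta_eq_sum_not_prime, Nat.floor_natCast] at h3
        have h4 : Ioc 0 (N / m) = Icc 1 (N / m) := by ext k; simp only [mem_Ioc, mem_Icc]; omega
        rw [h4] at h3
        refine h3.trans ?_
        have h5 : √(((N / m : ℕ) : ℝ)) ≤ √(N : ℝ) * (1 / √(m : ℝ)) := by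
          rw [mul_one_div, ← Real.sqrt_div (Nat.cast_nonneg _)]
          exact Real.sqrt_le_sqrt Nat.cast_div_le
        calc C1 * √(((N / m : ℕ) : ℝ)) ≤ |C1| * √(((N / m : ℕ) : ℝ)) := by
              gcongr; exact le_abs_self _
          _ ≤ _ := by gcongr
    _ ≤ _ := by
        rw [← mul_sum, ← mul_sum]
        have h6 : ∀ M : ℕ, ∑ m ∈ Icc 1 M, (1 / √(m : ℝ)) ≤ 2 * √(M : ℝ) := by
          intro M
          induction M with
          | zero => simp
          | succ M ih =>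
            rw [sum_Icc_succ_top (by omega)]
            have h7 : 1 / √((M + 1 : ℕ) : ℝ) ≤ 2 * (√((M + 1 : ℕ) : ℝ) - √(M : ℝ)) := by
              have e1 : (0 : ℝ) < √((M + 1 : ℕ) : ℝ) := Real.sqrt_pos.2 (by positivity)
              have e2 : √((M + 1 : ℕ) : ℝ) * √((M + 1 : ℕ) : ℝ) = M + 1 := by
                rw [Real.mul_self_sqrt (by positivity)]; push_cast; rfl
              have e3 : √(M : ℝ) * √(M : ℝ) = M := Real.mul_self_sqrt (Nat.cast_nonneg _)
              rw [div_le_iff₀ e1]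
              nlinarith [sq_nonneg (√((M + 1 : ℕ) : ℝ) - √(M : ℝ))]
            linarith
        calc |C1| * (√(N : ℝ) * ∑ m ∈ Icc 1 N, (1 / √(m : ℝ))) ≤ |C1| * (√(N : ℝ) * (2 * √(N : ℝ))) := by
              gcongr; exact h6 N
          _ = 2 * |C1| * (√(N : ℝ) * √(N : ℝ)) := by ring
          _ = _ := by rw [Real.mul_self_sqrt (Nat.cast_nonneg _)]

/-- the logarithmic identity: only two large factors matter -/
theorem logstep : ∃ C : ℝ, 0 < C ∧ ∀ (N D : ℕ), 1 ≤ D → 1 ≤ Real.log N → ∀ F a : ℕ → ℝ, (∀ n, |F n| ≤ 1) → (∀ n, |a n| ≤ 1) →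
    (∀ p m : ℕ, p.Prime → D ≤ p → 1 ≤ m → F (p * m) = a m) → ∀ α : ℝ,
    ‖∑ n ∈ range N, (F n : ℂ) * ee (n * α)‖ * Real.log N ≤
      C * N * (1 + Real.log D) ^ 2 + ‖∑ x ∈ (QQ N).filter (fun x => D ≤ x.1 ∧ D ≤ x.2), FG a α x‖ := by
  obtain ⟨C, hC, hnp⟩ := nonprime_bound
  refine ⟨8 + 2 * C, by positivity, fun N D hD hN F a hF ha hFa α => ?_⟩
  have hN0 : 0 < Real.log N := by linarith
  have hD0 : 0 ≤ Real.log (D : ℝ) := Real.log_nonneg (by exact_mod_cast hD)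
  -- replace log n by log N
  have h1 : (∑ n ∈ range N, (F n : ℂ) * ee (n * α)) * (Real.log N : ℂ) =
      ∑ n ∈ range N, ((F n * Real.log n : ℝ) : ℂ) * ee (n * α) +
      (∑ n ∈ range N, ((F n * (if n = 0 then 0 else Real.log N - Real.log n) : ℝ) : ℂ) *
        ee (n * α) + ((if N = 0 then 0 else F 0 * Real.log N : ℝ) : ℂ)) := by
    have hN1 : N ≠ 0 := by rintro rfl; simp at hN; linarith
    rw [if_neg hN1]
    have e1 : ((F 0 * Real.log N : ℝ) : ℂ) = ∑ n ∈ range N, (if n = 0 then ((F 0 * Real.log N : ℝ) : ℂ) else 0) := by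
      rw [sum_ite_eq' (range N) 0, if_pos (mem_range.2 (Nat.pos_of_ne_zero hN1))]
    rw [e1, sum_mul, ← sum_add_distrib, ← sum_add_distrib]
    refine sum_congr rfl fun n _ => ?_
    by_cases h : n = 0
    · subst h; simp [ee_zero]
    · rw [if_neg h, if_neg h]; push_cast; ring
  have h2 : ‖∑ n ∈ range N, (F n : ℂ) * ee (n * α)‖ * Real.log N =
      ‖(∑ n ∈ range N, (F n : ℂ) * ee (n * α)) * (Real.log N : ℂ)‖ := by
    rw [norm_mul, Complex.norm_real, Real.norm_of_nonneg hN0.le]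
  rw [h2, h1, T_eqF]
  have h4 : ‖∑ n ∈ range N, ((F n * (if n = 0 then 0 else Real.log N - Real.log n) : ℝ) : ℂ) *
        ee (n * α)‖ ≤ N := by
    refine (norm_sum_le _ _).trans (le_trans (sum_le_sum fun n hn => ?_) (log_sum N))
    rw [norm_mul, norm_ee, mul_one, Complex.norm_real, Real.norm_eq_abs, abs_mul]
    have h5 : 0 ≤ (if n = 0 then 0 else Real.log N - Real.log n) := by
      split_ifs with h
      · exact le_rfl
      · have := mem_range.1 hn
        have h6 : Real.log n ≤ Real.log N := Real.log_le_log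
          (by exact_mod_cast Nat.pos_of_ne_zero h) (by exact_mod_cast this.le)
        linarith
    rw [abs_of_nonneg h5]
    exact mul_le_of_le_one_left h5 (hF n)
  have h4' : ‖((if N = 0 then 0 else F 0 * Real.log N : ℝ) : ℂ)‖ ≤ N := by
    split_ifs with h0
    · simp
    · rw [Complex.norm_real, Real.norm_eq_abs, abs_mul, abs_of_pos hN0]
      have e2 : Real.log N ≤ N := by
        have := Real.log_le_sub_one_of_pos (x := (N : ℝ)) (by positivity)
        linarith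
      exact (mul_le_of_le_one_left hN0.le (hF 0)).trans e2
  -- the three regions
  have h5 : ∑ x ∈ QQ N, FH F α x = ∑ x ∈ (QQ N).filter (fun x => x.1 < D), FH F α x +
      (∑ x ∈ ((QQ N).filter (fun x => ¬ x.1 < D)).filter (fun x => x.2 < D), FH F α x +
       ∑ x ∈ ((QQ N).filter (fun x => ¬ x.1 < D)).filter (fun x => ¬ x.2 < D), FH F α x) := by
    rw [sum_filter_add_sum_filter_not, sum_filter_add_sum_filter_not]
  have h6 : ((QQ N).filter (fun x => ¬ x.1 < D)).filter (fun x => ¬ x.2 < D) =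
      (QQ N).filter (fun x => D ≤ x.1 ∧ D ≤ x.2) := by
    rw [filter_filter]
    simp only [not_lt]
  have h7 : ‖∑ x ∈ (QQ N).filter (fun x => x.1 < D), FH F α x‖ ≤
      N * (Real.log D * (1 + Real.log D)) := by
    refine (norm_sum_le _ _).trans ((sum_le_sum fun x _ => norm_FH_le F hF α x).trans ?_)
    exact region1 N D hD
  have h8 : ‖∑ x ∈ ((QQ N).filter (fun x => ¬ x.1 < D)).filter (fun x => x.2 < D), FH F α x‖ ≤
      N * (6 * (1 + Real.log D)) := by
    refine (norm_sum_le _ _).trans ((sum_le_sum fun x _ => norm_FH_le F hF α x).trans ?_)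
    refine le_trans ?_ (region2 N D)
    apply sum_le_sum_of_subset_of_nonneg
    · intro x hx
      simp only [mem_filter] at hx ⊢
      exact ⟨hx.1.1, hx.2⟩
    · exact fun _ _ _ => ArithmeticFunction.vonMangoldt_nonneg
  have h9 : ‖∑ x ∈ (QQ N).filter (fun x => D ≤ x.1 ∧ D ≤ x.2), FH F α x‖ ≤
      2 * (C * N) + ‖∑ x ∈ (QQ N).filter (fun x => D ≤ x.1 ∧ D ≤ x.2), FG a α x‖ := by
    have e3 : ‖∑ x ∈ (QQ N).filter (fun x => D ≤ x.1 ∧ D ≤ x.2), (FH F α x - FG a α x)‖ ≤ 2 * (C * N) := by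
      refine (norm_sum_le _ _).trans ?_
      calc ∑ x ∈ (QQ N).filter (fun x => D ≤ x.1 ∧ D ≤ x.2), ‖FH F α x - FG a α x‖
          ≤ ∑ x ∈ (QQ N).filter (fun x => D ≤ x.1 ∧ D ≤ x.2), (if ¬ x.1.Prime then 2 * Λ x.1 else 0) := by
            apply sum_le_sum
            intro x hx
            rw [mem_filter, mem_QQ] at hx
            by_cases hp : x.1.Prime
            · rw [if_neg (not_not.2 hp)]
              apply le_of_eq
              unfold FH FG
              rw [hFa x.1 x.2 hp hx.2.1 hx.1.2.1, sub_self, norm_zero]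
            · rw [if_pos hp]
              refine (norm_sub_le _ _).trans ?_
              have := norm_FH_le F hF α x
              have := norm_FG_le a ha α x
              linarith
        _ ≤ ∑ x ∈ QQ N, (if ¬ x.1.Prime then 2 * Λ x.1 else 0) := by
            apply sum_le_sum_of_subset_of_nonneg (filter_subset _ _)
            intro x _ _
            have := ArithmeticFunction.vonMangoldt_nonneg (n := x.1)
            split_ifs <;> linarith
        _ = 2 * ∑ x ∈ (QQ N).filter (fun x => ¬ x.1.Prime), Λ x.1 := by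
            rw [← sum_filter, mul_sum]
        _ ≤ _ := by
            have := hnp N
            linarith
    rw [sum_sub_distrib] at e3
    have e4 := norm_sub_norm_le (∑ x ∈ (QQ N).filter (fun x => D ≤ x.1 ∧ D ≤ x.2), FH F α x)
      (∑ x ∈ (QQ N).filter (fun x => D ≤ x.1 ∧ D ≤ x.2), FG a α x)
    linarith
  rw [h5, h6]
  set Z := ‖∑ x ∈ (QQ N).filter (fun x => D ≤ x.1 ∧ D ≤ x.2), FG a α x‖ with hZ
  have hNr : (0 : ℝ) ≤ N := Nat.cast_nonneg _
  calc _ ≤ (N * (Real.log D * (1 + Real.log D)) + (N * (6 * (1 + Real.log D)) + (2 * (C * N) + Z))) + (N + N) :=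
        (norm_add_le _ _).trans (add_le_add ((norm_add_le _ _).trans (add_le_add h7 ((norm_add_le _ _).trans (add_le_add h8 h9))))
          ((norm_add_le _ _).trans (add_le_add h4 h4')))
    _ ≤ _ := by
        have e5 : Real.log D * (1 + Real.log D) + 6 * (1 + Real.log D) + 2 * C + 2 ≤
            (8 + 2 * C) * (1 + Real.log D) ^ 2 := by
          have k1 := mul_nonneg hC hD0
          have k2 := mul_nonneg hC (sq_nonneg (Real.log (D : ℝ)))
          nlinarith [sq_nonneg (Real.log (D : ℝ))]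
        nlinarith

/-- the minor arcs -/
theorem minor : ∃ C : ℝ, 0 < C ∧ ∀ (N D : ℕ), 1 ≤ D → 1 ≤ Real.log N → (Real.log N) ^ 5 ≤ D → ∀ F a : ℕ → ℝ,
    (∀ n, |F n| ≤ 1) → (∀ n, |a n| ≤ 1) → (∀ p m : ℕ, p.Prime → D ≤ p → 1 ≤ m → F (p * m) = a m) →
    ∀ q : ℕ, D ≤ q → q * D ≤ N → ∀ b : ℤ, IsCoprime b (q : ℤ) → ∀ α : ℝ, |α - b / q| ≤ 1 / (q : ℝ) ^ 2 →
    ‖∑ n ∈ range N, (F n : ℂ) * ee (n * α)‖ * Real.log N ≤ C * N * (1 + Real.log D) ^ 2 := by
  obtain ⟨C, hC, h⟩ := logstep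
  refine ⟨C + 69, by positivity, fun N D hD hN hDL F a hF ha hFa q hq hqN b hb α hα => ?_⟩
  have h1 := h N D hD hN F a hF ha hFa α
  have h2 := region3g a ha hD hN hDL hq hqN hb hα
  have hD0 : 0 ≤ Real.log (D : ℝ) := Real.log_nonneg (by exact_mod_cast hD)
  have h3 : (1 : ℝ) ≤ (1 + Real.log D) ^ 2 := by nlinarith
  have h4 : (0 : ℝ) ≤ N := Nat.cast_nonneg _
  nlinarith

end Pool.Agent.TH445.OI
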