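import Mathlib
import Pool.Agent.H807R2.Dav5
import Pool.Agent.H442R2.EHI.PntErr
import Pool.Agent.H343R2.EH.Primes
import Pool.Agent.H343R2.EH.Psi

set_option autoImplicit false

/-! Siegel-Walfisz for exponential sums with the von Mangoldt function at rational points. -/

open Finset

open scoped ArithmeticFunction.vonMangoldt

namespace Pool.Agent.TH445.OI

open Pool.Agent.H807R2.Dav

lemma evN (P : ℝ → Prop) (h : ∀ᶠ x : ℝ in Filter.atTop, P x) : ∃ N₀ : ℕ, ∀ N : ℕ, N₀ ≤ N → P N := by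
  obtain ⟨x0, hx0⟩ := Filter.eventually_atTop.1 h
  exact ⟨⌈x0⌉₊, fun N hN => hx0 N ((Nat.le_ceil _).trans (by exact_mod_cast hN))⟩

lemma ev_pow (k : ℕ) (c : ℝ) (s : ℝ) (hs : 0 < s) : ∀ᶠ x : ℝ in Filter.atTop, c * Real.log x ^ k ≤ x ^ s := by
  have h1 : (fun x : ℝ => Real.log x ^ (k : ℝ)) =o[Filter.atTop] fun x : ℝ => x ^ s :=
    isLittleO_log_rpow_rpow_atTop (k : ℝ) hs
  have h3 := (h1.const_mul_left c).def (c := 1) one_pos
  filter_upwards [h3, Filter.eventually_ge_atTop (1 : ℝ)] with x hx hx1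
  rw [one_mul, Real.norm_of_nonneg (Real.rpow_nonneg (by linarith) _), Real.rpow_natCast] at hx
  exact (le_abs_self _).trans hx

/-- Siegel-Walfisz for `ψ(y; q, c)` -/
lemma sw_psi (U K : ℕ) : ∃ y0 : ℕ, ∀ y : ℕ, y0 ≤ y → ∀ q : ℕ, 1 ≤ q → (q : ℝ) ≤ Real.log y ^ K →
    ∀ c : ℕ, c < q → c.Coprime q →
    |H343E.psiAP y q c - H343E.psi1 y / (Nat.totient q : ℝ)| ≤ y / Real.log y ^ U := by
  obtain ⟨B, X0, h0⟩ := H343E.unsmoothed U
  obtain ⟨x1, h1⟩ := evN _ (ev_pow (2 * K + B) 1 1 one_pos)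
  obtain ⟨x2, h2⟩ := evN _ (Real.tendsto_log_atTop.eventually_ge_atTop 1)
  refine ⟨max (max ⌈X0⌉₊ x1) (max x2 1), fun y hy q hq hqy c hc hcop => ?_⟩
  have hy0 : X0 ≤ y := (Nat.le_ceil _).trans (by exact_mod_cast le_trans (le_trans (le_max_left _ _) (le_max_left _ _)) hy)
  have hy1 : x1 ≤ y := le_trans (le_trans (le_max_right _ _) (le_max_left _ _)) hy
  have hy2 : x2 ≤ y := le_trans (le_trans (le_max_left _ _) (le_max_right _ _)) hy
  have hy3 : 1 ≤ y := le_trans (le_trans (le_max_right _ _) (le_max_right _ _)) hy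
  have hyR : (1 : ℝ) ≤ y := by exact_mod_cast hy3
  have hL := h2 y hy2
  have hL0 : 0 < Real.log y := by linarith
  have hA := h1 y hy1
  rw [one_mul, pow_add, pow_mul', Real.rpow_one] at hA
  have hq1 : (1 : ℝ) ≤ q := by exact_mod_cast hq
  have hD2 : (q : ℝ) ^ 2 ≤ 1 * y / Real.log y ^ B := by
    rw [le_div_iff₀ (by positivity), one_mul]
    refine le_trans ?_ hA
    gcongr
  have hD1 : (q : ℝ) ≤ y / Real.log y ^ B := by
    rw [one_mul] at hD2
    refine le_trans ?_ hD2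
    nlinarith
  have h4 := h0 y hy0 1 le_rfl q hD1 hD2 (fun q' => if q' = q then {c} else ∅)
    ⟨fun q' a ha => by
      split_ifs at ha with hh
      · rw [mem_singleton] at ha
        rw [ha, hh]
        exact ⟨hc, hcop⟩
      · simp at ha, fun q' => by
      split_ifs <;> simp⟩
  rw [one_mul] at h4
  refine le_trans ?_ h4
  have h5 := single_le_sum (f := fun q' => ∑ a ∈ (if q' = q then ({c} : Finset ℕ) else ∅),
    |H343E.psiAP y q' a - H343E.psi1 y / (Nat.totient q' : ℝ)|)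
    (s := Icc 1 q) (fun i _ => sum_nonneg (fun _ _ => abs_nonneg _)) (mem_Icc.2 ⟨hq, le_rfl⟩)
  refine le_trans (le_of_eq ?_) h5
  simp

/-- the normalised Ramanujan sum -/
noncomputable def kap (q : ℕ) [NeZero q] (t : ZMod q) : ℂ :=
  (1 / (Nat.totient q : ℂ)) * ∑ u : (ZMod q)ˣ, ZMod.stdAddChar ((u : ZMod q) * t)

lemma norm_sac (q : ℕ) [NeZero q] (t : ZMod q) : ‖(ZMod.stdAddChar t : ℂ)‖ = 1 := by
  rw [ZMod.stdAddChar_apply]
  exact Circle.norm_coe _

lemma kap_norm (q : ℕ) [NeZero q] (t : ZMod q) : ‖kap q t‖ ≤ 1 := by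
  unfold kap
  have hq : 0 < (Nat.totient q : ℝ) := by exact_mod_cast Nat.totient_pos.2 (Nat.pos_of_ne_zero (NeZero.ne q))
  rw [norm_mul]
  have h1 : ‖∑ u : (ZMod q)ˣ, (ZMod.stdAddChar ((u : ZMod q) * t) : ℂ)‖ ≤ Nat.totient q := by
    refine (norm_sum_le _ _).trans ?_
    simp only [norm_sac, sum_const, card_univ, nsmul_eq_mul, mul_one]
    rw [ZMod.card_units_eq_totient]
  have h2 : ‖(1 / (Nat.totient q : ℂ))‖ = 1 / (Nat.totient q : ℝ) := by simp
  rw [h2]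
  calc 1 / (Nat.totient q : ℝ) * _ ≤ 1 / (Nat.totient q : ℝ) * Nat.totient q := by gcongr
    _ = 1 := by field_simp

lemma kap_unit (q : ℕ) [NeZero q] (t : ZMod q) (u0 : (ZMod q)ˣ) : kap q (t * u0) = kap q t := by
  unfold kap
  congr 1
  apply Fintype.sum_equiv (Equiv.mulRight u0)
  intro u
  simp only [Equiv.coe_mulRight, Units.val_mul]
  congr 1
  ring

lemma ee_sac (q : ℕ) [NeZero q] (n : ℕ) (b : ℤ) (x : ℝ) (hx : x = (n : ℝ) * ((b : ℝ) / q)) :
    ee x = ZMod.stdAddChar ((n : ZMod q) * (b : ZMod q)) := by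
  have h1 : (n : ZMod q) * (b : ZMod q) = (((n : ℤ) * b : ℤ) : ZMod q) := by push_cast; rfl
  rw [h1, ZMod.stdAddChar_coe, hx]
  unfold ee
  congr 1
  push_cast
  ring

/-- sums over residue classes -/
noncomputable def th (q : ℕ) (y : ℕ) (r : ZMod q) : ℝ := ∑ n ∈ (Icc 1 y).filter (fun n : ℕ => (n : ZMod q) = r), Λ n

lemma th_nonneg (q y : ℕ) (r : ZMod q) : 0 ≤ th q y r := sum_nonneg fun _ _ => ArithmeticFunction.vonMangoldt_nonneg

lemma th_eq (q : ℕ) [NeZero q] (y : ℕ) (r : ZMod q) : th q y r = H343E.psiAP y q r.val := by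
  unfold th H343E.psiAP
  rw [Nat.floor_natCast]
  apply sum_congr _ (fun _ _ => rfl)
  apply filter_congr
  intro n _
  rw [← ZMod.natCast_eq_natCast_iff, ZMod.natCast_zmod_val]

lemma th_total (q : ℕ) [NeZero q] (y : ℕ) : ∑ r : ZMod q, th q y r = H343E.psi1 y := by
  unfold th H343E.psi1
  rw [Nat.floor_natCast, ← sum_fiberwise (s := Icc 1 y) (g := fun n : ℕ => (n : ZMod q))]

lemma rat_sum (q : ℕ) [NeZero q] (y : ℕ) (t : ZMod q) (E : ℝ)
    (hE : ∀ c : ℕ, c < q → c.Coprime q → |H343E.psiAP y q c - H343E.psi1 y / (Nat.totient q : ℝ)| ≤ E) :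
    ‖∑ d ∈ Icc 1 y, (Λ d : ℂ) * ZMod.stdAddChar ((d : ZMod q) * t) - kap q t * H343E.psi1 y‖ ≤ 2 * q * E := by
  classical
  have hq0 : 0 < q := Nat.pos_of_ne_zero (NeZero.ne q)
  have hφ : (0 : ℝ) < Nat.totient q := by exact_mod_cast Nat.totient_pos.2 hq0
  have hφq : (Nat.totient q : ℝ) ≤ q := by exact_mod_cast Nat.totient_le q
  have hE' : ∀ u : (ZMod q)ˣ, |th q y (u : ZMod q) - H343E.psi1 y / (Nat.totient q : ℝ)| ≤ E := by
    intro u
    rw [th_eq]
    exact hE _ (ZMod.val_lt _) (ZMod.val_coe_unit_coprime u)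
  have hE0 : 0 ≤ E := (abs_nonneg _).trans (hE' 1)
  have h1 : ∑ d ∈ Icc 1 y, (Λ d : ℂ) * ZMod.stdAddChar ((d : ZMod q) * t) =
      ∑ r : ZMod q, (th q y r : ℂ) * ZMod.stdAddChar (r * t) := by
    rw [← sum_fiberwise (s := Icc 1 y) (g := fun n : ℕ => (n : ZMod q))]
    apply sum_congr rfl
    intro r _
    unfold th
    push_cast
    rw [sum_mul]
    refine sum_congr rfl fun n hn => ?_
    rw [(mem_filter.1 hn).2]
  -- split into units and non-units
  have hsplit : ∀ f : ZMod q → ℂ, ∑ r : ZMod q, f r = ∑ u : (ZMod q)ˣ, f u + ∑ r ∈ univ.filter (fun r : ZMod q => ¬ IsUnit r), f r := by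
    intro f
    rw [← sum_filter_add_sum_filter_not univ (fun r : ZMod q => IsUnit r)]
    congr 1
    symm
    apply sum_bij (fun (u : (ZMod q)ˣ) (_ : u ∈ univ) => (u : ZMod q))
    · intro u _
      exact mem_filter.2 ⟨mem_univ _, u.isUnit⟩
    · intro u _ v _ h
      exact Units.ext h
    · intro r hr
      obtain ⟨u, hu⟩ := (mem_filter.1 hr).2
      exact ⟨u, mem_univ _, hu⟩
    · intro u _
      rfl
  have hnon : ∑ r ∈ univ.filter (fun r : ZMod q => ¬ IsUnit r), th q y r ≤ q * E := by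
    have e1 : ((∑ r : ZMod q, th q y r : ℝ) : ℂ) = ((∑ u : (ZMod q)ˣ, th q y u : ℝ) : ℂ) + ((∑ r ∈ univ.filter (fun r : ZMod q => ¬ IsUnit r), th q y r : ℝ) : ℂ) := by
      push_cast
      exact hsplit (fun r => (th q y r : ℂ))
    have e2 : ∑ r : ZMod q, th q y r = ∑ u : (ZMod q)ˣ, th q y u + ∑ r ∈ univ.filter (fun r : ZMod q => ¬ IsUnit r), th q y r := by
      exact_mod_cast e1
    rw [th_total] at e2
    have e3 : (Nat.totient q : ℝ) * (H343E.psi1 y / (Nat.totient q : ℝ)) - ∑ u : (ZMod q)ˣ, th q y u ≤ Nat.totient q * E := by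
      have : (Nat.totient q : ℝ) * (H343E.psi1 y / (Nat.totient q : ℝ)) = ∑ u : (ZMod q)ˣ, H343E.psi1 y / (Nat.totient q : ℝ) := by
        rw [sum_const, card_univ, ZMod.card_units_eq_totient, nsmul_eq_mul]
      rw [this, ← sum_sub_distrib]
      calc ∑ u : (ZMod q)ˣ, (H343E.psi1 y / (Nat.totient q : ℝ) - th q y u) ≤ ∑ u : (ZMod q)ˣ, E := by
            apply sum_le_sum
            intro u _
            have := (abs_le.1 (hE' u)).1
            linarith
        _ = _ := by rw [sum_const, card_univ, ZMod.card_units_eq_totient, nsmul_eq_mul]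
    rw [mul_div_cancel₀ _ hφ.ne'] at e3
    nlinarith
  rw [h1, hsplit]
  have h2 : kap q t * (H343E.psi1 y : ℂ) = ∑ u : (ZMod q)ˣ, ((H343E.psi1 y / (Nat.totient q : ℝ) : ℝ) : ℂ) * ZMod.stdAddChar ((u : ZMod q) * t) := by
    unfold kap
    rw [← mul_sum]
    push_cast
    ring
  rw [h2, add_sub_right_comm, ← sum_sub_distrib]
  refine (norm_add_le _ _).trans ?_
  have h3 : ‖∑ u : (ZMod q)ˣ, ((th q y u : ℂ) * ZMod.stdAddChar ((u : ZMod q) * t) -
      ((H343E.psi1 y / (Nat.totient q : ℝ) : ℝ) : ℂ) * ZMod.stdAddChar ((u : ZMod q) * t))‖ ≤ q * E := by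
    refine (norm_sum_le _ _).trans ?_
    calc _ ≤ ∑ u : (ZMod q)ˣ, E := by
          apply sum_le_sum
          intro u _
          rw [← sub_mul, norm_mul, norm_sac, mul_one, ← Complex.ofReal_sub, Complex.norm_real]
          exact hE' u
      _ ≤ _ := by
          rw [sum_const, card_univ, ZMod.card_units_eq_totient, nsmul_eq_mul]
          gcongr
  have h4 : ‖∑ r ∈ univ.filter (fun r : ZMod q => ¬ IsUnit r), (th q y r : ℂ) * ZMod.stdAddChar (r * t)‖ ≤ q * E := by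
    refine (norm_sum_le _ _).trans (le_trans (le_of_eq ?_) hnon)
    apply sum_congr rfl
    intro r _
    rw [norm_mul, norm_sac, mul_one, Complex.norm_real, Real.norm_of_nonneg (th_nonneg _ _ _)]
  linarith

lemma psi1_eq (y : ℕ) : H343E.psi1 y = Chebyshev.psi (y : ℝ) := by
  unfold H343E.psi1
  rw [Chebyshev.psi, Nat.floor_natCast]
  apply sum_congr _ (fun _ _ => rfl)
  ext k; simp only [mem_Ioc, mem_Icc]; omega

/-- Siegel-Walfisz for exponential sums at rational points -/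
theorem sw_rat (U K : ℕ) : ∃ y0 : ℕ, ∀ y : ℕ, y0 ≤ y → ∀ (q : ℕ) [NeZero q], (q : ℝ) ≤ Real.log y ^ K → ∀ t : ZMod q,
    ‖∑ d ∈ range y, ((Λ d : ℂ) * ZMod.stdAddChar ((d : ZMod q) * t) - kap q t)‖ ≤ y / Real.log y ^ U := by
  obtain ⟨y1, h1⟩ := sw_psi (U + K + 1) K
  obtain ⟨C, hC, y2, h2⟩ := Pool.Agent.H442R2.EHI.PntErrAux.largeU (U + 1)
  obtain ⟨y3, h3⟩ := evN _ (ev_pow (U + 1) 12 (1 / 2) (by norm_num))
  obtain ⟨y4, h4⟩ := evN _ (Real.tendsto_log_atTop.eventually_ge_atTop (4 * C + 8))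
  refine ⟨max (max y1 y2) (max (max y3 y4) 1), fun y hy q _ hq t => ?_⟩
  have hy1 : y1 ≤ y := by omega
  have hy2 : y2 ≤ y := by omega
  have hy3 : y3 ≤ y := by omega
  have hy4 : y4 ≤ y := by omega
  have hy5 : 1 ≤ y := by omega
  have hyR : (1 : ℝ) ≤ y := by exact_mod_cast hy5
  set l := Real.log y with hl
  have g4 : 4 * C + 8 ≤ l := h4 y hy4
  have g3 := h3 y hy3
  rw [← Real.sqrt_eq_rpow] at g3
  have hl1 : 1 ≤ l := by linarith
  have hl0 : 0 < l := by linarith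
  have a1 := rat_sum q y t _ (fun c hc hcop => h1 y hy1 q (Nat.pos_of_ne_zero (NeZero.ne q)) hq c hc hcop)
  have a2 := h2 y hy2
  -- pass to range y
  have hΛ : Λ y ≤ l := ArithmeticFunction.vonMangoldt_le_log
  have e1 : ∑ d ∈ range y, (Λ d : ℂ) * ZMod.stdAddChar ((d : ZMod q) * t) =
      ∑ d ∈ Icc 1 y, (Λ d : ℂ) * ZMod.stdAddChar ((d : ZMod q) * t) - (Λ y : ℂ) * ZMod.stdAddChar ((y : ZMod q) * t) := by
    have e2 : ∑ d ∈ Icc 1 y, (Λ d : ℂ) * ZMod.stdAddChar ((d : ZMod q) * t) = ∑ d ∈ range (y + 1), (Λ d : ℂ) * ZMod.stdAddChar ((d : ZMod q) * t) := by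
      apply sum_subset
      · intro d hd; rw [mem_Icc] at hd; rw [mem_range]; omega
      · intro d hd hd2
        have : d = 0 := by
          rw [mem_range] at hd; rw [mem_Icc] at hd2; omega
        subst this
        simp
    rw [e2, sum_range_succ]; ring
  rw [sum_sub_distrib, e1, sum_const, card_range, nsmul_eq_mul]
  have e3 : ∑ d ∈ Icc 1 y, (Λ d : ℂ) * ZMod.stdAddChar ((d : ZMod q) * t) - (Λ y : ℂ) * ZMod.stdAddChar ((y : ZMod q) * t) - (y : ℂ) * kap q t =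
      (∑ d ∈ Icc 1 y, (Λ d : ℂ) * ZMod.stdAddChar ((d : ZMod q) * t) - kap q t * H343E.psi1 y) +
      (kap q t * ((H343E.psi1 y - y : ℝ) : ℂ) - (Λ y : ℂ) * ZMod.stdAddChar ((y : ZMod q) * t)) := by
    push_cast; ring
  rw [e3]
  have e4 : ‖kap q t * ((H343E.psi1 y - y : ℝ) : ℂ)‖ ≤ C * (y / l ^ (U + 1)) + 2 := by
    rw [norm_mul, Complex.norm_real, psi1_eq]
    calc _ ≤ 1 * ‖Chebyshev.psi (y : ℝ) - y‖ := by gcongr; exact kap_norm q t
      _ ≤ _ := by rw [one_mul]; exact a2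
  have e5 : ‖(Λ y : ℂ) * ZMod.stdAddChar ((y : ZMod q) * t)‖ ≤ l := by
    rw [norm_mul, norm_sac, mul_one, Complex.norm_real, Real.norm_of_nonneg ArithmeticFunction.vonMangoldt_nonneg]
    exact hΛ
  have hsq : √(y : ℝ) * √(y : ℝ) = y := Real.mul_self_sqrt (by linarith)
  have hs1 : 1 ≤ √(y : ℝ) := by rw [Real.one_le_sqrt]; exact hyR
  -- final numerics
  have f1 : 2 * (q : ℝ) * (y / l ^ (U + K + 1)) ≤ (1 / 4) * (y / l ^ U) := by
    have : y / l ^ (U + K + 1) = (y / l ^ U) * (1 / (l ^ K * l)) := by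
      rw [show U + K + 1 = U + (K + 1) by ring, pow_add, pow_succ]; field_simp
    rw [this]
    have h8 : 2 * (q : ℝ) * (1 / (l ^ K * l)) ≤ 1 / 4 := by
      calc 2 * (q : ℝ) * (1 / (l ^ K * l)) ≤ 2 * (l ^ K) * (1 / (l ^ K * l)) := by gcongr
        _ = 2 / l := by field_simp
        _ ≤ 1 / 4 := by rw [div_le_iff₀ hl0]; linarith
    calc 2 * (q : ℝ) * ((y / l ^ U) * (1 / (l ^ K * l))) = (2 * (q : ℝ) * (1 / (l ^ K * l))) * (y / l ^ U) := by ring
      _ ≤ _ := by gcongr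
  have f2 : C * (y / l ^ (U + 1)) ≤ (1 / 4) * (y / l ^ U) := by
    have : C * (y / l ^ (U + 1)) = (C / l) * (y / l ^ U) := by rw [pow_succ]; field_simp
    rw [this]
    have h9 : C / l ≤ 1 / 4 := by rw [div_le_iff₀ hl0]; linarith
    have h10 : 0 ≤ y / l ^ U := by positivity
    exact mul_le_mul_of_nonneg_right h9 h10
  have f3 : 2 + l ≤ (1 / 4) * (y / l ^ U) := by
    have k1 : 12 * (l ^ U * l) ≤ √(y : ℝ) := by rw [← pow_succ]; exact g3
    have k2 : 2 + l ≤ 3 * l := by linarith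
    refine k2.trans ?_
    rw [← mul_div_assoc, le_div_iff₀ (by positivity)]
    nlinarith
  have f4 : 0 ≤ (1 / 4) * (y / l ^ U) := by positivity
  calc _ ≤ 2 * (q : ℝ) * (y / l ^ (U + K + 1)) + ((C * (y / l ^ (U + 1)) + 2) + l) :=
        (norm_add_le _ _).trans (add_le_add a1 ((norm_sub_le _ _).trans (add_le_add e4 e5)))
    _ ≤ y / l ^ U := by linarith

end Pool.Agent.TH445.OI
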