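import Mathlib
import Pool.Agent.TH445.OI.A2
import Pool.Agent.TH445.OI.A3

set_option autoImplicit false

/-! The major arcs. -/

open Finset

open scoped ArithmeticFunction.vonMangoldt

namespace Pool.Agent.TH445.OI

open Pool.Agent.H807R2.Dav

lemma ev_poly_exp (k : ℕ) (c r s : ℝ) (hs : 0 < s) : ∀ᶠ x : ℝ in Filter.atTop, c * (r * x) ^ k ≤ Real.exp (s * x) := by
  have h1 := (Real.tendsto_pow_mul_exp_neg_atTop_nhds_zero k).comp (Filter.tendsto_id.const_mul_atTop hs)
  have h2 : Filter.Tendsto (fun x : ℝ => (c * r ^ k / s ^ k) * ((s * x) ^ k * Real.exp (-(s * x)))) Filter.atTop (nhds ((c * r ^ k / s ^ k) * 0)) :=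
    Filter.Tendsto.const_mul _ h1
  rw [mul_zero] at h2
  filter_upwards [h2.eventually (gt_mem_nhds one_pos)] with x hx
  have h3 : c * (r * x) ^ k = (c * r ^ k / s ^ k) * ((s * x) ^ k * Real.exp (-(s * x))) * Real.exp (s * x) := by
    rw [Real.exp_neg, mul_pow, mul_pow]
    have := (Real.exp_pos (s * x)).ne'
    field_simp
  rw [h3]
  have := Real.exp_pos (s * x)
  nlinarith

lemma inner (A K : ℕ) : ∃ l0 : ℝ, 1 ≤ l0 ∧ ∀ l : ℝ, l0 ≤ l → ∀ D : ℕ, Real.exp l ≤ D → ∀ P : ℕ, D ≤ P →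
    ∀ (q : ℕ) [NeZero q], (q : ℝ) ≤ l ^ K → ∀ t : ZMod q, ∀ γ : ℝ, |γ| * P ≤ l ^ K →
    ‖∑ d ∈ Ico D P, ((Λ d : ℂ) * ZMod.stdAddChar ((d : ZMod q) * t) - kap q t) * ee (d * γ)‖ ≤ P / l ^ A := by
  set U := K + A + 1 with hU
  obtain ⟨y0, hy0⟩ := sw_rat U (2 * K)
  have e1 : ∀ᶠ l : ℝ in Filter.atTop, (y0 : ℝ) ≤ Real.exp (1 / 4 * l) :=
    (Real.tendsto_exp_atTop.comp (Filter.tendsto_id.const_mul_atTop (by norm_num : (0 : ℝ) < 1 / 4))).eventually_ge_atTop _
  have e2 := ev_poly_exp U 1 (1 / 4) (1 / 2) (by norm_num)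
  have e3 : ∀ᶠ l : ℝ in Filter.atTop, 16 * (16 : ℝ) ^ U ≤ l := Filter.eventually_ge_atTop _
  obtain ⟨l0, hl0⟩ := Filter.eventually_atTop.1 (e1.and (e2.and e3))
  refine ⟨max l0 1, le_max_right _ _, fun l hl D hD P hDP q _ hq t γ hγ => ?_⟩
  obtain ⟨g1, g2, g3⟩ := hl0 l ((le_max_left _ _).trans hl)
  have hl1 : 1 ≤ l := (le_max_right _ _).trans hl
  have hl16 : 16 ≤ l := by
    have : (1 : ℝ) ≤ (16 : ℝ) ^ U := one_le_pow₀ (by norm_num)
    linarith
  have hl00 : 0 < l := by linarith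
  have hD0 : (0 : ℝ) < D := (Real.exp_pos _).trans_le hD
  have hP : (D : ℝ) ≤ P := by exact_mod_cast hDP
  set w : ℕ → ℂ := fun d => (Λ d : ℂ) * ZMod.stdAddChar ((d : ZMod q) * t) - kap q t with hw
  set B : ℝ := P / (l / 4) ^ U with hB
  have hB0 : 0 ≤ B := by positivity
  have hW : ∀ u ≤ P, ‖∑ d ∈ range u, w d‖ ≤ B := by
    intro u hu
    have huP : (u : ℝ) ≤ P := by exact_mod_cast hu
    rcases le_or_gt (Real.exp (1 / 4 * l)) u with h | h
    · have hu0 : y0 ≤ u := by exact_mod_cast g1.trans h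
      have hlog : l / 4 ≤ Real.log u := by
        rw [Real.le_log_iff_exp_le ((Real.exp_pos _).trans_le h)]
        have e9 : l / 4 = 1 / 4 * l := by ring
        rw [e9]
        exact h
      have hq2 : (q : ℝ) ≤ Real.log u ^ (2 * K) := by
        refine hq.trans ?_
        rw [pow_mul]
        apply pow_le_pow_left₀ (by linarith)
        nlinarith
      have := hy0 u hu0 q hq2 t
      refine this.trans ?_
      rw [hB]
      have : 0 < l / 4 := by linarith
      gcongr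
    · have hu1 : ‖∑ d ∈ range u, w d‖ ≤ u * u := by
        refine (norm_sum_le _ _).trans ?_
        calc ∑ d ∈ range u, ‖w d‖ ≤ ∑ d ∈ range u, (u : ℝ) := by
              apply sum_le_sum
              intro d hd
              have hd' := mem_range.1 hd
              rw [hw]
              refine (norm_sub_le _ _).trans ?_
              rw [norm_mul, norm_sac, mul_one, Complex.norm_real, Real.norm_of_nonneg ArithmeticFunction.vonMangoldt_nonneg]
              have h2 : Λ d ≤ (d : ℝ) := by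
                rcases Nat.eq_zero_or_pos d with h0 | h0
                · subst h0; simp
                · have a1 : Λ d ≤ Real.log d := ArithmeticFunction.vonMangoldt_le_log
                  have a2 := Real.log_le_sub_one_of_pos (x := (d : ℝ)) (by exact_mod_cast h0)
                  linarith
              have h3 : (d : ℝ) + 1 ≤ u := by exact_mod_cast hd'
              have := kap_norm q t
              linarith
          _ = u * u := by rw [sum_const, card_range, nsmul_eq_mul]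
      refine hu1.trans ?_
      rw [hB, le_div_iff₀ (by positivity)]
      have h4 : (u : ℝ) * u ≤ Real.exp (1 / 2 * l) := by
        have : Real.exp (1 / 2 * l) = Real.exp (1 / 4 * l) * Real.exp (1 / 4 * l) := by rw [← Real.exp_add]; ring_nf
        rw [this]
        gcongr
      have h5 : (l / 4) ^ U ≤ Real.exp (1 / 2 * l) := by
        have := g2
        rw [one_mul] at this
        have e9 : l / 4 = 1 / 4 * l := by ring
        rw [e9]
        exact this
      calc (u : ℝ) * u * (l / 4) ^ U ≤ Real.exp (1 / 2 * l) * Real.exp (1 / 2 * l) := by gcongr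
        _ = Real.exp l := by rw [← Real.exp_add]; ring_nf
        _ ≤ P := hD.trans hP
  set c : ℕ → ℂ := fun d => if D ≤ d then w d else 0 with hc
  have hc1 : ∀ u ≤ P, ‖∑ d ∈ range u, c d‖ ≤ 2 * B := by
    intro u hu
    rcases le_or_gt D u with h | h
    · have : ∑ d ∈ range u, c d = ∑ d ∈ range u, w d - ∑ d ∈ range D, w d := by
        rw [← sum_range_add_sum_Ico w h, add_sub_cancel_left, ← sum_range_add_sum_Ico c h]
        have z : ∑ d ∈ range D, c d = 0 := by
          apply sum_eq_zero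
          intro d hd
          have := mem_range.1 hd
          rw [hc]; simp only; rw [if_neg (by omega)]
        rw [z, zero_add]
        apply sum_congr rfl
        intro d hd
        rw [hc]; simp only; rw [if_pos (mem_Ico.1 hd).1]
      rw [this]
      refine (norm_sub_le _ _).trans ?_
      have := hW u hu
      have := hW D hDP
      linarith
    · rw [sum_eq_zero]
      · rw [norm_zero]; linarith
      · intro d hd
        have := mem_range.1 hd
        rw [hc]; simp only; rw [if_neg (by omega)]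
  have h6 := abel_bound c γ P hc1
  have h7 : ∑ d ∈ Ico D P, w d * ee (d * γ) = ∑ d ∈ range P, c d * ee (d * γ) := by
    rw [← sum_range_add_sum_Ico _ hDP]
    rw [sum_eq_zero (s := range D), zero_add]
    · apply sum_congr rfl
      intro d hd
      rw [hc]; simp only; rw [if_pos (mem_Ico.1 hd).1]
    · intro d hd
      have := mem_range.1 hd
      rw [hc]; simp only; rw [if_neg (by omega), zero_mul]
  rw [h7]
  refine h6.trans ?_
  have hpi := Real.pi_lt_d2
  have hpi0 := Real.pi_pos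
  have hlK : 1 ≤ l ^ K := one_le_pow₀ hl1
  have h8 : 1 + (P : ℝ) * (2 * Real.pi * |γ|) ≤ 8 * l ^ K := by
    have : (P : ℝ) * (2 * Real.pi * |γ|) = 2 * Real.pi * (|γ| * P) := by ring
    rw [this]
    have : 2 * Real.pi * (|γ| * P) ≤ 7 * l ^ K := by
      apply mul_le_mul (by linarith) hγ (by positivity) (by norm_num)
    linarith
  calc 2 * B * (1 + (P : ℝ) * (2 * Real.pi * |γ|)) ≤ 2 * B * (8 * l ^ K) := by gcongr
    _ = P * (16 * l ^ K / (l / 4) ^ U) := by rw [hB]; ring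
    _ ≤ P * (1 / l ^ A) := by
        apply mul_le_mul_of_nonneg_left _ (Nat.cast_nonneg _)
        rw [div_le_div_iff₀ (by positivity) (by positivity), div_pow, one_mul, hU]
        rw [le_div_iff₀ (by positivity)]
        have h9 : (16 : ℝ) * 4 ^ (K + A + 1) ≤ l := by
          refine le_trans ?_ g3
          gcongr
          norm_num
        calc 16 * l ^ K * l ^ A * 4 ^ (K + A + 1) = (16 * 4 ^ (K + A + 1)) * (l ^ (K + A)) := by rw [pow_add l K A]; ring
          _ ≤ l * l ^ (K + A) := by gcongr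
          _ = l ^ (K + A + 1) := by ring
    _ = _ := by ring

lemma ee_sub (x y : ℝ) : ‖ee x - ee y‖ ≤ 2 * Real.pi * |x - y| := by
  have : ee x - ee y = -(ee y * (1 - ee (x - y))) := by
    rw [mul_sub, ← ee_add, mul_one, show y + (x - y) = x by ring]; ring
  rw [this, norm_neg, norm_mul, norm_ee, one_mul]
  exact dd_le _

lemma geosum (β : ℝ) (m : ℕ) (P : ℕ) :
    ‖(m : ℂ) * ∑ d ∈ range P, ee (d * (m * β)) - ∑ n ∈ range (P * m), ee (n * β)‖ ≤ P * (m * (2 * Real.pi * (m * |β|))) := by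
  induction P with
  | zero => simp
  | succ P ih =>
    have h1 : ∑ n ∈ range ((P + 1) * m), ee (n * β) = ∑ n ∈ range (P * m), ee (n * β) + ∑ i ∈ range m, ee (((P * m + i : ℕ) : ℝ) * β) := by
      rw [Nat.succ_mul, sum_range_add]
    rw [h1, sum_range_succ]
    have h2 : (m : ℂ) * (∑ d ∈ range P, ee (d * (m * β)) + ee (P * (m * β))) - (∑ n ∈ range (P * m), ee (n * β) + ∑ i ∈ range m, ee (((P * m + i : ℕ) : ℝ) * β)) =
      ((m : ℂ) * ∑ d ∈ range P, ee (d * (m * β)) - ∑ n ∈ range (P * m), ee (n * β)) + ∑ i ∈ range m, (ee (P * (m * β)) - ee (((P * m + i : ℕ) : ℝ) * β)) := by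
      rw [sum_sub_distrib, sum_const, card_range, nsmul_eq_mul]; ring
    rw [h2]
    refine (norm_add_le _ _).trans ?_
    have h3 : ‖∑ i ∈ range m, (ee (P * (m * β)) - ee (((P * m + i : ℕ) : ℝ) * β))‖ ≤ m * (2 * Real.pi * (m * |β|)) := by
      refine (norm_sum_le _ _).trans ?_
      calc _ ≤ ∑ i ∈ range m, 2 * Real.pi * (m * |β|) := by
            apply sum_le_sum
            intro i hi
            refine (ee_sub _ _).trans ?_
            have : (P : ℝ) * (m * β) - ((P * m + i : ℕ) : ℝ) * β = -(i * β) := by push_cast; ring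
            rw [this, abs_neg, abs_mul, abs_of_nonneg (Nat.cast_nonneg i)]
            have : (i : ℝ) ≤ m := by exact_mod_cast (mem_range.1 hi).le
            gcongr
        _ = _ := by rw [sum_const, card_range, nsmul_eq_mul]
    have h4 : ((P + 1 : ℕ) : ℝ) * (m * (2 * Real.pi * (m * |β|))) = P * (m * (2 * Real.pi * (m * |β|))) + m * (2 * Real.pi * (m * |β|)) := by
      push_cast; ring
    rw [h4]
    exact add_le_add ih h3

lemma sum_ee_le (S : Finset ℕ) (f : ℕ → ℝ) : ‖∑ n ∈ S, ee (f n)‖ ≤ S.card := by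
  refine (norm_sum_le _ _).trans ?_
  simp [norm_ee]

lemma cmp (β : ℝ) (m N D : ℕ) (hm : 1 ≤ m) (hmN : m < N) (hD : D ≤ (N - 1) / m + 1) (Q : ℝ) (hQ : |β| * N ≤ Q) :
    ‖(m : ℂ) * ∑ d ∈ Ico D ((N - 1) / m + 1), ee (d * (m * β)) - ∑ n ∈ range N, ee (n * β)‖ ≤ m * (13 * Q + 1 + D) := by
  set P := (N - 1) / m + 1 with hP
  have hQ0 : 0 ≤ Q := le_trans (by positivity) hQ
  have hPm1 : N ≤ P * m := by
    have := Nat.div_add_mod (N - 1) m
    have h2 := Nat.mod_lt (N - 1) (by omega : 0 < m)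
    rw [hP, Nat.succ_mul, mul_comm]
    omega
  have hPm2 : P * m ≤ N + m := by
    have := Nat.div_mul_le_self (N - 1) m
    rw [hP, Nat.succ_mul]
    omega
  have h1 := geosum β m P
  have h2 : ∑ n ∈ range (P * m), ee (n * β) = ∑ n ∈ range N, ee (n * β) + ∑ n ∈ Ico N (P * m), ee (n * β) :=
    (sum_range_add_sum_Ico _ hPm1).symm
  have h3 : ‖∑ n ∈ Ico N (P * m), ee ((n : ℝ) * β)‖ ≤ m := by
    refine (sum_ee_le _ _).trans ?_
    rw [Nat.card_Ico]
    exact_mod_cast (by omega : P * m - N ≤ m)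
  have h4 : (m : ℂ) * ∑ d ∈ Ico D P, ee (d * (m * β)) - ∑ n ∈ range N, ee (n * β) =
      ((m : ℂ) * ∑ d ∈ range P, ee (d * (m * β)) - ∑ n ∈ range (P * m), ee (n * β)) +
      (∑ n ∈ Ico N (P * m), ee (n * β) - (m : ℂ) * ∑ d ∈ range D, ee (d * (m * β))) := by
    rw [h2, ← sum_range_add_sum_Ico (fun d : ℕ => ee (d * (m * β))) hD]
    ring
  have h5 : ‖(m : ℂ) * ∑ d ∈ range D, ee ((d : ℝ) * (m * β))‖ ≤ m * D := by
    rw [norm_mul, Complex.norm_natCast]
    have := sum_ee_le (range D) (fun d => (d : ℝ) * (m * β))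
    rw [card_range] at this
    gcongr
  rw [h4]
  have hpi := Real.pi_lt_d2
  have hpi0 := Real.pi_pos
  have h6 : (P : ℝ) * (m * (2 * Real.pi * (m * |β|))) ≤ m * (13 * Q) := by
    have h7 : (P : ℝ) * m ≤ 2 * N := by
      have : ((P * m : ℕ) : ℝ) ≤ ((N + m : ℕ) : ℝ) := by exact_mod_cast hPm2
      push_cast at this
      have h8 : (m : ℝ) ≤ N := by exact_mod_cast hmN.le
      linarith
    calc (P : ℝ) * (m * (2 * Real.pi * (m * |β|))) = m * (2 * Real.pi * (|β| * (P * m))) := by ring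
      _ ≤ m * (2 * Real.pi * (|β| * (2 * N))) := by gcongr
      _ = m * (4 * Real.pi * (|β| * N)) := by ring
      _ ≤ m * (13 * Q) := by
          gcongr
          linarith
  calc _ ≤ (P : ℝ) * (m * (2 * Real.pi * (m * |β|))) + (m + m * D) :=
        (norm_add_le _ _).trans (add_le_add h1 ((norm_sub_le _ _).trans (add_le_add h3 h5)))
    _ ≤ _ := by linarith

lemma tail_inv (a : ℕ) (ha : 1 ≤ a) (b : ℕ) (hb : a ≤ b) : ∑ m ∈ Ico a (b + 1), (1 / (m : ℝ)) ≤ 1 / a + Real.log (b / a) := by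
  have ha0 : (0 : ℝ) < a := by exact_mod_cast ha
  induction b, hb using Nat.le_induction with
  | base => simp [div_self ha0.ne']
  | succ b hb ih =>
    have hb0 : (0 : ℝ) < b := by exact_mod_cast (by omega : 0 < b)
    rw [sum_Ico_succ_top (by omega)]
    have h1 : 1 / ((b + 1 : ℕ) : ℝ) ≤ Real.log (((b + 1 : ℕ) : ℝ) / a) - Real.log (b / a) := by
      rw [← Real.log_div (by positivity) (by positivity)]
      have h2 := Real.one_sub_inv_le_log_of_pos (x := (((b + 1 : ℕ) : ℝ) / a) / (b / a)) (by positivity)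
      have h3 : 1 - ((((b + 1 : ℕ) : ℝ) / a) / (b / a))⁻¹ = 1 / ((b + 1 : ℕ) : ℝ) := by
        push_cast
        field_simp
        ring
      linarith
    linarith

lemma QQ_sum {N D : ℕ} (hD : 1 ≤ D) (f : ℕ × ℕ → ℂ) :
    ∑ x ∈ (QQ N).filter (fun x => D ≤ x.1 ∧ D ≤ x.2), f x =
      ∑ m ∈ Ico D ((N - 1) / D + 1), ∑ d ∈ Ico D ((N - 1) / m + 1), f (d, m) := by
  rw [sum_sigma']
  apply sum_nbij' (fun x => (⟨x.2, x.1⟩ : Σ _ : ℕ, ℕ)) (fun y => (y.2, y.1))
  · intro x hx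
    rw [mem_filter, mem_QQ] at hx
    obtain ⟨⟨h1, h2, h3⟩, h4, h5⟩ := hx
    have h6 : x.2 ≤ (N - 1) / D := by
      rw [Nat.le_div_iff_mul_le (by omega)]
      have : x.2 * D ≤ x.1 * x.2 := by rw [mul_comm x.1]; exact Nat.mul_le_mul_left _ h4
      omega
    have h7 : x.1 ≤ (N - 1) / x.2 := by
      rw [Nat.le_div_iff_mul_le (Nat.lt_of_lt_of_le Nat.zero_lt_one h2)]
      omega
    simp only [mem_sigma, mem_Ico]
    exact ⟨⟨h5, by omega⟩, h4, by omega⟩
  · rintro ⟨m, d⟩ hy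
    simp only [mem_sigma, mem_Ico] at hy
    obtain ⟨⟨h1, h2⟩, h3, h4⟩ := hy
    have h7 : d * m ≤ N - 1 := (Nat.le_div_iff_mul_le (by omega)).1 (by omega : d ≤ (N - 1) / m)
    have h8 : 1 ≤ d * m := Nat.mul_pos (by omega) (by omega)
    rw [mem_filter, mem_QQ]
    simp only
    exact ⟨⟨by omega, by omega, by omega⟩, h3, h1⟩
  · intro x _; rfl
  · intro y _; rfl
  · intro x _; rfl

lemma alg (a A κ B S m : ℂ) (hm : m ≠ 0) : a * (A + κ * B) - a * κ / m * S = a * A + a * κ / m * (m * B - S) := by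
  field_simp
  ring

set_option maxHeartbeats 4000000 in
theorem major (K : ℕ) : ∃ l0 : ℝ, 1 ≤ l0 ∧ ∀ l : ℝ, l0 ≤ l → ∀ N D : ℕ, Real.exp l ≤ D → Real.log N ≤ l ^ 4 →
    ∀ (q : ℕ) [NeZero q], (q : ℝ) ≤ l ^ K → ∀ b : ℤ, ∀ β : ℝ, |β| * N ≤ l ^ K →
    ∀ a : ℕ → ℝ, (∀ n, |a n| ≤ 1) → ∀ α : ℝ, α = b / q + β →
    ‖∑ x ∈ (QQ N).filter (fun x => D ≤ x.1 ∧ D ≤ x.2), FG a α x‖ ≤
      N * ‖∑ m ∈ Ico 1 N, (a m : ℂ) * kap q ((m : ZMod q) * (b : ZMod q)) / m‖ + 8 * N * (1 + Real.log D) := by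
  obtain ⟨l1, hl1, hin⟩ := inner 4 (K + 1)
  have e2 := ev_poly_exp K 13 1 1 (by norm_num)
  have e3 : ∀ᶠ l : ℝ in Filter.atTop, (2 : ℝ) ≤ l := Filter.eventually_ge_atTop _
  have e4 := ev_poly_exp K 14 1 1 (by norm_num)
  obtain ⟨l2, hl2⟩ := Filter.eventually_atTop.1 (e2.and (e3.and e4))
  refine ⟨max l1 l2, hl1.trans (le_max_left _ _), fun l hl N D hD hN q _ hq b β hβ a ha α hα => ?_⟩
  obtain ⟨g2, g3, g4⟩ := hl2 l ((le_max_right _ _).trans hl)
  have hin := hin l ((le_max_left _ _).trans hl) D hD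
  have hl0 : 0 < l := by linarith
  have hDr : (0 : ℝ) < D := (Real.exp_pos _).trans_le hD
  have hD1 : 1 ≤ D := by exact_mod_cast (Nat.cast_pos.1 hDr)
  have hD1r : (1 : ℝ) ≤ D := by exact_mod_cast hD1
  have hlogD : 0 ≤ Real.log D := Real.log_nonneg hD1r
  have hlK1 : 1 ≤ l ^ K := one_le_pow₀ (by linarith)
  have hD13 : 13 * l ^ K + 1 ≤ D := by
    have := g4
    simp only [one_mul] at this
    linarith
  rw [QQ_sum hD1]
  set M0 := (N - 1) / D + 1 with hM0
  rcases le_or_gt M0 D with hMD | hMD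
  · rw [Ico_eq_empty_of_le hMD, sum_empty, norm_zero]
    positivity
  have hN1 : 1 ≤ N := by
    by_contra h
    have : N = 0 := by omega
    subst this
    simp at hM0
    omega
  have hDD : D * D ≤ N - 1 := by
    have : D ≤ (N - 1) / D := by omega
    exact (Nat.le_div_iff_mul_le (by omega)).1 this
  have hNr : (1 : ℝ) ≤ N := by exact_mod_cast hN1
  set S : ℂ := ∑ n ∈ range N, ee (n * β) with hS
  have hSn : ‖S‖ ≤ N := by
    have := sum_ee_le (range N) (fun n => (n : ℝ) * β)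
    rwa [card_range] at this
  set κ : ℕ → ℂ := fun m => kap q ((m : ZMod q) * (b : ZMod q)) with hκ
  -- each m
  have hm_all : ∀ m ∈ Ico D M0, ‖∑ d ∈ Ico D ((N - 1) / m + 1), FG a α (d, m) - (a m : ℂ) * κ m / m * S‖ ≤
      2 * N / (m * l ^ 4) + (13 * l ^ K + 1 + D) := by
    intro m hm
    rw [mem_Ico] at hm
    have hm1 : 1 ≤ m := by omega
    have hmr : (1 : ℝ) ≤ m := by exact_mod_cast hm1
    have hmr0 : (0 : ℝ) < m := by linarith
    have hDm : m * D ≤ N - 1 := by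
      have : m ≤ (N - 1) / D := by omega
      exact (Nat.le_div_iff_mul_le (by omega)).1 this
    have hmN : m < N := by
      have : m * 1 ≤ m * D := Nat.mul_le_mul_left _ hD1
      omega
    set P := (N - 1) / m + 1 with hP
    have hDP : D ≤ P := by
      have : D ≤ (N - 1) / m := by
        rw [Nat.le_div_iff_mul_le (by omega), mul_comm]; exact hDm
      omega
    have hPm2 : P * m ≤ N + m := by
      have := Nat.div_mul_le_self (N - 1) m
      rw [hP, Nat.succ_mul]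
      omega
    have hPr : (P : ℝ) * m ≤ 2 * N := by
      have : ((P * m : ℕ) : ℝ) ≤ ((N + m : ℕ) : ℝ) := by exact_mod_cast hPm2
      push_cast at this
      have h8 : (m : ℝ) ≤ N := by exact_mod_cast hmN.le
      linarith
    have hγ : |(m : ℝ) * β| * P ≤ l ^ (K + 1) := by
      rw [abs_mul, abs_of_nonneg hmr0.le]
      calc (m : ℝ) * |β| * P = |β| * (P * m) := by ring
        _ ≤ |β| * (2 * N) := by gcongr
        _ = 2 * (|β| * N) := by ring
        _ ≤ l * l ^ K := by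
            apply mul_le_mul g3 hβ (by positivity) hl0.le
        _ = l ^ (K + 1) := by ring
    have hqK : (q : ℝ) ≤ l ^ (K + 1) := hq.trans (pow_le_pow_right₀ (by linarith) (by omega))
    have h1 := hin P hDP q hqK ((m : ZMod q) * (b : ZMod q)) (m * β) hγ
    have h2 : ∑ d ∈ Ico D P, FG a α (d, m) =
        (a m : ℂ) * (∑ d ∈ Ico D P, ((Λ d : ℂ) * ZMod.stdAddChar ((d : ZMod q) * ((m : ZMod q) * (b : ZMod q))) - κ m) * ee (d * (m * β)) +
          κ m * ∑ d ∈ Ico D P, ee (d * (m * β))) := by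
      rw [mul_add, mul_sum, mul_sum, mul_sum, ← sum_add_distrib]
      apply sum_congr rfl
      intro d _
      unfold FG
      simp only
      have h3 : ((d * m : ℕ) : ℝ) * α = ((d * m : ℕ) : ℝ) * ((b : ℝ) / q) + d * (m * β) := by
        rw [hα]; push_cast; ring
      rw [h3, ee_add, ee_sac q (d * m) b _ rfl]
      have h4 : (((d * m : ℕ) : ZMod q)) * (b : ZMod q) = (d : ZMod q) * ((m : ZMod q) * (b : ZMod q)) := by
        push_cast; ring
      rw [h4]
      push_cast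
      ring
    have h5 := cmp β m N D hm1 hmN hDP (l ^ K) hβ
    rw [h2]
    have h6 : (a m : ℂ) * (∑ d ∈ Ico D P, ((Λ d : ℂ) * ZMod.stdAddChar ((d : ZMod q) * ((m : ZMod q) * (b : ZMod q))) - κ m) * ee (d * (m * β)) +
          κ m * ∑ d ∈ Ico D P, ee (d * (m * β))) - (a m : ℂ) * κ m / m * S =
        (a m : ℂ) * (∑ d ∈ Ico D P, ((Λ d : ℂ) * ZMod.stdAddChar ((d : ZMod q) * ((m : ZMod q) * (b : ZMod q))) - κ m) * ee (d * (m * β))) +
        (a m : ℂ) * κ m / m * ((m : ℂ) * ∑ d ∈ Ico D P, ee (d * (m * β)) - S) := by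
      exact alg _ _ _ _ _ _ (by exact_mod_cast (by omega : m ≠ 0))
    rw [h6]
    have ham : ‖(a m : ℂ)‖ ≤ 1 := by rw [Complex.norm_real]; exact ha m
    have hκm : ‖κ m‖ ≤ 1 := kap_norm q _
    have h7 : ‖(a m : ℂ) * (∑ d ∈ Ico D P, ((Λ d : ℂ) * ZMod.stdAddChar ((d : ZMod q) * ((m : ZMod q) * (b : ZMod q))) - κ m) * ee (d * (m * β)))‖ ≤
        2 * N / (m * l ^ 4) := by
      rw [norm_mul]
      calc _ ≤ 1 * ((P : ℝ) / l ^ 4) := mul_le_mul ham h1 (norm_nonneg _) zero_le_one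
        _ = (P * m) / (m * l ^ 4) := by field_simp
        _ ≤ _ := by gcongr
    have h8 : ‖(a m : ℂ) * κ m / m * ((m : ℂ) * ∑ d ∈ Ico D P, ee (d * (m * β)) - S)‖ ≤ 13 * l ^ K + 1 + D := by
      rw [norm_mul, norm_div, norm_mul, Complex.norm_natCast]
      have h9 : ‖(a m : ℂ)‖ * ‖κ m‖ / m ≤ 1 / m := by
        gcongr
        calc ‖(a m : ℂ)‖ * ‖κ m‖ ≤ 1 * 1 := mul_le_mul ham hκm (norm_nonneg _) zero_le_one
          _ = 1 := one_mul _
      calc _ ≤ (1 / (m : ℝ)) * (m * (13 * l ^ K + 1 + D)) := mul_le_mul h9 h5 (norm_nonneg _) (by positivity)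
        _ = _ := by field_simp
    exact (norm_add_le _ _).trans (add_le_add h7 h8)
  -- the sum over m
  have hsum1 : ‖∑ m ∈ Ico D M0, ∑ d ∈ Ico D ((N - 1) / m + 1), FG a α (d, m) - (∑ m ∈ Ico D M0, (a m : ℂ) * κ m / m) * S‖ ≤
      ∑ m ∈ Ico D M0, (2 * N / (m * l ^ 4) + (13 * l ^ K + 1 + D)) := by
    rw [sum_mul, ← sum_sub_distrib]
    exact (norm_sum_le _ _).trans (sum_le_sum hm_all)
  have hM0N : M0 ≤ N := by
    have : (N - 1) / D ≤ N - 1 := Nat.div_le_self _ _
    omega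
  have hsum2 : ∑ m ∈ Ico D M0, (2 * (N : ℝ) / (m * l ^ 4) + (13 * l ^ K + 1 + D)) ≤ 4 * (N : ℝ) + 2 * (N : ℝ) := by
    rw [sum_add_distrib]
    apply add_le_add
    · have h1 : ∑ m ∈ Ico D M0, 2 * (N : ℝ) / (m * l ^ 4) = (2 * N / l ^ 4) * ∑ m ∈ Ico D M0, (1 / (m : ℝ)) := by
        rw [mul_sum]
        apply sum_congr rfl
        intro m _
        rw [div_mul_div_comm, mul_one, mul_comm (l ^ 4)]
      rw [h1]
      have h2 : ∑ m ∈ Ico D M0, (1 / (m : ℝ)) ≤ 1 + Real.log N := by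
        refine le_trans ?_ (sum_inv_Ico N)
        apply sum_le_sum_of_subset_of_nonneg
        · exact Ico_subset_Ico hD1 hM0N
        · intro _ _ _; positivity
      have hl4 : 1 ≤ l ^ 4 := one_le_pow₀ (by linarith)
      calc (2 * (N : ℝ) / l ^ 4) * ∑ m ∈ Ico D M0, (1 / (m : ℝ)) ≤ (2 * N / l ^ 4) * (2 * l ^ 4) := by
            gcongr
            linarith
        _ = 4 * (N : ℝ) := by field_simp; norm_num
    · rw [sum_const, Nat.card_Ico, nsmul_eq_mul]
      have h1 : ((M0 - D : ℕ) : ℝ) ≤ (N : ℝ) / D := by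
        rw [le_div_iff₀ hDr]
        have : (M0 - D) * D ≤ N := by
          have h3 : M0 - D ≤ (N - 1) / D := by omega
          have h4 := Nat.div_mul_le_self (N - 1) D
          calc (M0 - D) * D ≤ ((N - 1) / D) * D := Nat.mul_le_mul_right _ h3
            _ ≤ N - 1 := h4
            _ ≤ N := by omega
        exact_mod_cast this
      calc ((M0 - D : ℕ) : ℝ) * (13 * l ^ K + 1 + D) ≤ ((N : ℝ) / D) * (D + D) := by
            gcongr
        _ = 2 * N := by field_simp; ring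
  -- the main term
  have hmain : ‖∑ m ∈ Ico D M0, (a m : ℂ) * κ m / m‖ ≤ ‖∑ m ∈ Ico 1 N, (a m : ℂ) * κ m / m‖ + (1 + Real.log D) + (1 + Real.log D) := by
    have h1 : ∑ m ∈ Ico 1 N, (a m : ℂ) * κ m / m = ∑ m ∈ Ico 1 D, (a m : ℂ) * κ m / m +
        (∑ m ∈ Ico D M0, (a m : ℂ) * κ m / m + ∑ m ∈ Ico M0 N, (a m : ℂ) * κ m / m) := by
      rw [sum_Ico_consecutive _ hMD.le hM0N, sum_Ico_consecutive _ hD1 (hMD.le.trans hM0N)]
    have hterm : ∀ m : ℕ, ‖(a m : ℂ) * κ m / m‖ ≤ 1 / (m : ℝ) := by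
      intro m
      rw [norm_div, norm_mul, Complex.norm_natCast, Complex.norm_real]
      gcongr
      calc ‖a m‖ * ‖κ m‖ ≤ 1 * 1 := mul_le_mul (ha m) (kap_norm q _) (norm_nonneg _) zero_le_one
        _ = 1 := one_mul _
    have h2 : ‖∑ m ∈ Ico 1 D, (a m : ℂ) * κ m / m‖ ≤ 1 + Real.log D :=
      (norm_sum_le _ _).trans ((sum_le_sum fun m _ => hterm m).trans (sum_inv_Ico D))
    have h3 : ‖∑ m ∈ Ico M0 N, (a m : ℂ) * κ m / m‖ ≤ 1 + Real.log D := by
      refine (norm_sum_le _ _).trans ((sum_le_sum fun m _ => hterm m).trans ?_)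
      rcases Nat.eq_or_lt_of_le hM0N with h | h
      · rw [h, Ico_self, sum_empty]; positivity
      have h4 := tail_inv M0 (by omega) (N - 1) (by omega)
      rw [Nat.sub_add_cancel hN1] at h4
      refine h4.trans ?_
      have hM0r : (1 : ℝ) ≤ M0 := by exact_mod_cast (by omega : 1 ≤ M0)
      apply add_le_add
      · rw [div_le_one (by linarith)]; exact hM0r
      · have h5 : 1 ≤ N - 1 := by omega
        apply Real.log_le_log
        · have : (0 : ℝ) < ((N - 1 : ℕ) : ℝ) := by exact_mod_cast h5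
          positivity
        · rw [div_le_iff₀ (by linarith)]
          have : N - 1 ≤ D * M0 := by
            have h6 := Nat.div_add_mod (N - 1) D
            have h7 := Nat.mod_lt (N - 1) (by omega : 0 < D)
            rw [hM0, Nat.mul_succ]
            omega
          exact_mod_cast this
    have h4 : ∑ m ∈ Ico D M0, (a m : ℂ) * κ m / m = ∑ m ∈ Ico 1 N, (a m : ℂ) * κ m / m -
        ∑ m ∈ Ico 1 D, (a m : ℂ) * κ m / m - ∑ m ∈ Ico M0 N, (a m : ℂ) * κ m / m := by
      rw [h1]; ring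
    rw [h4]
    have h5 := norm_sub_le (∑ m ∈ Ico 1 N, (a m : ℂ) * κ m / m - ∑ m ∈ Ico 1 D, (a m : ℂ) * κ m / m) (∑ m ∈ Ico M0 N, (a m : ℂ) * κ m / m)
    have h6 := norm_sub_le (∑ m ∈ Ico 1 N, (a m : ℂ) * κ m / m) (∑ m ∈ Ico 1 D, (a m : ℂ) * κ m / m)
    linarith
  have h10 : ‖(∑ m ∈ Ico D M0, (a m : ℂ) * κ m / m) * S‖ ≤ (‖∑ m ∈ Ico 1 N, (a m : ℂ) * κ m / m‖ + (1 + Real.log D) + (1 + Real.log D)) * N := by
    rw [norm_mul]
    exact mul_le_mul hmain hSn (norm_nonneg _) (by positivity)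
  have h11 := norm_sub_norm_le (∑ m ∈ Ico D M0, ∑ d ∈ Ico D ((N - 1) / m + 1), FG a α (d, m)) ((∑ m ∈ Ico D M0, (a m : ℂ) * κ m / m) * S)
  have h12 := hsum1.trans hsum2
  have h13 : 0 ≤ (N : ℝ) * Real.log D := by positivity
  linarith

end Pool.Agent.TH445.OI
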