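import Mathlib
import Pool.Agent.TH445.OI.A1
import Pool.Agent.TH445.OI.A4

set_option autoImplicit false

/-! Sums over the smooth and the rough part. -/

open Finset

namespace Pool.Agent.TH445.OI

open Pool.Agent.H807R2.Dav (sum_inv_Ico)

lemma H_Ico (M : ℕ) : H M = ∑ m ∈ Ico 1 (M + 1), (1 : ℝ) / m := by
  unfold H
  apply sum_congr _ (fun _ _ => rfl)
  ext k; simp only [mem_Icc, mem_Ico]; omega

lemma H_le {M : ℕ} (hM : 1 ≤ M) : H M ≤ 1 + Real.log M := by
  rw [H_Ico]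
  have := tail_inv 1 le_rfl M hM
  simpa using this

lemma H_ge (M : ℕ) : Real.log (M + 1) ≤ H M := by
  induction M with
  | zero => simp [H]
  | succ M ih =>
    unfold H at *
    rw [sum_Icc_succ_top (by omega)]
    have h1 : Real.log (((M + 1 : ℕ) : ℝ) + 1) - Real.log ((M : ℝ) + 1) ≤ 1 / ((M + 1 : ℕ) : ℝ) := by
      rw [← Real.log_div (by positivity) (by positivity)]
      have h2 := Real.log_le_sub_one_of_pos (x := ((((M + 1 : ℕ) : ℝ) + 1)) / ((M : ℝ) + 1)) (by positivity)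
      have h3 : ((((M + 1 : ℕ) : ℝ) + 1)) / ((M : ℝ) + 1) - 1 = 1 / ((M + 1 : ℕ) : ℝ) := by
        push_cast
        field_simp
        ring
      linarith
    linarith

/-- smooth integers up to `S` -/
noncomputable def SS (w S : ℕ) : Finset ℕ := (Icc 1 S).filter (fun s => sp w s = s)

/-- rough integers up to `M` -/
noncomputable def RR (w M : ℕ) : Finset ℕ := (Icc 1 M).filter (fun s => rp w s = s)

lemma rp_of_sp {w s : ℕ} (hs : 1 ≤ s) (h : sp w s = s) : rp w s = 1 := by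
  have h1 := sp_mul_rp w (by omega : s ≠ 0)
  rw [h] at h1
  exact Nat.eq_of_mul_eq_mul_left (by omega : 0 < s) (by rw [h1, mul_one])

lemma sp_of_rp {w s : ℕ} (hs : 1 ≤ s) (h : rp w s = s) : sp w s = 1 := by
  have h1 := sp_mul_rp w (by omega : s ≠ 0)
  rw [h] at h1
  exact Nat.eq_of_mul_eq_mul_right (by omega : 0 < s) (by rw [h1, one_mul])

lemma prod_eq (w S M : ℕ) (c g : ℕ → ℂ) :
    (∑ s ∈ SS w S, c s / s) * (∑ b ∈ RR w M, g b / b) =
      ∑ m ∈ (Icc 1 (S * M)).filter (fun m => sp w m ≤ S ∧ rp w m ≤ M), c (sp w m) * g (rp w m) / m := by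
  rw [sum_mul_sum, ← sum_product']
  apply sum_nbij' (fun x => x.1 * x.2) (fun m => (sp w m, rp w m))
  · rintro ⟨s, b⟩ hx
    rw [mem_product] at hx
    simp only [SS, RR, mem_filter, mem_Icc] at hx
    obtain ⟨⟨⟨h1, h2⟩, h3⟩, ⟨h4, h5⟩, h6⟩ := hx
    have e1 : sp w (s * b) = s := by
      rw [sp_mul w (by omega) (by omega), h3, sp_of_rp h4 h6, mul_one]
    have e2 : rp w (s * b) = b := by
      rw [rp_mul w (by omega) (by omega), h6, rp_of_sp h1 h3, one_mul]
    rw [mem_filter, mem_Icc]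
    simp only
    rw [e1, e2]
    exact ⟨⟨Nat.mul_pos h1 h4, Nat.mul_le_mul h2 h5⟩, h2, h5⟩
  · intro m hm
    rw [mem_filter, mem_Icc] at hm
    obtain ⟨⟨h1, h2⟩, h3, h4⟩ := hm
    rw [mem_product]
    simp only [SS, RR, mem_filter, mem_Icc]
    refine ⟨⟨⟨Nat.pos_of_ne_zero (sp_ne w m), h3⟩, sp_smo (sp_ne w m) (smo_sp w m)⟩,
      ⟨⟨Nat.pos_of_ne_zero (rp_ne w m), h4⟩, rp_rou (rp_ne w m) (rou_rp w m)⟩⟩
  · rintro ⟨s, b⟩ hx
    rw [mem_product] at hx
    simp only [SS, RR, mem_filter, mem_Icc] at hx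
    obtain ⟨⟨⟨h1, h2⟩, h3⟩, ⟨h4, h5⟩, h6⟩ := hx
    simp only
    rw [sp_mul w (by omega) (by omega), h3, sp_of_rp h4 h6, mul_one, rp_mul w (by omega) (by omega), h6, rp_of_sp h1 h3, one_mul]
  · intro m hm
    rw [mem_filter, mem_Icc] at hm
    exact sp_mul_rp w (by omega)
  · rintro ⟨s, b⟩ hx
    rw [mem_product] at hx
    simp only [SS, RR, mem_filter, mem_Icc] at hx
    obtain ⟨⟨⟨h1, h2⟩, h3⟩, ⟨h4, h5⟩, h6⟩ := hx
    simp only
    rw [sp_mul w (by omega) (by omega), h3, sp_of_rp h4 h6, mul_one, rp_mul w (by omega) (by omega), h6, rp_of_sp h1 h3, one_mul]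
    push_cast
    rw [div_mul_div_comm]

/-- the error term -/
noncomputable def EE (w S M : ℕ) : ℝ := 2 * P2 w * H M / Real.log S + (1 + Real.log S)

theorem FL (w S M : ℕ) (hS : 2 ≤ S) (hM : 1 ≤ M) (c g : ℕ → ℂ) (hc : ∀ n, ‖c n‖ ≤ 1) (hg : ∀ n, ‖g n‖ ≤ 1) :
    ‖∑ m ∈ Icc 1 M, c (sp w m) * g (rp w m) / m - (∑ s ∈ SS w S, c s / s) * (∑ b ∈ RR w M, g b / b)‖ ≤ EE w S M := by
  rw [prod_eq]
  set f : ℕ → ℂ := fun m => c (sp w m) * g (rp w m) / m with hf
  have hfn : ∀ m, ‖f m‖ ≤ 1 / (m : ℝ) := by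
    intro m
    rw [hf]; simp only
    rw [norm_div, norm_mul, Complex.norm_natCast]
    gcongr
    calc ‖c (sp w m)‖ * ‖g (rp w m)‖ ≤ 1 * 1 := mul_le_mul (hc _) (hg _) (norm_nonneg _) zero_le_one
      _ = 1 := one_mul _
  have hSr : (2 : ℝ) ≤ S := by exact_mod_cast hS
  have hlS : 0 < Real.log S := Real.log_pos (by linarith)
  have hMr : (1 : ℝ) ≤ M := by exact_mod_cast hM
  -- splitting
  have h1 : ∑ m ∈ Icc 1 M, f m = ∑ m ∈ (Icc 1 M).filter (fun m => sp w m ≤ S), f m +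
      ∑ m ∈ (Icc 1 M).filter (fun m => ¬ sp w m ≤ S), f m := (sum_filter_add_sum_filter_not _ _ _).symm
  have h2 : ∑ m ∈ (Icc 1 (S * M)).filter (fun m => sp w m ≤ S ∧ rp w m ≤ M), f m =
      ∑ m ∈ (Icc 1 M).filter (fun m => sp w m ≤ S), f m +
      ∑ m ∈ (Icc (M + 1) (S * M)).filter (fun m => sp w m ≤ S ∧ rp w m ≤ M), f m := by
    have hSM : M ≤ S * M := Nat.le_mul_of_pos_left _ (by omega)
    have e1 : (Icc 1 (S * M)).filter (fun m => sp w m ≤ S ∧ rp w m ≤ M) =
        (Icc 1 M).filter (fun m => sp w m ≤ S) ∪ (Icc (M + 1) (S * M)).filter (fun m => sp w m ≤ S ∧ rp w m ≤ M) := by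
      ext m
      simp only [mem_filter, mem_union, mem_Icc]
      constructor
      · rintro ⟨⟨a1, a2⟩, a3, a4⟩
        rcases le_or_gt m M with h | h
        · exact Or.inl ⟨⟨a1, h⟩, a3⟩
        · exact Or.inr ⟨⟨h, a2⟩, a3, a4⟩
      · rintro (⟨⟨a1, a2⟩, a3⟩ | ⟨⟨a1, a2⟩, a3, a4⟩)
        · refine ⟨⟨a1, a2.trans hSM⟩, a3, ?_⟩
          have h3 := sp_mul_rp w (by omega : m ≠ 0)
          have h4 := Nat.pos_of_ne_zero (sp_ne w m)
          nlinarith
        · exact ⟨⟨by omega, a2⟩, a3, a4⟩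
    rw [e1, sum_union]
    rw [disjoint_left]
    intro m hm hm2
    simp only [mem_filter, mem_Icc] at hm hm2
    omega
  rw [h1, h2, add_sub_add_left_eq_sub]
  refine (norm_sub_le _ _).trans (add_le_add ?_ ?_)
  · refine (norm_sum_le _ _).trans ?_
    calc ∑ m ∈ (Icc 1 M).filter (fun m => ¬ sp w m ≤ S), ‖f m‖
        ≤ ∑ m ∈ (Icc 1 M).filter (fun m => ¬ sp w m ≤ S), (1 / Real.log S) * (Real.log (sp w m) / m) := by
          apply sum_le_sum
          intro m hm
          rw [mem_filter, mem_Icc] at hm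
          refine (hfn m).trans ?_
          have hm0 : (0 : ℝ) < m := by exact_mod_cast hm.1.1
          have h3 : Real.log S ≤ Real.log (sp w m) :=
            Real.log_le_log (by linarith) (by exact_mod_cast (not_le.1 hm.2).le)
          rw [one_div_mul_eq_div, div_div, mul_comm, ← div_div]
          apply div_le_div_of_nonneg_right _ hm0.le
          rw [le_div_iff₀ hlS, one_mul]
          exact h3
      _ ≤ ∑ m ∈ Icc 1 M, (1 / Real.log S) * (Real.log (sp w m) / m) := by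
          apply sum_le_sum_of_subset_of_nonneg (filter_subset _ _)
          intro m _ _
          have : 0 ≤ Real.log (sp w m) := Real.log_nonneg (by exact_mod_cast Nat.pos_of_ne_zero (sp_ne w m))
          positivity
      _ ≤ (1 / Real.log S) * (2 * P2 w * H M) := by
          rw [← mul_sum]
          have := logsp_sum w M
          gcongr
      _ = _ := by ring
  · refine (norm_sum_le _ _).trans ?_
    calc ∑ m ∈ (Icc (M + 1) (S * M)).filter (fun m => sp w m ≤ S ∧ rp w m ≤ M), ‖f m‖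
        ≤ ∑ m ∈ Icc (M + 1) (S * M), 1 / (m : ℝ) := by
          refine (sum_le_sum fun m _ => hfn m).trans ?_
          apply sum_le_sum_of_subset_of_nonneg (filter_subset _ _)
          intro _ _ _; positivity
      _ = ∑ m ∈ Ico (M + 1) (S * M + 1), 1 / (m : ℝ) := by
          apply sum_congr _ (fun _ _ => rfl)
          ext k; simp only [mem_Icc, mem_Ico]; omega
      _ ≤ 1 / ((M + 1 : ℕ) : ℝ) + Real.log (((S * M : ℕ) : ℝ) / ((M + 1 : ℕ) : ℝ)) := by
          apply tail_inv _ (by omega)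
          nlinarith
      _ ≤ _ := by
          apply add_le_add
          · rw [div_le_one (by positivity)]; push_cast; linarith
          · apply Real.log_le_log (by positivity)
            rw [div_le_iff₀ (by positivity)]
            push_cast
            nlinarith

lemma two_pow_omega (n : ℕ) (hn : n ≠ 0) : 2 ^ n.primeFactors.card ≤ n := by
  calc 2 ^ n.primeFactors.card = ∏ p ∈ n.primeFactors, 2 := by simp
    _ ≤ ∏ p ∈ n.primeFactors, p := prod_le_prod' fun p hp => (Nat.prime_of_mem_primeFactors hp).two_le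
    _ ≤ n := Nat.le_of_dvd (Nat.pos_of_ne_zero hn) (Nat.prod_primeFactors_dvd n)

/-- the Ramanujan sum only sees the smooth part, up to a small error -/
lemma kap_sp (w M q : ℕ) (hw : 1 ≤ w) [NeZero q] (b : ZMod q) :
    ∑ m ∈ Icc 1 M, ‖kap q ((m : ZMod q) * b) - kap q ((sp w m : ZMod q) * b)‖ / m ≤
      2 * (q.primeFactors.card : ℝ) / w * H M := by
  have hq0 : q ≠ 0 := NeZero.ne q
  have hwr : (1 : ℝ) ≤ w := by exact_mod_cast hw
  have h1 : ∀ m ∈ Icc 1 M, ‖kap q ((m : ZMod q) * b) - kap q ((sp w m : ZMod q) * b)‖ / m ≤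
      ∑ p ∈ q.primeFactors.filter (fun p => w < p), (if p ∣ m then 2 / (m : ℝ) else 0) := by
    intro m hm
    have hm0 : m ≠ 0 := by have := (mem_Icc.1 hm).1; omega
    by_cases hcop : Nat.Coprime (rp w m) q
    · have e1 : kap q ((m : ZMod q) * b) = kap q ((sp w m : ZMod q) * b) := by
        have e2 : (m : ZMod q) * b = ((sp w m : ZMod q) * b) * (ZMod.unitOfCoprime (rp w m) hcop : (ZMod q)ˣ) := by
          rw [ZMod.coe_unitOfCoprime]
          have : (m : ZMod q) = (sp w m : ZMod q) * (rp w m : ZMod q) := by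
            rw [← Nat.cast_mul, sp_mul_rp w hm0]
          rw [this]; ring
        rw [e2, kap_unit]
      rw [e1, sub_self, norm_zero, zero_div]
      apply sum_nonneg
      intro p _
      split_ifs
      · positivity
      · exact le_rfl
    · obtain ⟨p, hp, hp1, hp2⟩ := Nat.Prime.not_coprime_iff_dvd.1 hcop
      have hwp : w < p := rou_rp w m p hp hp1
      have hpm : p ∣ m := by
        have := sp_mul_rp w hm0
        rw [← this]
        exact Dvd.dvd.mul_left hp1 _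
      have hmem : p ∈ q.primeFactors.filter (fun p => w < p) :=
        mem_filter.2 ⟨Nat.mem_primeFactors.2 ⟨hp, hp2, hq0⟩, hwp⟩
      have h2 := single_le_sum (f := fun p => (if p ∣ m then 2 / (m : ℝ) else 0)) (s := q.primeFactors.filter (fun p => w < p))
        (fun p _ => by
          split_ifs
          · positivity
          · exact le_rfl) hmem
      simp only [if_pos hpm] at h2
      refine le_trans ?_ h2
      gcongr
      refine (norm_sub_le _ _).trans ?_
      have := kap_norm q ((m : ZMod q) * b)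
      have := kap_norm q ((sp w m : ZMod q) * b)
      linarith
  refine (sum_le_sum h1).trans ?_
  rw [sum_comm]
  calc ∑ p ∈ q.primeFactors.filter (fun p => w < p), ∑ m ∈ Icc 1 M, (if p ∣ m then 2 / (m : ℝ) else 0)
      ≤ ∑ p ∈ q.primeFactors.filter (fun p => w < p), 2 / w * H M := by
        apply sum_le_sum
        intro p hp
        rw [mem_filter] at hp
        have hpp := Nat.prime_of_mem_primeFactors hp.1
        have hwp : (w : ℝ) ≤ p := by exact_mod_cast hp.2.le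
        rw [sum_mult p M hpp (fun m => if p ∣ m then 2 / (m : ℝ) else 0) (fun m h => if_neg h)]
        have h3 : ∑ m ∈ Icc 1 (M / p), (if p ∣ p * m then 2 / ((p * m : ℕ) : ℝ) else 0) = (2 / p) * H (M / p) := by
          unfold H
          rw [mul_sum]
          apply sum_congr rfl
          intro m _
          rw [if_pos (dvd_mul_right _ _)]
          push_cast
          rw [div_mul_div_comm, mul_one]
        rw [h3]
        have h4 := H_mono (Nat.div_le_self M p)
        have h5 := H_nonneg (M / p)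
        have : (0 : ℝ) < w := by linarith
        gcongr
    _ = ((q.primeFactors.filter (fun p => w < p)).card : ℝ) * (2 / w * H M) := by
        rw [sum_const, nsmul_eq_mul]
    _ ≤ (q.primeFactors.card : ℝ) * (2 / w * H M) := by
        have := H_nonneg M
        have h6 : ((q.primeFactors.filter (fun p => w < p)).card : ℝ) ≤ (q.primeFactors.card : ℝ) := by
          exact_mod_cast card_le_card (filter_subset _ _)
        gcongr
    _ = _ := by ring

/-- the logarithmic density of `Y + 1 = y` -/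
noncomputable def lam (w M y : ℕ) : ℝ := (∑ m ∈ Icc 1 M, (if Y w m + 1 = y then (1 : ℝ) / m else 0)) / H M

lemma lam_nonneg (w M y : ℕ) : 0 ≤ lam w M y := by
  unfold lam
  apply div_nonneg _ (H_nonneg M)
  apply sum_nonneg
  intro m _
  split_ifs
  · positivity
  · exact le_rfl

lemma H_pos {M : ℕ} (hM : 1 ≤ M) : 0 < H M := by
  have h1 := H_ge M
  have : (1 : ℝ) ≤ M := by exact_mod_cast hM
  have : 0 < Real.log ((M : ℝ) + 1) := Real.log_pos (by linarith)
  linarith

lemma lam_le {w M : ℕ} (hM : 1 ≤ M) (y : ℕ) : lam w M y ≤ 1 := by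
  unfold lam
  rw [div_le_one (H_pos hM)]
  unfold H
  apply sum_le_sum
  intro m _
  split_ifs
  · exact le_rfl
  · positivity

/-- the coefficients -/
noncomputable def aF (w M x y m : ℕ) : ℝ := (if X w m = x then 1 else 0) * ((if Y w m + 1 = y then 1 else 0) - lam w M y)

lemma aF_le {w M : ℕ} (hM : 1 ≤ M) (x y m : ℕ) : |aF w M x y m| ≤ 1 := by
  unfold aF
  have h1 := lam_nonneg w M y
  have h2 := lam_le (w := w) hM y
  rw [abs_le]
  split_ifs <;> constructor <;> linarith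

set_option maxHeartbeats 1000000 in
theorem main_a (w S M : ℕ) (hS : 2 ≤ S) (hM : 1 ≤ M) (hw : 1 ≤ w) (q : ℕ) [NeZero q] (b : ZMod q) (x y : ℕ) :
    ‖∑ m ∈ Icc 1 M, (aF w M x y m : ℂ) * kap q ((m : ZMod q) * b) / m‖ ≤
      4 * EE w S M + 2 * (q.primeFactors.card : ℝ) / w * H M := by
  set c : ℕ → ℂ := fun s => (if ArithmeticFunction.cardFactors s = x then 1 else 0) * kap q ((s : ZMod q) * b) with hc
  set g : ℕ → ℂ := fun r => if ArithmeticFunction.cardFactors r + 1 = y then 1 else 0 with hg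
  have hcn : ∀ s, ‖c s‖ ≤ 1 := by
    intro s
    rw [hc]; simp only
    rw [norm_mul]
    have := kap_norm q ((s : ZMod q) * b)
    split_ifs
    · rw [norm_one, one_mul]; exact this
    · rw [norm_zero, zero_mul]; exact zero_le_one
  have hgn : ∀ s, ‖g s‖ ≤ 1 := by
    intro s
    rw [hg]; simp only
    split_ifs <;> simp
  have hon : ∀ s : ℕ, ‖(fun _ : ℕ => (1 : ℂ)) s‖ ≤ 1 := by intro s; simp
  have t1 := FL w S M hS hM c g hcn hgn
  have t2 := FL w S M hS hM c (fun _ => 1) hcn hon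
  have t3 := FL w S M hS hM (fun _ => 1) g hon hgn
  have t4 := FL w S M hS hM (fun _ => 1) (fun _ => 1) hon hon
  set E := EE w S M with hE
  have hE0 : 0 ≤ E := (norm_nonneg _).trans t4
  set K1 : ℂ := ∑ s ∈ SS w S, c s / s with hK1
  set K0 : ℂ := ∑ s ∈ SS w S, (fun _ : ℕ => (1 : ℂ)) s / s with hK0
  set R1 : ℂ := ∑ b ∈ RR w M, g b / b with hR1
  set R0 : ℂ := ∑ b ∈ RR w M, (fun _ : ℕ => (1 : ℂ)) b / b with hR0
  set lm := lam w M y with hlm
  have hl0 : 0 ≤ lm := lam_nonneg w M y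
  have hl1 : lm ≤ 1 := lam_le hM y
  have hHp := H_pos hM
  -- the exact relation
  have e1 : ∑ m ∈ Icc 1 M, (fun _ : ℕ => (1 : ℂ)) (sp w m) * g (rp w m) / m = (lm : ℂ) * ∑ m ∈ Icc 1 M, (fun _ : ℕ => (1 : ℂ)) (sp w m) * (fun _ : ℕ => (1 : ℂ)) (rp w m) / m := by
    have e2 : ∑ m ∈ Icc 1 M, (fun _ : ℕ => (1 : ℂ)) (sp w m) * (fun _ : ℕ => (1 : ℂ)) (rp w m) / m = ((H M : ℝ) : ℂ) := by
      unfold H; push_cast; apply sum_congr rfl; intro m _; simp
    have e3 : ∑ m ∈ Icc 1 M, (fun _ : ℕ => (1 : ℂ)) (sp w m) * g (rp w m) / m = ((∑ m ∈ Icc 1 M, (if Y w m + 1 = y then (1 : ℝ) / m else 0) : ℝ) : ℂ) := by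
      push_cast
      apply sum_congr rfl
      intro m _
      rw [hg]
      simp only [one_mul]
      unfold Y
      split_ifs <;> simp
    rw [e2, e3, hlm]
    unfold lam
    rw [← Complex.ofReal_mul, div_mul_cancel₀ _ hHp.ne']
  -- K0 dominates
  have hK : ‖K1‖ ≤ ‖K0‖ := by
    have e2 : K0 = ((∑ s ∈ SS w S, (1 : ℝ) / s : ℝ) : ℂ) := by
      rw [hK0]; push_cast; rfl
    rw [e2, Complex.norm_real, Real.norm_of_nonneg (sum_nonneg fun _ _ => by positivity)]
    refine (norm_sum_le _ _).trans (sum_le_sum fun s _ => ?_)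
    rw [norm_div, Complex.norm_natCast]
    gcongr
    exact hcn s
  have h0 : ‖K0 * (R1 - lm * R0)‖ ≤ 2 * E := by
    have e2 : K0 * (R1 - lm * R0) = -((∑ m ∈ Icc 1 M, (fun _ : ℕ => (1 : ℂ)) (sp w m) * g (rp w m) / m) - K0 * R1) +
        lm * ((∑ m ∈ Icc 1 M, (fun _ : ℕ => (1 : ℂ)) (sp w m) * (fun _ : ℕ => (1 : ℂ)) (rp w m) / m) - K0 * R0) := by
      rw [e1]; ring
    rw [e2]
    refine (norm_add_le _ _).trans ?_
    rw [norm_neg, norm_mul, Complex.norm_real, Real.norm_of_nonneg hl0]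
    nlinarith [norm_nonneg ((∑ m ∈ Icc 1 M, (fun _ : ℕ => (1 : ℂ)) (sp w m) * (fun _ : ℕ => (1 : ℂ)) (rp w m) / m) - K0 * R0)]
  have h0' : ‖K1 * (R1 - lm * R0)‖ ≤ 2 * E := by
    rw [norm_mul] at h0 ⊢
    refine le_trans ?_ h0
    gcongr
  have h1 : ‖∑ m ∈ Icc 1 M, (aF w M x y m : ℂ) * kap q ((sp w m : ZMod q) * b) / m‖ ≤ 4 * E := by
    have e2 : ∑ m ∈ Icc 1 M, (aF w M x y m : ℂ) * kap q ((sp w m : ZMod q) * b) / m =
        (∑ m ∈ Icc 1 M, c (sp w m) * g (rp w m) / m - K1 * R1) -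
        lm * (∑ m ∈ Icc 1 M, c (sp w m) * (fun _ : ℕ => (1 : ℂ)) (rp w m) / m - K1 * R0) + K1 * (R1 - lm * R0) := by
      have e3 : ∑ m ∈ Icc 1 M, (aF w M x y m : ℂ) * kap q ((sp w m : ZMod q) * b) / m =
          ∑ m ∈ Icc 1 M, c (sp w m) * g (rp w m) / m - lm * ∑ m ∈ Icc 1 M, c (sp w m) * (fun _ : ℕ => (1 : ℂ)) (rp w m) / m := by
        rw [mul_sum, ← sum_sub_distrib]
        apply sum_congr rfl
        intro m _
        rw [hc, hg]
        simp only
        unfold aF X Y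
        rw [← hlm]
        split_ifs <;> push_cast <;> ring
      rw [e3]; ring
    rw [e2]
    refine (norm_add_le _ _).trans ?_
    have h3 : ‖(lm : ℂ) * (∑ m ∈ Icc 1 M, c (sp w m) * (fun _ : ℕ => (1 : ℂ)) (rp w m) / m - K1 * R0)‖ ≤ E := by
      rw [norm_mul, Complex.norm_real, Real.norm_of_nonneg hl0]
      nlinarith [norm_nonneg (∑ m ∈ Icc 1 M, c (sp w m) * (fun _ : ℕ => (1 : ℂ)) (rp w m) / m - K1 * R0)]
    have h4 := norm_sub_le (∑ m ∈ Icc 1 M, c (sp w m) * g (rp w m) / m - K1 * R1)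
      ((lm : ℂ) * (∑ m ∈ Icc 1 M, c (sp w m) * (fun _ : ℕ => (1 : ℂ)) (rp w m) / m - K1 * R0))
    linarith
  have h2 := kap_sp w M q hw b
  have h3 : ‖∑ m ∈ Icc 1 M, (aF w M x y m : ℂ) * kap q ((m : ZMod q) * b) / m -
      ∑ m ∈ Icc 1 M, (aF w M x y m : ℂ) * kap q ((sp w m : ZMod q) * b) / m‖ ≤ 2 * (q.primeFactors.card : ℝ) / w * H M := by
    rw [← sum_sub_distrib]
    refine le_trans ?_ h2
    refine (norm_sum_le _ _).trans (sum_le_sum fun m _ => ?_)
    rw [← sub_div, ← mul_sub, norm_div, norm_mul, Complex.norm_natCast, Complex.norm_real]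
    gcongr
    exact mul_le_of_le_one_left (norm_nonneg _) (aF_le hM x y m)
  have h4 := norm_sub_norm_le (∑ m ∈ Icc 1 M, (aF w M x y m : ℂ) * kap q ((m : ZMod q) * b) / m)
    (∑ m ∈ Icc 1 M, (aF w M x y m : ℂ) * kap q ((sp w m : ZMod q) * b) / m)
  linarith

end Pool.Agent.TH445.OI
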