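import Mathlib
import Pool.Agent.TH445.OI.A5
import Pool.Agent.Helper256.KM.Mertens

set_option autoImplicit false

/-! All the Fourier coefficients are small. -/

open Finset

namespace Pool.Agent.TH445.OI

open Pool.Agent.H807R2.Dav (ee norm_ee QQ)

/-- the function with small Fourier coefficients -/
noncomputable def Fx (w M x y n : ℕ) : ℝ := (if X w n = x then 1 else 0) * ((if Y w n = y then 1 else 0) - lam w M y)

lemma Fx_le {w M : ℕ} (hM : 1 ≤ M) (x y m : ℕ) : |Fx w M x y m| ≤ 1 := by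
  unfold Fx
  have h1 := lam_nonneg w M y
  have h2 := lam_le (w := w) hM y
  rw [abs_le]
  split_ifs <;> constructor <;> linarith

lemma Fx_mul (w M x y p m : ℕ) (hp : p.Prime) (hwp : w < p) (hm : 1 ≤ m) : Fx w M x y (p * m) = aF w M x y m := by
  unfold Fx aF
  rw [X_mul w hp.ne_zero (by omega), Y_mul w hp.ne_zero (by omega), X_prime hp hwp, Y_prime hp hwp, zero_add, add_comm 1]

lemma log_ceil {x : ℝ} (hx : 0 ≤ x) : 1 ≤ ⌈Real.exp x⌉₊ ∧ x ≤ Real.log ⌈Real.exp x⌉₊ ∧ Real.log ⌈Real.exp x⌉₊ ≤ x + 1 := by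
  have h0 : 1 ≤ Real.exp x := Real.one_le_exp hx
  have h1 : Real.exp x ≤ ⌈Real.exp x⌉₊ := Nat.le_ceil _
  have h2 : (⌈Real.exp x⌉₊ : ℝ) ≤ Real.exp x + 1 := (Nat.ceil_lt_add_one (by linarith)).le
  have h3 : (1 : ℝ) ≤ ⌈Real.exp x⌉₊ := h0.trans h1
  refine ⟨by exact_mod_cast h3, ?_, ?_⟩
  · rw [Real.le_log_iff_exp_le (by linarith)]; exact h1
  · rw [Real.log_le_iff_le_exp (by linarith), Real.exp_add]
    have := Real.add_one_le_exp (1 : ℝ)
    nlinarith

set_option maxHeartbeats 4000000 in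
theorem exp_sup : ∃ C : ℝ, 0 < C ∧ ∃ N₀ : ℕ, 2 ≤ N₀ ∧ ∀ N : ℕ, N₀ ≤ N → ∀ x y : ℕ, ∀ α : ℝ,
    ‖∑ n ∈ range N, (Fx ⌊Real.log N⌋₊ (N - 1) x y n : ℂ) * ee (n * α)‖ ≤
      C * N * Real.log (Real.log N) / √(Real.log N) := by
  obtain ⟨C0, hC0, hmin⟩ := minor
  obtain ⟨C1, hC1, hls⟩ := logstep
  obtain ⟨l0, hl0, hmaj⟩ := major 21
  obtain ⟨l2, hl2⟩ := Filter.eventually_atTop.1 (ev_poly_exp 4 2 1 1 one_pos)
  obtain ⟨C2, hC2⟩ := Pool.Agent.Helper256.KM.mertens_log
  -- eventual conditions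
  have ev1 : ∀ᶠ N : ℝ in Filter.atTop, max (max ((max l0 l2) ^ 4) (Real.exp (max 1 C2))) 16 ≤ Real.log N :=
    Real.tendsto_log_atTop.eventually_ge_atTop _
  have ev2 : ∀ᶠ L : ℝ in Filter.atTop, Real.log L ≤ √L := by
    filter_upwards [ev_pow 1 1 (1 / 2) (by norm_num)] with L hL
    rw [Real.sqrt_eq_rpow]; simpa using hL
  have ev2' := Real.tendsto_log_atTop.eventually ev2
  have ev3 : ∀ᶠ N : ℝ in Filter.atTop, 2 * Real.log N ^ 5 + 1 ≤ N := by
    filter_upwards [ev_pow 5 4 1 one_pos, Filter.eventually_ge_atTop (2 : ℝ)] with N hN hN2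
    rw [Real.rpow_one] at hN
    have : 0 ≤ Real.log N ^ 5 := pow_nonneg (Real.log_nonneg (by linarith)) _
    linarith
  obtain ⟨N₀, hN₀⟩ := evN _ (ev1.and (ev2'.and ev3))
  refine ⟨C0 * 100 + C1 * 9 + 200, by positivity, max N₀ 2, le_max_right _ _, fun N hN x y α => ?_⟩
  obtain ⟨g1, g2, g3⟩ := hN₀ N ((le_max_left _ _).trans hN)
  have hN2 : 2 ≤ N := (le_max_right _ _).trans hN
  have hNr : (2 : ℝ) ≤ N := by exact_mod_cast hN2
  set L : ℝ := Real.log N with hL
  have hL16 : 16 ≤ L := (le_max_right _ _).trans g1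
  have hLl : (max l0 l2) ^ 4 ≤ L := (le_max_left _ _).trans ((le_max_left _ _).trans g1)
  have hLe : Real.exp (max 1 C2) ≤ L := (le_max_right _ _).trans ((le_max_left _ _).trans g1)
  have hL0 : 0 < L := by linarith
  set v : ℝ := Real.log L with hv
  have hv0 : max 1 C2 ≤ v := by rw [hv, Real.le_log_iff_exp_le hL0]; exact hLe
  have hv1 : 1 ≤ v := (le_max_left _ _).trans hv0
  have hvC : C2 ≤ v := (le_max_right _ _).trans hv0
  set r : ℝ := √L with hr
  have hr2 : r * r = L := Real.mul_self_sqrt hL0.le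
  have hr4 : 4 ≤ r := Real.le_sqrt_of_sq_le (by linarith)
  have hr0 : 0 < r := by linarith
  set l : ℝ := √r with hl
  have hll : l * l = r := Real.mul_self_sqrt hr0.le
  have hl1 : 2 ≤ l := Real.le_sqrt_of_sq_le (by linarith)
  have hl4 : l ^ 4 = L := by
    calc l ^ 4 = (l * l) * (l * l) := by ring
      _ = L := by rw [hll, hr2]
  have hll1 : max l0 l2 ≤ l := by
    have h1 : (max l0 l2) ^ 4 ≤ l ^ 4 := by rw [hl4]; exact hLl
    exact le_of_pow_le_pow_left₀ (by norm_num) (by linarith) h1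
  have hll0 : l0 ≤ l := (le_max_left _ _).trans hll1
  have hexpl : 2 * L ≤ Real.exp l := by
    have := hl2 l ((le_max_right _ _).trans hll1)
    simp only [one_mul] at this
    rw [hl4] at this
    exact this
  have hvr : v ≤ r := g2
  -- w
  set w : ℕ := ⌊L⌋₊ with hw
  have hwL : (w : ℝ) ≤ L := Nat.floor_le hL0.le
  have hwL2 : L / 2 ≤ w := by
    have := Nat.lt_floor_add_one L
    rw [← hw] at this
    linarith
  have hw1r : (1 : ℝ) ≤ w := by linarith
  have hw1 : 1 ≤ w := by exact_mod_cast hw1r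
  -- D1
  set D1 : ℕ := ⌈L ^ 5⌉₊ with hD1
  have hL5 : L ≤ L ^ 5 := by
    calc L = L * 1 := by ring
      _ ≤ L * L ^ 4 := by
          gcongr
          exact one_le_pow₀ (by linarith)
      _ = L ^ 5 := by ring
  have hD1a : L ^ 5 ≤ D1 := Nat.le_ceil _
  have hD1b : (D1 : ℝ) ≤ L ^ 5 + 1 := (Nat.ceil_lt_add_one (by positivity)).le
  have hD1w : w < D1 := by
    have h1 : L + 1 ≤ L ^ 5 := by
      have h2 : (2 : ℝ) ≤ L ^ 4 := by
        calc (2 : ℝ) ≤ L := by linarith
          _ = L ^ 1 := by ring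
          _ ≤ L ^ 4 := pow_le_pow_right₀ (by linarith) (by norm_num)
      calc L + 1 ≤ L * 2 := by linarith
        _ ≤ L * L ^ 4 := by gcongr
        _ = L ^ 5 := by ring
    have : (w : ℝ) < D1 := by linarith
    exact_mod_cast this
  have hD11 : 1 ≤ D1 := by omega
  have hD11r : (1 : ℝ) ≤ D1 := by exact_mod_cast hD11
  have hD1l : (D1 : ℝ) ≤ l ^ 21 := by
    have h1 : L ^ 5 = l ^ 20 := by rw [← hl4]; ring
    have h2 : (1 : ℝ) ≤ l ^ 20 := one_le_pow₀ (by linarith)
    calc (D1 : ℝ) ≤ l ^ 20 + 1 := by rw [← h1]; exact hD1b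
      _ ≤ 2 * l ^ 20 := by linarith
      _ ≤ l * l ^ 20 := by gcongr
      _ = l ^ 21 := by ring
  have hlogD1 : Real.log D1 ≤ 6 * v := by
    have h1 : (D1 : ℝ) ≤ 2 * L ^ 5 := by
      have : (1 : ℝ) ≤ L ^ 5 := by linarith
      linarith
    have h2 : Real.log D1 ≤ Real.log (2 * L ^ 5) := Real.log_le_log (by linarith) h1
    rw [Real.log_mul (by norm_num) (by positivity), Real.log_pow] at h2
    have := Real.log_two_lt_d9
    push_cast at h2
    linarith
  have hlogD10 : 0 ≤ Real.log (D1 : ℝ) := Real.log_nonneg hD11r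
  have hD1N : D1 ≤ N := by
    have : (D1 : ℝ) ≤ N := by
      have : (0 : ℝ) ≤ L ^ 5 := by positivity
      linarith
    exact_mod_cast this
  -- the functions
  have hM1 : 1 ≤ N - 1 := by omega
  set F : ℕ → ℝ := Fx w (N - 1) x y with hF
  set a : ℕ → ℝ := aF w (N - 1) x y with ha
  have hFn : ∀ n, |F n| ≤ 1 := Fx_le hM1 x y
  have han : ∀ n, |a n| ≤ 1 := aF_le hM1 x y
  -- Dirichlet
  set Qn : ℕ := N / D1 with hQn
  have hQn1 : 0 < Qn := Nat.div_pos hD1N (by omega)
  obtain ⟨ρ, hρ1, hρ2⟩ := Real.exists_rat_abs_sub_le_and_den_le α hQn1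
  set q : ℕ := ρ.den with hq
  have hq1 : 1 ≤ q := ρ.pos
  have hqr : (1 : ℝ) ≤ q := by exact_mod_cast hq1
  have : NeZero q := ⟨by omega⟩
  have hρ : (ρ : ℝ) = (ρ.num : ℝ) / q := by rw [hq]; exact_mod_cast (Rat.num_div_den ρ).symm
  rw [hρ] at hρ1
  have hcop : IsCoprime ρ.num (q : ℤ) := by
    rw [Int.isCoprime_iff_gcd_eq_one]
    have := ρ.reduced
    rw [hq]
    exact this
  have hQq : (q : ℝ) ≤ Qn := by exact_mod_cast hρ2
  rw [le_div_iff₀ hr0]
  have hNpos : (0 : ℝ) < N := by linarith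
  rcases le_or_gt D1 q with hcase | hcase
  · -- minor arcs
    have h1 : |α - (ρ.num : ℝ) / q| ≤ 1 / (q : ℝ) ^ 2 := by
      refine hρ1.trans ?_
      apply one_div_le_one_div_of_le (by positivity)
      rw [sq]
      gcongr
      linarith
    have h2 : q * D1 ≤ N := by
      calc q * D1 ≤ Qn * D1 := Nat.mul_le_mul_right _ hρ2
        _ ≤ N := Nat.div_mul_le_self _ _
    have h3 := hmin N D1 hD11 (by linarith) hD1a F a hFn han
      (fun p m hp hDp hm => Fx_mul w (N - 1) x y p m hp (by omega) hm) q hcase h2 ρ.num hcop α h1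
    have h4 : (1 + Real.log D1) ^ 2 ≤ 49 * (v * r) := by
      have h5 : 1 + Real.log D1 ≤ 7 * v := by linarith
      calc (1 + Real.log D1) ^ 2 ≤ (7 * v) ^ 2 := by gcongr
        _ = 49 * (v * v) := by ring
        _ ≤ 49 * (v * r) := by gcongr
    have h5 : ‖∑ n ∈ range N, (F n : ℂ) * ee (n * α)‖ * (r * r) ≤ (C0 * N * (49 * v)) * r := by
      rw [hr2]
      refine h3.trans ?_
      calc C0 * N * (1 + Real.log D1) ^ 2 ≤ C0 * N * (49 * (v * r)) := by gcongr
        _ = _ := by ring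
    have h6 : ‖∑ n ∈ range N, (F n : ℂ) * ee (n * α)‖ * r ≤ C0 * N * (49 * v) := by
      rw [← mul_assoc] at h5
      exact le_of_mul_le_mul_right h5 hr0
    refine h6.trans ?_
    have h7 : 0 ≤ (N : ℝ) * v := by positivity
    have h8 : 0 ≤ C0 * ((N : ℝ) * v) := by positivity
    have h9 : 0 ≤ C1 * ((N : ℝ) * v) := by positivity
    linarith
  · -- major arcs
    have hlp : 0 ≤ l := by linarith
    obtain ⟨d1, d2, d3⟩ := log_ceil hlp
    set D : ℕ := ⌈Real.exp l⌉₊ with hD
    have hDe : Real.exp l ≤ D := Nat.le_ceil _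
    set β : ℝ := α - (ρ.num : ℝ) / q with hβ
    have hβN : |β| * N ≤ l ^ 21 := by
      have h1 : |β| ≤ 1 / ((Qn : ℝ) + 1) := by
        refine hρ1.trans ?_
        apply one_div_le_one_div_of_le (by positivity)
        exact le_mul_of_one_le_right (by positivity) hqr
      have h2 : (N : ℝ) ≤ D1 * ((Qn : ℝ) + 1) := by
        have h3 : N < D1 * (Qn + 1) := by
          have := Nat.lt_mul_div_succ N (by omega : 0 < D1)
          exact this
        exact_mod_cast h3.le
      calc |β| * N ≤ (1 / ((Qn : ℝ) + 1)) * (D1 * ((Qn : ℝ) + 1)) := by gcongr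
        _ = D1 := by field_simp
        _ ≤ l ^ 21 := hD1l
    have hql : (q : ℝ) ≤ l ^ 21 := by
      have : (q : ℝ) ≤ D1 := by exact_mod_cast hcase.le
      linarith
    have hwD : w < D := by
      have h1 : (w : ℝ) < D := by
        linarith
      exact_mod_cast h1
    have h1 := hls N D d1 (by linarith) F a hFn han
      (fun p m hp hDp hm => Fx_mul w (N - 1) x y p m hp (by omega) hm) α
    have h2 := hmaj l hll0 N D hDe (le_of_eq hl4.symm) q hql ρ.num β hβN a han α (by rw [hβ]; ring)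
    -- S
    obtain ⟨s1, s2, s3⟩ := log_ceil hr0.le
    set S : ℕ := ⌈Real.exp r⌉₊ with hS
    have hS2 : 2 ≤ S := by
      by_contra hcon
      have : S ≤ 1 := by omega
      have : Real.log S ≤ 0 := by
        have h5 : (S : ℝ) ≤ 1 := by exact_mod_cast this
        exact Real.log_nonpos (Nat.cast_nonneg _) h5
      linarith
    have h3 := main_a w S (N - 1) hS2 hM1 hw1 q (ρ.num : ZMod q) x y
    have hIco : ∑ m ∈ Ico 1 N, (a m : ℂ) * kap q ((m : ZMod q) * (ρ.num : ZMod q)) / m =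
        ∑ m ∈ Icc 1 (N - 1), (aF w (N - 1) x y m : ℂ) * kap q ((m : ZMod q) * (ρ.num : ZMod q)) / m := by
      apply sum_congr _ (fun _ _ => rfl)
      ext k; simp only [mem_Icc, mem_Ico]; omega
    rw [hIco] at h2
    -- numerics
    have hHM : H (N - 1) ≤ 2 * L := by
      have h4 := H_le hM1
      have h5 : Real.log ((N - 1 : ℕ) : ℝ) ≤ L := by
        apply Real.log_le_log
        · exact_mod_cast hM1
        · exact_mod_cast Nat.sub_le _ _
      linarith
    have hHM0 := H_nonneg (N - 1)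
    have hP2 : P2 w ≤ 2 * v := by
      have h4 := (abs_le.1 (hC2 w hw1)).2
      have h5 : Real.log w ≤ v := Real.log_le_log (by linarith) hwL
      unfold P2
      linarith
    have hP20 : 0 ≤ P2 w := sum_nonneg fun p hp => by
      have : (1 : ℝ) ≤ p := by exact_mod_cast (mem_filter.1 hp).2.one_lt.le
      have := Real.log_nonneg this
      positivity
    have hEE : EE w S (N - 1) ≤ 11 * (v * r) := by
      unfold EE
      have h4 : 2 * P2 w * H (N - 1) / Real.log S ≤ 8 * (v * r) := by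
        rw [div_le_iff₀ (by linarith)]
        calc 2 * P2 w * H (N - 1) ≤ 2 * (2 * v) * (2 * L) := by gcongr
          _ = 8 * (v * r) * r := by rw [← hr2]; ring
          _ ≤ 8 * (v * r) * Real.log S := by gcongr
      have h5 : 1 + Real.log S ≤ 3 * (v * r) := by
        calc 1 + Real.log S ≤ 3 * (1 * r) := by linarith
          _ ≤ 3 * (v * r) := by gcongr
      linarith
    have hom : 2 * (q.primeFactors.card : ℝ) / w * H (N - 1) ≤ 96 * (v * r) := by
      have h4 : (q.primeFactors.card : ℝ) ≤ 2 * (6 * v) := by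
        have h5 : ((2 : ℝ)) ^ q.primeFactors.card ≤ q := by exact_mod_cast two_pow_omega q (by omega)
        have h6 : (q.primeFactors.card : ℝ) * Real.log 2 ≤ Real.log q := by
          rw [← Real.log_pow]
          exact Real.log_le_log (by positivity) h5
        have h7 : Real.log q ≤ 6 * v := by
          refine le_trans (Real.log_le_log (by linarith) ?_) hlogD1
          exact_mod_cast hcase.le
        have h8 := Real.log_two_gt_d9
        have h9 : (q.primeFactors.card : ℝ) * (1 / 2) ≤ (q.primeFactors.card : ℝ) * Real.log 2 := by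
          gcongr
          linarith
        linarith
      calc 2 * (q.primeFactors.card : ℝ) / w * H (N - 1) ≤ 2 * (2 * (6 * v)) / (L / 2) * (2 * L) := by gcongr
        _ = 96 * (v * 1) := by field_simp; ring
        _ ≤ 96 * (v * r) := by gcongr; linarith
    have hlogD : 1 + Real.log D ≤ 2 * l := by linarith
    have hlogD0 : 0 ≤ Real.log (D : ℝ) := Real.log_nonneg (by exact_mod_cast d1)
    have hD2 : (1 + Real.log D) ^ 2 ≤ 4 * (v * r) := by
      calc (1 + Real.log D) ^ 2 ≤ (2 * l) ^ 2 := by gcongr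
        _ = 4 * (1 * (l * l)) := by ring
        _ ≤ 4 * (v * r) := by rw [hll]; gcongr
    have hD3 : 1 + Real.log D ≤ v * r := by
      calc 1 + Real.log D ≤ 2 * l := hlogD
        _ ≤ l * l := by gcongr
        _ = 1 * r := by rw [hll, one_mul]
        _ ≤ v * r := by gcongr
    have h5 : ‖∑ n ∈ range N, (F n : ℂ) * ee (n * α)‖ * (r * r) ≤ ((C1 * 4 + 148) * N * v) * r := by
      rw [hr2]
      refine h1.trans ?_
      have h6 : ‖∑ m ∈ Icc 1 (N - 1), (aF w (N - 1) x y m : ℂ) * kap q ((m : ZMod q) * (ρ.num : ZMod q)) / m‖ ≤ 140 * (v * r) := by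
        linarith
      calc C1 * N * (1 + Real.log D) ^ 2 + ‖∑ x ∈ (QQ N).filter (fun x => D ≤ x.1 ∧ D ≤ x.2), FG a α x‖
          ≤ C1 * N * (4 * (v * r)) + (N * (140 * (v * r)) + 8 * N * (v * r)) := by
            apply add_le_add
            · gcongr
            · refine h2.trans ?_
              gcongr
        _ = _ := by ring
    have h6 : ‖∑ n ∈ range N, (F n : ℂ) * ee (n * α)‖ * r ≤ (C1 * 4 + 148) * N * v := by
      rw [← mul_assoc] at h5
      exact le_of_mul_le_mul_right h5 hr0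
    refine h6.trans ?_
    have h7 : 0 ≤ (N : ℝ) * v := by positivity
    have h8 : 0 ≤ C0 * ((N : ℝ) * v) := by positivity
    have h9 : 0 ≤ C1 * ((N : ℝ) * v) := by positivity
    linarith

end Pool.Agent.TH445.OI
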