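import Mathlib
import Pool.Agent.TH445.OI.A5
import Pool.Agent.Helper256.KM.Mertens

set_option autoImplicit false

/-! The logarithmic law of `Y` is nearly invariant under the shift by one. -/

open Finset

namespace Pool.Agent.TH445.OI

/-- the primes in `(w, M]` -/
def PW (w M : ℕ) : Finset ℕ := (Icc (w + 1) M).filter Nat.Prime

lemma mem_PW {w M p : ℕ} : p ∈ PW w M ↔ w < p ∧ p ≤ M ∧ p.Prime := by
  unfold PW
  rw [mem_filter, mem_Icc]
  constructor
  · rintro ⟨⟨h1, h2⟩, h3⟩; exact ⟨h1, h2, h3⟩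
  · rintro ⟨h1, h2, h3⟩; exact ⟨⟨h1, h2⟩, h3⟩

/-- the sum of `1 / p` over `(w, M]` -/
noncomputable def VW (w M : ℕ) : ℝ := ∑ p ∈ PW w M, (1 : ℝ) / p

/-- the number of the distinct prime factors in `(w, M]` -/
def Z (w M m : ℕ) : ℕ := ((PW w M).filter (fun p => p ∣ m)).card

lemma Z_eq (w M m : ℕ) : (Z w M m : ℝ) = ∑ p ∈ PW w M, (if p ∣ m then (1 : ℝ) else 0) := by
  unfold Z
  rw [card_filter]
  push_cast
  rfl

lemma sum_multC (p M : ℕ) (hp : p.Prime) (g : ℕ → ℂ) :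
    ∑ m ∈ Icc 1 M, (if p ∣ m then g m else 0) = ∑ m ∈ Icc 1 (M / p), g (p * m) := by
  have hp0 : 0 < p := hp.pos
  rw [← sum_filter]
  symm
  apply sum_nbij' (fun m => p * m) (fun m => m / p)
  · intro m hm
    rw [mem_Icc] at hm
    rw [mem_filter, mem_Icc]
    refine ⟨⟨?_, ?_⟩, dvd_mul_right _ _⟩
    · nlinarith [hm.1]
    · calc p * m ≤ p * (M / p) := Nat.mul_le_mul_left _ hm.2
        _ ≤ M := Nat.mul_div_le _ _
  · intro m hm
    rw [mem_filter, mem_Icc] at hm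
    rw [mem_Icc]
    exact ⟨Nat.div_pos (Nat.le_of_dvd hm.1.1 hm.2) hp0, Nat.div_le_div_right hm.1.2⟩
  · intro m _
    exact Nat.mul_div_cancel_left m hp0
  · intro m hm
    exact Nat.mul_div_cancel' (mem_filter.1 hm).2
  · intro m _
    rfl

lemma tail_p (p M : ℕ) (hp : 1 ≤ p) (hM : 1 ≤ M) : ∑ m ∈ Ioc (M / p) M, (1 : ℝ) / m ≤ 1 + Real.log p := by
  have hpr : (1 : ℝ) ≤ p := by exact_mod_cast hp
  have h0 : Ioc (M / p) M = Ico (M / p + 1) (M + 1) := by
    ext k; simp only [mem_Ioc, mem_Ico]; omega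
  rw [h0]
  rcases Nat.lt_or_ge M (M / p + 1) with h | h
  · rw [Ico_eq_empty (by omega), sum_empty]
    have := Real.log_nonneg hpr
    linarith
  refine (tail_inv _ (Nat.le_add_left 1 _) M h).trans (add_le_add ?_ ?_)
  · rw [div_le_one (by positivity)]
    push_cast
    have : (0 : ℝ) ≤ ((M / p : ℕ) : ℝ) := Nat.cast_nonneg _
    linarith
  · apply Real.log_le_log
    · have : (0 : ℝ) < M := by exact_mod_cast hM
      positivity
    · rw [div_le_iff₀ (by positivity)]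
      have : M ≤ p * (M / p + 1) := by
        have h1 := Nat.div_add_mod M p
        have h2 := Nat.mod_lt M (by omega : 0 < p)
        rw [Nat.mul_succ]
        omega
      exact_mod_cast this

lemma H_split (p M : ℕ) : H M = H (M / p) + ∑ m ∈ Ioc (M / p) M, (1 : ℝ) / m := by
  unfold H
  have h1 : Icc 1 M = Icc 1 (M / p) ∪ Ioc (M / p) M := by
    have := Nat.div_le_self M p
    generalize M / p = j at *
    ext k; simp only [mem_union, mem_Icc, mem_Ioc]; omega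
  rw [h1, sum_union]
  rw [disjoint_left]
  intro k hk1 hk2
  rw [mem_Icc] at hk1
  rw [mem_Ioc] at hk2
  omega

lemma tails_le (w M : ℕ) (hM : 1 ≤ M) : ∑ p ∈ PW w M, (1 / (p : ℝ)) * (1 + Real.log p) ≤ P1 M + P2 M := by
  unfold P1 P2
  rw [← sum_add_distrib]
  calc ∑ p ∈ PW w M, (1 / (p : ℝ)) * (1 + Real.log p) = ∑ p ∈ PW w M, ((1 : ℝ) / p + Real.log p / p) := by
        apply sum_congr rfl; intro p _; ring
    _ ≤ _ := by
        apply sum_le_sum_of_subset_of_nonneg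
        · intro p hp
          rw [mem_PW] at hp
          rw [mem_filter, mem_Icc]
          exact ⟨⟨hp.2.2.one_lt.le, hp.2.1⟩, hp.2.2⟩
        · intro p hp _
          have : (1 : ℝ) ≤ p := by exact_mod_cast (mem_filter.1 hp).2.one_lt.le
          have := Real.log_nonneg this
          positivity

lemma first_moment (w M : ℕ) (hM : 1 ≤ M) : VW w M * H M - (P1 M + P2 M) ≤ ∑ m ∈ Icc 1 M, (Z w M m : ℝ) / m := by
  have h1 : ∑ m ∈ Icc 1 M, (Z w M m : ℝ) / m = ∑ p ∈ PW w M, (1 / (p : ℝ)) * H (M / p) := by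
    simp_rw [Z_eq, sum_div]
    rw [sum_comm]
    apply sum_congr rfl
    intro p hp
    rw [sum_mult p M (mem_PW.1 hp).2.2 (fun m => (if p ∣ m then (1 : ℝ) else 0) / m) (fun m h => by simp [h])]
    unfold H
    rw [mul_sum]
    apply sum_congr rfl
    intro m _
    rw [if_pos (dvd_mul_right _ _)]
    push_cast
    rw [div_mul_div_comm, mul_one]
  rw [h1]
  have h2 := tails_le w M hM
  have h3 : ∑ p ∈ PW w M, (1 / (p : ℝ)) * H (M / p) ≥ ∑ p ∈ PW w M, ((1 / (p : ℝ)) * H M - (1 / (p : ℝ)) * (1 + Real.log p)) := by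
    apply sum_le_sum
    intro p hp
    rw [← mul_sub]
    have h4 := tail_p p M (mem_PW.1 hp).2.2.one_lt.le hM
    have h5 := H_split p M
    apply mul_le_mul_of_nonneg_left _ (by positivity)
    linarith
  rw [sum_sub_distrib, ← sum_mul] at h3
  unfold VW
  linarith

lemma second_moment (w M : ℕ) : ∑ m ∈ Icc 1 M, (Z w M m : ℝ) ^ 2 / m ≤ (VW w M ^ 2 + VW w M) * H M := by
  have h1 : ∑ m ∈ Icc 1 M, (Z w M m : ℝ) ^ 2 / m = ∑ p ∈ PW w M, ∑ q ∈ PW w M, ∑ m ∈ Icc 1 M, (if p ∣ m ∧ q ∣ m then (1 : ℝ) else 0) / m := by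
    have e1 : ∀ m : ℕ, (Z w M m : ℝ) ^ 2 / m = ∑ p ∈ PW w M, ∑ q ∈ PW w M, (if p ∣ m ∧ q ∣ m then (1 : ℝ) else 0) / m := by
      intro m
      rw [Z_eq, sq, sum_mul_sum, sum_div]
      apply sum_congr rfl
      intro p _
      rw [sum_div]
      apply sum_congr rfl
      intro q _
      congr 1
      by_cases h1 : p ∣ m <;> by_cases h2 : q ∣ m <;> simp [h1, h2]
    simp_rw [e1]
    rw [sum_comm]
    apply sum_congr rfl
    intro p _
    rw [sum_comm]
  rw [h1]
  have h2 : ∀ p ∈ PW w M, ∀ q ∈ PW w M, ∑ m ∈ Icc 1 M, (if p ∣ m ∧ q ∣ m then (1 : ℝ) else 0) / m ≤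
      ((1 : ℝ) / p) * (1 / q) * H M + (if q = p then (1 : ℝ) / p * H M else 0) := by
    intro p hp q hq
    have hpp := (mem_PW.1 hp).2.2
    have hqp := (mem_PW.1 hq).2.2
    have hH := H_nonneg M
    by_cases hpq : q = p
    · rw [if_pos hpq, hpq]
      have e2 : ∑ m ∈ Icc 1 M, (if p ∣ m ∧ p ∣ m then (1 : ℝ) else 0) / m ≤ 1 / p * H M := by
        rw [sum_mult p M hpp (fun m => (if p ∣ m ∧ p ∣ m then (1 : ℝ) else 0) / m) (fun m h => by simp [h])]
        have e3 : ∑ m ∈ Icc 1 (M / p), (if p ∣ p * m ∧ p ∣ p * m then (1 : ℝ) else 0) / ((p * m : ℕ) : ℝ) = 1 / p * H (M / p) := by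
          unfold H
          rw [mul_sum]
          apply sum_congr rfl
          intro m _
          rw [if_pos ⟨dvd_mul_right _ _, dvd_mul_right _ _⟩]
          push_cast
          rw [div_mul_div_comm, mul_one]
        rw [e3]
        have := H_mono (Nat.div_le_self M p)
        gcongr
      have : 0 ≤ (1 : ℝ) / p * (1 / p) * H M := by positivity
      linarith
    · rw [if_neg hpq, add_zero]
      have hcop : Nat.Coprime p q := (Nat.coprime_primes hpp hqp).2 (fun h => hpq h.symm)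
      calc ∑ m ∈ Icc 1 M, (if p ∣ m ∧ q ∣ m then (1 : ℝ) else 0) / m
          = ∑ m ∈ (Icc 1 M).filter (fun m => p * q ∣ m), (1 : ℝ) / m := by
            rw [sum_filter]
            apply sum_congr rfl
            intro m _
            by_cases h : p * q ∣ m
            · rw [if_pos h, if_pos ⟨dvd_of_mul_right_dvd h, dvd_of_mul_left_dvd h⟩]
            · rw [if_neg h, if_neg, zero_div]
              intro h3
              exact h (hcop.mul_dvd_of_dvd_of_dvd h3.1 h3.2)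
        _ ≤ ∑ m ∈ (Icc 1 M).image (fun m => p * q * m), (1 : ℝ) / m := by
            apply sum_le_sum_of_subset_of_nonneg
            · intro m hm
              rw [mem_filter, mem_Icc] at hm
              obtain ⟨c, hc⟩ := hm.2
              rw [mem_image]
              have hc0 : c ≠ 0 := by rintro rfl; omega
              refine ⟨c, ?_, hc.symm⟩
              rw [mem_Icc]
              refine ⟨Nat.pos_of_ne_zero hc0, ?_⟩
              have h5 : 1 ≤ p * q := Nat.mul_pos hpp.pos hqp.pos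
              nlinarith
            · intro _ _ _; positivity
        _ ≤ ((1 : ℝ) / p) * (1 / q) * H M := by
            rw [sum_image]
            · unfold H
              rw [mul_sum]
              apply le_of_eq
              apply sum_congr rfl
              intro m _
              push_cast
              rw [div_mul_div_comm, div_mul_div_comm, mul_one, mul_one]
            · intro a _ b _ hab
              have h5 : 0 < p * q := Nat.mul_pos hpp.pos hqp.pos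
              exact Nat.eq_of_mul_eq_mul_left h5 hab
  calc ∑ p ∈ PW w M, ∑ q ∈ PW w M, ∑ m ∈ Icc 1 M, (if p ∣ m ∧ q ∣ m then (1 : ℝ) else 0) / m
      ≤ ∑ p ∈ PW w M, ∑ q ∈ PW w M, (((1 : ℝ) / p) * (1 / q) * H M + (if q = p then (1 : ℝ) / p * H M else 0)) :=
        sum_le_sum fun p hp => sum_le_sum fun q hq => h2 p hp q hq
    _ = _ := by
        simp_rw [sum_add_distrib]
        have e4 : ∑ p ∈ PW w M, ∑ q ∈ PW w M, (if q = p then (1 : ℝ) / p * H M else 0) = VW w M * H M := by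
          unfold VW
          rw [sum_mul]
          apply sum_congr rfl
          intro p hp
          rw [sum_ite_eq' (PW w M) p, if_pos hp]
        have e5 : ∑ p ∈ PW w M, ∑ q ∈ PW w M, ((1 : ℝ) / p) * (1 / q) * H M = VW w M ^ 2 * H M := by
          simp_rw [← sum_mul]
          rw [sq]
          unfold VW
          rw [sum_mul_sum]
        rw [e4, e5]
        ring

lemma variance (w M : ℕ) (hM : 1 ≤ M) : ∑ m ∈ Icc 1 M, ((Z w M m : ℝ) - VW w M) ^ 2 / m ≤ VW w M * H M + 2 * VW w M * (P1 M + P2 M) := by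
  have h1 := first_moment w M hM
  have h2 := second_moment w M
  have hV : 0 ≤ VW w M := sum_nonneg fun _ _ => by positivity
  have h3 : ∑ m ∈ Icc 1 M, ((Z w M m : ℝ) - VW w M) ^ 2 / m = ∑ m ∈ Icc 1 M, (Z w M m : ℝ) ^ 2 / m -
      2 * VW w M * ∑ m ∈ Icc 1 M, (Z w M m : ℝ) / m + VW w M ^ 2 * H M := by
    unfold H
    rw [mul_sum, mul_sum, ← sum_sub_distrib, ← sum_add_distrib]
    apply sum_congr rfl
    intro m _
    ring
  rw [h3]
  nlinarith

/-- the recursion -/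
lemma recursion (w M : ℕ) (hM : 1 ≤ M) (g : ℕ → ℂ) (hg : ∀ n, ‖g n‖ ≤ 1) :
    ‖(VW w M : ℂ) * ∑ m ∈ Icc 1 M, g (Y w m + 1) / m - ∑ m ∈ Icc 1 M, (Z w M m : ℂ) * g (Y w m) / m‖ ≤ P1 M + P2 M := by
  have h1 : ∑ m ∈ Icc 1 M, (Z w M m : ℂ) * g (Y w m) / m = ∑ p ∈ PW w M, (1 / (p : ℂ)) * ∑ m ∈ Icc 1 (M / p), g (Y w m + 1) / m := by
    have e1 : ∀ m : ℕ, (Z w M m : ℂ) * g (Y w m) / m = ∑ p ∈ PW w M, (if p ∣ m then g (Y w m) / m else 0) := by
      intro m
      have : (Z w M m : ℂ) = ∑ p ∈ PW w M, (if p ∣ m then (1 : ℂ) else 0) := by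
        unfold Z
        rw [card_filter]
        push_cast
        rfl
      rw [this, sum_mul, sum_div]
      apply sum_congr rfl
      intro p _
      split_ifs <;> simp
    simp_rw [e1]
    rw [sum_comm]
    apply sum_congr rfl
    intro p hp
    rw [mem_PW] at hp
    rw [sum_multC p M hp.2.2, mul_sum]
    apply sum_congr rfl
    intro m hm
    have hm0 : m ≠ 0 := by have := (mem_Icc.1 hm).1; omega
    rw [Y_mul w hp.2.2.ne_zero hm0, Y_prime hp.2.2 hp.1, add_comm 1]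
    push_cast
    rw [div_mul_div_comm, one_mul]
  have h2 : (VW w M : ℂ) * ∑ m ∈ Icc 1 M, g (Y w m + 1) / m = ∑ p ∈ PW w M, (1 / (p : ℂ)) * ∑ m ∈ Icc 1 M, g (Y w m + 1) / m := by
    unfold VW
    push_cast
    rw [sum_mul]
  rw [h1, h2, ← sum_sub_distrib]
  refine le_trans ?_ (tails_le w M hM)
  refine (norm_sum_le _ _).trans (sum_le_sum fun p hp => ?_)
  rw [mem_PW] at hp
  rw [← mul_sub, norm_mul]
  have e2 : ‖(1 / (p : ℂ))‖ = 1 / (p : ℝ) := by simp
  rw [e2]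
  gcongr
  have e3 : ∑ m ∈ Icc 1 M, g (Y w m + 1) / (m : ℂ) - ∑ m ∈ Icc 1 (M / p), g (Y w m + 1) / (m : ℂ) = ∑ m ∈ Ioc (M / p) M, g (Y w m + 1) / (m : ℂ) := by
    have h4 : Icc 1 M = Icc 1 (M / p) ∪ Ioc (M / p) M := by
      have := Nat.div_le_self M p
      generalize M / p = j at *
      ext k; simp only [mem_union, mem_Icc, mem_Ioc]; omega
    rw [h4, sum_union]
    · ring
    · rw [disjoint_left]
      intro k hk1 hk2
      rw [mem_Icc] at hk1
      rw [mem_Ioc] at hk2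
      omega
  rw [e3]
  refine le_trans ?_ (tail_p p M hp.2.2.one_lt.le hM)
  refine (norm_sum_le _ _).trans (sum_le_sum fun m _ => ?_)
  rw [norm_div, Complex.norm_natCast]
  gcongr
  exact hg _

/-- near invariance, explicit form -/
lemma inv_explicit (w M : ℕ) (hM : 1 ≤ M) (hV : 0 < VW w M) (g : ℕ → ℂ) (hg : ∀ n, ‖g n‖ ≤ 1) :
    ‖∑ m ∈ Icc 1 M, g (Y w m + 1) / m - ∑ m ∈ Icc 1 M, g (Y w m) / m‖ ≤
      ((P1 M + P2 M) + √(H M * (VW w M * H M + 2 * VW w M * (P1 M + P2 M)))) / VW w M := by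
  rw [le_div_iff₀ hV]
  have h1 := recursion w M hM g hg
  have h2 := variance w M hM
  have h3 : ‖∑ m ∈ Icc 1 M, ((Z w M m : ℂ) - VW w M) * g (Y w m) / m‖ ≤ √(H M * (VW w M * H M + 2 * VW w M * (P1 M + P2 M))) := by
    apply Real.le_sqrt_of_sq_le
    have e1 : ‖∑ m ∈ Icc 1 M, ((Z w M m : ℂ) - VW w M) * g (Y w m) / m‖ ≤ ∑ m ∈ Icc 1 M, √((1 : ℝ) / m) * √(((Z w M m : ℝ) - VW w M) ^ 2 / m) := by
      refine (norm_sum_le _ _).trans (sum_le_sum fun m hm => ?_)
      have hm0 : (0 : ℝ) < m := by exact_mod_cast (mem_Icc.1 hm).1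
      rw [norm_div, norm_mul, Complex.norm_natCast]
      have e2 : ‖(Z w M m : ℂ) - VW w M‖ = |(Z w M m : ℝ) - VW w M| := by
        have : (Z w M m : ℂ) - VW w M = (((Z w M m : ℝ) - VW w M : ℝ) : ℂ) := by push_cast; rfl
        rw [this, Complex.norm_real, Real.norm_eq_abs]
      rw [e2, ← Real.sqrt_mul (by positivity), ← Real.sqrt_sq_eq_abs]
      have e3 : √((1 : ℝ) / m * (((Z w M m : ℝ) - VW w M) ^ 2 / m)) = √(((Z w M m : ℝ) - VW w M) ^ 2) / m := by
        rw [div_mul_div_comm, one_mul, Real.sqrt_div (sq_nonneg _), Real.sqrt_mul_self hm0.le]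
      rw [e3]
      gcongr
      exact mul_le_of_le_one_right (Real.sqrt_nonneg _) (hg _)
    have e4 := sum_mul_sq_le_sq_mul_sq (Icc 1 M) (fun m : ℕ => √((1 : ℝ) / m)) (fun m : ℕ => √(((Z w M m : ℝ) - VW w M) ^ 2 / m))
    have e5 : ∑ m ∈ Icc 1 M, (√((1 : ℝ) / (m : ℝ))) ^ 2 = H M := by
      unfold H
      apply sum_congr rfl
      intro m _
      exact Real.sq_sqrt (by positivity)
    have e6 : ∑ m ∈ Icc 1 M, (√(((Z w M m : ℝ) - VW w M) ^ 2 / (m : ℝ))) ^ 2 = ∑ m ∈ Icc 1 M, ((Z w M m : ℝ) - VW w M) ^ 2 / m := by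
      apply sum_congr rfl
      intro m _
      exact Real.sq_sqrt (by positivity)
    rw [e5, e6] at e4
    calc ‖∑ m ∈ Icc 1 M, ((Z w M m : ℂ) - VW w M) * g (Y w m) / m‖ ^ 2
        ≤ (∑ m ∈ Icc 1 M, √((1 : ℝ) / m) * √(((Z w M m : ℝ) - VW w M) ^ 2 / m)) ^ 2 := by gcongr
      _ ≤ H M * ∑ m ∈ Icc 1 M, ((Z w M m : ℝ) - VW w M) ^ 2 / m := e4
      _ ≤ _ := by
          have := H_nonneg M
          gcongr
  have h4 : (∑ m ∈ Icc 1 M, g (Y w m + 1) / m - ∑ m ∈ Icc 1 M, g (Y w m) / m) * (VW w M : ℂ) =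
      ((VW w M : ℂ) * ∑ m ∈ Icc 1 M, g (Y w m + 1) / m - ∑ m ∈ Icc 1 M, (Z w M m : ℂ) * g (Y w m) / m) +
      ∑ m ∈ Icc 1 M, ((Z w M m : ℂ) - VW w M) * g (Y w m) / m := by
    have e7 : ∑ m ∈ Icc 1 M, ((Z w M m : ℂ) - VW w M) * g (Y w m) / m = ∑ m ∈ Icc 1 M, (Z w M m : ℂ) * g (Y w m) / m - (VW w M : ℂ) * ∑ m ∈ Icc 1 M, g (Y w m) / m := by
      rw [mul_sum, ← sum_sub_distrib]
      apply sum_congr rfl
      intro m _
      ring
    rw [e7]; ring
  have h5 : ‖∑ m ∈ Icc 1 M, g (Y w m + 1) / (m : ℂ) - ∑ m ∈ Icc 1 M, g (Y w m) / (m : ℂ)‖ * VW w M =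
      ‖(∑ m ∈ Icc 1 M, g (Y w m + 1) / (m : ℂ) - ∑ m ∈ Icc 1 M, g (Y w m) / (m : ℂ)) * (VW w M : ℂ)‖ := by
    rw [norm_mul, Complex.norm_real, Real.norm_of_nonneg hV.le]
  rw [h5, h4]
  exact (norm_add_le _ _).trans (add_le_add h1 h3)

end Pool.Agent.TH445.OI
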