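import Mathlib
import Pool.Agent.TH445.OI.A6
import Pool.Agent.TH445.OI.A7

set_option autoImplicit false

/-! A fixed shift: from the correlations with the classes to the joint law. -/

open Finset

namespace Pool.Agent.TH445.OI

/-- the logarithmic mean of `g (Y + 1)` -/
noncomputable def EL (w M : ℕ) (g : ℕ → ℂ) : ℂ := (∑ m ∈ Icc 1 M, g (Y w m + 1) / m) / H M

lemma EL_norm (w M : ℕ) (hM : 1 ≤ M) (g : ℕ → ℂ) (G : ℕ → ℝ) (hg : ∀ t, ‖g t‖ ≤ G t) :
    ‖EL w M g‖ ≤ (∑ m ∈ Icc 1 M, G (Y w m + 1) / m) / H M := by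
  unfold EL
  have hH := H_pos hM
  rw [norm_div, Complex.norm_real, Real.norm_of_nonneg hH.le]
  gcongr
  refine (norm_sum_le _ _).trans (sum_le_sum fun m _ => ?_)
  rw [norm_div, Complex.norm_natCast]
  gcongr
  exact hg _

lemma EL_sub (w M : ℕ) (g g' : ℕ → ℂ) : EL w M g - EL w M g' = EL w M (fun t => g t - g' t) := by
  unfold EL
  rw [← sub_div, ← sum_sub_distrib]
  congr 1
  apply sum_congr rfl
  intro m _
  ring

lemma EL_one (w M : ℕ) (hM : 1 ≤ M) (g : ℕ → ℂ) (hg : ∀ t, ‖g t‖ ≤ 1) : ‖EL w M g‖ ≤ 1 := by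
  refine (EL_norm w M hM g (fun _ => 1) hg).trans (le_of_eq ?_)
  exact div_self (H_pos hM).ne'

/-- truncated sums against `lam` -/
lemma EL_lam (w M J : ℕ) (g : ℕ → ℂ) :
    EL w M (fun t => if t < J then g t else 0) = ∑ y ∈ range J, (lam w M y : ℂ) * g y := by
  unfold EL lam
  have h1 : ∀ m : ℕ, (if Y w m + 1 < J then g (Y w m + 1) else 0) / (m : ℂ) =
      ∑ y ∈ range J, (if Y w m + 1 = y then (1 : ℂ) / m else 0) * g y := by
    intro m
    by_cases h : Y w m + 1 < J
    · rw [if_pos h, sum_eq_single (Y w m + 1)]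
      · rw [if_pos rfl]; ring
      · intro y _ hy
        rw [if_neg (fun h2 => hy h2.symm), zero_mul]
      · intro h2
        exact absurd (mem_range.2 h) h2
    · rw [if_neg h, zero_div]
      symm
      apply sum_eq_zero
      intro y hy
      rw [if_neg, zero_mul]
      intro h2
      rw [mem_range] at hy
      omega
  simp_rw [h1]
  rw [sum_comm, sum_div]
  apply sum_congr rfl
  intro y _
  have e : ((∑ m ∈ Icc 1 M, (if Y w m + 1 = y then (1 : ℝ) / m else 0) : ℝ) : ℂ) =
      ∑ m ∈ Icc 1 M, (if Y w m + 1 = y then (1 : ℂ) / m else 0) := by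
    rw [Complex.ofReal_sum]
    apply sum_congr rfl
    intro m _
    split_ifs <;> push_cast <;> rfl
  rw [Complex.ofReal_div, e, ← sum_mul]
  ring

/-- the size of the change of the law under the shift -/
def Sig (w M : ℕ) (σ : ℝ) : Prop := ∀ g : ℕ → ℂ, (∀ t, ‖g t‖ ≤ 1) → ‖EL w M g - EL w M (fun t => g (t - 1))‖ ≤ σ

lemma sig_of (w M : ℕ) (hM : 1 ≤ M) (hV : 0 < VW w M) :
    Sig w M ((((P1 M + P2 M) + √(H M * (VW w M * H M + 2 * VW w M * (P1 M + P2 M)))) / VW w M) / H M) := by
  intro g hg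
  have h1 := inv_explicit w M hM hV g hg
  unfold EL
  have hH := H_pos hM
  rw [← sub_div, norm_div, Complex.norm_real, Real.norm_of_nonneg hH.le]
  gcongr
  exact h1

lemma EL_shift (w M : ℕ) (σ : ℝ) (hσ : Sig w M σ) (g : ℕ → ℂ) (hg : ∀ t, ‖g t‖ ≤ 1) (x : ℕ) :
    ‖EL w M (fun t => g (x + t)) - EL w M g‖ ≤ x * σ := by
  induction x with
  | zero => simp
  | succ x ih =>
    have h1 := hσ (fun t => g (x + 1 + t)) (fun t => hg _)
    have h2 : EL w M (fun t => (fun t => g (x + 1 + t)) (t - 1)) = EL w M (fun t => g (x + t)) := by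
      unfold EL
      congr 1
      apply sum_congr rfl
      intro m _
      simp only [Nat.add_sub_cancel]
      rw [show x + 1 + Y w m = x + (Y w m + 1) by ring]
    rw [h2] at h1
    have h3 : EL w M (fun t => g (x + 1 + t)) - EL w M g =
        (EL w M (fun t => g (x + 1 + t)) - EL w M (fun t => g (x + t))) + (EL w M (fun t => g (x + t)) - EL w M g) := by ring
    rw [h3]
    refine (norm_add_le _ _).trans ?_
    push_cast
    linarith

/-- the sum of the correlations with the classes -/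
noncomputable def Del (w M N R J : ℕ) (f : ℕ → ℕ) (h : ℕ) : ℝ :=
  ∑ c ∈ range R, ∑ x ∈ range J, ∑ y ∈ range J, ‖∑ n ∈ Icc 1 N, (if f n = c then (1 : ℂ) else 0) * (Fx w M x y (n + h) : ℂ)‖

lemma X_le_card (w : ℕ) {n : ℕ} (hn : n ≠ 0) : X w n ≤ ArithmeticFunction.cardFactors n := by
  have := X_add_Y w hn
  omega

lemma Y_le_card (w : ℕ) {n : ℕ} (hn : n ≠ 0) : Y w n ≤ ArithmeticFunction.cardFactors n := by
  have := X_add_Y w hn
  omega

lemma Om_sum (M : ℕ) : ∑ m ∈ Icc 1 M, ((ArithmeticFunction.cardFactors m : ℕ) : ℝ) ≤ 2 * P1 M * M := by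
  refine le_trans (le_of_eq ?_) (X_sum M M)
  apply sum_congr rfl
  intro m hm
  rw [mem_Icc] at hm
  rw [card_eq_X (by omega) hm.2]

lemma shift_sum (N M h : ℕ) (hM : N + h ≤ M) (g : ℕ → ℝ) (hg : ∀ n, 0 ≤ g n) :
    ∑ n ∈ Icc 1 N, g (n + h) ≤ ∑ n ∈ Icc 1 M, g n := by
  have h1 : ∑ n ∈ Icc 1 N, g (n + h) = ∑ n ∈ (Icc 1 N).image (fun n => n + h), g n := by
    rw [sum_image]
    intro a _ b _ hab
    exact Nat.add_right_cancel hab
  rw [h1]
  apply sum_le_sum_of_subset_of_nonneg
  · intro k hk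
    rw [mem_image] at hk
    obtain ⟨n, hn, rfl⟩ := hk
    rw [mem_Icc] at *
    omega
  · intro _ _ _; exact hg _

lemma P1_nonneg (w : ℕ) : 0 ≤ P1 w := sum_nonneg fun _ _ => by positivity

lemma EL_tail (w M J : ℕ) (hM : 1 ≤ M) (hJ : 1 ≤ J) :
    (∑ m ∈ Icc 1 M, (if Y w m + 1 < J then (0 : ℝ) else 1) / m) / H M ≤ (2 * P1 M + 1) / J := by
  have hH := H_pos hM
  have hJr : (0 : ℝ) < J := by exact_mod_cast hJ
  rw [div_le_div_iff₀ hH hJr]
  calc (∑ m ∈ Icc 1 M, (if Y w m + 1 < J then (0 : ℝ) else 1) / m) * J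
      = ∑ m ∈ Icc 1 M, (if Y w m + 1 < J then (0 : ℝ) else 1) * J / m := by
        rw [sum_mul]; apply sum_congr rfl; intro m _; ring
    _ ≤ ∑ m ∈ Icc 1 M, ((X M m : ℝ) / m + 1 / m) := by
        apply sum_le_sum
        intro m hm
        rw [mem_Icc] at hm
        rw [← add_div]
        gcongr
        have h1 : (Y w m : ℝ) ≤ X M m := by
          have := Y_le_card w (by omega : m ≠ 0)
          rw [card_eq_X (by omega) hm.2] at this
          exact_mod_cast this
        split_ifs with h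
        · rw [zero_mul]; positivity
        · have : (J : ℝ) ≤ Y w m + 1 := by exact_mod_cast not_lt.1 h
          linarith
    _ = ∑ m ∈ Icc 1 M, (X M m : ℝ) / m + H M := by rw [sum_add_distrib]; rfl
    _ ≤ 2 * P1 M * H M + H M := by
        have := X_logsum M M
        linarith
    _ = _ := by ring

set_option maxHeartbeats 1000000 in
theorem star (w M N R J : ℕ) (hM : 1 ≤ M) (hJ : 1 ≤ J) (f : ℕ → ℕ) (hf : ∀ n, f n < R) (h : ℕ) (hh : N + h ≤ M)
    (σ : ℝ) (hσ : Sig w M σ) (b : ℕ → ℕ → ℂ) (hb : ∀ c l, ‖b c l‖ ≤ 1) :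
    ‖∑ n ∈ Icc 1 N, b (f n) (ArithmeticFunction.cardFactors (n + h)) - ∑ n ∈ Icc 1 N, EL w M (b (f n))‖ ≤
      Del w M N R J f h + 2 * (2 * P1 M * M) / J + N * ((2 * P1 M + 1) / J) + 2 * P1 w * M * σ := by
  have hJr : (0 : ℝ) < J := by exact_mod_cast hJ
  have hσ0 : 0 ≤ σ := (norm_nonneg _).trans (hσ (fun _ => 0) (by intro t; simp))
  set A : ℕ → ℂ := fun n => ∑ x ∈ range J, ∑ y ∈ range J,
    (((if X w (n + h) = x then (1 : ℝ) else 0) * (if Y w (n + h) = y then 1 else 0) : ℝ) : ℂ) * b (f n) (x + y) with hA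
  set B : ℕ → ℂ := fun n => ∑ x ∈ range J, ∑ y ∈ range J,
    (((if X w (n + h) = x then (1 : ℝ) else 0) * lam w M y : ℝ) : ℂ) * b (f n) (x + y) with hB
  set Cc : ℕ → ℂ := fun n => EL w M (fun t => b (f n) (X w (n + h) + t)) with hC
  set ind : ℕ → ℝ := fun n => if ArithmeticFunction.cardFactors (n + h) < J then 0 else 1 with hind
  -- step 1
  have s1 : ∀ n ∈ Icc 1 N, ‖b (f n) (ArithmeticFunction.cardFactors (n + h)) - A n‖ ≤ ind n := by
    intro n hn
    rw [mem_Icc] at hn
    have hn0 : n + h ≠ 0 := by omega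
    have hXY := X_add_Y w hn0
    by_cases hx : X w (n + h) < J ∧ Y w (n + h) < J
    · have : A n = b (f n) (ArithmeticFunction.cardFactors (n + h)) := by
        rw [hA]; simp only
        rw [sum_eq_single (X w (n + h)), sum_eq_single (Y w (n + h))]
        · rw [if_pos rfl, if_pos rfl, hXY]; simp
        · intro y _ hy
          rw [if_neg (show ¬ (Y w (n + h) = y) from fun h2 => hy h2.symm)]; simp
        · intro h2; exact absurd (mem_range.2 hx.2) h2
        · intro x _ hx'
          apply sum_eq_zero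
          intro y _
          rw [if_neg (show ¬ (X w (n + h) = x) from fun h2 => hx' h2.symm)]; simp
        · intro h2; exact absurd (mem_range.2 hx.1) h2
      rw [this, sub_self, norm_zero, hind]
      simp only
      split_ifs <;> norm_num
    · have : A n = 0 := by
        rw [hA]; simp only
        apply sum_eq_zero
        intro x hx'
        apply sum_eq_zero
        intro y hy'
        rw [mem_range] at hx' hy'
        by_cases h1 : X w (n + h) = x
        · by_cases h2 : Y w (n + h) = y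
          · exact absurd ⟨by omega, by omega⟩ hx
          · rw [if_neg h2]; simp
        · rw [if_neg h1]; simp
      rw [this, sub_zero, hind]
      simp only
      rw [if_neg (by omega)]
      exact hb _ _
  -- step 2
  have s2 : ‖∑ n ∈ Icc 1 N, (A n - B n)‖ ≤ Del w M N R J f h := by
    have e1 : ∑ n ∈ Icc 1 N, (A n - B n) = ∑ c ∈ range R, ∑ x ∈ range J, ∑ y ∈ range J,
        b c (x + y) * ∑ n ∈ Icc 1 N, (if f n = c then (1 : ℂ) else 0) * (Fx w M x y (n + h) : ℂ) := by
      have e2 : ∀ n, A n - B n = ∑ c ∈ range R, ∑ x ∈ range J, ∑ y ∈ range J,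
          b c (x + y) * ((if f n = c then (1 : ℂ) else 0) * (Fx w M x y (n + h) : ℂ)) := by
        intro n
        rw [sum_eq_single (f n)]
        · rw [hA, hB]; simp only
          rw [← sum_sub_distrib]
          apply sum_congr rfl
          intro x _
          rw [← sum_sub_distrib]
          apply sum_congr rfl
          intro y _
          unfold Fx
          simp only [if_true]
          push_cast
          ring
        · intro c _ hc
          apply sum_eq_zero; intro x _
          apply sum_eq_zero; intro y _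
          rw [if_neg (fun h2 => hc h2.symm)]; ring
        · intro h2; exact absurd (mem_range.2 (hf n)) h2
      simp_rw [e2]
      rw [sum_comm]
      apply sum_congr rfl; intro c _
      rw [sum_comm]
      apply sum_congr rfl; intro x _
      rw [sum_comm]
      apply sum_congr rfl; intro y _
      rw [mul_sum]
    rw [e1]
    unfold Del
    refine (norm_sum_le _ _).trans (sum_le_sum fun c _ => ?_)
    refine (norm_sum_le _ _).trans (sum_le_sum fun x _ => ?_)
    refine (norm_sum_le _ _).trans (sum_le_sum fun y _ => ?_)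
    rw [norm_mul]
    exact mul_le_of_le_one_left (norm_nonneg _) (hb _ _)
  -- step 3
  have s3 : ∀ n ∈ Icc 1 N, ‖B n - Cc n‖ ≤ ind n + (2 * P1 M + 1) / J := by
    intro n hn
    rw [mem_Icc] at hn
    have hn0 : n + h ≠ 0 := by omega
    have hXY := X_add_Y w hn0
    set x0 := X w (n + h) with hx0
    have hnn : ∀ t, ‖(fun t => b (f n) (x0 + t)) t‖ ≤ 1 := fun t => hb _ _
    by_cases hx : x0 < J
    · have e1 : B n = EL w M (fun t => if t < J then b (f n) (x0 + t) else 0) := by
        rw [EL_lam, hB]; simp only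
        rw [sum_eq_single x0]
        · apply sum_congr rfl; intro y _
          rw [if_pos rfl, one_mul]
        · intro x _ hx'
          apply sum_eq_zero; intro y _
          rw [if_neg (fun h2 => hx' h2.symm)]; simp
        · intro h2; exact absurd (mem_range.2 hx) h2
      rw [e1, hC]; simp only
      rw [EL_sub]
      have e2 := EL_norm w M hM (fun t => (if t < J then b (f n) (x0 + t) else 0) - b (f n) (x0 + t))
        (fun t => if t < J then 0 else 1) (by
          intro t
          split_ifs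
          · simp
          · rw [zero_sub, norm_neg]; exact hb _ _)
      have e3 := EL_tail w M J hM hJ
      have e4 : 0 ≤ ind n := by rw [hind]; simp only; split_ifs <;> norm_num
      linarith
    · have e1 : B n = 0 := by
        rw [hB]; simp only
        apply sum_eq_zero; intro x hx'
        apply sum_eq_zero; intro y _
        rw [mem_range] at hx'
        rw [if_neg (by omega)]; simp
      rw [e1, zero_sub, norm_neg, hC]; simp only
      have e2 := EL_one w M hM _ hnn
      have e3 : ind n = 1 := by rw [hind]; simp only; rw [if_neg (by omega)]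
      have e4 : 0 ≤ (2 * P1 M + 1) / J := by have := P1_nonneg M; positivity
      rw [e3]
      linarith
  -- step 4
  have s4 : ∀ n ∈ Icc 1 N, ‖Cc n - EL w M (b (f n))‖ ≤ (X w (n + h) : ℝ) * σ := by
    intro n _
    exact EL_shift w M σ hσ (b (f n)) (fun t => hb _ _) (X w (n + h))
  -- sums
  have i1 : ∑ n ∈ Icc 1 N, ind n ≤ (2 * P1 M * M) / J := by
    rw [le_div_iff₀ hJr, sum_mul]
    calc ∑ n ∈ Icc 1 N, ind n * J ≤ ∑ n ∈ Icc 1 N, ((ArithmeticFunction.cardFactors (n + h) : ℕ) : ℝ) := by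
          apply sum_le_sum
          intro n _
          rw [hind]; simp only
          split_ifs with hcf
          · rw [zero_mul]; positivity
          · rw [one_mul]; exact_mod_cast not_lt.1 hcf
      _ ≤ ∑ n ∈ Icc 1 M, ((ArithmeticFunction.cardFactors n : ℕ) : ℝ) :=
          shift_sum N M h hh (fun n => ((ArithmeticFunction.cardFactors n : ℕ) : ℝ)) (fun _ => Nat.cast_nonneg _)
      _ ≤ _ := Om_sum M
  have i2 : ∑ n ∈ Icc 1 N, (X w (n + h) : ℝ) * σ ≤ 2 * P1 w * M * σ := by
    rw [← sum_mul]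
    apply mul_le_mul_of_nonneg_right _ hσ0
    exact (shift_sum N M h hh (fun n => (X w n : ℝ)) (fun _ => Nat.cast_nonneg _)).trans (X_sum w M)
  have e0 : ∑ n ∈ Icc 1 N, b (f n) (ArithmeticFunction.cardFactors (n + h)) - ∑ n ∈ Icc 1 N, EL w M (b (f n)) =
      ∑ n ∈ Icc 1 N, (b (f n) (ArithmeticFunction.cardFactors (n + h)) - A n) + (∑ n ∈ Icc 1 N, (A n - B n) +
      (∑ n ∈ Icc 1 N, (B n - Cc n) + ∑ n ∈ Icc 1 N, (Cc n - EL w M (b (f n))))) := by
    simp only [sum_sub_distrib]
    ring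
  rw [e0]
  have j1 : ‖∑ n ∈ Icc 1 N, (b (f n) (ArithmeticFunction.cardFactors (n + h)) - A n)‖ ≤ (2 * P1 M * M) / J :=
    (norm_sum_le _ _).trans ((sum_le_sum s1).trans i1)
  have j3 : ‖∑ n ∈ Icc 1 N, (B n - Cc n)‖ ≤ (2 * P1 M * M) / J + N * ((2 * P1 M + 1) / J) := by
    refine (norm_sum_le _ _).trans ((sum_le_sum s3).trans ?_)
    rw [sum_add_distrib, sum_const, Nat.card_Icc, nsmul_eq_mul, Nat.add_sub_cancel]
    linarith
  have j4 : ‖∑ n ∈ Icc 1 N, (Cc n - EL w M (b (f n)))‖ ≤ 2 * P1 w * M * σ :=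
    (norm_sum_le _ _).trans ((sum_le_sum s4).trans i2)
  have j0 := (norm_add_le (∑ n ∈ Icc 1 N, (b (f n) (ArithmeticFunction.cardFactors (n + h)) - A n)) (∑ n ∈ Icc 1 N, (A n - B n) +
      (∑ n ∈ Icc 1 N, (B n - Cc n) + ∑ n ∈ Icc 1 N, (Cc n - EL w M (b (f n)))))).trans (add_le_add j1
      ((norm_add_le _ _).trans (add_le_add s2 ((norm_add_le _ _).trans (add_le_add j3 j4)))))
  refine j0.trans (le_of_eq ?_)
  ring

end Pool.Agent.TH445.OI
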