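import Mathlib
import Pool.Agent.TH445.OI.A8
import Pool.Agent.H373R2.T7.BilE

set_option autoImplicit false

/-! Families of shifts of nearly minimal additive energy. -/

open Finset

namespace Pool.Agent.TH445.OI

open Pool.Agent.H807R2.Dav (ee norm_ee)
open Pool.Agent.H373R2.T7 (energy moment_energy bil_main fz)

/-- a family of shifts `s 1, ..., s x` of size at most `B N` and of nearly minimal additive energy of order `p` -/
def Good (N B p : ℕ) (C : ℝ) (x : ℕ) (s : ℕ → ℕ) : Prop :=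
  (∀ m ∈ Icc 1 x, s m ≤ B * N) ∧ (energy p x (fun m => (s m : ℤ)) : ℝ) * N ≤ C * (x : ℝ) ^ (2 * p)

set_option maxHeartbeats 1000000 in
theorem l1_family (N B p : ℕ) (C0 : ℝ) (x : ℕ) (s : ℕ → ℕ) (hN : 1 ≤ N) (hs : Good N B p C0 x s)
    (f : ℕ → ℂ) (hf : ∀ n, ‖f n‖ ≤ 1) (δ : ℝ) (hδ : ∀ α : ℝ, ‖∑ n ∈ Icc 1 ((B + 1) * N), f n * ee ((n : ℝ) * α)‖ ≤ δ)
    (G : ℕ → ℂ) (hG : ∀ a, ‖G a‖ ≤ 1) (η : ℝ) (hη : 0 < η) :
    ∑ m ∈ Icc 1 x, ‖∑ a ∈ Icc 1 N, G a * f (a + s m)‖ ≤ C0 / η ^ (2 * p) * δ * x + η * x * ((B + 1) * N) := by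
  have hN0 : (0 : ℝ) < N := by exact_mod_cast hN
  rcases Nat.eq_zero_or_pos x with hx | hx
  · subst hx; simp
  have hx0 : (0 : ℝ) < x := by exact_mod_cast hx
  set B1 : ℕ := B + 1 with hB1
  set H : ℕ := B1 * N with hH
  set M : ℕ := (4 * p + 5) * (B1 * N) with hM
  have hBN : B * N ≤ B1 * N := Nat.mul_le_mul_right _ (by omega)
  have hB1N : 1 ≤ B1 * N := Nat.mul_pos (by omega) hN
  have hNB : N ≤ B1 * N := Nat.le_mul_of_pos_left _ (by omega)
  have hM5 : 5 * (B1 * N) ≤ M := by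
    rw [hM]; exact Nat.mul_le_mul_right _ (by omega)
  have hM1 : 1 ≤ M := by omega
  have hHM : H ≤ M := by omega
  have hAM : N ≤ M := by omega
  have hMr : (M : ℝ) = (4 * p + 5) * (B1 * N) := by rw [hM]; push_cast; ring
  have hM0 : (0 : ℝ) < M := by exact_mod_cast hM1
  set sz : ℕ → ℤ := fun m => (s m : ℤ) with hsz
  have hcond : ∀ a ∈ Icc 1 N, ∀ m ∈ Icc 1 x, ∀ n ∈ Icc 1 H, |(a : ℤ) + sz m - n| < M := by
    intro a ha m hm n hn
    have h4 := hs.1 m hm
    rw [mem_Icc] at ha hn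
    rw [hsz]; simp only
    rw [abs_lt]
    constructor <;> omega
  have hmomE := moment_energy p x sz M (B * N) hM1 (fun m hm => by
    have := hs.1 m hm
    rw [hsz]; simp only
    rw [abs_of_nonneg (by positivity)]
    exact_mod_cast this) (by
    have h4 : 2 * p * (B * N) ≤ 2 * p * (B1 * N) := Nat.mul_le_mul_left _ hBN
    have h5 : 2 * p * (B1 * N) < (4 * p + 5) * (B1 * N) := Nat.mul_lt_mul_of_pos_right (by omega) hB1N
    omega)
  have hC0 : 0 ≤ C0 := by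
    have h1 := hs.2
    have h2 : (0 : ℝ) ≤ (energy p x (fun m => (s m : ℤ)) : ℝ) * N := by positivity
    have h3 : (0 : ℝ) < (x : ℝ) ^ (2 * p) := by positivity
    by_contra hcon
    have : C0 * (x : ℝ) ^ (2 * p) < 0 := mul_neg_of_neg_of_pos (not_le.1 hcon) h3
    linarith
  set C1 : ℝ := (4 * p + 5) * B1 * C0 with hC1
  have hmom : ∑ t ∈ range M, (‖∑ m ∈ Icc 1 x, ee ((t : ℝ) * ((sz m : ℝ) / M))‖ / x) ^ (2 * p) ≤ C1 := by
    have h2 : ∑ t ∈ range M, (‖∑ m ∈ Icc 1 x, ee ((t : ℝ) * ((sz m : ℝ) / M))‖ / x) ^ (2 * p) =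
        (M * energy p x sz) / (x : ℝ) ^ (2 * p) := by
      rw [← hmomE, sum_div]
      exact sum_congr rfl fun t _ => div_pow _ _ _
    rw [h2, div_le_iff₀ (by positivity), hMr]
    calc (4 * (p : ℝ) + 5) * (B1 * N) * energy p x sz = (4 * p + 5) * B1 * (energy p x sz * N) := by ring
      _ ≤ (4 * p + 5) * B1 * (C0 * (x : ℝ) ^ (2 * p)) := mul_le_mul_of_nonneg_left hs.2 (by positivity)
      _ = _ := by rw [hC1]; ring
  have hfs : ∑ n ∈ Icc 1 H, ‖f n‖ ^ 2 ≤ H := by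
    have h4 : ∀ n ∈ Icc 1 H, ‖f n‖ ^ 2 ≤ 1 := fun n _ => pow_le_one₀ (norm_nonneg _) (hf n)
    refine (sum_le_sum h4).trans ?_
    rw [sum_const, Nat.card_Icc, nsmul_eq_mul]
    simp
  set S : ℕ → ℂ := fun m => ∑ a ∈ Icc 1 N, G a * f (a + s m) with hS
  set c : ℕ → ℂ := fun m => (starRingEnd ℂ) (S m) / ‖S m‖ with hc
  have hc1 : ∀ m, ‖c m‖ ≤ 1 := by
    intro m
    rw [hc]
    simp only [norm_div, RCLike.norm_conj, Complex.norm_real, norm_norm]
    exact div_self_le_one _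
  have key := bil_main N H x M hM1 f G c sz δ η p C1 H hcond hAM hHM hx (fun α => hδ α) hG hc1 hmom hfs hη
  have heq : ∑ a ∈ Icc 1 N, ∑ m ∈ Icc 1 x, G a * c m * fz f H (a + sz m) =
      ((∑ m ∈ Icc 1 x, ‖S m‖ : ℝ) : ℂ) := by
    have e0 : ∑ a ∈ Icc 1 N, ∑ m ∈ Icc 1 x, G a * c m * fz f H (a + sz m) =
        ∑ a ∈ Icc 1 N, ∑ m ∈ Icc 1 x, G a * c m * f (a + s m) := by
      apply sum_congr rfl
      intro a ha
      apply sum_congr rfl
      intro m hm
      congr 1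
      unfold fz
      have h4 := hs.1 m hm
      rw [mem_Icc] at ha
      have h5 : a + s m ≤ H := by
        rw [hH, hB1, Nat.succ_mul]
        omega
      rw [if_pos]
      · congr 1
      · rw [hsz]; simp only
        constructor <;> omega
    rw [e0, sum_comm]
    push_cast
    apply sum_congr rfl
    intro m _
    have e1 : ∑ a ∈ Icc 1 N, G a * c m * f (a + s m) = c m * S m := by
      rw [hS, mul_sum]
      apply sum_congr rfl
      intro a _
      ring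
    rw [e1, hc]
    simp only
    by_cases h0 : ‖S m‖ = 0
    · rw [norm_eq_zero.1 h0]; simp
    · have h0' : ((‖S m‖ : ℝ) : ℂ) ≠ 0 := by exact_mod_cast h0
      rw [div_mul_eq_mul_div, mul_comm, Complex.mul_conj', pow_two]
      field_simp
  rw [heq, Complex.norm_real, Real.norm_of_nonneg (sum_nonneg fun _ _ => norm_nonneg _)] at key
  refine key.trans (add_le_add (le_of_eq ?_) ?_)
  · rw [hC1, hMr]
    have : (B1 : ℝ) ≠ 0 := by rw [hB1]; positivity
    have : (4 * (p : ℝ) + 5) ≠ 0 := by positivity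
    field_simp
  · gcongr
    rw [Real.sqrt_le_left (by positivity), hH, hB1]
    push_cast
    have h5 : (1 : ℝ) ≤ B + 1 := by
      have : (0 : ℝ) ≤ B := Nat.cast_nonneg _
      linarith
    have h6 : (0 : ℝ) ≤ (B + 1) * N * N := by positivity
    nlinarith

/-- the family sum of the correlations -/
theorem del_family (N B p : ℕ) (C0 : ℝ) (x : ℕ) (s : ℕ → ℕ) (hN : 1 ≤ N) (hs : Good N B p C0 x s) (w R J : ℕ) (f : ℕ → ℕ)
    (δ : ℝ) (hδ : ∀ i j : ℕ, ∀ α : ℝ, ‖∑ n ∈ range ((B + 1) * N + 1), (Fx w ((B + 1) * N) i j n : ℂ) * ee ((n : ℝ) * α)‖ ≤ δ)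
    (η : ℝ) (hη : 0 < η) :
    ∑ m ∈ Icc 1 x, Del w ((B + 1) * N) N R J f (s m) ≤
      R * J ^ 2 * (C0 / η ^ (2 * p) * (δ + 1) * x + η * x * ((B + 1) * N)) := by
  have hM : 1 ≤ (B + 1) * N := Nat.mul_pos (by omega) hN
  unfold Del
  rw [sum_comm]
  have h1 : ∀ c ∈ range R, ∑ m ∈ Icc 1 x, ∑ i ∈ range J, ∑ j ∈ range J,
      ‖∑ n ∈ Icc 1 N, (if f n = c then (1 : ℂ) else 0) * (Fx w ((B + 1) * N) i j (n + s m) : ℂ)‖ ≤
      J * (J * (C0 / η ^ (2 * p) * (δ + 1) * x + η * x * ((B + 1) * N))) := by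
    intro c _
    rw [sum_comm]
    have h2 : ∀ i ∈ range J, ∑ m ∈ Icc 1 x, ∑ j ∈ range J,
        ‖∑ n ∈ Icc 1 N, (if f n = c then (1 : ℂ) else 0) * (Fx w ((B + 1) * N) i j (n + s m) : ℂ)‖ ≤
        J * (C0 / η ^ (2 * p) * (δ + 1) * x + η * x * ((B + 1) * N)) := by
      intro i _
      rw [sum_comm]
      have h3 : ∀ j ∈ range J, ∑ m ∈ Icc 1 x,
          ‖∑ n ∈ Icc 1 N, (if f n = c then (1 : ℂ) else 0) * (Fx w ((B + 1) * N) i j (n + s m) : ℂ)‖ ≤
          C0 / η ^ (2 * p) * (δ + 1) * x + η * x * ((B + 1) * N) := by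
        intro j _
        have hF0 : ∀ n, ‖(Fx w ((B + 1) * N) i j n : ℂ)‖ ≤ 1 := by
          intro n
          rw [Complex.norm_real]
          exact Fx_le hM i j n
        have h4 := l1_family N B p C0 x s hN hs (fun n => (Fx w ((B + 1) * N) i j n : ℂ)) hF0 (δ + 1) (by
          intro α
          have h5 := hδ i j α
          have h6 : ∑ n ∈ range ((B + 1) * N + 1), (Fx w ((B + 1) * N) i j n : ℂ) * ee ((n : ℝ) * α) =
              ∑ n ∈ Icc 1 ((B + 1) * N), (Fx w ((B + 1) * N) i j n : ℂ) * ee ((n : ℝ) * α) +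
              (Fx w ((B + 1) * N) i j 0 : ℂ) * ee (((0 : ℕ) : ℝ) * α) := by
            have h7 : range ((B + 1) * N + 1) = insert 0 (Icc 1 ((B + 1) * N)) := by
              ext k; simp only [mem_range, mem_insert, mem_Icc]; omega
            rw [h7, sum_insert (by simp), add_comm]
          have h8 : ‖(Fx w ((B + 1) * N) i j 0 : ℂ) * ee (((0 : ℕ) : ℝ) * α)‖ ≤ 1 := by
            rw [norm_mul, norm_ee, mul_one]; exact hF0 0
          have h9 := norm_sub_norm_le (∑ n ∈ Icc 1 ((B + 1) * N), (Fx w ((B + 1) * N) i j n : ℂ) * ee ((n : ℝ) * α))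
            (-((Fx w ((B + 1) * N) i j 0 : ℂ) * ee (((0 : ℕ) : ℝ) * α)))
          rw [sub_neg_eq_add, ← h6, norm_neg] at h9
          linarith) (fun n => if f n = c then (1 : ℂ) else 0) (by
          intro n
          split_ifs <;> simp) η hη
        exact h4
      refine (sum_le_sum h3).trans ?_
      rw [sum_const, card_range, nsmul_eq_mul]
    refine (sum_le_sum h2).trans ?_
    rw [sum_const, card_range, nsmul_eq_mul]
  refine (sum_le_sum h1).trans (le_of_eq ?_)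
  rw [sum_const, card_range, nsmul_eq_mul]
  ring

end Pool.Agent.TH445.OI
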