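import Mathlib
import Pool.Agent.TH445.OI.A9

set_option autoImplicit false

/-! Numerics. -/

open Finset Filter

namespace Pool.Agent.TH445.OI

open Pool.Agent.H807R2.Dav (ee norm_ee)
open Pool.Agent.H373R2.T7 (energy)

/-- the cutoff -/
noncomputable def wc (B N : ℕ) : ℕ := ⌊Real.log (((B + 1) * N + 1 : ℕ) : ℝ)⌋₊

/-- the limit law is the logarithmic law -/
noncomputable def LL (B N : ℕ) (g : ℕ → ℂ) : ℂ := EL (wc B N) ((B + 1) * N) g

/-- truncation -/
noncomputable def JJ (N : ℕ) : ℕ := ⌈Real.log (Real.log N) ^ 2⌉₊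

lemma VW_eq (w M : ℕ) (h : w ≤ M) : VW w M = P1 M - P1 w := by
  unfold VW P1 PW
  have h1 : (Icc 1 M).filter Nat.Prime = (Icc 1 w).filter Nat.Prime ∪ (Icc (w + 1) M).filter Nat.Prime := by
    rw [← filter_union]
    congr 1
    ext k; simp only [mem_union, mem_Icc]; omega
  rw [h1, sum_union]
  · ring
  · rw [disjoint_left]
    intro k hk1 hk2
    rw [mem_filter, mem_Icc] at hk1 hk2
    omega

lemma Sig_mono {w M : ℕ} {σ σ' : ℝ} (h : Sig w M σ) (hs : σ ≤ σ') : Sig w M σ' := fun g hg => (h g hg).trans hs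

set_option maxHeartbeats 4000000 in
theorem nums (B : ℕ) : ∃ c : ℝ, 0 ≤ c ∧ ∃ N₀ : ℕ, 3 ≤ N₀ ∧ ∀ N : ℕ, N₀ ≤ N → ∀ v L' : ℝ, v = Real.log (Real.log N) →
    L' = Real.log (((B + 1) * N + 1 : ℕ) : ℝ) →
    16 ≤ v ∧ 1 ≤ Real.log v ∧ P1 ((B + 1) * N) ≤ 3 * v ∧ P1 (wc B N) ≤ (2 + c) * Real.log v ∧
    Sig (wc B N) ((B + 1) * N) (8 / √v) ∧ Real.log N ≤ L' ∧ L' ≤ 2 * Real.log N ∧ Real.log L' ≤ 2 * v := by
  obtain ⟨c1, hc1⟩ := Pool.Agent.Helper256.KM.mertens_inv
  obtain ⟨c2, hc2⟩ := Pool.Agent.Helper256.KM.mertens_log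
  have hc10 : 0 ≤ c1 := (abs_nonneg _).trans (hc1 3 le_rfl)
  have hc20 : 0 ≤ c2 := (abs_nonneg _).trans (hc2 1 le_rfl)
  have evv : ∀ᶠ N : ℝ in atTop, max 16 (max (4 * c1 + 4) c2) ≤ Real.log (Real.log N) :=
    (Real.tendsto_log_atTop.comp Real.tendsto_log_atTop).eventually_ge_atTop _
  have evs : ∀ᶠ v : ℝ in atTop, 4 * Real.log v + 4 * c1 + 8 ≤ v := by
    have h1 := (ev_pow 1 8 1 one_pos)
    filter_upwards [h1, eventually_ge_atTop (8 * c1 + 16)] with v hv hv2
    rw [Real.rpow_one, pow_one] at hv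
    linarith
  have evs' := (Real.tendsto_log_atTop.comp Real.tendsto_log_atTop).eventually evs
  have evB : ∀ᶠ N : ℝ in atTop, (B : ℝ) + 2 ≤ N := eventually_ge_atTop _
  obtain ⟨N₀, hN₀⟩ := evN _ (evv.and (evs'.and (evB.and (eventually_ge_atTop (3 : ℝ)))))
  refine ⟨c1, hc10, max N₀ 3, le_max_right _ _, fun N hN v L' hv hL' => ?_⟩
  obtain ⟨g1, g2, g3, g5⟩ := hN₀ N ((le_max_left _ _).trans hN)
  simp only [Function.comp] at g2
  rw [← hv] at g1 g2
  have hN3 : 3 ≤ N := (le_max_right _ _).trans hN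
  have hv16 : 16 ≤ v := (le_max_left _ _).trans g1
  have hvc1 : 4 * c1 + 4 ≤ v := ((le_max_left _ _).trans (le_max_right _ _)).trans g1
  have hvc2 : c2 ≤ v := ((le_max_right _ _).trans (le_max_right _ _)).trans g1
  have hNr : (3 : ℝ) ≤ N := by exact_mod_cast hN3
  set L := Real.log N with hL
  have hL1 : 1 < L := by
    rw [hL, Real.lt_log_iff_exp_lt (by linarith)]
    linarith [Real.exp_one_lt_d9]
  have hvL : v ≤ L - 1 := by rw [hv]; exact Real.log_le_sub_one_of_pos (by linarith)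
  have hlv1 : 1 ≤ Real.log v := by
    rw [Real.le_log_iff_exp_le (by linarith)]
    linarith [Real.exp_one_lt_d9]
  -- sizes
  set M : ℕ := (B + 1) * N with hM
  have hMN : N ≤ M := Nat.le_mul_of_pos_left _ (by omega)
  have hM1 : 1 ≤ M := by omega
  have hMr : (M : ℝ) = (B + 1) * N := by rw [hM]; push_cast; ring
  have hB0 : (0 : ℝ) ≤ B := Nat.cast_nonneg _
  have hN'le : ((M + 1 : ℕ) : ℝ) ≤ (N : ℝ) ^ 2 := by
    push_cast
    rw [hMr]
    nlinarith
  have hLL' : L ≤ L' := by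
    rw [hL']
    apply Real.log_le_log (by linarith)
    exact_mod_cast (by omega : N ≤ M + 1)
  have hL'2 : L' ≤ 2 * L := by
    rw [hL', hL, ← Nat.cast_ofNat (n := 2), ← Real.log_pow]
    apply Real.log_le_log (by positivity)
    exact hN'le
  have hL'1 : 1 < L' := by linarith
  have hv' : Real.log L' ≤ v + 1 := by
    have h1 : Real.log L' ≤ Real.log (2 * L) := Real.log_le_log (by linarith) hL'2
    rw [Real.log_mul (by norm_num) (by linarith), ← hv] at h1
    have := Real.log_two_lt_d9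
    linarith
  have hvv' : v ≤ Real.log L' := by rw [hv]; exact Real.log_le_log (by linarith) hLL'
  -- w
  set w : ℕ := wc B N with hw
  have hw' : w = ⌊L'⌋₊ := by rw [hw, hL']; rfl
  have hwL : (w : ℝ) ≤ L' := by rw [hw']; exact Nat.floor_le (by linarith)
  have hwL2 : L' - 1 < w := by
    have := Nat.lt_floor_add_one L'
    rw [← hw'] at this
    linarith
  have hw3r : (3 : ℝ) ≤ w := by linarith
  have hw3 : 3 ≤ w := by exact_mod_cast hw3r
  have hwM : w ≤ M := by
    have h1 : L' ≤ M := by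
      have := Real.log_le_sub_one_of_pos (x := ((M + 1 : ℕ) : ℝ)) (by positivity)
      rw [← hL'] at this
      push_cast at this
      linarith
    have : (w : ℝ) ≤ M := by linarith
    exact_mod_cast this
  have hP1w : P1 w ≤ Real.log (v + 1) + c1 := by
    have h1 := (abs_le.1 (hc1 w hw3)).2
    have h2 : Real.log w ≤ v + 1 := (Real.log_le_log (by linarith) hwL).trans hv'
    have h3 : 0 < Real.log w := Real.log_pos (by linarith)
    have h4 : Real.log (Real.log w) ≤ Real.log (v + 1) := Real.log_le_log h3 h2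
    unfold P1
    linarith
  have hlogv1 : Real.log (v + 1) ≤ Real.log v + 1 := by
    have h1 : Real.log (v + 1) ≤ Real.log (2 * v) := Real.log_le_log (by linarith) (by linarith)
    rw [Real.log_mul (by norm_num) (by linarith)] at h1
    have := Real.log_two_lt_d9
    linarith
  have hlogML : Real.log M ≤ L' := by
    rw [hL']
    apply Real.log_le_log (by exact_mod_cast hM1)
    push_cast
    linarith
  have hLM : L ≤ Real.log M := Real.log_le_log (by linarith) (by exact_mod_cast hMN)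
  have hP1Mu : P1 M ≤ v + 1 + c1 := by
    have h1 := (abs_le.1 (hc1 M (by omega))).2
    have h4 : Real.log (Real.log M) ≤ Real.log L' := Real.log_le_log (by linarith) hlogML
    unfold P1
    linarith
  have hP1Ml : v - c1 ≤ P1 M := by
    have h1 := (abs_le.1 (hc1 M (by omega))).1
    have h4 : v ≤ Real.log (Real.log M) := by rw [hv]; exact Real.log_le_log (by linarith) hLM
    unfold P1
    linarith
  have hP2M : P2 M ≤ L' + c2 := by
    have h1 := (abs_le.1 (hc2 M hM1)).2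
    unfold P2
    linarith
  have hP20 : 0 ≤ P2 M := sum_nonneg fun p hp => by
    have : (1 : ℝ) ≤ p := by exact_mod_cast (mem_filter.1 hp).2.one_lt.le
    have := Real.log_nonneg this
    positivity
  have hP10 := P1_nonneg M
  set V := VW w M with hV
  have hVe : V = P1 M - P1 w := VW_eq w M hwM
  have hV1 : v / 2 ≤ V := by
    rw [hVe]
    linarith
  have hV0 : 0 < V := by linarith
  have hH1 : L' ≤ H M := by
    have h1 := H_ge M
    rw [hL']
    push_cast
    exact h1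
  have hH0 : 0 < H M := by linarith
  have hsum4 : P1 M + P2 M ≤ 4 * H M := by linarith
  have hsig := sig_of w M hM1 hV0
  refine ⟨hv16, hlv1, by linarith, ?_, ?_, hLL', hL'2, by linarith⟩
  · nlinarith
  · apply Sig_mono hsig
    have hq : √(H M * (V * H M + 2 * V * (P1 M + P2 M))) ≤ 3 * (H M * √V) := by
      rw [Real.sqrt_le_left (by positivity)]
      have h1 : (3 * (H M * √V)) ^ 2 = 9 * (H M) ^ 2 * V := by
        rw [mul_pow, mul_pow, Real.sq_sqrt hV0.le]; ring
      rw [h1]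
      have h2 : 2 * V * (P1 M + P2 M) ≤ 2 * V * (4 * H M) := by gcongr
      nlinarith
    have hsv : √v ≤ 3 / 2 * √V := by
      rw [Real.sqrt_le_left (by positivity), mul_pow, Real.sq_sqrt hV0.le]
      linarith
    have hsv0 : 0 < √v := Real.sqrt_pos.2 (by linarith)
    have hsV0 : 0 < √V := Real.sqrt_pos.2 hV0
    have hsV2 : 2 ≤ √V := Real.le_sqrt_of_sq_le (by linarith)
    have hVV : √V * √V = V := Real.mul_self_sqrt hV0.le
    rw [div_div, div_le_div_iff₀ (by positivity) hsv0]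
    calc (P1 M + P2 M + √(H M * (V * H M + 2 * V * (P1 M + P2 M)))) * √v ≤
          (4 * H M + 3 * (H M * √V)) * (3 / 2 * √V) := by gcongr
      _ ≤ (2 * (H M * √V) + 3 * (H M * √V)) * (3 / 2 * √V) := by
          have : 4 * H M ≤ 2 * (H M * √V) := by nlinarith
          gcongr
      _ = 15 / 2 * (H M * (√V * √V)) := by ring
      _ = 15 / 2 * (V * H M) := by rw [hVV]; ring
      _ ≤ 8 * (V * H M) := by
          have : 0 ≤ V * H M := by positivity
          linarith

set_option maxHeartbeats 4000000 in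
/-- a fixed shift -/
theorem fixed (B : ℕ) : ∃ C : ℝ, 0 < C ∧ ∃ N₀ : ℕ, 3 ≤ N₀ ∧ ∀ N : ℕ, N₀ ≤ N → ∀ R : ℕ, ∀ f : ℕ → ℕ, (∀ n, f n < R) →
    ∀ h : ℕ, h ≤ B * N → ∀ b : ℕ → ℕ → ℂ, (∀ c l, ‖b c l‖ ≤ 1) →
    ‖∑ n ∈ Icc 1 N, b (f n) (ArithmeticFunction.cardFactors (n + h)) - ∑ n ∈ Icc 1 N, LL B N (b (f n))‖ ≤
      Del (wc B N) ((B + 1) * N) N R (JJ N) f h + C * N * (Real.log (Real.log (Real.log N)) / √(Real.log (Real.log N))) := by
  obtain ⟨c, hc, N₀, hN₀3, hnum⟩ := nums B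
  refine ⟨(B + 1) * (51 + 16 * c), by positivity, N₀, hN₀3, fun N hN R f hf h hh b hb => ?_⟩
  obtain ⟨n1, n2, n3, n4, n5, n6, n7, n8⟩ := hnum N hN _ _ rfl rfl
  set v := Real.log (Real.log N) with hv
  set M : ℕ := (B + 1) * N with hM
  have hN1 : 1 ≤ N := by omega
  have hMN : N ≤ M := Nat.le_mul_of_pos_left _ (by omega)
  have hJv : v ^ 2 ≤ (JJ N : ℝ) := Nat.le_ceil _
  have hv0 : 0 < v := by linarith
  have hJ0 : (0 : ℝ) < JJ N := lt_of_lt_of_le (by positivity) hJv
  have hJ1 : 1 ≤ JJ N := by exact_mod_cast hJ0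
  have hst := star (wc B N) M N R (JJ N) (by omega) hJ1 f hf h (by rw [hM, Nat.succ_mul]; omega) _ n5 b hb
  refine hst.trans ?_
  have hB0 : (0 : ℝ) ≤ B := Nat.cast_nonneg _
  have hNr : (0 : ℝ) < N := by exact_mod_cast hN1
  have hMr : (M : ℝ) = (B + 1) * N := by rw [hM]; push_cast; ring
  have hsv0 : 0 < √v := Real.sqrt_pos.2 hv0
  have hvs : √v * √v = v := Real.mul_self_sqrt hv0.le
  have hs1 : 1 ≤ √v := Real.le_sqrt_of_sq_le (by linarith)
  set r := Real.log v / √v with hr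
  have hrv : 1 / v ≤ r := by
    rw [hr, div_le_div_iff₀ hv0 hsv0]
    nlinarith
  have hr0 : 0 ≤ r := le_trans (by positivity) hrv
  have hP1 := P1_nonneg M
  have hP1w := P1_nonneg (wc B N)
  have t1 : 2 * (2 * P1 M * M) / (JJ N : ℝ) ≤ 12 * (B + 1) * N * r := by
    calc 2 * (2 * P1 M * M) / (JJ N : ℝ) ≤ 2 * (2 * (3 * v) * M) / v ^ 2 := by gcongr
      _ = 12 * (B + 1) * N * (1 / v) := by rw [hMr]; field_simp; norm_num
      _ ≤ _ := by gcongr
  have t2 : (N : ℝ) * ((2 * P1 M + 1) / (JJ N : ℝ)) ≤ 7 * (B + 1) * N * r := by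
    calc (N : ℝ) * ((2 * P1 M + 1) / (JJ N : ℝ)) ≤ N * ((2 * (3 * v) + v) / v ^ 2) := by
          gcongr
          linarith
      _ = 7 * (0 + 1) * N * (1 / v) := by field_simp; ring
      _ ≤ 7 * (B + 1) * N * r := by gcongr
  have t3 : 2 * P1 (wc B N) * M * (8 / √v) ≤ (B + 1) * (32 + 16 * c) * N * r := by
    calc 2 * P1 (wc B N) * M * (8 / √v) ≤ 2 * ((2 + c) * Real.log v) * M * (8 / √v) := by gcongr
      _ = _ := by rw [hMr, hr]; ring
  have e : (B + 1 : ℝ) * (51 + 16 * c) * N * r = 12 * (B + 1) * N * r + 7 * (B + 1) * N * r + (B + 1) * (32 + 16 * c) * N * r := by ring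
  rw [e]
  linarith

end Pool.Agent.TH445.OI
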