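import Mathlib
import Pool.Agent.TH445.OI.A10

set_option autoImplicit false

/-! The base theorem: one family of shifts. -/

open Finset Filter

namespace Pool.Agent.TH445.OI

open Pool.Agent.H807R2.Dav (ee norm_ee)
open Pool.Agent.H373R2.T7 (energy)
open ArithmeticFunction (cardFactors)

/-- the rate -/
noncomputable def rr (N : ℕ) : ℝ := Real.log (Real.log (Real.log N)) / √(Real.log (Real.log N))

lemma ev_L (P : ℝ → Prop) (h : ∀ᶠ L : ℝ in atTop, P L) : ∃ N₀ : ℕ, ∀ N : ℕ, N₀ ≤ N → P (Real.log N) := by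
  obtain ⟨N₀, h0⟩ := evN _ (Real.tendsto_log_atTop.eventually h)
  exact ⟨N₀, h0⟩

set_option maxHeartbeats 4000000 in
theorem base0 (p B : ℕ) (C0 : ℝ) (hC0 : 0 ≤ C0) : ∃ κ : ℝ, 0 < κ ∧ ∃ C : ℝ, 0 < C ∧ ∃ N₀ : ℕ, 3 ≤ N₀ ∧ ∀ N : ℕ, N₀ ≤ N →
    ∀ f : ℕ → ℕ, (∀ n, (f n : ℝ) ≤ Real.log N ^ κ) → ∀ (x : ℕ) (s : ℕ → ℕ), Good N B p C0 x s →
    ∃ E ⊆ Icc 1 x, (E.card : ℝ) ≤ x * Real.log N ^ (-κ) ∧ ∀ m ∈ Icc 1 x, m ∉ E → ∀ b : ℕ → ℕ → ℂ, (∀ c l, ‖b c l‖ ≤ 1) →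
      ‖∑ n ∈ Icc 1 N, b (f n) (cardFactors (n + s m)) - ∑ n ∈ Icc 1 N, LL B N (b (f n))‖ ≤ C * N * rr N := by
  classical
  obtain ⟨Ce, hCe, Ne, hNe2, hexp⟩ := exp_sup
  obtain ⟨cn, hcn, Nn, hNn3, hnum⟩ := nums B
  obtain ⟨Cf, hCf, Nf, hNf3, hfix⟩ := fixed B
  set κ : ℝ := 1 / (4 * p + 4) with hκ
  have hκ0 : 0 < κ := by rw [hκ]; positivity
  set κ1 : ℝ := κ / 8 with hκ1
  have hκ10 : 0 < κ1 := by rw [hκ1]; positivity
  have hκle : κ ≤ 1 / 4 := by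
    rw [hκ]
    apply one_div_le_one_div_of_le (by norm_num)
    have : (0 : ℝ) ≤ p := Nat.cast_nonneg _
    linarith
  set C3 : ℝ := Ce * (B + 2) * 2 + 1 with hC3
  have hC30 : 0 < C3 := by positivity
  set C5 : ℝ := C0 * C3 + (B + 1) with hC5
  have hC50 : 0 < C5 := by positivity
  obtain ⟨Na, ha⟩ := ev_L _ (ev_pow 1 1 κ hκ0)
  obtain ⟨Nb, hb⟩ := ev_L _ (ev_pow 4 (8 * C5) κ1 hκ10)
  obtain ⟨Nc, hc⟩ := ev_L _ (ev_pow 1 1 (3 * κ1) (by positivity))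
  refine ⟨κ1, hκ10, Cf + 1, by positivity, max (max (max Ne Nn) (max Nf Na)) (max (max Nb Nc) 3), (le_max_right _ _).trans (le_max_right _ _), fun N hN f hf x s hs => ?_⟩
  have hNe : Ne ≤ N := by omega
  have hNn : Nn ≤ N := by omega
  have hNf : Nf ≤ N := by omega
  obtain ⟨n1, n2, n3, n4, n5, n6, n7, n8⟩ := hnum N hNn _ _ rfl rfl
  have ga := ha N (by omega)
  have gb := hb N (by omega)
  have gc := hc N (by omega)
  have hN3 : 3 ≤ N := by omega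
  have hN1 : 1 ≤ N := by omega
  have hNr : (3 : ℝ) ≤ N := by exact_mod_cast hN3
  have hN0 : (0 : ℝ) < N := by linarith
  set L := Real.log N with hL
  set v := Real.log L with hv
  simp only [pow_one, one_mul] at ga gc
  have hL1 : 1 ≤ L := by
    by_contra hcon
    have hneg : v ≤ 0 := Real.log_nonpos (Real.log_nonneg (by linarith)) (by linarith)
    linarith
  have hL0 : 0 < L := by linarith
  have hv0 : 0 < v := by linarith
  set M : ℕ := (B + 1) * N with hM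
  have hMN : N ≤ M := Nat.le_mul_of_pos_left _ (by omega)
  set L' := Real.log (((B + 1) * N + 1 : ℕ) : ℝ) with hL'
  have hL'0 : 0 < L' := by linarith
  have hB0 : (0 : ℝ) ≤ B := Nat.cast_nonneg _
  -- sup bound
  set δ : ℝ := Ce * (((B + 1) * N + 1 : ℕ) : ℝ) * Real.log L' / √L' with hδ
  have hδs : ∀ i j : ℕ, ∀ α : ℝ, ‖∑ n ∈ range ((B + 1) * N + 1), (Fx (wc B N) ((B + 1) * N) i j n : ℂ) * ee ((n : ℝ) * α)‖ ≤ δ := by
    intro i j α
    exact hexp ((B + 1) * N + 1) (by omega) i j α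
  have hsq : √L = L ^ (1 / 2 : ℝ) := Real.sqrt_eq_rpow L
  have hsL0 : 0 < √L := Real.sqrt_pos.2 hL0
  have hδ1 : δ + 1 ≤ C3 * (N * v / √L) := by
    have h1 : δ ≤ Ce * ((B + 2) * N) * (2 * v) / √L := by
      rw [hδ]
      have h2 : (((B + 1) * N + 1 : ℕ) : ℝ) ≤ (B + 2) * N := by push_cast; nlinarith
      have h3 : √L ≤ √L' := Real.sqrt_le_sqrt n6
      have h4 : 0 ≤ Real.log L' := Real.log_nonneg (by linarith)
      gcongr
    have h5 : 1 ≤ N * v / √L := by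
      rw [le_div_iff₀ hsL0, one_mul]
      have h6 : √L ≤ L := by
        rw [Real.sqrt_le_left hL0.le]; nlinarith
      have h7 : L ≤ N := by
        have := Real.log_le_sub_one_of_pos hN0
        linarith
      have h8 : (N : ℝ) ≤ N * v := by nlinarith
      linarith
    have h9 : Ce * ((B + 2) * N) * (2 * v) / √L = (Ce * (B + 2) * 2) * (N * v / √L) := by ring
    rw [h9] at h1
    rw [hC3, add_mul, one_mul]
    linarith
  set η : ℝ := L ^ (-κ) with hη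
  have hη0 : 0 < η := Real.rpow_pos_of_pos hL0 _
  -- powers
  have hpow : ∀ s : ℝ, 0 < L ^ s := fun s => Real.rpow_pos_of_pos hL0 s
  have hηp : η ^ (2 * p) = L ^ (-(2 * p * κ)) := by
    rw [hη, ← Real.rpow_natCast, ← Real.rpow_mul hL0.le]
    congr 1
    push_cast
    ring
  have hexpo : (2 * (p : ℝ) * κ) - 1 / 2 = -(2 * κ) := by
    rw [hκ]
    have : (4 * (p : ℝ) + 4) ≠ 0 := by positivity
    field_simp
    ring
  have hterm1 : C0 / η ^ (2 * p) * (δ + 1) * x ≤ C0 * C3 * (N * x * L ^ (-κ)) := by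
    rw [hηp]
    have h1 : C0 / L ^ (-(2 * p * κ)) * (δ + 1) * x ≤ C0 / L ^ (-(2 * p * κ)) * (C3 * (N * v / √L)) * x := by
      have := hpow (-(2 * p * κ))
      gcongr
    refine h1.trans ?_
    have h2 : C0 / L ^ (-(2 * p * κ)) * (C3 * (N * v / √L)) * x = C0 * C3 * (N * x * (v * L ^ (-(2 * κ)))) := by
      rw [← hexpo, Real.rpow_sub hL0, hsq, Real.rpow_neg hL0.le]
      field_simp
    rw [h2]
    have h3 : v * L ^ (-(2 * κ)) ≤ L ^ (-κ) := by
      calc v * L ^ (-(2 * κ)) ≤ L ^ κ * L ^ (-(2 * κ)) := by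
            apply mul_le_mul_of_nonneg_right ga (hpow _).le
        _ = L ^ (-κ) := by rw [← Real.rpow_add hL0]; congr 1; ring
    gcongr
  have hDelsum : ∑ m ∈ Icc 1 x, Del (wc B N) ((B + 1) * N) N (⌊L ^ κ1⌋₊ + 1) (JJ N) f (s m) ≤ N * x * L ^ (-(6 * κ1)) := by
    have h1 := del_family N B p C0 x s hN1 hs (wc B N) (⌊L ^ κ1⌋₊ + 1) (JJ N) f δ hδs η hη0
    refine h1.trans ?_
    have h2 : C0 / η ^ (2 * p) * (δ + 1) * x + η * x * ((B + 1) * N) ≤ C5 * (N * x * L ^ (-κ)) := by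
      have h3 : η * x * ((B + 1) * N) = (B + 1) * (N * x * L ^ (-κ)) := by rw [hη]; ring
      rw [h3, hC5, add_mul]
      linarith
    have hR : ((⌊L ^ κ1⌋₊ + 1 : ℕ) : ℝ) ≤ 2 * L ^ κ1 := by
      push_cast
      have h4 := Nat.floor_le (hpow κ1).le
      have h5 : 1 ≤ L ^ κ1 := Real.one_le_rpow hL1 hκ10.le
      linarith
    have hJ : ((JJ N : ℕ) : ℝ) ≤ 2 * v ^ 2 := by
      have h4 : ((JJ N : ℕ) : ℝ) ≤ v ^ 2 + 1 := (Nat.ceil_lt_add_one (by positivity)).le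
      nlinarith
    have h0 : 0 ≤ C0 / η ^ (2 * p) * (δ + 1) * x + η * x * ((B + 1) * N) := by
      have : 0 ≤ δ := (norm_nonneg _).trans (hδs 0 0 0)
      positivity
    calc ((⌊L ^ κ1⌋₊ + 1 : ℕ) : ℝ) * (JJ N : ℝ) ^ 2 * (C0 / η ^ (2 * p) * (δ + 1) * x + η * x * ((B + 1) * N))
        ≤ (2 * L ^ κ1) * (2 * v ^ 2) ^ 2 * (C5 * (N * x * L ^ (-κ))) := by gcongr
      _ = (8 * C5 * v ^ 4) * (L ^ κ1 * L ^ (-κ)) * (N * x) := by ring
      _ ≤ L ^ κ1 * (L ^ κ1 * L ^ (-κ)) * (N * x) := by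
          have := hpow κ1
          have := hpow (-κ)
          gcongr
      _ = N * x * L ^ (-(6 * κ1)) := by
          rw [← Real.rpow_add hL0, ← Real.rpow_add hL0, mul_comm]
          congr 2
          rw [hκ1]; ring
  set D : ℕ → ℝ := fun m => Del (wc B N) ((B + 1) * N) N (⌊L ^ κ1⌋₊ + 1) (JJ N) f (s m) with hD
  have hD0 : ∀ m, 0 ≤ D m := by
    intro m
    rw [hD]; simp only
    unfold Del
    exact sum_nonneg fun _ _ => sum_nonneg fun _ _ => sum_nonneg fun _ _ => norm_nonneg _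
  set E := (Icc 1 x).filter (fun m => N * L ^ (-(3 * κ1)) < D m) with hE
  refine ⟨E, filter_subset _ _, ?_, ?_⟩
  · have h1 : (E.card : ℝ) * (N * L ^ (-(3 * κ1))) ≤ N * x * L ^ (-(6 * κ1)) := by
      rw [← nsmul_eq_mul, ← sum_const]
      refine le_trans (sum_le_sum fun m hm => (mem_filter.1 hm).2.le) ?_
      refine le_trans ?_ hDelsum
      exact sum_le_sum_of_subset_of_nonneg (filter_subset _ _) (fun m _ _ => hD0 m)
    have h2 : L ^ (-(6 * κ1)) = L ^ (-(3 * κ1)) * L ^ (-(3 * κ1)) := by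
      rw [← Real.rpow_add hL0]; congr 1; ring
    rw [h2] at h1
    have h3 : (E.card : ℝ) ≤ x * L ^ (-(3 * κ1)) := by
      have h4 : 0 < N * L ^ (-(3 * κ1)) := by have := hpow (-(3 * κ1)); positivity
      have h5 : (E.card : ℝ) * (N * L ^ (-(3 * κ1))) ≤ (x * L ^ (-(3 * κ1))) * (N * L ^ (-(3 * κ1))) := by
        refine h1.trans (le_of_eq ?_); ring
      exact le_of_mul_le_mul_right h5 h4
    refine h3.trans ?_
    have h6 : L ^ (-(3 * κ1)) ≤ L ^ (-κ1) := Real.rpow_le_rpow_of_exponent_le hL1 (by linarith)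
    gcongr
  · intro m hm hmE b hbb
    have h1 := hfix N hNf (⌊L ^ κ1⌋₊ + 1) f (fun n => Nat.lt_succ_of_le (Nat.le_floor (hf n))) (s m) (hs.1 m hm) b hbb
    refine h1.trans ?_
    have h2 : D m ≤ N * L ^ (-(3 * κ1)) := by
      by_contra hcon
      exact hmE (mem_filter.2 ⟨hm, not_le.1 hcon⟩)
    have h3 : L ^ (-(3 * κ1)) ≤ rr N := by
      have h4 : L ^ (-(3 * κ1)) ≤ 1 / v := by
        rw [Real.rpow_neg hL0.le, ← one_div]
        exact one_div_le_one_div_of_le hv0 gc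
      refine h4.trans ?_
      unfold rr
      have hsv0 : 0 < √v := Real.sqrt_pos.2 hv0
      have hvs : √v * √v = v := Real.mul_self_sqrt hv0.le
      have hs1 : 1 ≤ √v := Real.le_sqrt_of_sq_le (by linarith)
      rw [← hL, ← hv, div_le_div_iff₀ hv0 hsv0]
      nlinarith
    have h5 : D m ≤ N * rr N := h2.trans (by gcongr)
    calc _ ≤ N * rr N + Cf * N * rr N := add_le_add h5 le_rfl
      _ = _ := by ring

end Pool.Agent.TH445.OI
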