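import Mathlib
import Pool.Agent.TH445.OI.A11

set_option autoImplicit false

/-! The natural law, and one family of shifts. -/

open Finset Filter

namespace Pool.Agent.TH445.OI

open Pool.Agent.H373R2.T7 (energy)
open ArithmeticFunction (cardFactors)

lemma energy_one (x : ℕ) (s : ℕ → ℤ) (hs : ∀ a ∈ Icc 1 x, ∀ b ∈ Icc 1 x, s a = s b → a = b) : energy 1 x s ≤ x := by
  unfold energy
  have h1 : x = (Icc 1 x).card := by rw [Nat.card_Icc]; omega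
  conv_rhs => rw [h1]
  apply card_le_card_of_injOn (fun q => q.1 0)
  · intro q hq
    rw [mem_coe, mem_filter, mem_product, Fintype.mem_piFinset] at hq
    exact hq.1.1 0
  · intro q hq q' hq' h
    rw [mem_coe, mem_filter, mem_product, Fintype.mem_piFinset, Fintype.mem_piFinset] at hq hq'
    simp only [Fin.sum_univ_one] at hq hq'
    simp only at h
    have h2 : q.1 = q'.1 := by
      funext i
      rw [Fin.eq_zero i]
      exact h
    have h3 : q.2 = q'.2 := by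
      funext i
      rw [Fin.eq_zero i]
      apply hs _ (hq.1.2 0) _ (hq'.1.2 0)
      rw [← hq.2, ← hq'.2, h]
    exact Prod.ext h2 h3

lemma shift_diff (N : ℕ) (φ : ℕ → ℂ) (hφ : ∀ n, ‖φ n‖ ≤ 1) (h : ℕ) :
    ‖∑ n ∈ Icc 1 N, φ (n + h) - ∑ n ∈ Icc 1 N, φ n‖ ≤ 2 * h := by
  induction h with
  | zero => simp
  | succ h ih =>
    have h1 : ∑ n ∈ Icc 1 N, φ (n + (h + 1)) = ∑ n ∈ Icc 1 N, φ (n + h) + (φ (N + h + 1) - φ (1 + h)) := by
      clear ih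
      induction N with
      | zero => simp [add_comm]
      | succ N ihN =>
        rw [sum_Icc_succ_top (by omega), sum_Icc_succ_top (by omega), ihN]
        have e1 : N + 1 + (h + 1) = N + 1 + h + 1 := by ring
        have e2 : N + h + 1 = N + 1 + h := by ring
        rw [e1, e2]
        ring
    rw [h1]
    have h2 : ∑ n ∈ Icc 1 N, φ (n + h) + (φ (N + h + 1) - φ (1 + h)) - ∑ n ∈ Icc 1 N, φ n =
        (∑ n ∈ Icc 1 N, φ (n + h) - ∑ n ∈ Icc 1 N, φ n) + (φ (N + h + 1) - φ (1 + h)) := by ring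
    rw [h2]
    refine (norm_add_le _ _).trans ?_
    have h3 := norm_sub_le (φ (N + h + 1)) (φ (1 + h))
    have h4 := hφ (N + h + 1)
    have h5 := hφ (1 + h)
    push_cast
    linarith

lemma good_id (N B : ℕ) (hB : 1 ≤ B) : Good N B 1 1 N (fun m => m) := by
  refine ⟨fun m hm => ?_, ?_⟩
  · rw [mem_Icc] at hm
    exact hm.2.trans (Nat.le_mul_of_pos_left _ (by omega))
  · have h1 := energy_one N (fun m => (m : ℤ)) (by intro a _ b _ h; exact_mod_cast h)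
    have h2 : (energy 1 N (fun m => (m : ℤ)) : ℝ) ≤ N := by exact_mod_cast h1
    have h3 : (0 : ℝ) ≤ N := Nat.cast_nonneg _
    calc (energy 1 N (fun m => (m : ℤ)) : ℝ) * N ≤ N * N := by gcongr
      _ = 1 * (N : ℝ) ^ (2 * 1) := by ring

/-- basic facts on the rate -/
lemma rr_facts : ∃ N₀ : ℕ, 3 ≤ N₀ ∧ ∀ N : ℕ, N₀ ≤ N → 0 < rr N ∧ 1 / Real.log (Real.log N) ≤ rr N ∧ 16 ≤ Real.log (Real.log N) ∧
    1 ≤ Real.log N := by
  obtain ⟨c, hc, N₀, h3, hn⟩ := nums 0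
  refine ⟨N₀, h3, fun N hN => ?_⟩
  obtain ⟨n1, n2, -⟩ := hn N hN _ _ rfl rfl
  set v := Real.log (Real.log N) with hv
  have hv0 : 0 < v := by linarith
  have hsv0 : 0 < √v := Real.sqrt_pos.2 hv0
  have hvs : √v * √v = v := Real.mul_self_sqrt hv0.le
  have hs1 : 1 ≤ √v := Real.le_sqrt_of_sq_le (by linarith)
  have hNr : (3 : ℝ) ≤ N := by exact_mod_cast h3.trans hN
  refine ⟨?_, ?_, n1, ?_⟩
  · unfold rr; rw [← hv]; positivity
  · unfold rr
    rw [← hv, div_le_div_iff₀ hv0 hsv0]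
    nlinarith
  · by_contra hcon
    have hneg : v ≤ 0 := Real.log_nonpos (Real.log_nonneg (by linarith)) (by linarith)
    linarith

set_option maxHeartbeats 1000000 in
theorem nat_law (B : ℕ) (hB : 1 ≤ B) : ∃ C : ℝ, 0 < C ∧ ∃ N₀ : ℕ, 3 ≤ N₀ ∧ ∀ N : ℕ, N₀ ≤ N → ∀ g : ℕ → ℂ, (∀ l, ‖g l‖ ≤ 1) →
    ‖∑ r ∈ Icc 1 N, g (cardFactors r) - (N : ℂ) * LL B N g‖ ≤ C * N * rr N := by
  obtain ⟨κ, hκ, C, hC, N1, hN1, hb⟩ := base0 1 B 1 zero_le_one
  obtain ⟨N2, hN2, hr⟩ := rr_facts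
  obtain ⟨N3, h3⟩ := ev_L _ (ev_pow 1 1 κ hκ)
  refine ⟨C + 4, by positivity, max (max N1 N2) N3, by omega, fun N hN g hg => ?_⟩
  obtain ⟨r1, r2, r3, r4⟩ := hr N (by omega)
  have g3 := h3 N (by omega)
  simp only [pow_one, one_mul] at g3
  set L := Real.log N with hL
  set v := Real.log L with hv
  have hL0 : 0 < L := by linarith
  have hNr : (3 : ℝ) ≤ N := by exact_mod_cast (by omega : 3 ≤ N)
  have hN0 : (0 : ℝ) < N := by linarith
  have hLκ : 16 ≤ L ^ κ := r3.trans g3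
  have hLn : L ^ (-κ) ≤ 1 / 16 := by
    rw [Real.rpow_neg hL0.le, ← one_div]
    exact one_div_le_one_div_of_le (by norm_num) hLκ
  have hLv : L ^ (-κ) ≤ 1 / v := by
    rw [Real.rpow_neg hL0.le, ← one_div]
    exact one_div_le_one_div_of_le (by linarith) g3
  have hLp : 0 < L ^ (-κ) := Real.rpow_pos_of_pos hL0 _
  obtain ⟨E, hE1, hE2, hE3⟩ := hb N (by omega) (fun _ => 0) (fun n => by
    simp only [Nat.cast_zero]; positivity) N (fun m => m) (good_id N B hB)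
  set hs := ⌊(N : ℝ) * L ^ (-κ)⌋₊ + 1 with hhs
  have hhs1 : (hs : ℝ) ≤ N * L ^ (-κ) + 1 := by
    rw [hhs]; push_cast
    have := Nat.floor_le (by positivity : 0 ≤ (N : ℝ) * L ^ (-κ))
    linarith
  have hhsN : hs ≤ N := by
    have : (hs : ℝ) ≤ N := by nlinarith
    exact_mod_cast this
  have hex : ∃ h0 ∈ Icc 1 hs, h0 ∉ E := by
    by_contra hcon
    push Not at hcon
    have h5 : Icc 1 hs ⊆ E := fun k hk => hcon k hk
    have h6 := card_le_card h5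
    rw [Nat.card_Icc, Nat.add_sub_cancel] at h6
    have h7 : (hs : ℝ) ≤ N * L ^ (-κ) := le_trans (by exact_mod_cast h6) hE2
    have h8 := Nat.lt_floor_add_one ((N : ℝ) * L ^ (-κ))
    rw [hhs] at h7
    push_cast at h7
    linarith
  obtain ⟨h0, hh0, hh0E⟩ := hex
  rw [mem_Icc] at hh0
  have h9 := hE3 h0 (mem_Icc.2 ⟨hh0.1, hh0.2.trans hhsN⟩) hh0E (fun _ => g) (fun _ l => hg l)
  rw [sum_const, Nat.card_Icc, nsmul_eq_mul, Nat.add_sub_cancel] at h9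
  have h10 := shift_diff N (fun n => g (cardFactors n)) (fun n => hg _) h0
  have h11 : ∑ r ∈ Icc 1 N, g (cardFactors r) - (N : ℂ) * LL B N g =
      (∑ n ∈ Icc 1 N, g (cardFactors (n + h0)) - (N : ℂ) * LL B N g) -
      (∑ n ∈ Icc 1 N, g (cardFactors (n + h0)) - ∑ n ∈ Icc 1 N, g (cardFactors n)) := by ring
  rw [h11]
  refine (norm_sub_le _ _).trans ?_
  have h12 : 2 * (h0 : ℝ) ≤ 4 * N * rr N := by
    have h13 : (h0 : ℝ) ≤ hs := by exact_mod_cast hh0.2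
    have h14 : N * L ^ (-κ) ≤ N * rr N := by
      apply mul_le_mul_of_nonneg_left (hLv.trans r2) hN0.le
    have h15 : 1 ≤ N * rr N := by
      have h16 : v ≤ N := by
        have e1 : v ≤ L - 1 := Real.log_le_sub_one_of_pos hL0
        have e2 : L ≤ N - 1 := Real.log_le_sub_one_of_pos hN0
        linarith
      have h17 : 1 ≤ N * (1 / v) := by
        rw [mul_one_div, le_div_iff₀ (by linarith), one_mul]; exact h16
      exact h17.trans (mul_le_mul_of_nonneg_left r2 hN0.le)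
    linarith
  have h18 : (C + 4) * N * rr N = C * N * rr N + 4 * N * rr N := by ring
  rw [h18]
  linarith

/-- one family of shifts -/
theorem base (p B : ℕ) (hB : 1 ≤ B) (C0 : ℝ) (hC0 : 0 ≤ C0) : ∃ κ : ℝ, 0 < κ ∧ ∃ C : ℝ, 0 < C ∧ ∃ N₀ : ℕ, 3 ≤ N₀ ∧ ∀ N : ℕ, N₀ ≤ N →
    ∀ f : ℕ → ℕ, (∀ n, (f n : ℝ) ≤ Real.log N ^ κ) → ∀ (x : ℕ) (s : ℕ → ℕ), Good N B p C0 x s →
    ∃ E ⊆ Icc 1 x, (E.card : ℝ) ≤ x * Real.log N ^ (-κ) ∧ ∀ m ∈ Icc 1 x, m ∉ E → ∀ b : ℕ → ℕ → ℂ, (∀ c l, ‖b c l‖ ≤ 1) →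
      ‖∑ n ∈ Icc 1 N, b (f n) (cardFactors (n + s m)) - ∑ n ∈ Icc 1 N, (∑ r ∈ Icc 1 N, b (f n) (cardFactors r)) / N‖ ≤ C * N * rr N := by
  obtain ⟨κ, hκ, C, hC, N1, hN1, hb⟩ := base0 p B C0 hC0
  obtain ⟨C', hC', N2, hN2, hl⟩ := nat_law B hB
  refine ⟨κ, hκ, C + C', by positivity, max N1 N2, by omega, fun N hN f hf x s hs => ?_⟩
  obtain ⟨E, hE1, hE2, hE3⟩ := hb N (by omega) f hf x s hs
  refine ⟨E, hE1, hE2, fun m hm hmE b hbb => ?_⟩
  have h1 := hE3 m hm hmE b hbb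
  have hNr : (3 : ℝ) ≤ N := by exact_mod_cast (by omega : 3 ≤ N)
  have hN0 : (0 : ℝ) < N := by linarith
  have h2 : ‖∑ n ∈ Icc 1 N, (∑ r ∈ Icc 1 N, b (f n) (cardFactors r)) / (N : ℂ) - ∑ n ∈ Icc 1 N, LL B N (b (f n))‖ ≤ C' * N * rr N := by
    rw [← sum_sub_distrib]
    calc _ ≤ ∑ n ∈ Icc 1 N, C' * rr N := by
          refine (norm_sum_le _ _).trans (sum_le_sum fun n _ => ?_)
          have h3 := hl N (by omega) (b (f n)) (fun l => hbb _ l)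
          have h4 : (∑ r ∈ Icc 1 N, b (f n) (cardFactors r)) / (N : ℂ) - LL B N (b (f n)) =
              (∑ r ∈ Icc 1 N, b (f n) (cardFactors r) - (N : ℂ) * LL B N (b (f n))) / N := by
            have : (N : ℂ) ≠ 0 := by exact_mod_cast hN0.ne'
            field_simp
          rw [h4, norm_div, Complex.norm_natCast, div_le_iff₀ hN0]
          refine h3.trans (le_of_eq ?_)
          ring
      _ = _ := by
          rw [sum_const, Nat.card_Icc, nsmul_eq_mul, Nat.add_sub_cancel]; ring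
  have h5 : ∑ n ∈ Icc 1 N, b (f n) (cardFactors (n + s m)) - ∑ n ∈ Icc 1 N, (∑ r ∈ Icc 1 N, b (f n) (cardFactors r)) / (N : ℂ) =
      (∑ n ∈ Icc 1 N, b (f n) (cardFactors (n + s m)) - ∑ n ∈ Icc 1 N, LL B N (b (f n))) -
      (∑ n ∈ Icc 1 N, (∑ r ∈ Icc 1 N, b (f n) (cardFactors r)) / (N : ℂ) - ∑ n ∈ Icc 1 N, LL B N (b (f n))) := by ring
  rw [h5]
  refine (norm_sub_le _ _).trans ?_
  have h6 : (C + C') * N * rr N = C * N * rr N + C' * N * rr N := by ring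
  rw [h6]
  exact add_le_add h1 h2

/-- several orders at once -/
theorem baseP (P B : ℕ) (hB : 1 ≤ B) (C0 : ℝ) (hC0 : 0 ≤ C0) : ∃ κ : ℝ, 0 < κ ∧ ∃ C : ℝ, 0 < C ∧ ∃ N₀ : ℕ, 3 ≤ N₀ ∧ ∀ N : ℕ, N₀ ≤ N →
    ∀ f : ℕ → ℕ, (∀ n, (f n : ℝ) ≤ Real.log N ^ κ) → ∀ (x : ℕ) (s : ℕ → ℕ), (∃ p ≤ P, Good N B p C0 x s) →
    ∃ E ⊆ Icc 1 x, (E.card : ℝ) ≤ x * Real.log N ^ (-κ) ∧ ∀ m ∈ Icc 1 x, m ∉ E → ∀ b : ℕ → ℕ → ℂ, (∀ c l, ‖b c l‖ ≤ 1) →
      ‖∑ n ∈ Icc 1 N, b (f n) (cardFactors (n + s m)) - ∑ n ∈ Icc 1 N, (∑ r ∈ Icc 1 N, b (f n) (cardFactors r)) / N‖ ≤ C * N * rr N := by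
  obtain ⟨Nr, hNr3, hr⟩ := rr_facts
  induction P with
  | zero =>
    obtain ⟨κ, hκ, C, hC, N1, hN1, hb⟩ := base 0 B hB C0 hC0
    refine ⟨κ, hκ, C, hC, N1, hN1, fun N hN f hf x s hs => ?_⟩
    obtain ⟨p, hp, hg⟩ := hs
    have : p = 0 := by omega
    subst this
    exact hb N hN f hf x s hg
  | succ P ih =>
    obtain ⟨κ1, hκ1, C1, hC1, N1, hN1, hb1⟩ := ih
    obtain ⟨κ2, hκ2, C2, hC2, N2, hN2, hb2⟩ := base (P + 1) B hB C0 hC0
    refine ⟨min κ1 κ2, lt_min hκ1 hκ2, max C1 C2, lt_max_of_lt_left hC1, max (max N1 N2) Nr, by omega, fun N hN f hf x s hs => ?_⟩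
    obtain ⟨p, hp, hg⟩ := hs
    obtain ⟨r1, -, -, r4⟩ := hr N (by omega)
    have hx0 : (0 : ℝ) ≤ x := Nat.cast_nonneg _
    have hN0 : (0 : ℝ) ≤ N := Nat.cast_nonneg _
    rcases Nat.lt_or_ge P p with h | h
    · have hp' : p = P + 1 := by omega
      subst hp'
      obtain ⟨E, hE1, hE2, hE3⟩ := hb2 N (by omega) f (fun n => (hf n).trans (Real.rpow_le_rpow_of_exponent_le r4 (min_le_right _ _))) x s hg
      refine ⟨E, hE1, hE2.trans ?_, fun m hm hmE b hbb => (hE3 m hm hmE b hbb).trans ?_⟩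
      · apply mul_le_mul_of_nonneg_left _ hx0
        exact Real.rpow_le_rpow_of_exponent_le r4 (by have := min_le_right κ1 κ2; linarith)
      · have := le_max_right C1 C2
        gcongr
    · obtain ⟨E, hE1, hE2, hE3⟩ := hb1 N (by omega) f (fun n => (hf n).trans (Real.rpow_le_rpow_of_exponent_le r4 (min_le_left _ _))) x s ⟨p, h, hg⟩
      refine ⟨E, hE1, hE2.trans ?_, fun m hm hmE b hbb => (hE3 m hm hmE b hbb).trans ?_⟩
      · apply mul_le_mul_of_nonneg_left _ hx0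
        exact Real.rpow_le_rpow_of_exponent_le r4 (by have := min_le_left κ1 κ2; linarith)
      · have := le_max_left C1 C2
        gcongr

end Pool.Agent.TH445.OI
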