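import Mathlib
import Pool.Agent.TH445.OI.A12

set_option autoImplicit false

/-! Several families of shifts: induction on the number of families. -/

open Finset Filter

namespace Pool.Agent.TH445.OI

open Pool.Agent.H373R2.T7 (energy)
open ArithmeticFunction (cardFactors)

/-- `Ω(n + h)` is rarely larger than `J` -/
theorem cnt (B : ℕ) : ∃ C : ℝ, 0 < C ∧ ∃ N₀ : ℕ, 3 ≤ N₀ ∧ ∀ N : ℕ, N₀ ≤ N → ∀ h : ℕ, h ≤ B * N →
    ∑ n ∈ Icc 1 N, (if cardFactors (n + h) ≤ JJ N then (0 : ℝ) else 1) ≤ C * N * rr N := by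
  obtain ⟨c, hc, N₁, hN₁3, hnum⟩ := nums B
  obtain ⟨N₂, hN₂3, hr⟩ := rr_facts
  refine ⟨6 * (B + 1), by positivity, max N₁ N₂, by omega, fun N hN h hh => ?_⟩
  obtain ⟨n1, n2, n3, -⟩ := hnum N (by omega) _ _ rfl rfl
  obtain ⟨r1, r2, r3, r4⟩ := hr N (by omega)
  set v := Real.log (Real.log N) with hv
  set M : ℕ := (B + 1) * N with hM
  have hJv : v ^ 2 ≤ (JJ N : ℝ) := Nat.le_ceil _
  have hv0 : 0 < v := by linarith
  have hJ0 : (0 : ℝ) < JJ N := lt_of_lt_of_le (by positivity) hJv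
  have h1 : ∑ n ∈ Icc 1 N, (if cardFactors (n + h) ≤ JJ N then (0 : ℝ) else 1) ≤
      ∑ n ∈ Icc 1 N, (fun m => ((cardFactors m : ℕ) : ℝ) / JJ N) (n + h) := by
    apply sum_le_sum
    intro n _
    split_ifs with h2
    · positivity
    · rw [one_le_div hJ0]
      exact_mod_cast (not_le.1 h2).le
  refine h1.trans ?_
  refine (shift_sum N M h (by rw [hM, Nat.succ_mul]; omega) (fun m => ((cardFactors m : ℕ) : ℝ) / JJ N) (fun n => by positivity)).trans ?_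
  rw [← sum_div]
  have h3 := Om_sum M
  have hMr : (M : ℝ) = (B + 1) * N := by rw [hM]; push_cast; ring
  have hN0 : (0 : ℝ) ≤ N := Nat.cast_nonneg _
  calc _ ≤ 2 * P1 M * M / JJ N := by gcongr
    _ ≤ 2 * (3 * v) * M / v ^ 2 := by gcongr
    _ = 6 * (B + 1) * N * (1 / v) := by rw [hMr]; field_simp; ring
    _ ≤ 6 * (B + 1) * N * rr N := by gcongr

lemma pi_split {α M : Type*} [DecidableEq α] [AddCommMonoid M] {k : ℕ} (S : Fin (k + 1) → Finset α) (F : (Fin (k + 1) → α) → M) :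
    ∑ r ∈ Fintype.piFinset S, F r = ∑ a ∈ S 0, ∑ r ∈ Fintype.piFinset (fun i : Fin k => S i.succ), F (Fin.cons a r : Fin (k + 1) → α) := by
  rw [← sum_product']
  refine sum_nbij' (fun r => (r 0, fun i => r i.succ)) (fun q => (Fin.cons q.1 q.2 : Fin (k + 1) → α)) ?_ ?_ ?_ ?_ ?_
  · intro r hr
    rw [Fintype.mem_piFinset] at hr
    rw [mem_product, Fintype.mem_piFinset]
    exact ⟨hr 0, fun i => hr i.succ⟩
  · intro q hq
    rw [mem_product, Fintype.mem_piFinset] at hq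
    rw [Fintype.mem_piFinset]
    intro i
    refine Fin.cases ?_ (fun j => ?_) i
    · simpa using hq.1
    · simpa using hq.2 j
  · intro r _
    funext i
    refine Fin.cases ?_ (fun j => ?_) i
    · simp
    · simp
  · intro q _
    simp
  · intro r _
    congr 1
    funext i
    refine Fin.cases ?_ (fun j => ?_) i
    · simp
    · simp

/-- the average over all `k`-tuples from `[1, N]` of a function of the values of `Ω` -/
noncomputable def av (N k : ℕ) (g : (Fin k → ℕ) → ℂ) : ℂ :=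
  (∑ r ∈ Fintype.piFinset (fun _ : Fin k => Icc 1 N), g (fun i => cardFactors (r i))) / (N : ℂ) ^ k

lemma av_zero (N : ℕ) (g : (Fin 0 → ℕ) → ℂ) (l : Fin 0 → ℕ) : av N 0 g = g l := by
  unfold av
  rw [pow_zero, div_one]
  have h1 : Fintype.piFinset (fun _ : Fin 0 => Icc 1 N) = {fun i => i.elim0} := by
    ext r
    simp only [Fintype.mem_piFinset, mem_singleton]
    constructor
    · intro _; exact Subsingleton.elim _ _
    · intro _ i; exact i.elim0
  rw [h1, sum_singleton]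
  congr 1
  exact Subsingleton.elim _ _

lemma av_succ (N k : ℕ) (g : (Fin (k + 1) → ℕ) → ℂ) :
    av N (k + 1) g = (∑ r ∈ Icc 1 N, av N k (fun l => g (Fin.cons (cardFactors r) l : Fin (k + 1) → ℕ))) / N := by
  unfold av
  rw [pi_split, ← sum_div, div_div, pow_succ]
  congr 1
  apply sum_congr rfl
  intro r _
  apply sum_congr rfl
  intro q _
  congr 1
  funext i
  refine Fin.cases ?_ (fun j => ?_) i
  · simp
  · simp

lemma av_norm (N k : ℕ) (hN : 1 ≤ N) (g : (Fin k → ℕ) → ℂ) (A : ℝ) (hg : ∀ l, ‖g l‖ ≤ A) : ‖av N k g‖ ≤ A := by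
  unfold av
  have hN0 : (0 : ℝ) < N := by exact_mod_cast hN
  rw [norm_div, norm_pow, Complex.norm_natCast, div_le_iff₀ (by positivity)]
  calc _ ≤ ∑ r ∈ Fintype.piFinset (fun _ : Fin k => Icc 1 N), A := (norm_sum_le _ _).trans (sum_le_sum fun _ _ => hg _)
    _ = _ := by
        rw [sum_const, Fintype.card_piFinset, prod_const, Nat.card_Icc, Nat.add_sub_cancel, card_univ, Fintype.card_fin, nsmul_eq_mul]
        push_cast
        ring

lemma av_sub (N k : ℕ) (g g' : (Fin k → ℕ) → ℂ) : av N k g - av N k g' = av N k (fun l => g l - g' l) := by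
  unfold av
  rw [← sub_div, ← sum_sub_distrib]

/-- replacing `Ω(n + h)` by `min (Ω(n + h)) J` -/
lemma trunc (N J h : ℕ) (T : ℝ) (hT : ∑ n ∈ Icc 1 N, (if cardFactors (n + h) ≤ J then (0 : ℝ) else 1) ≤ T)
    (G : ℕ → ℕ → ℂ) (hG : ∀ n l, ‖G n l‖ ≤ 1) :
    ‖∑ n ∈ Icc 1 N, G n (cardFactors (n + h)) - ∑ n ∈ Icc 1 N, G n (min (cardFactors (n + h)) J)‖ ≤ 2 * T := by
  rw [← sum_sub_distrib]
  refine (norm_sum_le _ _).trans ?_
  refine le_trans ?_ (mul_le_mul_of_nonneg_left hT zero_le_two)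
  rw [mul_sum]
  apply sum_le_sum
  intro n _
  split_ifs with h1
  · rw [min_eq_left h1, sub_self, norm_zero, mul_zero]
  · refine (norm_sub_le _ _).trans ?_
    have := hG n (cardFactors (n + h))
    have := hG n (min (cardFactors (n + h)) J)
    linarith

/-- the statement for `k` families -/
def Ind (P B : ℕ) (C0 : ℝ) (k : ℕ) : Prop := ∃ κ : ℝ, 0 < κ ∧ ∃ C : ℝ, 0 < C ∧ ∃ N₀ : ℕ, 3 ≤ N₀ ∧ ∀ N : ℕ, N₀ ≤ N →
    ∀ f : ℕ → ℕ, (∀ n, (f n : ℝ) ≤ Real.log N ^ κ) → ∀ (x : Fin k → ℕ) (s : Fin k → ℕ → ℕ), (∀ i, ∃ p ≤ P, Good N B p C0 (x i) (s i)) →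
    ∃ E ⊆ Fintype.piFinset (fun i => Icc 1 (x i)), (E.card : ℝ) ≤ (∏ i, (x i : ℝ)) * Real.log N ^ (-κ) ∧
      ∀ m ∈ Fintype.piFinset (fun i => Icc 1 (x i)), m ∉ E → ∀ a : ℕ → (Fin k → ℕ) → ℂ, (∀ c l, ‖a c l‖ ≤ 1) →
      ‖∑ n ∈ Icc 1 N, a (f n) (fun i => cardFactors (n + s i (m i))) - ∑ n ∈ Icc 1 N, av N k (a (f n))‖ ≤ C * N * rr N

/-- sizes of labels -/
lemma label_size (κ : ℝ) (hκ : 0 < κ) : ∃ N₀ : ℕ, 3 ≤ N₀ ∧ ∀ N : ℕ, N₀ ≤ N → 2 ≤ Real.log N ^ κ ∧ ∀ c t : ℕ, (c : ℝ) ≤ Real.log N ^ κ → t ≤ JJ N →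
    ((c * (JJ N + 1) + t : ℕ) : ℝ) ≤ Real.log N ^ (2 * κ) := by
  obtain ⟨N₁, h1⟩ := ev_L _ (ev_pow 2 6 κ hκ)
  obtain ⟨N₂, hN₂3, hr⟩ := rr_facts
  refine ⟨max N₁ N₂, by omega, fun N hN => ?_⟩
  have g1 := h1 N (by omega)
  obtain ⟨r1, r2, r3, r4⟩ := hr N (by omega)
  set L := Real.log N with hL
  set v := Real.log L with hv
  have hL0 : 0 < L := by linarith
  have hp : 0 < L ^ κ := Real.rpow_pos_of_pos hL0 _
  have h2 : 2 ≤ L ^ κ := by nlinarith
  refine ⟨h2, fun c t hc ht => ?_⟩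
  have hJ : ((JJ N : ℕ) : ℝ) ≤ v ^ 2 + 1 := (Nat.ceil_lt_add_one (by positivity)).le
  have ht' : (t : ℝ) ≤ JJ N := by exact_mod_cast ht
  have h3 : L ^ (2 * κ) = L ^ κ * L ^ κ := by rw [← Real.rpow_add hL0]; congr 1; ring
  rw [h3]
  push_cast
  have hc0 : (0 : ℝ) ≤ c := Nat.cast_nonneg _
  have hJ0 : (0 : ℝ) ≤ JJ N := Nat.cast_nonneg _
  have hJ3 : (JJ N : ℝ) + 1 ≤ 3 * v ^ 2 := by nlinarith
  calc (c : ℝ) * (JJ N + 1) + t ≤ L ^ κ * (JJ N + 1) + L ^ κ * (JJ N + 1) := by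
        apply add_le_add
        · gcongr
        · nlinarith
    _ = 2 * (L ^ κ * (JJ N + 1)) := by ring
    _ ≤ 2 * (L ^ κ * (3 * v ^ 2)) := by gcongr
    _ = L ^ κ * (6 * v ^ 2) := by ring
    _ ≤ L ^ κ * L ^ κ := by gcongr

lemma ind_zero (P B : ℕ) (C0 : ℝ) : Ind P B C0 0 := by
  obtain ⟨N₀, hN₀3, hr⟩ := rr_facts
  refine ⟨1, one_pos, 1, one_pos, N₀, hN₀3, fun N hN f hf x s hs => ⟨∅, empty_subset _, ?_, fun m hm _ a ha => ?_⟩⟩
  · obtain ⟨r1, r2, r3, r4⟩ := hr N hN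
    have : 0 ≤ Real.log N ^ (-(1 : ℝ)) := Real.rpow_nonneg (by linarith) _
    simp only [card_empty, Nat.cast_zero, univ_eq_empty, prod_empty, one_mul]
    exact this
  · obtain ⟨r1, r2, r3, r4⟩ := hr N hN
    have h1 : ∑ n ∈ Icc 1 N, a (f n) (fun i : Fin 0 => cardFactors (n + s i (m i))) = ∑ n ∈ Icc 1 N, av N 0 (a (f n)) :=
      sum_congr rfl fun n _ => (av_zero N _ _).symm
    rw [h1, sub_self, norm_zero]
    positivity

set_option maxHeartbeats 4000000 in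
lemma ind_succ (P B : ℕ) (hB : 1 ≤ B) (C0 : ℝ) (hC0 : 0 ≤ C0) (k : ℕ) (ih : Ind P B C0 k) : Ind P B C0 (k + 1) := by
  classical
  obtain ⟨κ1, hκ1, C1, hC1, N1, hN1, hb1⟩ := ih
  obtain ⟨κ2, hκ2, C2, hC2, N2, hN2, hb2⟩ := baseP P B hB C0 hC0
  obtain ⟨C3, hC3, N3, hN3, hcnt⟩ := cnt B
  set κ := min κ1 κ2 / 2 with hκ
  have hκ0 : 0 < κ := by rw [hκ]; exact half_pos (lt_min hκ1 hκ2)
  have h2κ1 : 2 * κ ≤ κ1 := by rw [hκ]; have := min_le_left κ1 κ2; linarith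
  have h2κ2 : 2 * κ ≤ κ2 := by rw [hκ]; have := min_le_right κ1 κ2; linarith
  obtain ⟨N4, hN4, hlab⟩ := label_size κ hκ0
  obtain ⟨N5, hN5, hr⟩ := rr_facts
  refine ⟨κ, hκ0, 4 * C3 + C1 + C2, by positivity, max (max N1 N2) (max N3 (max N4 N5)), by omega, fun N hN f hf x s hs => ?_⟩
  obtain ⟨g1, g2⟩ := hlab N (by omega)
  obtain ⟨r1, r2, r3, r4⟩ := hr N (by omega)
  have hN1' : 1 ≤ N := by omega
  set L := Real.log N with hL
  have hL0 : 0 < L := by linarith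
  set J := JJ N with hJ
  -- first coordinate
  obtain ⟨Eb, hEb1, hEb2, hEb3⟩ := hb2 N (by omega) f (fun n => (hf n).trans (Real.rpow_le_rpow_of_exponent_le r4 (by linarith))) (x 0) (s 0) (hs 0)
  -- label
  set f' : ℕ → ℕ → ℕ := fun m0 n => f n * (J + 1) + min (cardFactors (n + s 0 m0)) J with hf'
  have hf'b : ∀ m0 n, (f' m0 n : ℝ) ≤ L ^ κ1 := fun m0 n =>
    (g2 (f n) _ (hf n) (min_le_right _ _)).trans (Real.rpow_le_rpow_of_exponent_le r4 h2κ1)
  have hEk := fun m0 : ℕ => hb1 N (by omega) (f' m0) (hf'b m0) (fun i => x i.succ) (fun i => s i.succ) (fun i => hs i.succ)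
  choose Ek hEk1 hEk2 hEk3 using hEk
  set E := (Fintype.piFinset (fun i => Icc 1 (x i))).filter (fun m => m 0 ∈ Eb ∨ (fun i : Fin k => m i.succ) ∈ Ek (m 0)) with hE
  have hx0 : ∀ i, (0 : ℝ) ≤ x i := fun i => Nat.cast_nonneg _
  have hprod0 : (0 : ℝ) ≤ ∏ i : Fin k, (x i.succ : ℝ) := prod_nonneg fun i _ => hx0 _
  refine ⟨E, filter_subset _ _, ?_, ?_⟩
  · have hcard : (E.card : ℝ) = ∑ m ∈ Fintype.piFinset (fun i => Icc 1 (x i)), (if m 0 ∈ Eb ∨ (fun i : Fin k => m i.succ) ∈ Ek (m 0) then (1 : ℝ) else 0) := by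
      rw [hE, card_filter]; push_cast; rfl
    rw [hcard, pi_split]
    have h1 : ∑ m0 ∈ Icc 1 (x 0), ∑ r ∈ Fintype.piFinset (fun i : Fin k => Icc 1 (x i.succ)),
        (if (Fin.cons m0 r : Fin (k + 1) → ℕ) 0 ∈ Eb ∨ (fun i : Fin k => (Fin.cons m0 r : Fin (k + 1) → ℕ) i.succ) ∈ Ek ((Fin.cons m0 r : Fin (k + 1) → ℕ) 0) then (1 : ℝ) else 0) ≤
        ∑ m0 ∈ Icc 1 (x 0), ((if m0 ∈ Eb then (1 : ℝ) else 0) * ∏ i : Fin k, (x i.succ : ℝ) + (∏ i : Fin k, (x i.succ : ℝ)) * L ^ (-κ1)) := by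
      apply sum_le_sum
      intro m0 _
      calc _ ≤ ∑ r ∈ Fintype.piFinset (fun i : Fin k => Icc 1 (x i.succ)), ((if m0 ∈ Eb then (1 : ℝ) else 0) + (if r ∈ Ek m0 then (1 : ℝ) else 0)) := by
            apply sum_le_sum
            intro r _
            simp only [Fin.cons_zero, Fin.cons_succ]
            by_cases c1 : m0 ∈ Eb <;> by_cases c2 : r ∈ Ek m0 <;> simp [c1, c2]
        _ = (if m0 ∈ Eb then (1 : ℝ) else 0) * ∏ i : Fin k, (x i.succ : ℝ) + (Ek m0).card := by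
            rw [sum_add_distrib]
            congr 1
            · rw [sum_const, Fintype.card_piFinset, nsmul_eq_mul, mul_comm]
              congr 1
              rw [Nat.cast_prod]
              apply prod_congr rfl
              intro i _
              rw [Nat.card_Icc, Nat.add_sub_cancel]
            · rw [← sum_filter, sum_const, nsmul_eq_mul, mul_one]
              congr 2
              ext r
              simp only [mem_filter]
              exact ⟨fun h => h.2, fun h => ⟨hEk1 m0 h, h⟩⟩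
        _ ≤ _ := by gcongr; exact hEk2 m0
    refine h1.trans ?_
    rw [sum_add_distrib, ← sum_mul, sum_const, Nat.card_Icc, Nat.add_sub_cancel, nsmul_eq_mul, ← sum_filter, sum_const, nsmul_eq_mul, mul_one]
    have h2 : (((Icc 1 (x 0)).filter (fun m0 => m0 ∈ Eb)).card : ℝ) ≤ x 0 * L ^ (-κ2) := by
      refine le_trans ?_ hEb2
      exact_mod_cast card_le_card (fun m hm => (mem_filter.1 hm).2)
    have h3 : L ^ (-κ1) ≤ L ^ (-(2 * κ)) := Real.rpow_le_rpow_of_exponent_le r4 (by linarith)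
    have h4 : L ^ (-κ2) ≤ L ^ (-(2 * κ)) := Real.rpow_le_rpow_of_exponent_le r4 (by linarith)
    have h5 : L ^ (-(2 * κ)) = L ^ (-κ) * L ^ (-κ) := by rw [← Real.rpow_add hL0]; congr 1; ring
    have h6 : 2 * L ^ (-κ) ≤ 1 := by
      rw [Real.rpow_neg hL0.le, ← div_eq_mul_inv, div_le_one (by linarith)]; exact g1
    have h7 : 0 < L ^ (-κ) := Real.rpow_pos_of_pos hL0 _
    rw [Fin.prod_univ_succ]
    calc _ ≤ (x 0 * L ^ (-(2 * κ))) * ∏ i : Fin k, (x i.succ : ℝ) + x 0 * ((∏ i : Fin k, (x i.succ : ℝ)) * L ^ (-(2 * κ))) := by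
          have := hx0 0
          gcongr
          exact h2.trans (by gcongr)
      _ = (x 0 * ∏ i : Fin k, (x i.succ : ℝ)) * L ^ (-κ) * (2 * L ^ (-κ)) := by rw [h5]; ring
      _ ≤ (x 0 * ∏ i : Fin k, (x i.succ : ℝ)) * L ^ (-κ) * 1 := by
          have := hx0 0
          gcongr
      _ = _ := by ring
  · intro m hm hmE a ha
    have hm0 : m 0 ∉ Eb := fun h => hmE (mem_filter.2 ⟨hm, Or.inl h⟩)
    have hmk : (fun i : Fin k => m i.succ) ∉ Ek (m 0) := fun h => hmE (mem_filter.2 ⟨hm, Or.inr h⟩)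
    rw [Fintype.mem_piFinset] at hm
    have hh0 : s 0 (m 0) ≤ B * N := by
      obtain ⟨p, _, hg⟩ := hs 0
      exact hg.1 _ (hm 0)
    set h0 := s 0 (m 0) with hh0'
    have hT := hcnt N (by omega) h0 hh0
    have e1 : ∑ n ∈ Icc 1 N, a (f n) (fun i => cardFactors (n + s i (m i))) =
        ∑ n ∈ Icc 1 N, (fun n l => a (f n) (Fin.cons l (fun i : Fin k => cardFactors (n + s i.succ (m i.succ))) : Fin (k + 1) → ℕ)) n (cardFactors (n + h0)) := by
      apply sum_congr rfl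
      intro n _
      simp only
      congr 1
      funext i
      refine Fin.cases ?_ (fun j => ?_) i
      · simp [hh0']
      · simp
    have s1 := trunc N J h0 _ hT (fun n l => a (f n) (Fin.cons l (fun i : Fin k => cardFactors (n + s i.succ (m i.succ))) : Fin (k + 1) → ℕ)) (fun n l => ha _ _)
    rw [← e1] at s1
    have hJ1 : 0 < J + 1 := by omega
    have hdiv : ∀ n, f' (m 0) n / (J + 1) = f n := by
      intro n
      rw [hf']
      simp only
      rw [mul_comm, Nat.mul_add_div hJ1, Nat.div_eq_of_lt (lt_of_le_of_lt (min_le_right _ _) (Nat.lt_succ_self J)), add_zero]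
    have hmod : ∀ n, f' (m 0) n % (J + 1) = min (cardFactors (n + h0)) J := by
      intro n
      rw [hf']
      simp only
      rw [mul_comm, Nat.mul_add_mod, Nat.mod_eq_of_lt (lt_of_le_of_lt (min_le_right _ _) (Nat.lt_succ_self J))]
    have s2 := hEk3 (m 0) (fun i : Fin k => m i.succ) (by rw [Fintype.mem_piFinset]; exact fun i => hm i.succ) hmk
      (fun c l => a (c / (J + 1)) (Fin.cons (c % (J + 1)) l : Fin (k + 1) → ℕ)) (fun c l => ha _ _)
    simp only [hdiv, hmod] at s2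
    have s3 := trunc N J h0 _ hT (fun n l => av N k (fun l' => a (f n) (Fin.cons l l' : Fin (k + 1) → ℕ))) (fun n l => av_norm N k hN1' _ _ (fun l' => ha _ _))
    have s4 := hEb3 (m 0) (hm 0) hm0 (fun c l => av N k (fun l' => a c (Fin.cons l l' : Fin (k + 1) → ℕ))) (fun n l => av_norm N k hN1' _ _ (fun l' => ha _ _))
    have e2 : ∑ n ∈ Icc 1 N, av N (k + 1) (a (f n)) = ∑ n ∈ Icc 1 N, (∑ r ∈ Icc 1 N, (fun c l => av N k (fun l' => a c (Fin.cons l l' : Fin (k + 1) → ℕ))) (f n) (cardFactors r)) / N := by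
      apply sum_congr rfl
      intro n _
      rw [av_succ]
    rw [e2]
    simp only at s1 s3 s4 ⊢
    rw [← hh0'] at s4
    set S1 := ∑ n ∈ Icc 1 N, a (f n) (fun i => cardFactors (n + s i (m i))) with hS1
    set S2 := ∑ n ∈ Icc 1 N, a (f n) (Fin.cons (min (cardFactors (n + h0)) J) (fun i : Fin k => cardFactors (n + s i.succ (m i.succ))) : Fin (k + 1) → ℕ) with hS2
    set S3 := ∑ n ∈ Icc 1 N, av N k (fun l' => a (f n) (Fin.cons (min (cardFactors (n + h0)) J) l' : Fin (k + 1) → ℕ)) with hS3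
    set S4 := ∑ n ∈ Icc 1 N, av N k (fun l' => a (f n) (Fin.cons (cardFactors (n + h0)) l' : Fin (k + 1) → ℕ)) with hS4
    set S5 := ∑ n ∈ Icc 1 N, (∑ r ∈ Icc 1 N, av N k (fun l' => a (f n) (Fin.cons (cardFactors r) l' : Fin (k + 1) → ℕ))) / (N : ℂ) with hS5
    have hfin : S1 - S5 = (S1 - S2) + (S2 - S3) - (S4 - S3) + (S4 - S5) := by ring
    rw [hfin]
    refine (norm_add_le _ _).trans ?_
    have t1 := norm_sub_le ((S1 - S2) + (S2 - S3)) (S4 - S3)
    have t2 := norm_add_le (S1 - S2) (S2 - S3)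
    have t3 : (4 * C3 + C1 + C2) * N * rr N = 2 * (C3 * N * rr N) + C1 * N * rr N + 2 * (C3 * N * rr N) + C2 * N * rr N := by ring
    rw [t3]
    linarith

theorem ind (P B : ℕ) (hB : 1 ≤ B) (C0 : ℝ) (hC0 : 0 ≤ C0) (k : ℕ) : Ind P B C0 k := by
  induction k with
  | zero => exact ind_zero P B C0
  | succ k ih => exact ind_succ P B hB C0 hC0 k ih

end Pool.Agent.TH445.OI
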