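import Mathlib
import Pool.Agent.TH445.OI.A13

set_option autoImplicit false

/-! Adding fixed shifts: the final form. -/

open Finset Filter

namespace Pool.Agent.TH445.OI

open Pool.Agent.H373R2.T7 (energy)
open ArithmeticFunction (cardFactors)

/-- the statement for `k` families and `j` fixed shifts -/
def IndF (P B : ℕ) (C0 : ℝ) (j k : ℕ) : Prop := ∃ κ : ℝ, 0 < κ ∧ ∃ C : ℝ, 0 < C ∧ ∃ N₀ : ℕ, 3 ≤ N₀ ∧ ∀ N : ℕ, N₀ ≤ N →
    ∀ f : ℕ → ℕ, (∀ n, (f n : ℝ) ≤ Real.log N ^ κ) → ∀ t : Fin j → ℕ, (∀ i, t i ≤ B * N) →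
    ∀ (x : Fin k → ℕ) (s : Fin k → ℕ → ℕ), (∀ i, ∃ p ≤ P, Good N B p C0 (x i) (s i)) →
    ∃ E ⊆ Fintype.piFinset (fun i => Icc 1 (x i)), (E.card : ℝ) ≤ (∏ i, (x i : ℝ)) * Real.log N ^ (-κ) ∧
      ∀ m ∈ Fintype.piFinset (fun i => Icc 1 (x i)), m ∉ E → ∀ a : ℕ → (Fin j → ℕ) → (Fin k → ℕ) → ℂ, (∀ c u l, ‖a c u l‖ ≤ 1) →
      ‖∑ n ∈ Icc 1 N, a (f n) (fun i => cardFactors (n + t i)) (fun i => cardFactors (n + s i (m i))) -
        ∑ n ∈ Icc 1 N, av N k (a (f n) (fun i => cardFactors (n + t i)))‖ ≤ C * N * rr N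

lemma indF_zero (P B : ℕ) (hB : 1 ≤ B) (C0 : ℝ) (hC0 : 0 ≤ C0) (k : ℕ) : IndF P B C0 0 k := by
  obtain ⟨κ1, hκ1, C1, hC1, N1, hN1, hb1⟩ := ind P B hB C0 hC0 k
  refine ⟨κ1, hκ1, C1, hC1, N1, hN1, fun N hN f hf t ht x s hs => ?_⟩
  obtain ⟨E, hE1, hE2, hE3⟩ := hb1 N hN f hf x s hs
  refine ⟨E, hE1, hE2, fun m hm hmE a ha => ?_⟩
  have h1 := hE3 m hm hmE (fun c l => a c (fun i => i.elim0) l) (fun c l => ha _ _ _)
  have h2 : ∀ n : ℕ, (fun i : Fin 0 => cardFactors (n + t i)) = (fun i => i.elim0) := fun n => Subsingleton.elim _ _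
  simp only [h2]
  exact h1

lemma indF_succ (P B : ℕ) (C0 : ℝ) (j k : ℕ) (ih : IndF P B C0 j k) : IndF P B C0 (j + 1) k := by
  classical
  obtain ⟨κ1, hκ1, C1, hC1, N1, hN1, hb1⟩ := ih
  obtain ⟨C3, hC3, N3, hN3, hcnt⟩ := cnt B
  set κ := κ1 / 2 with hκ
  have hκ0 : 0 < κ := by rw [hκ]; exact half_pos hκ1
  have h2κ1 : 2 * κ ≤ κ1 := by rw [hκ]; linarith
  obtain ⟨N4, hN4, hlab⟩ := label_size κ hκ0
  obtain ⟨N5, hN5, hr⟩ := rr_facts
  refine ⟨κ, hκ0, 4 * C3 + C1, by positivity, max N1 (max N3 (max N4 N5)), by omega, fun N hN f hf t ht x s hs => ?_⟩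
  obtain ⟨g1, g2⟩ := hlab N (by omega)
  obtain ⟨r1, r2, r3, r4⟩ := hr N (by omega)
  have hN1' : 1 ≤ N := by omega
  set L := Real.log N with hL
  have hL0 : 0 < L := by linarith
  set J := JJ N with hJ
  set h0 := t 0 with hh0
  set f' : ℕ → ℕ := fun n => f n * (J + 1) + min (cardFactors (n + h0)) J with hf'
  have hf'b : ∀ n, (f' n : ℝ) ≤ L ^ κ1 := fun n =>
    (g2 (f n) _ (hf n) (min_le_right _ _)).trans (Real.rpow_le_rpow_of_exponent_le r4 h2κ1)
  obtain ⟨E, hE1, hE2, hE3⟩ := hb1 N (by omega) f' hf'b (fun i => t i.succ) (fun i => ht _) x s hs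
  refine ⟨E, hE1, hE2.trans ?_, fun m hm hmE a ha => ?_⟩
  · have hprod0 : (0 : ℝ) ≤ ∏ i : Fin k, (x i : ℝ) := prod_nonneg fun i _ => Nat.cast_nonneg _
    apply mul_le_mul_of_nonneg_left _ hprod0
    exact Real.rpow_le_rpow_of_exponent_le r4 (by linarith)
  · have hT := hcnt N (by omega) h0 (ht 0)
    have hJ1 : 0 < J + 1 := by omega
    have hdiv : ∀ n, f' n / (J + 1) = f n := by
      intro n
      rw [hf']
      simp only
      rw [mul_comm, Nat.mul_add_div hJ1, Nat.div_eq_of_lt (lt_of_le_of_lt (min_le_right _ _) (Nat.lt_succ_self J)), add_zero]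
    have hmod : ∀ n, f' n % (J + 1) = min (cardFactors (n + h0)) J := by
      intro n
      rw [hf']
      simp only
      rw [mul_comm, Nat.mul_add_mod, Nat.mod_eq_of_lt (lt_of_le_of_lt (min_le_right _ _) (Nat.lt_succ_self J))]
    have hcons : ∀ n : ℕ, (fun i : Fin (j + 1) => cardFactors (n + t i)) =
        (Fin.cons (cardFactors (n + h0)) (fun i : Fin j => cardFactors (n + t i.succ)) : Fin (j + 1) → ℕ) := by
      intro n
      funext i
      refine Fin.cases ?_ (fun i' => ?_) i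
      · simp [hh0]
      · simp
    have e1 : ∑ n ∈ Icc 1 N, a (f n) (fun i => cardFactors (n + t i)) (fun i => cardFactors (n + s i (m i))) =
        ∑ n ∈ Icc 1 N, a (f n) (Fin.cons (cardFactors (n + h0)) (fun i : Fin j => cardFactors (n + t i.succ)) : Fin (j + 1) → ℕ)
          (fun i => cardFactors (n + s i (m i))) := sum_congr rfl fun n _ => by rw [hcons n]
    have e2 : ∑ n ∈ Icc 1 N, av N k (a (f n) (fun i => cardFactors (n + t i))) =
        ∑ n ∈ Icc 1 N, av N k (a (f n) (Fin.cons (cardFactors (n + h0)) (fun i : Fin j => cardFactors (n + t i.succ)) : Fin (j + 1) → ℕ)) :=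
      sum_congr rfl fun n _ => by rw [hcons n]
    rw [e1, e2]
    have s1 := trunc N J h0 _ hT (fun n l => a (f n) (Fin.cons l (fun i : Fin j => cardFactors (n + t i.succ)) : Fin (j + 1) → ℕ)
      (fun i => cardFactors (n + s i (m i)))) (fun n l => ha _ _ _)
    have s3 := trunc N J h0 _ hT (fun n l => av N k (a (f n) (Fin.cons l (fun i : Fin j => cardFactors (n + t i.succ)) : Fin (j + 1) → ℕ)))
      (fun n l => av_norm N k hN1' _ _ (fun l' => ha _ _ _))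
    have s2 := hE3 m hm hmE (fun c u l => a (c / (J + 1)) (Fin.cons (c % (J + 1)) u : Fin (j + 1) → ℕ) l) (fun c u l => ha _ _ _)
    simp only [hdiv, hmod] at s2
    set S1 := ∑ n ∈ Icc 1 N, a (f n) (Fin.cons (cardFactors (n + h0)) (fun i : Fin j => cardFactors (n + t i.succ)) : Fin (j + 1) → ℕ)
      (fun i => cardFactors (n + s i (m i))) with hS1
    set S2 := ∑ n ∈ Icc 1 N, a (f n) (Fin.cons (min (cardFactors (n + h0)) J) (fun i : Fin j => cardFactors (n + t i.succ)) : Fin (j + 1) → ℕ)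
      (fun i => cardFactors (n + s i (m i))) with hS2
    set S3 := ∑ n ∈ Icc 1 N, av N k (a (f n) (Fin.cons (min (cardFactors (n + h0)) J) (fun i : Fin j => cardFactors (n + t i.succ)) : Fin (j + 1) → ℕ)) with hS3
    set S4 := ∑ n ∈ Icc 1 N, av N k (a (f n) (Fin.cons (cardFactors (n + h0)) (fun i : Fin j => cardFactors (n + t i.succ)) : Fin (j + 1) → ℕ)) with hS4
    have hfin : S1 - S4 = (S1 - S2) + (S2 - S3) - (S4 - S3) := by ring
    rw [hfin]
    refine (norm_sub_le _ _).trans ?_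
    have t2 := norm_add_le (S1 - S2) (S2 - S3)
    have t3 : (4 * C3 + C1) * N * rr N = 2 * (C3 * N * rr N) + C1 * N * rr N + 2 * (C3 * N * rr N) := by ring
    rw [t3]
    linarith

theorem indF (P B : ℕ) (hB : 1 ≤ B) (C0 : ℝ) (hC0 : 0 ≤ C0) (j k : ℕ) : IndF P B C0 j k := by
  induction j with
  | zero => exact indF_zero P B hB C0 hC0 k
  | succ j ih => exact indF_succ P B C0 j k ih

end Pool.Agent.TH445.OI
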