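import Mathlib
import Pool.Agent.TH445.OI.A7

set_option autoImplicit false

/-! Exponential moments of the number of small prime factors. -/

open Finset

namespace Pool.Agent.TH445.OI

open ArithmeticFunction (cardFactors)

lemma X_zero (m : ℕ) : X 0 m = 0 := by
  rw [X_eq]; simp

lemma X_succ (w m : ℕ) : X (w + 1) m = X w m + (if (w + 1).Prime then m.factorization (w + 1) else 0) := by
  rw [X_eq, X_eq, sum_filter, sum_filter, sum_Icc_succ_top (by omega)]

lemma P1_succ (w : ℕ) : P1 (w + 1) = P1 w + (if (w + 1).Prime then 1 / ((w + 1 : ℕ) : ℝ) else 0) := by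
  unfold P1
  rw [sum_filter, sum_filter, sum_Icc_succ_top (by omega)]

/-- the exponential moment -/
theorem exp_moment (w : ℕ) : ∀ M : ℕ, ∑ m ∈ Icc 1 M, ((3 : ℝ) / 2) ^ (X w m) ≤ Real.exp (6 * P1 w) * M := by
  induction w with
  | zero =>
    intro M
    have : P1 0 = 0 := by unfold P1; simp
    simp [X_zero, this]
  | succ w ih =>
    by_cases hp : (w + 1).Prime
    swap
    · intro M
      simp_rw [X_succ, P1_succ]
      rw [if_neg hp]
      simp only [if_neg hp, add_zero]
      exact ih M
    · set p := w + 1 with hpdef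
      set c := Real.exp (6 * P1 w) with hc
      have hc0 : 0 < c := Real.exp_pos _
      have hp2 : (2 : ℝ) ≤ p := by exact_mod_cast hp.two_le
      have hp0 : (0 : ℝ) < p := by linarith
      set c' := c * (1 + 6 / p) with hc'
      have hc'0 : 0 < c' := by positivity
      have key : c + (3 / 2) * c' / p ≤ c' := by
        have h1 : 1 + (3 / 2) * (1 + 6 / (p : ℝ)) / p ≤ 1 + 6 / p := by
          have h2 : (3 / 2) * (1 + 6 / (p : ℝ)) / p ≤ 6 / p := by
            apply div_le_div_of_nonneg_right _ hp0.le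
            have h3 : 6 / (p : ℝ) ≤ 3 := by rw [div_le_iff₀ hp0]; linarith
            linarith
          linarith
        calc c + (3 / 2) * c' / p = c * (1 + (3 / 2) * (1 + 6 / (p : ℝ)) / p) := by rw [hc']; ring
          _ ≤ c * (1 + 6 / p) := by gcongr
      have hS : ∀ M : ℕ, ∑ m ∈ Icc 1 M, ((3 : ℝ) / 2) ^ (X p m) ≤ c' * M := by
        intro M
        induction M using Nat.strong_induction_on with
        | _ M ihM =>
          rcases Nat.eq_zero_or_pos M with h0 | h0
          · subst h0; simp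
          have e1 : ∑ m ∈ Icc 1 M, ((3 : ℝ) / 2) ^ (X p m) ≤ ∑ m ∈ Icc 1 M, ((3 : ℝ) / 2) ^ (X w m) +
              ∑ m ∈ Icc 1 M, (if p ∣ m then ((3 : ℝ) / 2) ^ (X p m) else 0) := by
            rw [← sum_add_distrib]
            apply sum_le_sum
            intro m _
            by_cases h : p ∣ m
            · rw [if_pos h]
              have : (0 : ℝ) < (3 / 2) ^ X w m := by positivity
              linarith
            · rw [if_neg h, add_zero, hpdef, X_succ, if_pos hp, ← hpdef, Nat.factorization_eq_zero_of_not_dvd h, add_zero]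
          have e2 := sum_mult p M hp (fun m => if p ∣ m then ((3 : ℝ) / 2) ^ (X p m) else 0) (fun m h => if_neg h)
          have e3 : ∑ m ∈ Icc 1 (M / p), (fun m => if p ∣ m then ((3 : ℝ) / 2) ^ (X p m) else 0) (p * m) =
              (3 / 2) * ∑ m ∈ Icc 1 (M / p), ((3 : ℝ) / 2) ^ (X p m) := by
            rw [mul_sum]
            apply sum_congr rfl
            intro m hm
            have hm0 : m ≠ 0 := by have := (mem_Icc.1 hm).1; omega
            simp only
            rw [if_pos (dvd_mul_right _ _), X_mul p hp.ne_zero hm0]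
            have : X p p = 1 := by
              rw [hpdef, X_succ, if_pos hp, ← hpdef, hp.factorization_self, X_prime hp (by omega), zero_add]
            rw [this, pow_add, pow_one]
          rw [e2, e3] at e1
          refine e1.trans ?_
          have h1 := ih M
          have h2 := ihM (M / p) (Nat.div_lt_self h0 hp.one_lt)
          have h3 : ((M / p : ℕ) : ℝ) ≤ M / p := Nat.cast_div_le
          have hM0 : (0 : ℝ) ≤ M := Nat.cast_nonneg _
          calc _ ≤ c * M + (3 / 2) * (c' * (M / p)) := by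
                apply add_le_add h1
                apply mul_le_mul_of_nonneg_left _ (by norm_num)
                exact h2.trans (by gcongr)
            _ = (c + (3 / 2) * c' / p) * M := by ring
            _ ≤ c' * M := by gcongr
      intro M
      refine (hS M).trans ?_
      apply mul_le_mul_of_nonneg_right _ (Nat.cast_nonneg _)
      rw [hpdef, P1_succ, if_pos hp, ← hpdef, mul_add, Real.exp_add, ← hc, hc']
      gcongr
      have := Real.add_one_le_exp (6 * (1 / (p : ℝ)))
      calc 1 + 6 / (p : ℝ) = 6 * (1 / (p : ℝ)) + 1 := by ring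
        _ ≤ _ := this

/-- large values, counted -/
lemma tail_cnt (w M T : ℕ) : ∑ m ∈ Icc 1 M, (if T ≤ X w m then (1 : ℝ) else 0) ≤ ((2 : ℝ) / 3) ^ T * (Real.exp (6 * P1 w) * M) := by
  refine le_trans ?_ (mul_le_mul_of_nonneg_left (exp_moment w M) (by positivity))
  rw [mul_sum]
  apply sum_le_sum
  intro m _
  split_ifs with h
  · obtain ⟨d, hd⟩ := Nat.exists_eq_add_of_le h
    rw [hd, pow_add, ← mul_assoc, ← mul_pow]
    norm_num
    exact one_le_pow₀ (by norm_num)
  · positivity

/-- large values, first moment -/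
lemma tail_mom (w M T : ℕ) : ∑ m ∈ Icc 1 M, (if T ≤ X w m then (X w m : ℝ) else 0) ≤ 5 * ((5 : ℝ) / 6) ^ T * (Real.exp (6 * P1 w) * M) := by
  refine le_trans ?_ (mul_le_mul_of_nonneg_left (exp_moment w M) (by positivity))
  rw [mul_sum]
  apply sum_le_sum
  intro m _
  split_ifs with h
  · set x := X w m with hx
    have h1 := one_add_mul_le_pow (a := (1 / 5 : ℝ)) (by norm_num) x
    have h2 : (x : ℝ) ≤ 5 * (6 / 5 : ℝ) ^ x := by
      have e : (1 + 1 / 5 : ℝ) = 6 / 5 := by norm_num
      rw [e] at h1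
      linarith
    have h3 : (6 / 5 : ℝ) ^ x ≤ (5 / 6 : ℝ) ^ T * (36 / 25 : ℝ) ^ x := by
      obtain ⟨d, hd⟩ := Nat.exists_eq_add_of_le h
      have e : (36 / 25 : ℝ) ^ x = (6 / 5 : ℝ) ^ x * (6 / 5 : ℝ) ^ x := by rw [← mul_pow]; norm_num
      rw [e]
      have h4 : 1 ≤ (5 / 6 : ℝ) ^ T * (6 / 5 : ℝ) ^ x := by
        rw [hd, pow_add, ← mul_assoc, ← mul_pow]
        norm_num
        exact one_le_pow₀ (by norm_num)
      have h5 : (0 : ℝ) ≤ (6 / 5 : ℝ) ^ x := by positivity
      calc (6 / 5 : ℝ) ^ x = 1 * (6 / 5 : ℝ) ^ x := by ring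
        _ ≤ ((5 / 6 : ℝ) ^ T * (6 / 5 : ℝ) ^ x) * (6 / 5 : ℝ) ^ x := by gcongr
        _ = _ := by ring
    have h6 : (36 / 25 : ℝ) ^ x ≤ (3 / 2 : ℝ) ^ x := pow_le_pow_left₀ (by norm_num) (by norm_num) x
    calc (x : ℝ) ≤ 5 * (6 / 5 : ℝ) ^ x := h2
      _ ≤ 5 * ((5 / 6 : ℝ) ^ T * (36 / 25 : ℝ) ^ x) := by gcongr
      _ ≤ 5 * ((5 / 6 : ℝ) ^ T * (3 / 2 : ℝ) ^ x) := by gcongr
      _ = _ := by ring
  · positivity

end Pool.Agent.TH445.OI
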