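import Mathlib
import Pool.Agent.TH445.OI.A8

set_option autoImplicit false

/-! The local behaviour of the logarithmic law of `Y`. -/

open Finset

namespace Pool.Agent.TH445.OI

open ArithmeticFunction (cardFactors)

lemma Y_eq (w M m : ℕ) (hwM : w ≤ M) (hm : m ∈ Icc 1 M) : Y w m = ∑ p ∈ PW w M, m.factorization p := by
  rw [mem_Icc] at hm
  have h1 := X_add_Y w (by omega : m ≠ 0)
  have h2 := card_eq_X (by omega : m ≠ 0) hm.2
  rw [h2, X_eq M, X_eq w] at h1
  have h3 : (Icc 1 M).filter Nat.Prime = (Icc 1 w).filter Nat.Prime ∪ PW w M := by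
    ext p
    rw [mem_union, mem_PW, mem_filter, mem_filter, mem_Icc, mem_Icc]
    constructor
    · rintro ⟨⟨a, b⟩, c⟩
      rcases Nat.lt_or_ge w p with h | h
      · right; exact ⟨h, b, c⟩
      · left; exact ⟨⟨a, h⟩, c⟩
    · rintro (⟨⟨a, b⟩, c⟩ | ⟨a, b, c⟩)
      · exact ⟨⟨a, by omega⟩, c⟩
      · exact ⟨⟨c.one_lt.le, b⟩, c⟩
  have h4 : Disjoint ((Icc 1 w).filter Nat.Prime) (PW w M) := by
    rw [disjoint_left]
    intro p hp hp'
    rw [mem_filter, mem_Icc] at hp
    rw [mem_PW] at hp'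
    omega
  rw [h3, sum_union h4] at h1
  omega

lemma YZ (w M m : ℕ) (hwM : w ≤ M) (hm : m ∈ Icc 1 M) :
    (Y w m : ℝ) - Z w M m = ∑ p ∈ PW w M, ((m.factorization p : ℝ) - (if p ∣ m then 1 else 0)) := by
  rw [Y_eq w M m hwM hm, Z_eq, sum_sub_distrib]
  push_cast
  rfl

lemma YZ_nonneg (w M m : ℕ) (hwM : w ≤ M) (hm : m ∈ Icc 1 M) : (Z w M m : ℝ) ≤ Y w m := by
  have h1 := YZ w M m hwM hm
  have h2 : 0 ≤ ∑ p ∈ PW w M, ((m.factorization p : ℝ) - (if p ∣ m then 1 else 0)) := by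
    apply sum_nonneg
    intro p hp
    rw [mem_PW] at hp
    split_ifs with h
    · have hm0 : m ≠ 0 := by have := (mem_Icc.1 hm).1; omega
      have : 1 ≤ m.factorization p := (hp.2.2.dvd_iff_one_le_factorization hm0).1 h
      have : (1 : ℝ) ≤ m.factorization p := by exact_mod_cast this
      linarith
    · simp
  linarith

lemma inv_sq_tail (w M : ℕ) (hw : 1 ≤ w) : ∑ p ∈ PW w M, (1 : ℝ) / (p : ℝ) ^ 2 ≤ 1 / w := by
  have h1 : ∑ p ∈ PW w M, (1 : ℝ) / (p : ℝ) ^ 2 ≤ ∑ n ∈ Icc (w + 1) M, (1 : ℝ) / (n : ℝ) ^ 2 :=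
    sum_le_sum_of_subset_of_nonneg (filter_subset _ _) (fun _ _ _ => by positivity)
  refine h1.trans ?_
  have h2 : ∀ M : ℕ, w ≤ M → ∑ n ∈ Icc (w + 1) M, (1 : ℝ) / (n : ℝ) ^ 2 ≤ 1 / w - 1 / M := by
    intro M hM
    induction M, hM using Nat.le_induction with
    | base => simp
    | succ M hM ih =>
      rw [sum_Icc_succ_top (by omega)]
      have hM0 : (0 : ℝ) < M := by exact_mod_cast (by omega : 0 < M)
      have h3 : (1 : ℝ) / ((M + 1 : ℕ) : ℝ) ^ 2 ≤ 1 / M - 1 / ((M + 1 : ℕ) : ℝ) := by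
        push_cast
        rw [div_sub_div _ _ hM0.ne' (by positivity), div_le_div_iff₀ (by positivity) (by positivity)]
        nlinarith
      linarith
  rcases Nat.lt_or_ge M w with h | h
  · rw [Icc_eq_empty (by omega), sum_empty]
    positivity
  · have := h2 M h
    have h4 : (0 : ℝ) ≤ 1 / M := by positivity
    linarith

lemma D_sum (w M : ℕ) (hw : 2 ≤ w) (hwM : w ≤ M) : ∑ m ∈ Icc 1 M, ((Y w m : ℝ) - Z w M m) / m ≤ H M := by
  have e1 : ∑ m ∈ Icc 1 M, ((Y w m : ℝ) - Z w M m) / m = ∑ p ∈ PW w M, ∑ m ∈ Icc 1 M, ((m.factorization p : ℝ) - (if p ∣ m then 1 else 0)) / m := by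
    rw [sum_comm]
    apply sum_congr rfl
    intro m hm
    rw [YZ w M m hwM hm, sum_div]
  rw [e1]
  have hH := H_nonneg M
  calc _ ≤ ∑ p ∈ PW w M, 2 * H M * (1 / (p : ℝ) ^ 2) := by
        apply sum_le_sum
        intro p hp
        rw [mem_PW] at hp
        have hp0 : (0 : ℝ) < p := by exact_mod_cast hp.2.2.pos
        rw [sum_mult p M hp.2.2 (fun m => ((m.factorization p : ℝ) - (if p ∣ m then 1 else 0)) / m) (fun m h => by
          rw [if_neg h, Nat.factorization_eq_zero_of_not_dvd h]; simp)]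
        have e2 : ∑ m ∈ Icc 1 (M / p), (((p * m).factorization p : ℝ) - (if p ∣ p * m then 1 else 0)) / ((p * m : ℕ) : ℝ) =
            (1 / p) * ∑ m ∈ Icc 1 (M / p), (m.factorization p : ℝ) / m := by
          rw [mul_sum]
          apply sum_congr rfl
          intro m hm
          have hm0 : m ≠ 0 := by have := (mem_Icc.1 hm).1; omega
          rw [vp_mul hp.2.2 hm0, if_pos (dvd_mul_right _ _)]
          push_cast
          have : (m : ℝ) ≠ 0 := by exact_mod_cast hm0
          field_simp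
          ring
        rw [e2]
        have h3 := vp_log p (M / p) hp.2.2
        have h4 := H_mono (Nat.div_le_self M p)
        calc (1 / (p : ℝ)) * ∑ m ∈ Icc 1 (M / p), (m.factorization p : ℝ) / m ≤ (1 / p) * (2 / p * H M) := by
              apply mul_le_mul_of_nonneg_left _ (by positivity)
              exact h3.trans (by gcongr)
          _ = _ := by field_simp
    _ = 2 * H M * ∑ p ∈ PW w M, (1 / (p : ℝ) ^ 2) := by rw [mul_sum]
    _ ≤ 2 * H M * (1 / w) := by
        have := inv_sq_tail w M (by omega)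
        gcongr
    _ ≤ H M := by
        have hw2 : (2 : ℝ) ≤ w := by exact_mod_cast hw
        rw [mul_one_div, div_le_iff₀ (by linarith)]
        nlinarith

lemma recR (w M : ℕ) (hM : 1 ≤ M) (g : ℕ → ℝ) (hg : ∀ n, |g n| ≤ 1) :
    |VW w M * ∑ m ∈ Icc 1 M, g (Y w m + 1) / m - ∑ m ∈ Icc 1 M, (Z w M m : ℝ) * g (Y w m) / m| ≤ P1 M + P2 M := by
  have h1 := recursion w M hM (fun n => (g n : ℂ)) (fun n => by rw [Complex.norm_real]; exact hg n)
  have e : (VW w M : ℂ) * ∑ m ∈ Icc 1 M, (g (Y w m + 1) : ℂ) / m - ∑ m ∈ Icc 1 M, (Z w M m : ℂ) * (g (Y w m) : ℂ) / m =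
      ((VW w M * ∑ m ∈ Icc 1 M, g (Y w m + 1) / m - ∑ m ∈ Icc 1 M, (Z w M m : ℝ) * g (Y w m) / m : ℝ) : ℂ) := by
    push_cast
    rfl
  rw [e, Complex.norm_real] at h1
  exact h1

/-- the unnormalized point masses -/
noncomputable def qq (w M j : ℕ) : ℝ := ∑ m ∈ Icc 1 M, (if Y w m = j then (1 : ℝ) else 0) / m

lemma qq_nonneg (w M j : ℕ) : 0 ≤ qq w M j := sum_nonneg fun _ _ => by split_ifs <;> positivity

section
variable (w M : ℕ) (hM : 1 ≤ M) (hw : 2 ≤ w) (hwM : w ≤ M) (hV : 4 ≤ VW w M) (hε : P1 M + P2 M ≤ 4 * H M)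
include hM hw hwM hV hε

/-- upper tails -/
lemma up (j : ℕ) : VW w M * qq w M j ≤ ∑ m ∈ Icc 1 M, ((Z w M m : ℝ) - VW w M) * (if j + 1 ≤ Y w m then 1 else 0) / m + 4 * H M := by
  have h1 := recR w M hM (fun n => if j + 1 ≤ n then 1 else 0) (fun n => by split_ifs <;> simp)
  have e1 : ∑ m ∈ Icc 1 M, (fun n => if j + 1 ≤ n then (1 : ℝ) else 0) (Y w m + 1) / (m : ℝ) =
      qq w M j + ∑ m ∈ Icc 1 M, (if j + 1 ≤ Y w m then (1 : ℝ) else 0) / m := by
    unfold qq
    rw [← sum_add_distrib]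
    apply sum_congr rfl
    intro m _
    rw [← add_div]
    congr 1
    simp only
    by_cases h : Y w m = j
    · rw [if_pos (by omega), if_pos h, if_neg (by omega), add_zero]
    · rw [if_neg h, zero_add]
      by_cases h' : j + 1 ≤ Y w m
      · rw [if_pos h', if_pos (by omega)]
      · rw [if_neg h', if_neg (by omega)]
  rw [e1] at h1
  have e2 : ∑ m ∈ Icc 1 M, ((Z w M m : ℝ) - VW w M) * (if j + 1 ≤ Y w m then 1 else 0) / m =
      ∑ m ∈ Icc 1 M, (Z w M m : ℝ) * (fun n => if j + 1 ≤ n then (1 : ℝ) else 0) (Y w m) / m - VW w M * ∑ m ∈ Icc 1 M, (if j + 1 ≤ Y w m then (1 : ℝ) else 0) / m := by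
    rw [mul_sum, ← sum_sub_distrib]
    apply sum_congr rfl
    intro m _
    simp only
    ring
  rw [e2]
  have h2 := (abs_le.1 h1).2
  rw [mul_add] at h2
  linarith

/-- lower tails -/
lemma dn (j : ℕ) : VW w M * qq w M j ≤ ∑ m ∈ Icc 1 M, (VW w M - (Z w M m : ℝ)) * (if Y w m ≤ j then 1 else 0) / m + 4 * H M := by
  have h1 := recR w M hM (fun n => if n ≤ j then 1 else 0) (fun n => by split_ifs <;> simp)
  have e1 : ∑ m ∈ Icc 1 M, (if Y w m ≤ j then (1 : ℝ) else 0) / m =
      qq w M j + ∑ m ∈ Icc 1 M, (fun n => if n ≤ j then (1 : ℝ) else 0) (Y w m + 1) / (m : ℝ) := by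
    unfold qq
    rw [← sum_add_distrib]
    apply sum_congr rfl
    intro m _
    rw [← add_div]
    congr 1
    simp only
    by_cases h : Y w m = j
    · rw [if_pos (by omega), if_pos h, if_neg (by omega), add_zero]
    · rw [if_neg h, zero_add]
      by_cases h' : Y w m ≤ j
      · rw [if_pos h', if_pos (by omega)]
      · rw [if_neg h', if_neg (by omega)]
  have e2 : ∑ m ∈ Icc 1 M, (VW w M - (Z w M m : ℝ)) * (if Y w m ≤ j then 1 else 0) / m =
      VW w M * ∑ m ∈ Icc 1 M, (if Y w m ≤ j then (1 : ℝ) else 0) / m - ∑ m ∈ Icc 1 M, (Z w M m : ℝ) * (fun n => if n ≤ j then (1 : ℝ) else 0) (Y w m) / m := by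
    rw [mul_sum, ← sum_sub_distrib]
    apply sum_congr rfl
    intro m _
    simp only
    ring
  rw [e2, e1, mul_add]
  have h2 := (abs_le.1 h1).1
  linarith

/-- neighbours -/
lemma nb (j : ℕ) : |VW w M * qq w M j - ((j + 1 : ℕ) : ℝ) * qq w M (j + 1)| ≤ 5 * H M := by
  have h1 := recR w M hM (fun n => if n = j + 1 then 1 else 0) (fun n => by split_ifs <;> simp)
  have e1 : ∑ m ∈ Icc 1 M, (fun n => if n = j + 1 then (1 : ℝ) else 0) (Y w m + 1) / (m : ℝ) = qq w M j := by
    unfold qq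
    apply sum_congr rfl
    intro m _
    simp only
    congr 1
    by_cases h : Y w m = j
    · rw [if_pos (by omega), if_pos h]
    · rw [if_neg (by omega), if_neg h]
  have e2 : ((j + 1 : ℕ) : ℝ) * qq w M (j + 1) - ∑ m ∈ Icc 1 M, (Z w M m : ℝ) * (fun n => if n = j + 1 then (1 : ℝ) else 0) (Y w m) / m =
      ∑ m ∈ Icc 1 M, ((Y w m : ℝ) - Z w M m) * (if Y w m = j + 1 then 1 else 0) / m := by
    unfold qq
    rw [mul_sum, ← sum_sub_distrib]
    apply sum_congr rfl
    intro m _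
    simp only
    by_cases h : Y w m = j + 1
    · rw [if_pos h, h]; ring
    · rw [if_neg h]; ring
  have h3 : 0 ≤ ∑ m ∈ Icc 1 M, ((Y w m : ℝ) - Z w M m) * (if Y w m = j + 1 then 1 else 0) / m := by
    apply sum_nonneg
    intro m hm
    have := YZ_nonneg w M m hwM hm
    have h4 : 0 ≤ (Y w m : ℝ) - Z w M m := by linarith
    split_ifs <;> positivity
  have h4 : ∑ m ∈ Icc 1 M, ((Y w m : ℝ) - Z w M m) * (if Y w m = j + 1 then 1 else 0) / m ≤ H M := by
    refine le_trans ?_ (D_sum w M hw hwM)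
    apply sum_le_sum
    intro m hm
    have := YZ_nonneg w M m hwM hm
    have h4 : 0 ≤ (Y w m : ℝ) - Z w M m := by linarith
    gcongr
    split_ifs
    · rw [mul_one]
    · rw [mul_zero]; exact h4
  rw [e1] at h1
  rw [abs_le] at h1 ⊢
  have hH := H_nonneg M
  constructor <;> linarith

lemma var9 : ∑ m ∈ Icc 1 M, ((Z w M m : ℝ) - VW w M) ^ 2 / m ≤ 9 * VW w M * H M := by
  have h1 := variance w M hM
  have h2 : 2 * VW w M * (P1 M + P2 M) ≤ 2 * VW w M * (4 * H M) := by gcongr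
  linarith

/-- the concentration bound -/
lemma conc (j : ℕ) : √(VW w M) * qq w M j ≤ 5 * H M := by
  set V := VW w M with hVd
  have hV0 : 0 < V := by linarith
  have hs0 : 0 < √V := Real.sqrt_pos.2 hV0
  have hs2 : 2 ≤ √V := Real.le_sqrt_of_sq_le (by linarith)
  have hss : √V * √V = V := Real.mul_self_sqrt hV0.le
  have h1 := up w M hM hw hwM hV hε j
  have h2 : ∑ m ∈ Icc 1 M, ((Z w M m : ℝ) - V) * (if j + 1 ≤ Y w m then 1 else 0) / m ≤ 3 * √V * H M := by
    have h3 : ∀ m ∈ Icc 1 M, ((Z w M m : ℝ) - V) * (if j + 1 ≤ Y w m then 1 else 0) / m ≤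
        (1 / (6 * √V)) * (((Z w M m : ℝ) - V) ^ 2 / m) + (3 / 2 * √V) * (1 / m) := by
      intro m _
      have h5 : ((Z w M m : ℝ) - V) * (if j + 1 ≤ Y w m then 1 else 0) ≤ (1 / (6 * √V)) * ((Z w M m : ℝ) - V) ^ 2 + 3 / 2 * √V := by
        set z := (Z w M m : ℝ) - V with hz
        have h6 : z ≤ (1 / (6 * √V)) * z ^ 2 + 3 / 2 * √V := by
          have h7 : 0 ≤ (z - 3 * √V) ^ 2 := sq_nonneg _
          rw [one_div, inv_mul_eq_div, ← sub_le_iff_le_add, le_div_iff₀ (by positivity)]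
          nlinarith
        have h8 : 0 ≤ (1 / (6 * √V)) * z ^ 2 + 3 / 2 * √V := by positivity
        split_ifs
        · rw [mul_one]; exact h6
        · rw [mul_zero]; exact h8
      calc _ ≤ ((1 / (6 * √V)) * ((Z w M m : ℝ) - V) ^ 2 + 3 / 2 * √V) / m := by gcongr
        _ = _ := by ring
    refine (sum_le_sum h3).trans ?_
    rw [sum_add_distrib, ← mul_sum, ← mul_sum]
    have h6 := var9 w M hM hw hwM hV hε
    rw [← hVd] at h6
    have hHe : ∑ m ∈ Icc 1 M, (1 : ℝ) / m = H M := rfl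
    rw [hHe]
    calc _ ≤ (1 / (6 * √V)) * (9 * V * H M) + 3 / 2 * √V * H M := by gcongr
      _ = 3 / 2 * (V / √V) * H M + 3 / 2 * √V * H M := by field_simp; ring
      _ = 3 * √V * H M := by
          have : V / √V = √V := by rw [div_eq_iff hs0.ne', hss]
          rw [this]; ring
  have hH := H_nonneg M
  have h9 : √V * (√V * qq w M j) ≤ √V * (5 * H M) := by
    rw [← mul_assoc, hss]
    nlinarith
  exact le_of_mul_le_mul_left h9 hs0

lemma up' (j : ℕ) (hj : VW w M < j) : VW w M * qq w M j ≤ 5 * H M + 18 * VW w M * H M / (j - VW w M) := by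
  set V := VW w M with hVd
  have hd : 0 < (j : ℝ) - V := by linarith
  have h1 := up w M hM hw hwM hV hε j
  have h2 : ∑ m ∈ Icc 1 M, ((Z w M m : ℝ) - V) * (if j + 1 ≤ Y w m then 1 else 0) / m ≤
      (2 / (j - V)) * (9 * V * H M) + H M := by
    have h3 : ∀ m ∈ Icc 1 M, ((Z w M m : ℝ) - V) * (if j + 1 ≤ Y w m then 1 else 0) / m ≤
        (2 / (j - V)) * (((Z w M m : ℝ) - V) ^ 2 / m) + ((Y w m : ℝ) - Z w M m) / m := by
      intro m hm
      have hYZ := YZ_nonneg w M m hwM hm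
      have h5 : ((Z w M m : ℝ) - V) * (if j + 1 ≤ Y w m then 1 else 0) ≤ (2 / (j - V)) * ((Z w M m : ℝ) - V) ^ 2 + ((Y w m : ℝ) - Z w M m) := by
        have h7 : 0 ≤ (2 / (j - V)) * ((Z w M m : ℝ) - V) ^ 2 := by positivity
        split_ifs with hc
        · rw [mul_one]
          have hc' : (j : ℝ) + 1 ≤ Y w m := by exact_mod_cast hc
          set z := (Z w M m : ℝ) - V with hz
          rcases le_or_gt ((j - V) / 2) z with h8 | h8
          · have h9 : z ≤ (2 / (j - V)) * z ^ 2 := by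
              rw [div_mul_eq_mul_div, le_div_iff₀ hd]
              nlinarith
            linarith
          · linarith
        · rw [mul_zero]; linarith
      calc _ ≤ ((2 / (j - V)) * ((Z w M m : ℝ) - V) ^ 2 + ((Y w m : ℝ) - Z w M m)) / m := by gcongr
        _ = _ := by ring
    refine (sum_le_sum h3).trans ?_
    rw [sum_add_distrib, ← mul_sum]
    have h6 := var9 w M hM hw hwM hV hε
    have h7 := D_sum w M hw hwM
    rw [← hVd] at h6
    apply add_le_add _ h7
    gcongr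
  have e : 18 * V * H M / (j - V) = (2 / (j - V)) * (9 * V * H M) := by ring
  rw [e]
  linarith

lemma dn' (j : ℕ) (hj : (j : ℝ) < VW w M) : VW w M * qq w M j ≤ 4 * H M + 9 * VW w M * H M / (VW w M - j) := by
  set V := VW w M with hVd
  have hd : 0 < V - (j : ℝ) := by linarith
  have h1 := dn w M hM hw hwM hV hε j
  have h2 : ∑ m ∈ Icc 1 M, (V - (Z w M m : ℝ)) * (if Y w m ≤ j then 1 else 0) / m ≤ (1 / (V - j)) * (9 * V * H M) := by
    have h3 : ∀ m ∈ Icc 1 M, (V - (Z w M m : ℝ)) * (if Y w m ≤ j then 1 else 0) / m ≤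
        (1 / (V - j)) * (((Z w M m : ℝ) - V) ^ 2 / m) := by
      intro m hm
      have hYZ := YZ_nonneg w M m hwM hm
      have h5 : (V - (Z w M m : ℝ)) * (if Y w m ≤ j then 1 else 0) ≤ (1 / (V - j)) * ((Z w M m : ℝ) - V) ^ 2 := by
        split_ifs with hc
        · rw [mul_one]
          have hc' : (Y w m : ℝ) ≤ j := by exact_mod_cast hc
          have h8 : V - j ≤ V - (Z w M m : ℝ) := by linarith
          rw [div_mul_eq_mul_div, one_mul, le_div_iff₀ hd]
          nlinarith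
        · rw [mul_zero]; positivity
      calc _ ≤ ((1 / (V - j)) * ((Z w M m : ℝ) - V) ^ 2) / m := by gcongr
        _ = _ := by ring
    refine (sum_le_sum h3).trans ?_
    rw [← mul_sum]
    have h6 := var9 w M hM hw hwM hV hε
    rw [← hVd] at h6
    gcongr
  have e : 9 * V * H M / (V - j) = (1 / (V - j)) * (9 * V * H M) := by ring
  rw [e]
  linarith

/-- smoothness of the point masses -/
lemma smooth (j : ℕ) : VW w M * |qq w M (j + 1) - qq w M j| ≤ 33 * H M := by
  set V := VW w M with hVd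
  have hV0 : 0 < V := by linarith
  have hH := H_nonneg M
  have hnb := nb w M hM hw hwM hV hε j
  rw [← hVd] at hnb
  set q0 := qq w M j with hq0
  set q1 := qq w M (j + 1) with hq1
  have hq0n : 0 ≤ q0 := qq_nonneg _ _ _
  have hq1n : 0 ≤ q1 := qq_nonneg _ _ _
  rcases le_or_gt (((j + 1 : ℕ) : ℝ)) (3 * V) with h3 | h3
  · -- the main range
    have hb : |((j + 1 : ℕ) : ℝ) - V| * q1 ≤ 28 * H M := by
      rcases lt_trichotomy (((j + 1 : ℕ) : ℝ)) V with h4 | h4 | h4
      · have h5 := dn' w M hM hw hwM hV hε (j + 1) h4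
        rw [← hVd, ← hq1] at h5
        have hd : 0 < V - ((j + 1 : ℕ) : ℝ) := by linarith
        rw [abs_of_neg (by linarith), neg_sub]
        have h6 : V * ((V - ((j + 1 : ℕ) : ℝ)) * q1) ≤ V * (28 * H M) := by
          calc V * ((V - ((j + 1 : ℕ) : ℝ)) * q1) = (V - ((j + 1 : ℕ) : ℝ)) * (V * q1) := by ring
            _ ≤ (V - ((j + 1 : ℕ) : ℝ)) * (4 * H M + 9 * V * H M / (V - ((j + 1 : ℕ) : ℝ))) := by gcongr
            _ = (V - ((j + 1 : ℕ) : ℝ)) * (4 * H M) + 9 * V * H M := by field_simp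
            _ ≤ V * (4 * H M) + 9 * V * H M := by
                have : (0 : ℝ) ≤ ((j + 1 : ℕ) : ℝ) := Nat.cast_nonneg _
                gcongr
                linarith
            _ ≤ V * (28 * H M) := by nlinarith [mul_nonneg hV0.le hH]
        exact le_of_mul_le_mul_left h6 hV0
      · rw [h4, sub_self, abs_zero, zero_mul]; positivity
      · have h5 := up' w M hM hw hwM hV hε (j + 1) h4
        rw [← hVd, ← hq1] at h5
        have hd : 0 < ((j + 1 : ℕ) : ℝ) - V := by linarith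
        rw [abs_of_pos hd]
        have h6 : V * ((((j + 1 : ℕ) : ℝ) - V) * q1) ≤ V * (28 * H M) := by
          calc V * ((((j + 1 : ℕ) : ℝ) - V) * q1) = (((j + 1 : ℕ) : ℝ) - V) * (V * q1) := by ring
            _ ≤ (((j + 1 : ℕ) : ℝ) - V) * (5 * H M + 18 * V * H M / (((j + 1 : ℕ) : ℝ) - V)) := by gcongr
            _ = (((j + 1 : ℕ) : ℝ) - V) * (5 * H M) + 18 * V * H M := by field_simp
            _ ≤ (2 * V) * (5 * H M) + 18 * V * H M := by
                gcongr
                linarith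
            _ = V * (28 * H M) := by ring
        exact le_of_mul_le_mul_left h6 hV0
    have e : V * (q1 - q0) = -(V * q0 - ((j + 1 : ℕ) : ℝ) * q1) - (((j + 1 : ℕ) : ℝ) - V) * q1 := by ring
    have e2 : V * |q1 - q0| = |V * (q1 - q0)| := by rw [abs_mul, abs_of_pos hV0]
    rw [e2, e]
    refine (abs_sub _ _).trans ?_
    rw [abs_neg, abs_mul, abs_of_nonneg hq1n]
    linarith
  · have h4 : V < ((j + 1 : ℕ) : ℝ) := by linarith
    have h5 := up' w M hM hw hwM hV hε (j + 1) h4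
    rw [← hVd, ← hq1] at h5
    have h6 : 2 * V ≤ ((j : ℕ) : ℝ) := by push_cast at h3; linarith
    have h7 := up' w M hM hw hwM hV hε j (by linarith)
    rw [← hVd, ← hq0] at h7
    have h8 : 18 * V * H M / (((j + 1 : ℕ) : ℝ) - V) ≤ 18 * H M := by
      rw [div_le_iff₀ (by linarith)]
      have : V ≤ ((j + 1 : ℕ) : ℝ) - V := by push_cast; linarith
      nlinarith [mul_nonneg hV0.le hH]
    have h9 : 18 * V * H M / ((j : ℝ) - V) ≤ 18 * H M := by
      rw [div_le_iff₀ (by linarith)]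
      have : V ≤ (j : ℝ) - V := by linarith
      nlinarith [mul_nonneg hV0.le hH]
    have e2 : V * |q1 - q0| = |V * q1 - V * q0| := by rw [← mul_sub, abs_mul, abs_of_pos hV0]
    rw [e2, abs_le]
    have := mul_nonneg hV0.le hq0n
    have := mul_nonneg hV0.le hq1n
    constructor <;> linarith

lemma far (j : ℕ) (hj : 2 * VW w M ≤ j) : VW w M * qq w M j ≤ 23 * H M := by
  set V := VW w M with hVd
  have hH := H_nonneg M
  have h7 := up' w M hM hw hwM hV hε j (by linarith)
  rw [← hVd] at h7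
  have h9 : 18 * V * H M / ((j : ℝ) - V) ≤ 18 * H M := by
    rw [div_le_iff₀ (by linarith)]
    have : V ≤ (j : ℝ) - V := by linarith
    nlinarith [mul_nonneg (by linarith : (0 : ℝ) ≤ V) hH]
  linarith

lemma zero_mass : VW w M * qq w M 0 ≤ 13 * H M := by
  have hH := H_nonneg M
  have h7 := dn' w M hM hw hwM hV hε 0 (by push_cast; linarith)
  have h9 : 9 * VW w M * H M / (VW w M - ((0 : ℕ) : ℝ)) = 9 * H M := by
    push_cast
    rw [sub_zero]
    field_simp
  rw [h9] at h7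
  linarith

end

lemma lam_succ (w M j : ℕ) : lam w M (j + 1) = qq w M j / H M := by
  unfold lam qq
  congr 1
  apply sum_congr rfl
  intro m _
  by_cases h : Y w m = j
  · rw [if_pos h, if_pos (by omega)]
  · rw [if_neg h, if_neg (by omega), zero_div]

lemma lam_zero (w M : ℕ) : lam w M 0 = 0 := by
  unfold lam
  rw [sum_eq_zero, zero_div]
  intro m _
  rw [if_neg (by omega)]

end Pool.Agent.TH445.OI
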