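import Mathlib
import Pool.Agent.TH445.OI.A14
import Pool.Agent.TH445.OI.A16
import Pool.Agent.TH445.OI.A17

set_option autoImplicit false

/-! A fixed shift: from the correlations with the classes to the local law. -/

open Finset Filter

namespace Pool.Agent.TH445.OI

open ArithmeticFunction (cardFactors)

/-- the size of a class -/
noncomputable def Ac (N : ℕ) (f : ℕ → ℕ) (c : ℕ) : ℝ := ∑ n ∈ Icc 1 N, (if f n = c then (1 : ℝ) else 0)

lemma Ac_nonneg (N : ℕ) (f : ℕ → ℕ) (c : ℕ) : 0 ≤ Ac N f c := sum_nonneg fun _ _ => by split_ifs <;> norm_num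

/-- the size of a class with a value of `Ω (n + h)` -/
noncomputable def cn (N : ℕ) (f : ℕ → ℕ) (h c l : ℕ) : ℝ := ∑ n ∈ Icc 1 N, (if f n = c ∧ cardFactors (n + h) = l then (1 : ℝ) else 0)

lemma cn_nonneg (N : ℕ) (f : ℕ → ℕ) (h c l : ℕ) : 0 ≤ cn N f h c l := sum_nonneg fun _ _ => by split_ifs <;> norm_num

/-- the correlations with one class -/
noncomputable def DelC (w M N J : ℕ) (f : ℕ → ℕ) (h c : ℕ) : ℝ :=
  ∑ x ∈ range J, ∑ y ∈ range J, ‖∑ n ∈ Icc 1 N, (if f n = c then (1 : ℂ) else 0) * (Fx w M x y (n + h) : ℂ)‖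

lemma DelC_nonneg (w M N J : ℕ) (f : ℕ → ℕ) (h c : ℕ) : 0 ≤ DelC w M N J f h c :=
  sum_nonneg fun _ _ => sum_nonneg fun _ _ => norm_nonneg _

/-- large `X` in one class -/
noncomputable def TX (w N T : ℕ) (f : ℕ → ℕ) (h c : ℕ) : ℝ :=
  ∑ n ∈ Icc 1 N, (if f n = c then (if T ≤ X w (n + h) then (X w (n + h) : ℝ) else 0) else 0)

/-- large `Ω` in one class -/
noncomputable def TJ (N J : ℕ) (f : ℕ → ℕ) (h c : ℕ) : ℝ :=
  ∑ n ∈ Icc 1 N, (if f n = c then (if J ≤ cardFactors (n + h) then (1 : ℝ) else 0) else 0)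

lemma TX_nonneg (w N T : ℕ) (f : ℕ → ℕ) (h c : ℕ) : 0 ≤ TX w N T f h c := sum_nonneg fun _ _ => by split_ifs <;> positivity

lemma TJ_nonneg (N J : ℕ) (f : ℕ → ℕ) (h c : ℕ) : 0 ≤ TJ N J f h c := sum_nonneg fun _ _ => by split_ifs <;> positivity

lemma point_id (w M l k : ℕ) (hk : k ≠ 0) :
    (if cardFactors k = l then (1 : ℝ) else 0) - lam w M (l - X w k) = ∑ x ∈ range (l + 1), Fx w M x (l - x) k := by
  have hXY := X_add_Y w hk
  rcases Nat.lt_or_ge l (X w k) with h | h
  · rw [Nat.sub_eq_zero_of_le h.le, lam_zero, if_neg (by omega), sub_zero]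
    symm
    apply sum_eq_zero
    intro x hx
    rw [mem_range] at hx
    unfold Fx
    rw [if_neg (by omega), zero_mul]
  · rw [sum_eq_single (X w k)]
    · unfold Fx
      rw [if_pos rfl, one_mul]
      congr 1
      by_cases h2 : cardFactors k = l
      · rw [if_pos h2, if_pos (by omega)]
      · rw [if_neg h2, if_neg (by omega)]
    · intro x _ hx
      unfold Fx
      rw [if_neg (fun h3 => hx h3.symm), zero_mul]
    · intro h2
      exact absurd (mem_range.2 (by omega)) h2

theorem local1 (w M N J T : ℕ) (f : ℕ → ℕ) (h : ℕ) (σ ρ : ℝ) (hσ : 0 ≤ σ) (hρ : 0 ≤ ρ)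
    (hS : ∀ x l, |lam w M (l - x) - lam w M l| ≤ σ * x) (hF : ∀ l, J ≤ l → lam w M l ≤ ρ) (c l : ℕ) :
    |cn N f h c l - Ac N f c * lam w M l| ≤ (σ * T + ρ) * Ac N f c + (DelC w M N J f h c + σ * TX w N T f h c + TJ N J f h c) := by
  have hA := Ac_nonneg N f c
  have hD := DelC_nonneg w M N J f h c
  have hTX := TX_nonneg w N T f h c
  have hTJ := TJ_nonneg N J f h c
  have hT0 : (0 : ℝ) ≤ T := Nat.cast_nonneg _
  rcases Nat.lt_or_ge l J with hl | hl
  · -- small l
    have e1 : cn N f h c l - Ac N f c * lam w M l =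
        ∑ x ∈ range (l + 1), (∑ n ∈ Icc 1 N, (if f n = c then (1 : ℝ) else 0) * Fx w M x (l - x) (n + h)) +
        ∑ n ∈ Icc 1 N, (if f n = c then (1 : ℝ) else 0) * (lam w M (l - X w (n + h)) - lam w M l) := by
      rw [sum_comm, ← sum_add_distrib]
      unfold cn Ac
      rw [sum_mul, ← sum_sub_distrib]
      apply sum_congr rfl
      intro n hn
      rw [mem_Icc] at hn
      rw [← mul_sum, ← point_id w M l (n + h) (by omega), ← mul_add]
      by_cases h1 : f n = c
      · simp only [h1, true_and, if_true]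
        ring
      · simp only [h1, false_and, if_false]
        ring
    rw [e1]
    refine (abs_add_le _ _).trans ?_
    have s1 : |∑ x ∈ range (l + 1), (∑ n ∈ Icc 1 N, (if f n = c then (1 : ℝ) else 0) * Fx w M x (l - x) (n + h))| ≤ DelC w M N J f h c := by
      refine (abs_sum_le_sum_abs _ _).trans ?_
      unfold DelC
      refine le_trans ?_ (sum_le_sum_of_subset_of_nonneg (range_subset_range.2 (by omega : l + 1 ≤ J)) (fun _ _ _ => sum_nonneg fun _ _ => norm_nonneg _))
      apply sum_le_sum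
      intro x hx
      rw [mem_range] at hx
      have e2 : |∑ n ∈ Icc 1 N, (if f n = c then (1 : ℝ) else 0) * Fx w M x (l - x) (n + h)| =
          ‖∑ n ∈ Icc 1 N, (if f n = c then (1 : ℂ) else 0) * (Fx w M x (l - x) (n + h) : ℂ)‖ := by
        rw [← Real.norm_eq_abs, ← Complex.norm_real]
        congr 1
        push_cast
        apply sum_congr rfl
        intro n _
        split_ifs <;> simp
      rw [e2]
      exact single_le_sum (f := fun y => ‖∑ n ∈ Icc 1 N, (if f n = c then (1 : ℂ) else 0) * (Fx w M x y (n + h) : ℂ)‖)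
        (fun _ _ => norm_nonneg _) (mem_range.2 (by omega : l - x < J))
    have s2 : |∑ n ∈ Icc 1 N, (if f n = c then (1 : ℝ) else 0) * (lam w M (l - X w (n + h)) - lam w M l)| ≤
        σ * T * Ac N f c + σ * TX w N T f h c := by
      refine (abs_sum_le_sum_abs _ _).trans ?_
      unfold Ac TX
      rw [mul_sum, mul_sum, ← sum_add_distrib]
      apply sum_le_sum
      intro n _
      rw [abs_mul]
      by_cases h1 : f n = c
      · simp only [h1, if_true, abs_one, one_mul, mul_one]
        refine (hS _ _).trans ?_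
        by_cases h2 : T ≤ X w (n + h)
        · rw [if_pos h2]
          have : 0 ≤ σ * T := by positivity
          linarith
        · rw [if_neg h2, mul_zero, add_zero]
          have : (X w (n + h) : ℝ) ≤ T := by exact_mod_cast (not_le.1 h2).le
          gcongr
      · simp only [h1, if_false, abs_zero, zero_mul, mul_zero, add_zero, le_refl]
    have h3 : 0 ≤ ρ * Ac N f c := by positivity
    rw [add_mul]
    linarith
  · have h1 : cn N f h c l ≤ TJ N J f h c := by
      unfold cn TJ
      apply sum_le_sum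
      intro n _
      by_cases h1 : f n = c
      · by_cases h2 : cardFactors (n + h) = l
        · simp only [h1, h2, hl, and_self, if_true, le_refl]
        · simp only [h1, h2, and_false, if_false, if_true]
          split_ifs <;> norm_num
      · simp only [h1, false_and, if_false, le_refl]
    have h2 := cn_nonneg N f h c l
    have h3 : Ac N f c * lam w M l ≤ ρ * Ac N f c := by
      rw [mul_comm]
      exact mul_le_mul_of_nonneg_right (hF l hl) hA
    have h4 : 0 ≤ Ac N f c * lam w M l := mul_nonneg hA (lam_nonneg _ _ _)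
    have h5 : 0 ≤ σ * T * Ac N f c := by positivity
    have h6 : 0 ≤ σ * TX w N T f h c := by positivity
    rw [abs_le, add_mul]
    constructor <;> linarith

/-- the numerics for the local law -/
theorem nums2 (B : ℕ) : ∃ N₀ : ℕ, 3 ≤ N₀ ∧ ∀ N : ℕ, N₀ ≤ N →
    2 ≤ wc B N ∧ wc B N ≤ (B + 1) * N ∧ Real.log (Real.log N) / 2 ≤ VW (wc B N) ((B + 1) * N) ∧
    VW (wc B N) ((B + 1) * N) ≤ 3 * Real.log (Real.log N) ∧
    P1 ((B + 1) * N) + P2 ((B + 1) * N) ≤ 4 * H ((B + 1) * N) := by
  obtain ⟨c0, hc0, Nn, hNn3, hnum⟩ := nums B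
  obtain ⟨c1, hc1⟩ := Pool.Agent.Helper256.KM.mertens_inv
  obtain ⟨c2, hc2⟩ := Pool.Agent.Helper256.KM.mertens_log
  have hc10 : 0 ≤ c1 := (abs_nonneg _).trans (hc1 3 le_rfl)
  have hc20 : 0 ≤ c2 := (abs_nonneg _).trans (hc2 1 le_rfl)
  have evv : ∀ᶠ N : ℝ in atTop, max 16 (max (4 * c1 + 4) c2) ≤ Real.log (Real.log N) :=
    (Real.tendsto_log_atTop.comp Real.tendsto_log_atTop).eventually_ge_atTop _
  have evs : ∀ᶠ v : ℝ in atTop, 2 * (2 + c0) * Real.log v + 2 * c1 ≤ v := by
    have h1 := (ev_pow 1 (4 * (2 + c0)) 1 one_pos)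
    filter_upwards [h1, eventually_ge_atTop (4 * c1)] with v hv hv2
    rw [Real.rpow_one, pow_one] at hv
    linarith
  have evs' := (Real.tendsto_log_atTop.comp Real.tendsto_log_atTop).eventually evs
  have evB : ∀ᶠ N : ℝ in atTop, (B : ℝ) + 2 ≤ N := eventually_ge_atTop _
  obtain ⟨N₀, hN₀⟩ := evN _ (evv.and (evs'.and (evB.and (eventually_ge_atTop (3 : ℝ)))))
  refine ⟨max N₀ Nn, by omega, fun N hN => ?_⟩
  obtain ⟨g1, g2, g3, g5⟩ := hN₀ N ((le_max_left _ _).trans hN)
  obtain ⟨n1, n2, n3, n4, n5, n6, n7, n8⟩ := hnum N (by omega) _ _ rfl rfl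
  set v := Real.log (Real.log N) with hv
  set L' := Real.log (((B + 1) * N + 1 : ℕ) : ℝ) with hL'
  simp only [Function.comp] at g2
  rw [← hv] at g2
  have hN3 : 3 ≤ N := by omega
  have hv16 : 16 ≤ v := n1
  have hvc1 : 4 * c1 + 4 ≤ v := ((le_max_left _ _).trans (le_max_right _ _)).trans g1
  have hvc2 : c2 ≤ v := ((le_max_right _ _).trans (le_max_right _ _)).trans g1
  have hNr : (3 : ℝ) ≤ N := by exact_mod_cast hN3
  set L := Real.log N with hL
  have hL1 : 1 < L := by
    rw [hL, Real.lt_log_iff_exp_lt (by linarith)]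
    linarith [Real.exp_one_lt_d9]
  have hvL : v ≤ L - 1 := by rw [hv]; exact Real.log_le_sub_one_of_pos (by linarith)
  -- sizes
  set M : ℕ := (B + 1) * N with hM
  have hMN : N ≤ M := Nat.le_mul_of_pos_left _ (by omega)
  have hM1 : 1 ≤ M := by omega
  have hL'1 : 1 < L' := by linarith
  -- w
  set w : ℕ := wc B N with hw
  have hw' : w = ⌊L'⌋₊ := by rw [hw, hL']; rfl
  have hwL : (w : ℝ) ≤ L' := by rw [hw']; exact Nat.floor_le (by linarith)
  have hwL2 : L' - 1 < w := by
    have := Nat.lt_floor_add_one L'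
    rw [← hw'] at this
    linarith
  have hw3r : (3 : ℝ) ≤ w := by linarith
  have hw3 : 3 ≤ w := by exact_mod_cast hw3r
  have hwM : w ≤ M := by
    have h1 : L' ≤ M := by
      have := Real.log_le_sub_one_of_pos (x := ((M + 1 : ℕ) : ℝ)) (by positivity)
      rw [← hL'] at this
      push_cast at this
      linarith
    have : (w : ℝ) ≤ M := by linarith
    exact_mod_cast this
  have hLM : L ≤ Real.log M := Real.log_le_log (by linarith) (by exact_mod_cast hMN)
  have hP1Ml : v - c1 ≤ P1 M := by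
    have h1 := (abs_le.1 (hc1 M (by omega))).1
    have h4 : v ≤ Real.log (Real.log M) := by rw [hv]; exact Real.log_le_log (by linarith) hLM
    unfold P1
    linarith
  have hlogML : Real.log M ≤ L' := by
    rw [hL']
    apply Real.log_le_log (by exact_mod_cast hM1)
    push_cast
    linarith
  have hP1Mu : P1 M ≤ L' + 1 + c1 := by
    have h1 := (abs_le.1 (hc1 M (by omega))).2
    have h4 : Real.log (Real.log M) ≤ Real.log L' := Real.log_le_log (by linarith) hlogML
    have h5 := Real.log_le_sub_one_of_pos (x := L') (by linarith)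
    unfold P1
    linarith
  have hP2M : P2 M ≤ L' + c2 := by
    have h1 := (abs_le.1 (hc2 M hM1)).2
    unfold P2
    linarith
  have hP10 := P1_nonneg M
  have hP1w0 := P1_nonneg w
  have hVe : VW w M = P1 M - P1 w := VW_eq w M hwM
  have hH1 : L' ≤ H M := by
    have h1 := H_ge M
    rw [hL']
    push_cast
    exact h1
  refine ⟨by omega, hwM, ?_, ?_, ?_⟩
  · rw [hVe]
    linarith
  · rw [hVe]
    linarith
  · linarith

end Pool.Agent.TH445.OI
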