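import Mathlib
import Pool.Agent.TH445.OI.A18

set_option autoImplicit false

/-! The local law for one family of shifts. -/

open Finset Filter

namespace Pool.Agent.TH445.OI

open Pool.Agent.H807R2.Dav (ee norm_ee)
open Pool.Agent.H373R2.T7 (energy)
open ArithmeticFunction (cardFactors)

theorem lamfacts (B : ℕ) : ∃ N₀ : ℕ, 3 ≤ N₀ ∧ ∀ N : ℕ, N₀ ≤ N →
    (∀ x l, |lam (wc B N) ((B + 1) * N) (l - x) - lam (wc B N) ((B + 1) * N) l| ≤ (66 / Real.log (Real.log N)) * x) ∧
    (∀ l, JJ N ≤ l → lam (wc B N) ((B + 1) * N) l ≤ 46 / Real.log (Real.log N)) ∧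
    (∀ l, lam (wc B N) ((B + 1) * N) l ≤ 8 / √(Real.log (Real.log N))) := by
  obtain ⟨N1, hN1, h1⟩ := nums2 B
  obtain ⟨N2, hN2, h2⟩ := rr_facts
  refine ⟨max N1 N2, by omega, fun N hN => ?_⟩
  obtain ⟨a1, a2, a3, a4, a5⟩ := h1 N (by omega)
  obtain ⟨b1, b2, b3, b4⟩ := h2 N (by omega)
  set v := Real.log (Real.log N) with hv
  set M := (B + 1) * N with hM
  set w := wc B N with hw
  set V := VW w M with hV
  have hMN : N ≤ M := Nat.le_mul_of_pos_left _ (by omega)
  have hM1 : 1 ≤ M := by omega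
  have hH := H_pos hM1
  have hV4 : 4 ≤ V := by linarith
  have hV0 : 0 < V := by linarith
  have hv0 : 0 < v := by linarith
  have hstep : ∀ j, |lam w M (j + 1) - lam w M j| ≤ 66 / v := by
    intro j
    rcases j with _ | j
    · rw [lam_zero, sub_zero, lam_succ, abs_of_nonneg (div_nonneg (qq_nonneg _ _ _) hH.le)]
      have := zero_mass w M hM1 a1 a2 hV4 a5
      rw [div_le_div_iff₀ hH hv0]
      have hq := qq_nonneg w M 0
      rw [← hV] at this
      nlinarith
    · rw [lam_succ, lam_succ, ← sub_div, abs_div, abs_of_pos hH]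
      have := smooth w M hM1 a1 a2 hV4 a5 j
      rw [← hV] at this
      rw [div_le_div_iff₀ hH hv0]
      have hq := abs_nonneg (qq w M (j + 1) - qq w M j)
      nlinarith
  refine ⟨?_, ?_, ?_⟩
  · intro x l
    induction x with
    | zero => simp
    | succ x ih =>
      have h3 : |lam w M (l - (x + 1)) - lam w M (l - x)| ≤ 66 / v := by
        rcases Nat.eq_zero_or_pos (l - x) with h4 | h4
        · have : l - (x + 1) = l - x := by omega
          rw [this, sub_self, abs_zero]; positivity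
        · have : l - x = (l - (x + 1)) + 1 := by omega
          rw [this, abs_sub_comm]
          exact hstep _
      have h5 : lam w M (l - (x + 1)) - lam w M l = (lam w M (l - (x + 1)) - lam w M (l - x)) + (lam w M (l - x) - lam w M l) := by ring
      rw [h5]
      refine (abs_add_le _ _).trans ?_
      push_cast
      linarith
  · intro l hl
    have hJv : v ^ 2 ≤ (JJ N : ℝ) := Nat.le_ceil _
    have hlr : (JJ N : ℝ) ≤ l := by exact_mod_cast hl
    have hl1 : 1 ≤ l := by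
      have : (1 : ℝ) ≤ l := by nlinarith
      exact_mod_cast this
    obtain ⟨j, rfl⟩ := Nat.exists_eq_add_of_le' hl1
    rw [lam_succ]
    have := far w M hM1 a1 a2 hV4 a5 j (by rw [← hV]; push_cast at hlr; nlinarith)
    rw [← hV] at this
    rw [div_le_div_iff₀ hH hv0]
    have hq := qq_nonneg w M j
    nlinarith
  · intro l
    rcases l with _ | j
    · rw [lam_zero]; positivity
    · rw [lam_succ]
      have := conc w M hM1 a1 a2 hV4 a5 j
      rw [← hV] at this
      have hsv0 : 0 < √v := Real.sqrt_pos.2 hv0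
      have hsV : √v ≤ (3 / 2) * √V := by
        rw [Real.sqrt_le_left (by positivity), mul_pow, Real.sq_sqrt hV0.le]
        linarith
      rw [div_le_div_iff₀ hH hsv0]
      have hq := qq_nonneg w M j
      calc qq w M j * √v ≤ qq w M j * ((3 / 2) * √V) := by gcongr
        _ = (3 / 2) * (√V * qq w M j) := by ring
        _ ≤ (3 / 2) * (5 * H M) := by gcongr
        _ ≤ 8 * H M := by linarith

set_option maxHeartbeats 4000000 in
theorem delsmall (p B : ℕ) (C0 : ℝ) (hC0 : 0 ≤ C0) : ∃ κ1 : ℝ, 0 < κ1 ∧ ∃ N₀ : ℕ, 3 ≤ N₀ ∧ ∀ N : ℕ, N₀ ≤ N →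
    ∀ f : ℕ → ℕ, ∀ (x : ℕ) (s : ℕ → ℕ), Good N B p C0 x s →
    ∃ E ⊆ Icc 1 x, (E.card : ℝ) ≤ x * Real.log N ^ (-κ1) ∧ ∀ m ∈ Icc 1 x, m ∉ E →
      Del (wc B N) ((B + 1) * N) N (⌊Real.log N ^ κ1⌋₊ + 1) (JJ N) f (s m) ≤ N * Real.log N ^ (-(3 * κ1)) := by
  classical
  obtain ⟨Ce, hCe, Ne, hNe2, hexp⟩ := exp_sup
  obtain ⟨cn, hcn, Nn, hNn3, hnum⟩ := nums B
  set κ : ℝ := 1 / (4 * p + 4) with hκ
  have hκ0 : 0 < κ := by rw [hκ]; positivity
  set κ1 : ℝ := κ / 8 with hκ1
  have hκ10 : 0 < κ1 := by rw [hκ1]; positivity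
  set C3 : ℝ := Ce * (B + 2) * 2 + 1 with hC3
  have hC30 : 0 < C3 := by positivity
  set C5 : ℝ := C0 * C3 + (B + 1) with hC5
  have hC50 : 0 < C5 := by positivity
  obtain ⟨Na, ha⟩ := ev_L _ (ev_pow 1 1 κ hκ0)
  obtain ⟨Nb, hb⟩ := ev_L _ (ev_pow 4 (8 * C5) κ1 hκ10)
  refine ⟨κ1, hκ10, max (max (max Ne Nn) Na) (max Nb 3), (le_max_right _ _).trans (le_max_right _ _), fun N hN f x s hs => ?_⟩
  have hNe : Ne ≤ N := by omega
  have hNn : Nn ≤ N := by omega
  obtain ⟨n1, n2, n3, n4, n5, n6, n7, n8⟩ := hnum N hNn _ _ rfl rfl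
  have ga := ha N (by omega)
  have gb := hb N (by omega)
  have hN3 : 3 ≤ N := by omega
  have hN1 : 1 ≤ N := by omega
  have hNr : (3 : ℝ) ≤ N := by exact_mod_cast hN3
  have hN0 : (0 : ℝ) < N := by linarith
  set L := Real.log N with hL
  set v := Real.log L with hv
  simp only [pow_one, one_mul] at ga
  have hL1 : 1 ≤ L := by
    by_contra hcon
    have hneg : v ≤ 0 := Real.log_nonpos (Real.log_nonneg (by linarith)) (by linarith)
    linarith
  have hL0 : 0 < L := by linarith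
  have hv0 : 0 < v := by linarith
  set M : ℕ := (B + 1) * N with hM
  have hMN : N ≤ M := Nat.le_mul_of_pos_left _ (by omega)
  set L' := Real.log (((B + 1) * N + 1 : ℕ) : ℝ) with hL'
  have hL'0 : 0 < L' := by linarith
  have hB0 : (0 : ℝ) ≤ B := Nat.cast_nonneg _
  -- sup bound
  set δ : ℝ := Ce * (((B + 1) * N + 1 : ℕ) : ℝ) * Real.log L' / √L' with hδ
  have hδs : ∀ i j : ℕ, ∀ α : ℝ, ‖∑ n ∈ range ((B + 1) * N + 1), (Fx (wc B N) ((B + 1) * N) i j n : ℂ) * ee ((n : ℝ) * α)‖ ≤ δ := by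
    intro i j α
    exact hexp ((B + 1) * N + 1) (by omega) i j α
  have hsq : √L = L ^ (1 / 2 : ℝ) := Real.sqrt_eq_rpow L
  have hsL0 : 0 < √L := Real.sqrt_pos.2 hL0
  have hδ1 : δ + 1 ≤ C3 * (N * v / √L) := by
    have h1 : δ ≤ Ce * ((B + 2) * N) * (2 * v) / √L := by
      rw [hδ]
      have h2 : (((B + 1) * N + 1 : ℕ) : ℝ) ≤ (B + 2) * N := by push_cast; nlinarith
      have h3 : √L ≤ √L' := Real.sqrt_le_sqrt n6
      have h4 : 0 ≤ Real.log L' := Real.log_nonneg (by linarith)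
      gcongr
    have h5 : 1 ≤ N * v / √L := by
      rw [le_div_iff₀ hsL0, one_mul]
      have h6 : √L ≤ L := by
        rw [Real.sqrt_le_left hL0.le]; nlinarith
      have h7 : L ≤ N := by
        have := Real.log_le_sub_one_of_pos hN0
        linarith
      have h8 : (N : ℝ) ≤ N * v := by nlinarith
      linarith
    have h9 : Ce * ((B + 2) * N) * (2 * v) / √L = (Ce * (B + 2) * 2) * (N * v / √L) := by ring
    rw [h9] at h1
    rw [hC3, add_mul, one_mul]
    linarith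
  set η : ℝ := L ^ (-κ) with hη
  have hη0 : 0 < η := Real.rpow_pos_of_pos hL0 _
  -- powers
  have hpow : ∀ s : ℝ, 0 < L ^ s := fun s => Real.rpow_pos_of_pos hL0 s
  have hηp : η ^ (2 * p) = L ^ (-(2 * p * κ)) := by
    rw [hη, ← Real.rpow_natCast, ← Real.rpow_mul hL0.le]
    congr 1
    push_cast
    ring
  have hexpo : (2 * (p : ℝ) * κ) - 1 / 2 = -(2 * κ) := by
    rw [hκ]
    have : (4 * (p : ℝ) + 4) ≠ 0 := by positivity
    field_simp
    ring
  have hterm1 : C0 / η ^ (2 * p) * (δ + 1) * x ≤ C0 * C3 * (N * x * L ^ (-κ)) := by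
    rw [hηp]
    have h1 : C0 / L ^ (-(2 * p * κ)) * (δ + 1) * x ≤ C0 / L ^ (-(2 * p * κ)) * (C3 * (N * v / √L)) * x := by
      have := hpow (-(2 * p * κ))
      gcongr
    refine h1.trans ?_
    have h2 : C0 / L ^ (-(2 * p * κ)) * (C3 * (N * v / √L)) * x = C0 * C3 * (N * x * (v * L ^ (-(2 * κ)))) := by
      rw [← hexpo, Real.rpow_sub hL0, hsq, Real.rpow_neg hL0.le]
      field_simp
    rw [h2]
    have h3 : v * L ^ (-(2 * κ)) ≤ L ^ (-κ) := by
      calc v * L ^ (-(2 * κ)) ≤ L ^ κ * L ^ (-(2 * κ)) := by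
            apply mul_le_mul_of_nonneg_right ga (hpow _).le
        _ = L ^ (-κ) := by rw [← Real.rpow_add hL0]; congr 1; ring
    gcongr
  have hDelsum : ∑ m ∈ Icc 1 x, Del (wc B N) ((B + 1) * N) N (⌊L ^ κ1⌋₊ + 1) (JJ N) f (s m) ≤ N * x * L ^ (-(6 * κ1)) := by
    have h1 := del_family N B p C0 x s hN1 hs (wc B N) (⌊L ^ κ1⌋₊ + 1) (JJ N) f δ hδs η hη0
    refine h1.trans ?_
    have h2 : C0 / η ^ (2 * p) * (δ + 1) * x + η * x * ((B + 1) * N) ≤ C5 * (N * x * L ^ (-κ)) := by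
      have h3 : η * x * ((B + 1) * N) = (B + 1) * (N * x * L ^ (-κ)) := by rw [hη]; ring
      rw [h3, hC5, add_mul]
      linarith
    have hR : ((⌊L ^ κ1⌋₊ + 1 : ℕ) : ℝ) ≤ 2 * L ^ κ1 := by
      push_cast
      have h4 := Nat.floor_le (hpow κ1).le
      have h5 : 1 ≤ L ^ κ1 := Real.one_le_rpow hL1 hκ10.le
      linarith
    have hJ : ((JJ N : ℕ) : ℝ) ≤ 2 * v ^ 2 := by
      have h4 : ((JJ N : ℕ) : ℝ) ≤ v ^ 2 + 1 := (Nat.ceil_lt_add_one (by positivity)).le
      nlinarith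
    have h0 : 0 ≤ C0 / η ^ (2 * p) * (δ + 1) * x + η * x * ((B + 1) * N) := by
      have : 0 ≤ δ := (norm_nonneg _).trans (hδs 0 0 0)
      positivity
    calc ((⌊L ^ κ1⌋₊ + 1 : ℕ) : ℝ) * (JJ N : ℝ) ^ 2 * (C0 / η ^ (2 * p) * (δ + 1) * x + η * x * ((B + 1) * N))
        ≤ (2 * L ^ κ1) * (2 * v ^ 2) ^ 2 * (C5 * (N * x * L ^ (-κ))) := by gcongr
      _ = (8 * C5 * v ^ 4) * (L ^ κ1 * L ^ (-κ)) * (N * x) := by ring
      _ ≤ L ^ κ1 * (L ^ κ1 * L ^ (-κ)) * (N * x) := by
          have := hpow κ1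
          have := hpow (-κ)
          gcongr
      _ = N * x * L ^ (-(6 * κ1)) := by
          rw [← Real.rpow_add hL0, ← Real.rpow_add hL0, mul_comm]
          congr 2
          rw [hκ1]; ring
  set D : ℕ → ℝ := fun m => Del (wc B N) ((B + 1) * N) N (⌊L ^ κ1⌋₊ + 1) (JJ N) f (s m) with hD
  have hD0 : ∀ m, 0 ≤ D m := by
    intro m
    rw [hD]; simp only
    unfold Del
    exact sum_nonneg fun _ _ => sum_nonneg fun _ _ => sum_nonneg fun _ _ => norm_nonneg _
  set E := (Icc 1 x).filter (fun m => N * L ^ (-(3 * κ1)) < D m) with hE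
  refine ⟨E, filter_subset _ _, ?_, ?_⟩
  · have h1 : (E.card : ℝ) * (N * L ^ (-(3 * κ1))) ≤ N * x * L ^ (-(6 * κ1)) := by
      rw [← nsmul_eq_mul, ← sum_const]
      refine le_trans (sum_le_sum fun m hm => (mem_filter.1 hm).2.le) ?_
      refine le_trans ?_ hDelsum
      exact sum_le_sum_of_subset_of_nonneg (filter_subset _ _) (fun m _ _ => hD0 m)
    have h2 : L ^ (-(6 * κ1)) = L ^ (-(3 * κ1)) * L ^ (-(3 * κ1)) := by
      rw [← Real.rpow_add hL0]; congr 1; ring
    rw [h2] at h1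
    have h3 : (E.card : ℝ) ≤ x * L ^ (-(3 * κ1)) := by
      have h4 : 0 < N * L ^ (-(3 * κ1)) := by have := hpow (-(3 * κ1)); positivity
      have h5 : (E.card : ℝ) * (N * L ^ (-(3 * κ1))) ≤ (x * L ^ (-(3 * κ1))) * (N * L ^ (-(3 * κ1))) := by
        refine h1.trans (le_of_eq ?_); ring
      exact le_of_mul_le_mul_right h5 h4
    refine h3.trans ?_
    have h6 : L ^ (-(3 * κ1)) ≤ L ^ (-κ1) := Real.rpow_le_rpow_of_exponent_le hL1 (by linarith)
    gcongr
  · intro m hm hmE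
    by_contra hcon
    exact hmE (mem_filter.2 ⟨hm, not_le.1 hcon⟩)

/-- the rate of the local law -/
noncomputable def r2 (N : ℕ) : ℝ := Real.log (Real.log (Real.log N)) / Real.log (Real.log N)

/-- sums of the error terms over the classes -/
lemma sum_TX (w N T : ℕ) (f : ℕ → ℕ) (h M : ℕ) (hh : N + h ≤ M) (S : Finset ℕ) :
    ∑ c ∈ S, TX w N T f h c ≤ 5 * ((5 : ℝ) / 6) ^ T * (Real.exp (6 * P1 w) * M) := by
  unfold TX
  rw [sum_comm]
  calc _ ≤ ∑ n ∈ Icc 1 N, (fun k => if T ≤ X w k then (X w k : ℝ) else 0) (n + h) := by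
        apply sum_le_sum
        intro n _
        rw [← sum_filter]
        have : (S.filter (fun c => f n = c)).card ≤ 1 := by
          rw [card_le_one]
          intro a ha b hb
          rw [mem_filter] at ha hb
          rw [← ha.2, ← hb.2]
        rw [sum_const, nsmul_eq_mul]
        have h1 : ((S.filter (fun c => f n = c)).card : ℝ) ≤ 1 := by exact_mod_cast this
        exact mul_le_of_le_one_left (by split_ifs <;> positivity) h1
    _ ≤ ∑ m ∈ Icc 1 M, (if T ≤ X w m then (X w m : ℝ) else 0) :=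
        shift_sum N M h hh (fun k => if T ≤ X w k then (X w k : ℝ) else 0) (fun n => by split_ifs <;> positivity)
    _ ≤ _ := tail_mom w M T

lemma sum_TJ (N J : ℕ) (f : ℕ → ℕ) (h M : ℕ) (hh : N + h ≤ M) (S : Finset ℕ) :
    ∑ c ∈ S, TJ N J f h c ≤ ((2 : ℝ) / 3) ^ J * (Real.exp (6 * P1 M) * M) := by
  unfold TJ
  rw [sum_comm]
  calc _ ≤ ∑ n ∈ Icc 1 N, (fun k => if J ≤ cardFactors k then (1 : ℝ) else 0) (n + h) := by
        apply sum_le_sum
        intro n _
        rw [← sum_filter]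
        have : (S.filter (fun c => f n = c)).card ≤ 1 := by
          rw [card_le_one]
          intro a ha b hb
          rw [mem_filter] at ha hb
          rw [← ha.2, ← hb.2]
        rw [sum_const, nsmul_eq_mul]
        have h1 : ((S.filter (fun c => f n = c)).card : ℝ) ≤ 1 := by exact_mod_cast this
        exact mul_le_of_le_one_left (by split_ifs <;> positivity) h1
    _ ≤ ∑ m ∈ Icc 1 M, (if J ≤ cardFactors m then (1 : ℝ) else 0) :=
        shift_sum N M h hh (fun k => if J ≤ cardFactors k then (1 : ℝ) else 0) (fun n => by split_ifs <;> positivity)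
    _ = ∑ m ∈ Icc 1 M, (if J ≤ X M m then (1 : ℝ) else 0) := by
        apply sum_congr rfl
        intro m hm
        rw [mem_Icc] at hm
        rw [card_eq_X (by omega) hm.2]
    _ ≤ _ := tail_cnt M M J

lemma sum_DelC (w M N R J : ℕ) (f : ℕ → ℕ) (hf : ∀ n, f n < R) (h : ℕ) (S : Finset ℕ) :
    ∑ c ∈ S, DelC w M N J f h c ≤ Del w M N R J f h := by
  have h1 : ∑ c ∈ S, DelC w M N J f h c = ∑ c ∈ S.filter (fun c => c < R), DelC w M N J f h c := by
    rw [sum_filter]
    apply sum_congr rfl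
    intro c _
    split_ifs with hc
    · rfl
    · unfold DelC
      apply sum_eq_zero; intro x _
      apply sum_eq_zero; intro y _
      rw [sum_eq_zero, norm_zero]
      intro n _
      rw [if_neg, zero_mul]
      intro h2
      have := hf n
      omega
  rw [h1]
  have h2 : Del w M N R J f h = ∑ c ∈ range R, DelC w M N J f h c := rfl
  rw [h2]
  apply sum_le_sum_of_subset_of_nonneg
  · intro c hc
    rw [mem_filter] at hc
    exact mem_range.2 hc.2
  · intro c _ _
    exact DelC_nonneg _ _ _ _ _ _ _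

end Pool.Agent.TH445.OI
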