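import Mathlib
import Pool.Agent.TH445.OI.A19

set_option autoImplicit false

/-! The local law for one family of shifts, continued. -/

open Finset Filter

namespace Pool.Agent.TH445.OI

open Pool.Agent.H373R2.T7 (energy)
open ArithmeticFunction (cardFactors)

/-- the numerics for the tails -/
lemma tails_num (B : ℕ) (A : ℕ) : ∃ K : ℝ, 0 < K ∧ ∃ C : ℝ, 0 < C ∧ ∃ N₀ : ℕ, 3 ≤ N₀ ∧ ∀ N : ℕ, N₀ ≤ N →
    (∀ T : ℕ, K * Real.log (Real.log (Real.log N)) ≤ T → 5 * ((5 : ℝ) / 6) ^ T * (Real.exp (6 * P1 (wc B N)) * ((B + 1) * N : ℕ)) ≤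
      C * N / Real.log (Real.log N) ^ A) ∧
    ((2 : ℝ) / 3) ^ (JJ N) * (Real.exp (6 * P1 ((B + 1) * N)) * ((B + 1) * N : ℕ)) ≤ C * N / Real.log (Real.log N) ^ A := by
  obtain ⟨c, hc, N1, hN1, hnum⟩ := nums B
  have evs : ∀ᶠ v : ℝ in atTop, 18 * v + A * Real.log v ≤ v ^ 2 / 3 := by
    have h1 := (ev_pow 1 A 1 one_pos)
    filter_upwards [h1, eventually_ge_atTop 60] with v hv hv2
    rw [Real.rpow_one, pow_one] at hv
    nlinarith
  obtain ⟨N2, h2⟩ := evN _ ((Real.tendsto_log_atTop.comp Real.tendsto_log_atTop).eventually evs)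
  refine ⟨6 * (6 * (2 + c) + A), by positivity, 5 * (B + 1), by positivity, max N1 N2, by omega, fun N hN => ?_⟩
  obtain ⟨n1, n2, n3, n4, -⟩ := hnum N (by omega) _ _ rfl rfl
  have g2 := h2 N (by omega)
  simp only [Function.comp] at g2
  set v := Real.log (Real.log N) with hv
  set u := Real.log v with hu
  have hv0 : 0 < v := by linarith
  have hN0 : (0 : ℝ) ≤ N := Nat.cast_nonneg _
  have hvA : v ^ A = Real.exp (A * u) := by
    rw [mul_comm, Real.exp_mul, hu, Real.exp_log hv0, Real.rpow_natCast]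
  have hMr : (((B + 1) * N : ℕ) : ℝ) = (B + 1) * N := by push_cast; ring
  have key1 : (5 : ℝ) / 6 ≤ Real.exp (-(1 / 6)) := by
    have := Real.add_one_le_exp (-(1 / 6 : ℝ))
    linarith
  have key2 : (2 : ℝ) / 3 ≤ Real.exp (-(1 / 3)) := by
    have := Real.add_one_le_exp (-(1 / 3 : ℝ))
    linarith
  constructor
  · intro T hT
    have h3 : ((5 : ℝ) / 6) ^ T ≤ Real.exp (-((6 * (2 + c) + A) * u)) := by
      calc ((5 : ℝ) / 6) ^ T ≤ (Real.exp (-(1 / 6))) ^ T := pow_le_pow_left₀ (by norm_num) key1 T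
        _ = Real.exp (-(T / 6)) := by rw [← Real.exp_nat_mul]; congr 1; ring
        _ ≤ _ := by
            apply Real.exp_le_exp.2
            have : (6 * (2 + c) + A) * u ≤ T / 6 := by linarith
            linarith
    have h4 : Real.exp (6 * P1 (wc B N)) ≤ Real.exp (6 * (2 + c) * u) := by
      apply Real.exp_le_exp.2
      nlinarith
    rw [hMr]
    calc 5 * ((5 : ℝ) / 6) ^ T * (Real.exp (6 * P1 (wc B N)) * ((B + 1) * N))
        ≤ 5 * Real.exp (-((6 * (2 + c) + A) * u)) * (Real.exp (6 * (2 + c) * u) * ((B + 1) * N)) := by gcongr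
      _ = 5 * (B + 1) * N * (Real.exp (-((6 * (2 + c) + A) * u)) * Real.exp (6 * (2 + c) * u)) := by ring
      _ = 5 * (B + 1) * N / v ^ A := by
          rw [← Real.exp_add, hvA, div_eq_mul_inv, ← Real.exp_neg]
          congr 2
          ring
  · have hJ : v ^ 2 ≤ (JJ N : ℝ) := Nat.le_ceil _
    have h3 : ((2 : ℝ) / 3) ^ (JJ N) ≤ Real.exp (-(v ^ 2 / 3)) := by
      calc ((2 : ℝ) / 3) ^ (JJ N) ≤ (Real.exp (-(1 / 3))) ^ (JJ N) := pow_le_pow_left₀ (by norm_num) key2 _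
        _ = Real.exp (-(JJ N / 3)) := by rw [← Real.exp_nat_mul]; congr 1; ring
        _ ≤ _ := by
            apply Real.exp_le_exp.2
            linarith
    have h4 : Real.exp (6 * P1 ((B + 1) * N)) ≤ Real.exp (18 * v) := by
      apply Real.exp_le_exp.2
      linarith
    rw [hMr]
    calc ((2 : ℝ) / 3) ^ (JJ N) * (Real.exp (6 * P1 ((B + 1) * N)) * ((B + 1) * N))
        ≤ Real.exp (-(v ^ 2 / 3)) * (Real.exp (18 * v) * ((B + 1) * N)) := by gcongr
      _ = (B + 1) * N * (Real.exp (-(v ^ 2 / 3)) * Real.exp (18 * v)) := by ring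
      _ ≤ (B + 1) * N * Real.exp (-(A * u)) := by
          rw [← Real.exp_add]
          gcongr
          linarith
      _ = 1 * (B + 1) * N / v ^ A := by
          rw [hvA, div_eq_mul_inv, ← Real.exp_neg]; ring
      _ ≤ 5 * (B + 1) * N / v ^ A := by gcongr; norm_num

/-- the error terms of the local law -/
def Tau (N A : ℕ) (C : ℝ) (τ : ℕ → ℝ) : Prop :=
  (∀ c, 0 ≤ τ c) ∧ ∀ S : Finset ℕ, ∑ c ∈ S, τ c ≤ C * N / Real.log (Real.log N) ^ A

lemma r2_facts : ∃ N₀ : ℕ, 3 ≤ N₀ ∧ ∀ N : ℕ, N₀ ≤ N → 0 < r2 N ∧ 1 / Real.log (Real.log N) ≤ r2 N ∧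
    1 ≤ Real.log (Real.log (Real.log N)) := by
  obtain ⟨c, hc, N1, hN1, hnum⟩ := nums 0
  refine ⟨N1, hN1, fun N hN => ?_⟩
  obtain ⟨n1, n2, -⟩ := hnum N hN _ _ rfl rfl
  have hv0 : 0 < Real.log (Real.log N) := by linarith
  refine ⟨?_, ?_, n2⟩
  · unfold r2; positivity
  · unfold r2; gcongr

set_option maxHeartbeats 1000000 in
/-- the local law for one family, with the logarithmic law -/
theorem locBase (p B : ℕ) (C0 : ℝ) (hC0 : 0 ≤ C0) (A : ℕ) : ∃ κ : ℝ, 0 < κ ∧ ∃ C : ℝ, 0 < C ∧ ∃ N₀ : ℕ, 3 ≤ N₀ ∧ ∀ N : ℕ, N₀ ≤ N →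
    ∀ f : ℕ → ℕ, (∀ n, (f n : ℝ) ≤ Real.log N ^ κ) → ∀ (x : ℕ) (s : ℕ → ℕ), Good N B p C0 x s →
    ∃ E ⊆ Icc 1 x, (E.card : ℝ) ≤ x * Real.log N ^ (-κ) ∧ ∀ m ∈ Icc 1 x, m ∉ E → ∃ τ : ℕ → ℝ, Tau N A C τ ∧
      ∀ c l, |cn N f (s m) c l - Ac N f c * lam (wc B N) ((B + 1) * N) l| ≤ C * r2 N * Ac N f c + τ c := by
  obtain ⟨κ, hκ, N1, hN1, hdel⟩ := delsmall p B C0 hC0
  obtain ⟨N2, hN2, hlam⟩ := lamfacts B
  obtain ⟨K, hK, Ct, hCt, N3, hN3, htail⟩ := tails_num B A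
  obtain ⟨N4, hN4, hr⟩ := r2_facts
  obtain ⟨N5, h5⟩ := ev_L _ (ev_pow A 1 (3 * κ) (by positivity))
  obtain ⟨N6, hN6, hrr⟩ := rr_facts
  refine ⟨κ, hκ, (66 * (K + 1) + 46) + (1 + 66 * Ct + Ct), by positivity, max (max (max N1 N2) (max N3 N4)) (max N5 N6), by omega,
    fun N hN f hf x s hs => ?_⟩
  obtain ⟨E, hE1, hE2, hE3⟩ := hdel N (by omega) f x s hs
  obtain ⟨l1, l2, l3⟩ := hlam N (by omega)
  obtain ⟨t1, t2⟩ := htail N (by omega)
  obtain ⟨r1, r3, r4⟩ := hr N (by omega)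
  obtain ⟨q1, q2, q3, q4⟩ := hrr N (by omega)
  have g5 := h5 N (by omega)
  set L := Real.log N with hL
  set v := Real.log L with hv
  set u := Real.log v with hu
  set w := wc B N with hw
  set M := (B + 1) * N with hM
  have hL0 : 0 < L := by linarith
  have hv0 : 0 < v := by linarith
  have hN0 : (0 : ℝ) ≤ N := Nat.cast_nonneg _
  refine ⟨E, hE1, hE2, fun m hm hmE => ?_⟩
  set T := ⌈K * u⌉₊ with hT
  have hT1 : K * u ≤ T := Nat.le_ceil _
  have hT2 : (T : ℝ) ≤ K * u + 1 := (Nat.ceil_lt_add_one (by positivity)).le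
  have hD := hE3 m hm hmE
  have hh : N + s m ≤ M := by
    have := hs.1 m hm
    rw [hM, Nat.succ_mul]; omega
  have hfR : ∀ n, f n < ⌊L ^ κ⌋₊ + 1 := fun n => Nat.lt_succ_of_le (Nat.le_floor (hf n))
  refine ⟨fun c => DelC w M N (JJ N) f (s m) c + (66 / v) * TX w N T f (s m) c + TJ N (JJ N) f (s m) c, ⟨fun c => ?_, fun S => ?_⟩, fun c l => ?_⟩
  · have := DelC_nonneg w M N (JJ N) f (s m) c
    have := TX_nonneg w N T f (s m) c
    have := TJ_nonneg N (JJ N) f (s m) c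
    positivity
  · rw [sum_add_distrib, sum_add_distrib, ← mul_sum]
    have d1 := sum_DelC w M N (⌊L ^ κ⌋₊ + 1) (JJ N) f hfR (s m) S
    have d2 := sum_TX w N T f (s m) M hh S
    have d3 := sum_TJ N (JJ N) f (s m) M hh S
    have d4 := t1 T hT1
    have h66 : 66 / v ≤ 66 := by rw [div_le_iff₀ hv0]; linarith
    have hvA0 : 0 < v ^ A := by positivity
    have d5 : L ^ (-(3 * κ)) ≤ 1 / v ^ A := by
      rw [Real.rpow_neg hL0.le, ← one_div]
      apply one_div_le_one_div_of_le hvA0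
      rw [one_mul] at g5
      exact g5
    have d6 : N * L ^ (-(3 * κ)) ≤ N / v ^ A := by
      calc N * L ^ (-(3 * κ)) ≤ N * (1 / v ^ A) := by gcongr
        _ = _ := by ring
    have d7 : (66 / v) * ∑ c ∈ S, TX w N T f (s m) c ≤ 66 * (Ct * N / v ^ A) := by
      have hpos : 0 ≤ ∑ c ∈ S, TX w N T f (s m) c := sum_nonneg fun c _ => TX_nonneg _ _ _ _ _ _
      calc (66 / v) * ∑ c ∈ S, TX w N T f (s m) c ≤ 66 * ∑ c ∈ S, TX w N T f (s m) c := by gcongr
        _ ≤ _ := by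
            apply mul_le_mul_of_nonneg_left _ (by norm_num)
            exact d2.trans d4
    have d8 : (66 * (K + 1) + 46 + (1 + 66 * Ct + Ct)) * N / v ^ A = (66 * (K + 1) + 46) * (N / v ^ A) + (N / v ^ A + 66 * (Ct * N / v ^ A) + Ct * N / v ^ A) := by ring
    rw [d8]
    have d9 : 0 ≤ (66 * (K + 1) + 46) * (N / v ^ A) := by positivity
    linarith
  · have h1 := local1 w M N (JJ N) T f (s m) (66 / v) (46 / v) (by positivity) (by positivity) l1 l2 c l
    refine h1.trans ?_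
    have hA := Ac_nonneg N f c
    have h2 : 66 / v * T + 46 / v ≤ (66 * (K + 1) + 46) * r2 N := by
      have e1 : r2 N = u / v := rfl
      rw [e1]
      have e2 : 66 / v * T + 46 / v = (66 * T + 46) / v := by ring
      rw [e2, mul_div_assoc']
      gcongr
      nlinarith
    have h3 : (66 * (K + 1) + 46) * r2 N ≤ (66 * (K + 1) + 46 + (1 + 66 * Ct + Ct)) * r2 N := by
      apply mul_le_mul_of_nonneg_right _ r1.le
      have : 0 ≤ 1 + 66 * Ct + Ct := by positivity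
      linarith
    have h4 := mul_le_mul_of_nonneg_right (h2.trans h3) hA
    linarith

end Pool.Agent.TH445.OI
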