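import Mathlib
import Pool.Agent.TH445.OI.A20

set_option autoImplicit false

/-! The local law: the natural law, several orders. -/

open Finset Filter

namespace Pool.Agent.TH445.OI

open Pool.Agent.H373R2.T7 (energy)
open ArithmeticFunction (cardFactors)

/-- the number of `n ≤ N` with `Ω n = l` -/
noncomputable def cn0 (N l : ℕ) : ℝ := ∑ n ∈ Icc 1 N, (if cardFactors n = l then (1 : ℝ) else 0)

/-- the density of `Ω n = l` -/
noncomputable def pl (N l : ℕ) : ℝ := cn0 N l / N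

lemma cn0_nonneg (N l : ℕ) : 0 ≤ cn0 N l := sum_nonneg fun _ _ => by split_ifs <;> norm_num

lemma pl_nonneg (N l : ℕ) : 0 ≤ pl N l := div_nonneg (cn0_nonneg _ _) (Nat.cast_nonneg _)

lemma Tau_mono {N A : ℕ} {C C' : ℝ} {τ : ℕ → ℝ} (h : Tau N A C τ) (hC : C ≤ C') (hv : 0 < Real.log (Real.log N)) : Tau N A C' τ := by
  refine ⟨h.1, fun S => (h.2 S).trans ?_⟩
  gcongr

set_option maxHeartbeats 1000000 in
theorem natLoc (B : ℕ) (hB : 1 ≤ B) : ∃ C : ℝ, 0 < C ∧ ∃ N₀ : ℕ, 3 ≤ N₀ ∧ ∀ N : ℕ, N₀ ≤ N → ∀ l : ℕ,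
    |cn0 N l - N * lam (wc B N) ((B + 1) * N) l| ≤ C * N * r2 N := by
  obtain ⟨κ, hκ, C, hC, N1, hN1, hb⟩ := locBase 1 B 1 zero_le_one 1
  obtain ⟨N2, hN2, hr⟩ := rr_facts
  obtain ⟨N3, h3⟩ := ev_L _ (ev_pow 1 1 κ hκ)
  obtain ⟨N4, hN4, hr2⟩ := r2_facts
  refine ⟨2 * C + 4, by positivity, max (max N1 N2) (max N3 N4), by omega, fun N hN l => ?_⟩
  obtain ⟨r1, r2', r3, r4⟩ := hr N (by omega)
  obtain ⟨s1, s2, s3⟩ := hr2 N (by omega)
  have g3 := h3 N (by omega)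
  simp only [pow_one, one_mul] at g3
  set L := Real.log N with hL
  set v := Real.log L with hv
  have hL0 : 0 < L := by linarith
  have hv0 : 0 < v := by linarith
  have hNr : (3 : ℝ) ≤ N := by exact_mod_cast (by omega : 3 ≤ N)
  have hN0 : (0 : ℝ) < N := by linarith
  have hLκ : 16 ≤ L ^ κ := r3.trans g3
  have hLn : L ^ (-κ) ≤ 1 / 16 := by
    rw [Real.rpow_neg hL0.le, ← one_div]
    exact one_div_le_one_div_of_le (by norm_num) hLκ
  have hLv : L ^ (-κ) ≤ 1 / v := by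
    rw [Real.rpow_neg hL0.le, ← one_div]
    exact one_div_le_one_div_of_le (by linarith) g3
  have hLp : 0 < L ^ (-κ) := Real.rpow_pos_of_pos hL0 _
  obtain ⟨E, hE1, hE2, hE3⟩ := hb N (by omega) (fun _ => 0) (fun n => by
    simp only [Nat.cast_zero]; positivity) N (fun m => m) (good_id N B hB)
  set hs := ⌊(N : ℝ) * L ^ (-κ)⌋₊ + 1 with hhs
  have hhs1 : (hs : ℝ) ≤ N * L ^ (-κ) + 1 := by
    rw [hhs]; push_cast
    have := Nat.floor_le (by positivity : 0 ≤ (N : ℝ) * L ^ (-κ))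
    linarith
  have hhsN : hs ≤ N := by
    have : (hs : ℝ) ≤ N := by nlinarith
    exact_mod_cast this
  have hex : ∃ h0 ∈ Icc 1 hs, h0 ∉ E := by
    by_contra hcon
    push Not at hcon
    have h5 : Icc 1 hs ⊆ E := fun k hk => hcon k hk
    have h6 := card_le_card h5
    rw [Nat.card_Icc, Nat.add_sub_cancel] at h6
    have h7 : (hs : ℝ) ≤ N * L ^ (-κ) := le_trans (by exact_mod_cast h6) hE2
    have h8 := Nat.lt_floor_add_one ((N : ℝ) * L ^ (-κ))
    rw [hhs] at h7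
    push_cast at h7
    linarith
  obtain ⟨h0, hh0, hh0E⟩ := hex
  rw [mem_Icc] at hh0
  obtain ⟨τ, hτ, h9⟩ := hE3 h0 (mem_Icc.2 ⟨hh0.1, hh0.2.trans hhsN⟩) hh0E
  have h9' := h9 0 l
  have hA : Ac N (fun _ => 0) 0 = N := by
    unfold Ac
    simp
  have hτ0 : τ 0 ≤ C * N * r2 N := by
    have h10 := hτ.2 {0}
    rw [sum_singleton] at h10
    refine h10.trans ?_
    rw [pow_one, mul_div_assoc]
    calc C * (N / Real.log (Real.log N)) = C * N * (1 / v) := by rw [← hL, ← hv]; ring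
      _ ≤ C * N * r2 N := by gcongr
  have h10 : |cn N (fun _ => 0) h0 0 l - cn0 N l| ≤ 2 * h0 := by
    have h11 := shift_diff N (fun n => if cardFactors n = l then (1 : ℂ) else 0) (fun n => by split_ifs <;> simp) h0
    have e1 : ∑ n ∈ Icc 1 N, (if cardFactors (n + h0) = l then (1 : ℂ) else 0) - ∑ n ∈ Icc 1 N, (if cardFactors n = l then (1 : ℂ) else 0) =
        ((cn N (fun _ => 0) h0 0 l - cn0 N l : ℝ) : ℂ) := by
      have e2 : cn N (fun _ => 0) h0 0 l = ∑ n ∈ Icc 1 N, (if cardFactors (n + h0) = l then (1 : ℝ) else 0) := by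
        unfold cn
        apply sum_congr rfl
        intro n _
        simp only [true_and]
      rw [e2]
      unfold cn0
      rw [Complex.ofReal_sub, Complex.ofReal_sum, Complex.ofReal_sum]
      congr 1
      · apply sum_congr rfl
        intro n _
        split_ifs <;> simp
      · apply sum_congr rfl
        intro n _
        split_ifs <;> simp
    rw [e1, Complex.norm_real] at h11
    exact h11
  rw [hA] at h9'
  have h12 : 2 * (h0 : ℝ) ≤ 4 * N * r2 N := by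
    have h13 : (h0 : ℝ) ≤ hs := by exact_mod_cast hh0.2
    have h14 : N * L ^ (-κ) ≤ N * r2 N := by
      apply mul_le_mul_of_nonneg_left (hLv.trans s2) hN0.le
    have h15 : 1 ≤ N * r2 N := by
      have h16 : v ≤ N := by
        have e1 : v ≤ L - 1 := Real.log_le_sub_one_of_pos hL0
        have e2 : L ≤ N - 1 := Real.log_le_sub_one_of_pos hN0
        linarith
      have h17 : 1 ≤ N * (1 / v) := by
        rw [mul_one_div, le_div_iff₀ (by linarith), one_mul]; exact h16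
      exact h17.trans (mul_le_mul_of_nonneg_left s2 hN0.le)
    linarith
  rw [abs_le] at h9' h10 ⊢
  have e3 : (2 * C + 4) * N * r2 N = C * r2 N * N + C * N * r2 N + 4 * N * r2 N := by ring
  rw [e3]
  constructor <;> linarith

/-- the local law for one family of order at most `P` -/
def Loc1 (P B : ℕ) (C0 : ℝ) (A : ℕ) : Prop := ∃ κ : ℝ, 0 < κ ∧ ∃ C : ℝ, 0 < C ∧ ∃ N₀ : ℕ, 3 ≤ N₀ ∧ ∀ N : ℕ, N₀ ≤ N →
    ∀ f : ℕ → ℕ, (∀ n, (f n : ℝ) ≤ Real.log N ^ κ) → ∀ (x : ℕ) (s : ℕ → ℕ), (∃ p ≤ P, Good N B p C0 x s) →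
    ∃ E ⊆ Icc 1 x, (E.card : ℝ) ≤ x * Real.log N ^ (-κ) ∧ ∀ m ∈ Icc 1 x, m ∉ E → ∃ τ : ℕ → ℝ, Tau N A C τ ∧
      ∀ c l, |cn N f (s m) c l - Ac N f c * pl N l| ≤ C * r2 N * Ac N f c + τ c

/-- with the natural law -/
theorem locPi (p B : ℕ) (hB : 1 ≤ B) (C0 : ℝ) (hC0 : 0 ≤ C0) (A : ℕ) : ∃ κ : ℝ, 0 < κ ∧ ∃ C : ℝ, 0 < C ∧ ∃ N₀ : ℕ, 3 ≤ N₀ ∧ ∀ N : ℕ, N₀ ≤ N →
    ∀ f : ℕ → ℕ, (∀ n, (f n : ℝ) ≤ Real.log N ^ κ) → ∀ (x : ℕ) (s : ℕ → ℕ), Good N B p C0 x s →
    ∃ E ⊆ Icc 1 x, (E.card : ℝ) ≤ x * Real.log N ^ (-κ) ∧ ∀ m ∈ Icc 1 x, m ∉ E → ∃ τ : ℕ → ℝ, Tau N A C τ ∧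
      ∀ c l, |cn N f (s m) c l - Ac N f c * pl N l| ≤ C * r2 N * Ac N f c + τ c := by
  obtain ⟨κ, hκ, C, hC, N1, hN1, hb⟩ := locBase p B C0 hC0 A
  obtain ⟨C', hC', N2, hN2, hnat⟩ := natLoc B hB
  obtain ⟨N3, hN3, hr⟩ := rr_facts
  refine ⟨κ, hκ, C + C', by positivity, max N1 (max N2 N3), by omega, fun N hN f hf x s hs => ?_⟩
  obtain ⟨E, hE1, hE2, hE3⟩ := hb N (by omega) f hf x s hs
  obtain ⟨r1, r2', r3, r4⟩ := hr N (by omega)
  refine ⟨E, hE1, hE2, fun m hm hmE => ?_⟩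
  obtain ⟨τ, hτ, h1⟩ := hE3 m hm hmE
  refine ⟨τ, Tau_mono hτ (by linarith) (by linarith), fun c l => ?_⟩
  have h2 := h1 c l
  have h3 := hnat N (by omega) l
  have hNr : (3 : ℝ) ≤ N := by exact_mod_cast (by omega : 3 ≤ N)
  have hN0 : (0 : ℝ) < N := by linarith
  have hA := Ac_nonneg N f c
  have h4 : |pl N l - lam (wc B N) ((B + 1) * N) l| ≤ C' * r2 N := by
    have e1 : pl N l - lam (wc B N) ((B + 1) * N) l = (cn0 N l - N * lam (wc B N) ((B + 1) * N) l) / N := by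
      unfold pl; field_simp
    rw [e1, abs_div, abs_of_pos hN0, div_le_iff₀ hN0]
    refine h3.trans (le_of_eq ?_); ring
  have e2 : cn N f (s m) c l - Ac N f c * pl N l = (cn N f (s m) c l - Ac N f c * lam (wc B N) ((B + 1) * N) l) -
      Ac N f c * (pl N l - lam (wc B N) ((B + 1) * N) l) := by ring
  rw [e2]
  refine (abs_sub _ _).trans ?_
  rw [abs_mul, abs_of_nonneg hA]
  have h5 := mul_le_mul_of_nonneg_left h4 hA
  have e3 : (C + C') * r2 N * Ac N f c = C * r2 N * Ac N f c + Ac N f c * (C' * r2 N) := by ring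
  rw [e3]
  linarith

theorem locP (P B : ℕ) (hB : 1 ≤ B) (C0 : ℝ) (hC0 : 0 ≤ C0) (A : ℕ) : Loc1 P B C0 A := by
  obtain ⟨Nr, hNr3, hr⟩ := rr_facts
  obtain ⟨Ns, hNs3, hr2⟩ := r2_facts
  induction P with
  | zero =>
    obtain ⟨κ, hκ, C, hC, N1, hN1, hb⟩ := locPi 0 B hB C0 hC0 A
    refine ⟨κ, hκ, C, hC, N1, hN1, fun N hN f hf x s hs => ?_⟩
    obtain ⟨p, hp, hg⟩ := hs
    have : p = 0 := by omega
    subst this
    exact hb N hN f hf x s hg
  | succ P ih =>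
    obtain ⟨κ1, hκ1, C1, hC1, N1, hN1, hb1⟩ := ih
    obtain ⟨κ2, hκ2, C2, hC2, N2, hN2, hb2⟩ := locPi (P + 1) B hB C0 hC0 A
    refine ⟨min κ1 κ2, lt_min hκ1 hκ2, max C1 C2, lt_max_of_lt_left hC1, max (max N1 N2) (max Nr Ns), by omega, fun N hN f hf x s hs => ?_⟩
    obtain ⟨p, hp, hg⟩ := hs
    obtain ⟨r1, -, r3, r4⟩ := hr N (by omega)
    obtain ⟨s1, -, -⟩ := hr2 N (by omega)
    have hv0 : 0 < Real.log (Real.log N) := by linarith
    have hx0 : (0 : ℝ) ≤ x := Nat.cast_nonneg _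
    have hN0 : (0 : ℝ) ≤ N := Nat.cast_nonneg _
    rcases Nat.lt_or_ge P p with h | h
    · have hp' : p = P + 1 := by omega
      subst hp'
      obtain ⟨E, hE1, hE2, hE3⟩ := hb2 N (by omega) f (fun n => (hf n).trans (Real.rpow_le_rpow_of_exponent_le r4 (min_le_right _ _))) x s hg
      refine ⟨E, hE1, hE2.trans ?_, fun m hm hmE => ?_⟩
      · apply mul_le_mul_of_nonneg_left _ hx0
        exact Real.rpow_le_rpow_of_exponent_le r4 (by have := min_le_right κ1 κ2; linarith)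
      · obtain ⟨τ, hτ, h1⟩ := hE3 m hm hmE
        refine ⟨τ, Tau_mono hτ (le_max_right _ _) hv0, fun c l => (h1 c l).trans ?_⟩
        have := le_max_right C1 C2
        have hA := Ac_nonneg N f c
        gcongr
    · obtain ⟨E, hE1, hE2, hE3⟩ := hb1 N (by omega) f (fun n => (hf n).trans (Real.rpow_le_rpow_of_exponent_le r4 (min_le_left _ _))) x s ⟨p, h, hg⟩
      refine ⟨E, hE1, hE2.trans ?_, fun m hm hmE => ?_⟩
      · apply mul_le_mul_of_nonneg_left _ hx0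
        exact Real.rpow_le_rpow_of_exponent_le r4 (by have := min_le_left κ1 κ2; linarith)
      · obtain ⟨τ, hτ, h1⟩ := hE3 m hm hmE
        refine ⟨τ, Tau_mono hτ (le_max_left _ _) hv0, fun c l => (h1 c l).trans ?_⟩
        have := le_max_left C1 C2
        have hA := Ac_nonneg N f c
        gcongr

/-- bounds for the densities -/
lemma pl_bounds : ∃ C : ℝ, 0 < C ∧ ∃ N₀ : ℕ, 3 ≤ N₀ ∧ ∀ N : ℕ, N₀ ≤ N →
    (∀ l, pl N l ≤ C * (1 / √(Real.log (Real.log N)))) ∧ (∀ l, JJ N ≤ l → pl N l ≤ C * r2 N) ∧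
    Real.log (Real.log (Real.log N)) * (1 / √(Real.log (Real.log N))) ≤ 1 := by
  obtain ⟨C', hC', N2, hN2, hnat⟩ := natLoc 1 le_rfl
  obtain ⟨N1, hN1, hlam⟩ := lamfacts 1
  obtain ⟨N3, hN3, hr⟩ := rr_facts
  obtain ⟨N4, hN4, hr2⟩ := r2_facts
  obtain ⟨N5, h5⟩ := evN _ ((Real.tendsto_log_atTop.comp Real.tendsto_log_atTop).eventually (ev_pow 1 1 (1 / 2) (by norm_num)))
  refine ⟨C' + 46, by positivity, max (max N1 N2) (max (max N3 N4) N5), by omega, fun N hN => ?_⟩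
  obtain ⟨l1, l2, l3⟩ := hlam N (by omega)
  obtain ⟨r1, r2', r3, r4⟩ := hr N (by omega)
  obtain ⟨s1, s2, s3⟩ := hr2 N (by omega)
  have g5 := h5 N (by omega)
  simp only [Function.comp, pow_one, one_mul] at g5
  rw [← Real.sqrt_eq_rpow] at g5
  set v := Real.log (Real.log N) with hv
  have hv0 : 0 < v := by linarith
  have hsv0 : 0 < √v := Real.sqrt_pos.2 hv0
  have hvs : √v * √v = v := Real.mul_self_sqrt hv0.le
  have hNr : (3 : ℝ) ≤ N := by exact_mod_cast (by omega : 3 ≤ N)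
  have hN0 : (0 : ℝ) < N := by linarith
  have hur : Real.log v * (1 / √v) ≤ 1 := by
    rw [mul_one_div, div_le_one hsv0]; exact g5
  have hr21 : r2 N ≤ 1 / √v := by
    have e : (1 / √v) * (1 / √v) = 1 / v := by rw [div_mul_div_comm, one_mul, hvs]
    have : r2 N = (Real.log v * (1 / √v)) * (1 / √v) := by
      rw [mul_assoc, e]
      unfold r2
      rw [← hv]
      ring
    rw [this]
    have h0 : 0 ≤ 1 / √v := by positivity
    nlinarith
  have hdiff : ∀ l, pl N l ≤ lam (wc 1 N) ((1 + 1) * N) l + C' * r2 N := by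
    intro l
    have h3 := hnat N (by omega) l
    have e1 : pl N l - lam (wc 1 N) ((1 + 1) * N) l = (cn0 N l - N * lam (wc 1 N) ((1 + 1) * N) l) / N := by
      unfold pl; field_simp
    have h4 : pl N l - lam (wc 1 N) ((1 + 1) * N) l ≤ C' * r2 N := by
      rw [e1, div_le_iff₀ hN0]
      refine (le_abs_self _).trans (h3.trans (le_of_eq ?_)); ring
    linarith
  refine ⟨fun l => ?_, fun l hl => ?_, hur⟩
  · have h1 := hdiff l
    have h2 := l3 l
    have h3 : C' * r2 N ≤ C' * (1 / √v) := by gcongr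
    have h4 : 8 / √v = 8 * (1 / √v) := by ring
    have h0 : 0 ≤ 1 / √v := by positivity
    rw [h4] at h2
    nlinarith
  · have h1 := hdiff l
    have h2 := l2 l hl
    have h3 : 46 / v ≤ 46 * r2 N := by
      have : 46 / v = 46 * (1 / v) := by ring
      rw [this]; gcongr
    have e : (C' + 46) * r2 N = C' * r2 N + 46 * r2 N := by ring
    rw [e]
    linarith

end Pool.Agent.TH445.OI
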