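import Mathlib
import Pool.Agent.TH445.OI.A21

set_option autoImplicit false

/-! The local law for several families. -/

open Finset Filter

namespace Pool.Agent.TH445.OI

open Pool.Agent.H373R2.T7 (energy)
open ArithmeticFunction (cardFactors)

/-- the size of a class with given values of `Ω` at several points -/
noncomputable def ck (N k : ℕ) (f : ℕ → ℕ) (h : Fin k → ℕ) (c : ℕ) (l : Fin k → ℕ) : ℝ :=
  ∑ n ∈ Icc 1 N, (if f n = c ∧ ∀ i, cardFactors (n + h i) = l i then (1 : ℝ) else 0)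

lemma ck_nonneg (N k : ℕ) (f : ℕ → ℕ) (h : Fin k → ℕ) (c : ℕ) (l : Fin k → ℕ) : 0 ≤ ck N k f h c l :=
  sum_nonneg fun _ _ => by split_ifs <;> norm_num

/-- `1 / √(log log N)` -/
noncomputable def r1 (N : ℕ) : ℝ := 1 / √(Real.log (Real.log N))

/-- `log log log N` -/
noncomputable def lll (N : ℕ) : ℝ := Real.log (Real.log (Real.log N))

/-- the local law for `k` families -/
def LocK (P B : ℕ) (C0 : ℝ) (A k : ℕ) : Prop := ∃ κ : ℝ, 0 < κ ∧ ∃ C : ℝ, 0 < C ∧ ∃ N₀ : ℕ, 3 ≤ N₀ ∧ ∀ N : ℕ, N₀ ≤ N →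
    ∀ f : ℕ → ℕ, (∀ n, (f n : ℝ) ≤ Real.log N ^ κ) → ∀ (x : Fin k → ℕ) (s : Fin k → ℕ → ℕ), (∀ i, ∃ p ≤ P, Good N B p C0 (x i) (s i)) →
    ∃ E ⊆ Fintype.piFinset (fun i => Icc 1 (x i)), (E.card : ℝ) ≤ (∏ i, (x i : ℝ)) * Real.log N ^ (-κ) ∧
      ∀ m ∈ Fintype.piFinset (fun i => Icc 1 (x i)), m ∉ E → ∃ τ : ℕ → ℝ, Tau N A C τ ∧
      ∀ c, ∀ l : Fin k → ℕ, |ck N k f (fun i => s i (m i)) c l - Ac N f c * ∏ i, pl N (l i)| ≤ C * (lll N * r1 N ^ (k + 1)) * Ac N f c + τ c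

lemma r2_eq (N : ℕ) (hv : 0 < Real.log (Real.log N)) : r2 N = lll N * r1 N * r1 N := by
  unfold r2 lll r1
  have hvs : √(Real.log (Real.log N)) * √(Real.log (Real.log N)) = Real.log (Real.log N) := Real.mul_self_sqrt hv.le
  rw [mul_assoc, div_mul_div_comm, one_mul, hvs]
  ring

lemma locK_zero (P B : ℕ) (C0 : ℝ) (A : ℕ) : LocK P B C0 A 0 := by
  obtain ⟨N₀, hN₀3, hr⟩ := rr_facts
  obtain ⟨N1, hN1, hr2⟩ := r2_facts
  refine ⟨1, one_pos, 1, one_pos, max N₀ N1, by omega, fun N hN f hf x s hs => ⟨∅, empty_subset _, ?_, fun m hm _ => ⟨fun _ => 0, ⟨fun _ => le_rfl, fun S => ?_⟩, fun c l => ?_⟩⟩⟩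
  · obtain ⟨r1, r2, r3, r4⟩ := hr N (by omega)
    have : 0 ≤ Real.log N ^ (-(1 : ℝ)) := Real.rpow_nonneg (by linarith) _
    simp only [card_empty, Nat.cast_zero, univ_eq_empty, prod_empty, one_mul]
    exact this
  · obtain ⟨r1, r2, r3, r4⟩ := hr N (by omega)
    rw [sum_const_zero]
    have : 0 < Real.log (Real.log N) := by linarith
    positivity
  · obtain ⟨a1, a2, a3, a4⟩ := hr N (by omega)
    obtain ⟨s1, s2, s3⟩ := hr2 N (by omega)
    have e : ck N 0 f (fun i => s i (m i)) c l = Ac N f c := by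
      unfold ck Ac
      apply sum_congr rfl
      intro n _
      simp
    rw [e]
    simp only [univ_eq_empty, prod_empty, mul_one, sub_self, abs_zero, add_zero]
    have h1 : 0 ≤ lll N := by unfold lll; linarith
    have h2 : 0 ≤ r1 N := by unfold r1; positivity
    have h3 := Ac_nonneg N f c
    positivity

/-- the sum over the tuples that lie in the exceptional set -/
lemma card_exc {k : ℕ} (x : Fin (k + 1) → ℕ) (Eb : Finset ℕ) (Ek : ℕ → Finset (Fin k → ℕ))
    (hEk1 : ∀ m0, Ek m0 ⊆ Fintype.piFinset (fun i : Fin k => Icc 1 (x i.succ))) (E : Finset (Fin (k + 1) → ℕ))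
    (hE : ∀ m, m ∈ E ↔ m ∈ Fintype.piFinset (fun i => Icc 1 (x i)) ∧ (m 0 ∈ Eb ∨ (fun i : Fin k => m i.succ) ∈ Ek (m 0)))
    (L κ κ1 κ2 : ℝ) (hL : 1 ≤ L) (hEb : (Eb.card : ℝ) ≤ x 0 * L ^ (-κ2))
    (hEk : ∀ m0, ((Ek m0).card : ℝ) ≤ (∏ i : Fin k, (x i.succ : ℝ)) * L ^ (-κ1)) (h1 : 2 * κ ≤ κ1) (h2 : 2 * κ ≤ κ2)
    (hg : 2 ≤ L ^ κ) : (E.card : ℝ) ≤ (∏ i, (x i : ℝ)) * L ^ (-κ) := by
  classical
  have hL0 : 0 < L := by linarith
  have hx0 : ∀ i, (0 : ℝ) ≤ x i := fun i => Nat.cast_nonneg _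
  have hprod0 : (0 : ℝ) ≤ ∏ i : Fin k, (x i.succ : ℝ) := prod_nonneg fun i _ => hx0 _
  have hE' : E = (Fintype.piFinset (fun i => Icc 1 (x i))).filter (fun m => m 0 ∈ Eb ∨ (fun i : Fin k => m i.succ) ∈ Ek (m 0)) := by
    ext m
    rw [hE, mem_filter]
  have hcard : (E.card : ℝ) = ∑ m ∈ Fintype.piFinset (fun i => Icc 1 (x i)), (if m 0 ∈ Eb ∨ (fun i : Fin k => m i.succ) ∈ Ek (m 0) then (1 : ℝ) else 0) := by
    rw [hE', card_filter]; push_cast; rfl
  rw [hcard, pi_split]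
  have h3 : ∑ m0 ∈ Icc 1 (x 0), ∑ r ∈ Fintype.piFinset (fun i : Fin k => Icc 1 (x i.succ)),
      (if (Fin.cons m0 r : Fin (k + 1) → ℕ) 0 ∈ Eb ∨ (fun i : Fin k => (Fin.cons m0 r : Fin (k + 1) → ℕ) i.succ) ∈ Ek ((Fin.cons m0 r : Fin (k + 1) → ℕ) 0) then (1 : ℝ) else 0) ≤
      ∑ m0 ∈ Icc 1 (x 0), ((if m0 ∈ Eb then (1 : ℝ) else 0) * ∏ i : Fin k, (x i.succ : ℝ) + (∏ i : Fin k, (x i.succ : ℝ)) * L ^ (-κ1)) := by
    apply sum_le_sum
    intro m0 _
    calc _ ≤ ∑ r ∈ Fintype.piFinset (fun i : Fin k => Icc 1 (x i.succ)), ((if m0 ∈ Eb then (1 : ℝ) else 0) + (if r ∈ Ek m0 then (1 : ℝ) else 0)) := by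
          apply sum_le_sum
          intro r _
          simp only [Fin.cons_zero, Fin.cons_succ]
          by_cases c1 : m0 ∈ Eb <;> by_cases c2 : r ∈ Ek m0 <;> simp [c1, c2]
      _ = (if m0 ∈ Eb then (1 : ℝ) else 0) * ∏ i : Fin k, (x i.succ : ℝ) + (Ek m0).card := by
          rw [sum_add_distrib]
          congr 1
          · rw [sum_const, Fintype.card_piFinset, nsmul_eq_mul, mul_comm]
            congr 1
            rw [Nat.cast_prod]
            apply prod_congr rfl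
            intro i _
            rw [Nat.card_Icc, Nat.add_sub_cancel]
          · rw [← sum_filter, sum_const, nsmul_eq_mul, mul_one]
            congr 2
            ext r
            simp only [mem_filter]
            exact ⟨fun h => h.2, fun h => ⟨hEk1 m0 h, h⟩⟩
      _ ≤ _ := by gcongr; exact hEk m0
  refine h3.trans ?_
  rw [sum_add_distrib, ← sum_mul, sum_const, Nat.card_Icc, Nat.add_sub_cancel, nsmul_eq_mul, ← sum_filter, sum_const, nsmul_eq_mul, mul_one]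
  have h4 : (((Icc 1 (x 0)).filter (fun m0 => m0 ∈ Eb)).card : ℝ) ≤ x 0 * L ^ (-κ2) := by
    refine le_trans ?_ hEb
    exact_mod_cast card_le_card (fun m hm => (mem_filter.1 hm).2)
  have h5 : L ^ (-κ1) ≤ L ^ (-(2 * κ)) := Real.rpow_le_rpow_of_exponent_le hL (by linarith)
  have h6 : L ^ (-κ2) ≤ L ^ (-(2 * κ)) := Real.rpow_le_rpow_of_exponent_le hL (by linarith)
  have h7 : L ^ (-(2 * κ)) = L ^ (-κ) * L ^ (-κ) := by rw [← Real.rpow_add hL0]; congr 1; ring
  have h8 : 2 * L ^ (-κ) ≤ 1 := by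
    rw [Real.rpow_neg hL0.le, ← div_eq_mul_inv, div_le_one (by linarith)]; exact hg
  have h9 : 0 < L ^ (-κ) := Real.rpow_pos_of_pos hL0 _
  rw [Fin.prod_univ_succ]
  calc _ ≤ (x 0 * L ^ (-(2 * κ))) * ∏ i : Fin k, (x i.succ : ℝ) + x 0 * ((∏ i : Fin k, (x i.succ : ℝ)) * L ^ (-(2 * κ))) := by
        have := hx0 0
        gcongr
        exact h4.trans (by gcongr)
    _ = (x 0 * ∏ i : Fin k, (x i.succ : ℝ)) * L ^ (-κ) * (2 * L ^ (-κ)) := by rw [h7]; ring
    _ ≤ (x 0 * ∏ i : Fin k, (x i.succ : ℝ)) * L ^ (-κ) * 1 := by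
        have := hx0 0
        gcongr
    _ = _ := by ring

/-- the algebra of the induction step -/
lemma step_alg (a b A P' p0 τ1 τk u r C1 C2 Cp Cq : ℝ) (k : ℕ) (hA : 0 ≤ A) (hP0 : 0 ≤ P') (hP : P' ≤ Cp ^ k * r ^ k)
    (hp0 : p0 ≤ Cp * r) (hτ1 : 0 ≤ τ1) (hu : 1 ≤ u) (hr : 0 < r) (hr1 : r ≤ 1) (hur : u * r ≤ 1)
    (hC1 : 0 < C1) (hC2 : 0 < C2) (hCp : 0 < Cp) (hCq : 0 < Cq)
    (t1 : |a - b * P'| ≤ C1 * (u * r ^ (k + 1)) * b + τk) (t2 : |b - A * p0| ≤ C2 * (u * r * r) * A + τ1) :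
    |a - A * (p0 * P')| ≤ (C1 * (Cp + C2) + C2 * Cp ^ k + Cq * Cp ^ k) * (u * r ^ (k + 1 + 1)) * A + ((C1 + Cp ^ k) * τ1 + τk) := by
  have hrk1 : r ^ k ≤ 1 := pow_le_one₀ hr.le hr1
  have hrk0 : 0 < r ^ k := by positivity
  have hε : u * r ^ (k + 1) ≤ 1 := by
    rw [pow_succ]
    calc u * (r ^ k * r) = (u * r) * r ^ k := by ring
      _ ≤ 1 * 1 := by gcongr
      _ = 1 := by ring
  have hε0 : 0 ≤ u * r ^ (k + 1) := by positivity
  have t3 : b ≤ (Cp + C2) * r * A + τ1 := by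
    have h1 := (abs_le.1 t2).2
    have h2 : A * p0 ≤ A * (Cp * r) := by gcongr
    have h3 : C2 * (u * r * r) * A ≤ C2 * (1 * r) * A := by gcongr
    nlinarith
  have e1 : a - A * (p0 * P') = (a - b * P') + (b - A * p0) * P' := by ring
  rw [e1]
  refine (abs_add_le _ _).trans ?_
  rw [abs_mul, abs_of_nonneg hP0]
  have h4 : C1 * (u * r ^ (k + 1)) * b ≤ C1 * (Cp + C2) * (u * r ^ (k + 1 + 1)) * A + C1 * τ1 := by
    calc C1 * (u * r ^ (k + 1)) * b ≤ C1 * (u * r ^ (k + 1)) * ((Cp + C2) * r * A + τ1) := by gcongr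
      _ = C1 * (Cp + C2) * (u * r ^ (k + 1 + 1)) * A + C1 * (u * r ^ (k + 1)) * τ1 := by ring
      _ ≤ C1 * (Cp + C2) * (u * r ^ (k + 1 + 1)) * A + C1 * 1 * τ1 := by gcongr
      _ = _ := by ring
  have h5 : |b - A * p0| * P' ≤ C2 * Cp ^ k * (u * r ^ (k + 1 + 1)) * A + Cp ^ k * τ1 := by
    have h0 : 0 ≤ C2 * (u * r * r) * A + τ1 := (abs_nonneg _).trans t2
    calc |b - A * p0| * P' ≤ (C2 * (u * r * r) * A + τ1) * (Cp ^ k * r ^ k) := by gcongr
      _ = C2 * Cp ^ k * (u * r ^ (k + 1 + 1)) * A + (Cp ^ k * τ1) * r ^ k := by ring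
      _ ≤ C2 * Cp ^ k * (u * r ^ (k + 1 + 1)) * A + (Cp ^ k * τ1) * 1 := by gcongr
      _ = _ := by ring
  have h6 : 0 ≤ Cq * Cp ^ k * (u * r ^ (k + 1 + 1)) * A := by positivity
  have e2 : (C1 * (Cp + C2) + C2 * Cp ^ k + Cq * Cp ^ k) * (u * r ^ (k + 1 + 1)) * A + ((C1 + Cp ^ k) * τ1 + τk) =
      C1 * (Cp + C2) * (u * r ^ (k + 1 + 1)) * A + C2 * Cp ^ k * (u * r ^ (k + 1 + 1)) * A + Cq * Cp ^ k * (u * r ^ (k + 1 + 1)) * A + C1 * τ1 + Cp ^ k * τ1 + τk := by ring
  rw [e2]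
  linarith

set_option maxHeartbeats 4000000 in
lemma locK_succ (P B : ℕ) (hB : 1 ≤ B) (C0 : ℝ) (hC0 : 0 ≤ C0) (A k : ℕ) (ih : LocK P B C0 A k) : LocK P B C0 A (k + 1) := by
  classical
  obtain ⟨κ1, hκ1, C1, hC1, N1, hN1, hb1⟩ := ih
  obtain ⟨κ2, hκ2, C2, hC2, N2, hN2, hb2⟩ := locP P B hB C0 hC0 A
  obtain ⟨Cp, hCp, N3, hN3, hpl⟩ := pl_bounds
  obtain ⟨K, hK, Ct, hCt, N6, hN6, htail⟩ := tails_num B A
  set κ := min κ1 κ2 / 2 with hκ
  have hκ0 : 0 < κ := by rw [hκ]; exact half_pos (lt_min hκ1 hκ2)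
  have h2κ1 : 2 * κ ≤ κ1 := by rw [hκ]; have := min_le_left κ1 κ2; linarith
  have h2κ2 : 2 * κ ≤ κ2 := by rw [hκ]; have := min_le_right κ1 κ2; linarith
  obtain ⟨N4, hN4, hlab⟩ := label_size κ hκ0
  obtain ⟨N5, hN5, hr⟩ := rr_facts
  obtain ⟨N7, hN7, hr2⟩ := r2_facts
  set D := C1 * (Cp + C2) + C2 * Cp ^ k + Cp * Cp ^ k with hD
  set D' := (C1 + Cp ^ k) * C2 + C1 + Ct with hD'
  have hD0 : 0 < D := by rw [hD]; positivity
  have hD'0 : 0 < D' := by rw [hD']; positivity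
  refine ⟨κ, hκ0, D + D', by positivity, max (max (max N1 N2) (max N3 (max N4 N5))) (max N6 N7), by omega, fun N hN f hf x s hs => ?_⟩
  obtain ⟨g1, g2⟩ := hlab N (by omega)
  obtain ⟨q1, q2, q3, q4⟩ := hr N (by omega)
  obtain ⟨w1, w2, w3⟩ := hr2 N (by omega)
  obtain ⟨p1, p2, p3⟩ := hpl N (by omega)
  obtain ⟨-, t2⟩ := htail N (by omega)
  have hN1' : 1 ≤ N := by omega
  have hv0 : 0 < Real.log (Real.log N) := by linarith
  have hr2e := r2_eq N hv0
  set L := Real.log N with hL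
  set v := Real.log L with hv
  have hL0 : 0 < L := by linarith
  set J := JJ N with hJ
  set r := r1 N with hrdef
  set u := lll N with hudef
  have hsv0 : 0 < √v := Real.sqrt_pos.2 hv0
  have hs1 : 1 ≤ √v := Real.le_sqrt_of_sq_le (by linarith)
  have hr0 : 0 < r := by rw [hrdef]; unfold r1; positivity
  have hrle : r ≤ 1 := by
    rw [hrdef]; unfold r1
    rw [← hL, ← hv, div_le_one hsv0]; exact hs1
  have hu1 : 1 ≤ u := w3
  have hur : u * r ≤ 1 := p3
  have hN0 : (0 : ℝ) ≤ N := Nat.cast_nonneg _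
  have hJ1 : 0 < J + 1 := by omega
  -- first coordinate
  obtain ⟨Eb, hEb1, hEb2, hEb3⟩ := hb2 N (by omega) f (fun n => (hf n).trans (Real.rpow_le_rpow_of_exponent_le q4 (by linarith))) (x 0) (s 0) (hs 0)
  -- label
  set f' : ℕ → ℕ → ℕ := fun m0 n => f n * (J + 1) + min (cardFactors (n + s 0 m0)) J with hf'
  have hf'b : ∀ m0 n, (f' m0 n : ℝ) ≤ L ^ κ1 := fun m0 n =>
    (g2 (f n) _ (hf n) (min_le_right _ _)).trans (Real.rpow_le_rpow_of_exponent_le q4 h2κ1)
  have hEk := fun m0 : ℕ => hb1 N (by omega) (f' m0) (hf'b m0) (fun i => x i.succ) (fun i => s i.succ) (fun i => hs i.succ)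
  choose Ek hEk1 hEk2 hEk3 using hEk
  set E := (Fintype.piFinset (fun i => Icc 1 (x i))).filter (fun m => m 0 ∈ Eb ∨ (fun i : Fin k => m i.succ) ∈ Ek (m 0)) with hE
  refine ⟨E, filter_subset _ _, ?_, ?_⟩
  · exact card_exc x Eb Ek hEk1 E (fun m => by rw [hE, mem_filter]) L κ κ1 κ2 q4 hEb2 hEk2 h2κ1 h2κ2 g1
  · intro m hm hmE
    have hm0 : m 0 ∉ Eb := fun h => hmE (mem_filter.2 ⟨hm, Or.inl h⟩)
    have hmk : (fun i : Fin k => m i.succ) ∉ Ek (m 0) := fun h => hmE (mem_filter.2 ⟨hm, Or.inr h⟩)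
    rw [Fintype.mem_piFinset] at hm
    have hh0 : s 0 (m 0) ≤ B * N := by
      obtain ⟨p, _, hg⟩ := hs 0
      exact hg.1 _ (hm 0)
    obtain ⟨τ1, hτ1, hl1⟩ := hEb3 (m 0) (hm 0) hm0
    obtain ⟨τk, hτk, hlk⟩ := hEk3 (m 0) (fun i : Fin k => m i.succ) (by rw [Fintype.mem_piFinset]; exact fun i => hm i.succ) hmk
    set h0 := s 0 (m 0) with hh0'
    have hhM : N + h0 ≤ (B + 1) * N := by rw [Nat.succ_mul]; omega
    refine ⟨fun c => (C1 + Cp ^ k) * τ1 c + ∑ l0 ∈ range (J + 1), τk (c * (J + 1) + l0) + TJ N J f h0 c, ⟨fun c => ?_, fun S => ?_⟩, fun c l => ?_⟩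
    · have h1 := hτ1.1 c
      have h2 : 0 ≤ ∑ l0 ∈ range (J + 1), τk (c * (J + 1) + l0) := sum_nonneg fun _ _ => hτk.1 _
      have h3 := TJ_nonneg N J f h0 c
      positivity
    · rw [sum_add_distrib, sum_add_distrib, ← mul_sum]
      have h1 := hτ1.2 S
      have h3 := (sum_TJ N J f h0 ((B + 1) * N) hhM S).trans t2
      have h2 : ∑ c ∈ S, ∑ l0 ∈ range (J + 1), τk (c * (J + 1) + l0) ≤ C1 * N / v ^ A := by
        refine le_trans (le_of_eq ?_) (hτk.2 ((S ×ˢ range (J + 1)).image (fun q => q.1 * (J + 1) + q.2)))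
        rw [sum_image, sum_product]
        intro a ha b hb hab
        rw [mem_coe, mem_product, mem_range] at ha hb
        simp only at hab
        have e1 : (a.1 * (J + 1) + a.2) / (J + 1) = a.1 := by
          rw [mul_comm, Nat.mul_add_div hJ1, Nat.div_eq_of_lt ha.2, add_zero]
        have e2 : (b.1 * (J + 1) + b.2) / (J + 1) = b.1 := by
          rw [mul_comm, Nat.mul_add_div hJ1, Nat.div_eq_of_lt hb.2, add_zero]
        have e3 : a.1 = b.1 := by rw [← e1, ← e2, hab]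
        have e4 : a.2 = b.2 := by rw [e3] at hab; omega
        exact Prod.ext e3 e4
      have h4 : (C1 + Cp ^ k) * ∑ c ∈ S, τ1 c ≤ (C1 + Cp ^ k) * (C2 * N / v ^ A) := by gcongr
      have h5 : (D + D') * N / v ^ A = D * (N / v ^ A) + ((C1 + Cp ^ k) * (C2 * N / v ^ A) + C1 * N / v ^ A + Ct * N / v ^ A) := by
        rw [hD']; ring
      rw [h5]
      have h6 : 0 ≤ D * (N / v ^ A) := by positivity
      linarith
    · set l0 := l 0 with hl0
      set P' := ∏ i : Fin k, pl N (l i.succ) with hP'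
      have hP0 : 0 ≤ P' := prod_nonneg fun _ _ => pl_nonneg _ _
      have hPle : P' ≤ Cp ^ k * r ^ k := by
        rw [← mul_pow]
        calc P' ≤ ∏ i : Fin k, (Cp * r) := prod_le_prod (fun _ _ => pl_nonneg _ _) (fun i _ => p1 _)
          _ = (Cp * r) ^ k := by rw [prod_const, card_univ, Fintype.card_fin]
      have hA := Ac_nonneg N f c
      rw [Fin.prod_univ_succ, ← hl0, ← hP']
      have hτs : 0 ≤ ∑ l0 ∈ range (J + 1), τk (c * (J + 1) + l0) := sum_nonneg fun _ _ => hτk.1 _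
      have hTJ := TJ_nonneg N J f h0 c
      have hτ1c := hτ1.1 c
      have hε0 : 0 ≤ u * r ^ (k + 1 + 1) := by positivity
      have hDD : D * (u * r ^ (k + 1 + 1)) * Ac N f c ≤ (D + D') * (u * r ^ (k + 1 + 1)) * Ac N f c := by
        apply mul_le_mul_of_nonneg_right _ hA
        apply mul_le_mul_of_nonneg_right _ hε0
        linarith
      rcases Nat.lt_or_ge l0 J with hlt | hge
      · have hiff : ∀ n, (f' (m 0) n = c * (J + 1) + l0) ↔ (f n = c ∧ cardFactors (n + h0) = l0) := by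
          intro n
          rw [hf']
          simp only
          rw [← hh0']
          constructor
          · intro h
            have e1 : (f n * (J + 1) + min (cardFactors (n + h0)) J) / (J + 1) = f n := by
              rw [mul_comm, Nat.mul_add_div hJ1, Nat.div_eq_of_lt (lt_of_le_of_lt (min_le_right _ _) (Nat.lt_succ_self J)), add_zero]
            have e2 : (c * (J + 1) + l0) / (J + 1) = c := by
              rw [mul_comm, Nat.mul_add_div hJ1, Nat.div_eq_of_lt (by omega), add_zero]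
            have e3 : f n = c := by rw [← e1, h, e2]
            refine ⟨e3, ?_⟩
            rw [e3] at h
            have h4 : min (cardFactors (n + h0)) J = l0 := by omega
            rcases le_total (cardFactors (n + h0)) J with h5 | h5
            · rw [min_eq_left h5] at h4; exact h4
            · rw [min_eq_right h5] at h4; omega
          · rintro ⟨h1, h2⟩
            rw [h1, h2, min_eq_left hlt.le]
        have e1 : ck N (k + 1) f (fun i => s i (m i)) c l = ck N k (f' (m 0)) (fun i => s i.succ (m i.succ)) (c * (J + 1) + l0) (fun i => l i.succ) := by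
          unfold ck
          apply sum_congr rfl
          intro n _
          have : (f n = c ∧ ∀ i : Fin (k + 1), cardFactors (n + s i (m i)) = l i) ↔
              (f' (m 0) n = c * (J + 1) + l0 ∧ ∀ i : Fin k, cardFactors (n + s i.succ (m i.succ)) = l i.succ) := by
            rw [hiff, Fin.forall_fin_succ, ← hh0', ← hl0, and_assoc]
          simp only [this]
        have e2 : Ac N (f' (m 0)) (c * (J + 1) + l0) = cn N f h0 c l0 := by
          unfold Ac cn
          apply sum_congr rfl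
          intro n _
          simp only [hiff]
        have s1 := hlk (c * (J + 1) + l0) (fun i => l i.succ)
        rw [← e1, e2] at s1
        have s2 := hl1 c l0
        rw [hr2e] at s2
        have s3 := step_alg _ _ (Ac N f c) P' (pl N l0) (τ1 c) (τk (c * (J + 1) + l0)) u r C1 C2 Cp Cp k hA hP0 hPle (p1 l0) hτ1c hu1 hr0 hrle hur
          hC1 hC2 hCp hCp s1 s2
        refine s3.trans ?_
        have s4 : τk (c * (J + 1) + l0) ≤ ∑ l0 ∈ range (J + 1), τk (c * (J + 1) + l0) :=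
          single_le_sum (f := fun l0 => τk (c * (J + 1) + l0)) (fun _ _ => hτk.1 _) (mem_range.2 (by omega))
        simp only
        rw [← hD]
        linarith
      · have s1 : ck N (k + 1) f (fun i => s i (m i)) c l ≤ TJ N J f h0 c := by
          unfold ck TJ
          apply sum_le_sum
          intro n _
          by_cases h1 : f n = c ∧ ∀ i : Fin (k + 1), cardFactors (n + s i (m i)) = l i
          · have h2 := h1.2 0
            rw [if_pos h1, if_pos h1.1, if_pos]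
            rw [← hh0', ← hl0] at h2
            omega
          · rw [if_neg h1]
            split_ifs <;> norm_num
        have s2 := ck_nonneg N (k + 1) f (fun i => s i (m i)) c l
        have s3 := pl_nonneg N l0
        have s4 : Ac N f c * (pl N l0 * P') ≤ D * (u * r ^ (k + 1 + 1)) * Ac N f c := by
          have h1 := p2 l0 hge
          rw [hr2e] at h1
          calc Ac N f c * (pl N l0 * P') ≤ Ac N f c * ((Cp * (u * r * r)) * (Cp ^ k * r ^ k)) := by gcongr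
            _ = (Cp * Cp ^ k) * (u * r ^ (k + 1 + 1)) * Ac N f c := by ring
            _ ≤ D * (u * r ^ (k + 1 + 1)) * Ac N f c := by
                apply mul_le_mul_of_nonneg_right _ hA
                apply mul_le_mul_of_nonneg_right _ hε0
                rw [hD]
                have : 0 ≤ C1 * (Cp + C2) := by positivity
                have : 0 ≤ C2 * Cp ^ k := by positivity
                linarith
        have s5 : 0 ≤ Ac N f c * (pl N l0 * P') := by positivity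
        have s6 : 0 ≤ (C1 + Cp ^ k) * τ1 c := by positivity
        simp only
        rw [abs_le]
        constructor <;> linarith

theorem locK (P B : ℕ) (hB : 1 ≤ B) (C0 : ℝ) (hC0 : 0 ≤ C0) (A k : ℕ) : LocK P B C0 A k := by
  induction k with
  | zero => exact locK_zero P B C0 A
  | succ k ih => exact locK_succ P B hB C0 hC0 A k ih

end Pool.Agent.TH445.OI
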