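import Mathlib
import Pool.Agent.TH445.OI.A22

set_option autoImplicit false

/-! The local law: final form with weights. -/

open Finset Filter

namespace Pool.Agent.TH445.OI

open Pool.Agent.H373R2.T7 (energy)
open ArithmeticFunction (cardFactors)

/-- the local law with weights and fixed shifts -/
def LocW (P B : ℕ) (C0 : ℝ) (A j k : ℕ) : Prop := ∃ κ : ℝ, 0 < κ ∧ ∃ C : ℝ, 0 < C ∧ ∃ N₀ : ℕ, 3 ≤ N₀ ∧ ∀ N : ℕ, N₀ ≤ N →
    ∀ f : ℕ → ℕ, (∀ n, (f n : ℝ) ≤ Real.log N ^ κ) → ∀ t : Fin j → ℕ, (∀ i, t i ≤ B * N) →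
    ∀ (x : Fin k → ℕ) (s : Fin k → ℕ → ℕ), (∀ i, ∃ p ≤ P, Good N B p C0 (x i) (s i)) →
    ∃ E ⊆ Fintype.piFinset (fun i => Icc 1 (x i)), (E.card : ℝ) ≤ (∏ i, (x i : ℝ)) * Real.log N ^ (-κ) ∧
      ∀ m ∈ Fintype.piFinset (fun i => Icc 1 (x i)), m ∉ E →
      ∀ b : ℕ → (Fin j → ℕ) → ℝ, (∀ c u, 0 ≤ b c u ∧ b c u ≤ 1) → ∀ G : ℕ → (Fin j → ℕ) → Fin k → ℕ,
      |∑ n ∈ Icc 1 N, b (f n) (fun i => cardFactors (n + t i)) *
          ((if ∀ i, cardFactors (n + s i (m i)) = G (f n) (fun i => cardFactors (n + t i)) i then (1 : ℝ) else 0) -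
            ∏ i, pl N (G (f n) (fun i => cardFactors (n + t i)) i))| ≤
        C * (lll N * r1 N ^ (k + 1)) * ∑ n ∈ Icc 1 N, b (f n) (fun i => cardFactors (n + t i)) + C * N / Real.log (Real.log N) ^ A

lemma locW_zero (P B : ℕ) (hB : 1 ≤ B) (C0 : ℝ) (hC0 : 0 ≤ C0) (A k : ℕ) : LocW P B C0 A 0 k := by
  obtain ⟨κ, hκ, C, hC, N1, hN1, hb1⟩ := locK P B hB C0 hC0 A k
  refine ⟨κ, hκ, C, hC, N1, hN1, fun N hN f hf t ht x s hs => ?_⟩
  obtain ⟨E, hE1, hE2, hE3⟩ := hb1 N hN f hf x s hs
  refine ⟨E, hE1, hE2, fun m hm hmE b hb G => ?_⟩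
  obtain ⟨τ, hτ, h1⟩ := hE3 m hm hmE
  set u0 : Fin 0 → ℕ := fun i => i.elim0 with hu0
  have hu : ∀ n : ℕ, (fun i : Fin 0 => cardFactors (n + t i)) = u0 := fun n => Subsingleton.elim _ _
  set R := ⌊Real.log N ^ κ⌋₊ + 1 with hR
  have hfR : ∀ n, f n < R := fun n => Nat.lt_succ_of_le (Nat.le_floor (hf n))
  have e1 : ∑ n ∈ Icc 1 N, b (f n) (fun i => cardFactors (n + t i)) *
          ((if ∀ i, cardFactors (n + s i (m i)) = G (f n) (fun i => cardFactors (n + t i)) i then (1 : ℝ) else 0) -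
            ∏ i, pl N (G (f n) (fun i => cardFactors (n + t i)) i)) =
      ∑ c ∈ range R, b c u0 * (ck N k f (fun i => s i (m i)) c (G c u0) - Ac N f c * ∏ i, pl N (G c u0 i)) := by
    have e2 : ∀ c, b c u0 * (ck N k f (fun i => s i (m i)) c (G c u0) - Ac N f c * ∏ i, pl N (G c u0 i)) =
        ∑ n ∈ Icc 1 N, (if f n = c then b c u0 * ((if ∀ i, cardFactors (n + s i (m i)) = G c u0 i then (1 : ℝ) else 0) -
            ∏ i, pl N (G c u0 i)) else 0) := by
      intro c
      unfold ck Ac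
      rw [sum_mul, ← sum_sub_distrib, mul_sum]
      apply sum_congr rfl
      intro n _
      by_cases h2 : f n = c
      · simp only [h2, true_and, if_true, one_mul]
      · simp only [h2, false_and, if_false, zero_mul, sub_zero, mul_zero]
    simp_rw [e2]
    rw [sum_comm]
    apply sum_congr rfl
    intro n _
    rw [sum_ite_eq (range R) (f n) (fun c => b c u0 * ((if ∀ i, cardFactors (n + s i (m i)) = G c u0 i then (1 : ℝ) else 0) -
            ∏ i, pl N (G c u0 i))), if_pos (mem_range.2 (hfR n)), hu n]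
  have e3 : ∑ n ∈ Icc 1 N, b (f n) (fun i => cardFactors (n + t i)) = ∑ c ∈ range R, b c u0 * Ac N f c := by
    unfold Ac
    simp_rw [mul_sum]
    rw [sum_comm]
    apply sum_congr rfl
    intro n _
    have e4 : ∀ c, b c u0 * (if f n = c then (1 : ℝ) else 0) = if f n = c then b c u0 else 0 := fun c => by
      split_ifs <;> simp
    simp_rw [e4]
    rw [sum_ite_eq (range R) (f n) (fun c => b c u0), if_pos (mem_range.2 (hfR n)), hu n]
  rw [e1, e3]
  refine (abs_sum_le_sum_abs _ _).trans ?_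
  calc _ ≤ ∑ c ∈ range R, (b c u0 * (C * (lll N * r1 N ^ (k + 1)) * Ac N f c) + τ c) := by
        apply sum_le_sum
        intro c _
        rw [abs_mul, abs_of_nonneg (hb c u0).1]
        calc b c u0 * |ck N k f (fun i => s i (m i)) c (G c u0) - Ac N f c * ∏ i, pl N (G c u0 i)| ≤
              b c u0 * (C * (lll N * r1 N ^ (k + 1)) * Ac N f c + τ c) := mul_le_mul_of_nonneg_left (h1 c (G c u0)) (hb c u0).1
          _ = b c u0 * (C * (lll N * r1 N ^ (k + 1)) * Ac N f c) + b c u0 * τ c := by ring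
          _ ≤ _ := by
              have := mul_le_of_le_one_left (hτ.1 c) (hb c u0).2
              linarith
    _ = C * (lll N * r1 N ^ (k + 1)) * ∑ c ∈ range R, b c u0 * Ac N f c + ∑ c ∈ range R, τ c := by
        rw [sum_add_distrib, mul_sum]
        congr 1
        apply sum_congr rfl
        intro c _
        ring
    _ ≤ _ := by
        have := hτ.2 (range R)
        linarith

lemma locW_succ (P B : ℕ) (C0 : ℝ) (A j k : ℕ) (ih : LocW P B C0 A j k) : LocW P B C0 A (j + 1) k := by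
  classical
  obtain ⟨κ1, hκ1, C1, hC1, N1, hN1, hb1⟩ := ih
  obtain ⟨K, hK, Ct, hCt, N3, hN3, htail⟩ := tails_num B A
  set κ := κ1 / 2 with hκ
  have hκ0 : 0 < κ := by rw [hκ]; exact half_pos hκ1
  have h2κ1 : 2 * κ ≤ κ1 := by rw [hκ]; linarith
  obtain ⟨N4, hN4, hlab⟩ := label_size κ hκ0
  obtain ⟨N5, hN5, hr⟩ := rr_facts
  obtain ⟨N6, hN6, hr2⟩ := r2_facts
  refine ⟨κ, hκ0, C1 + Ct, by positivity, max (max N1 N3) (max (max N4 N5) N6), by omega, fun N hN f hf t ht x s hs => ?_⟩
  obtain ⟨g1, g2⟩ := hlab N (by omega)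
  obtain ⟨q1, q2, q3, q4⟩ := hr N (by omega)
  obtain ⟨w1, w2, w3⟩ := hr2 N (by omega)
  obtain ⟨-, t2⟩ := htail N (by omega)
  have hv0 : 0 < Real.log (Real.log N) := by linarith
  set L := Real.log N with hL
  set v := Real.log L with hv
  have hL0 : 0 < L := by linarith
  set J := JJ N with hJ
  set h0 := t 0 with hh0
  set f' : ℕ → ℕ := fun n => f n * (J + 1) + min (cardFactors (n + h0)) J with hf'
  have hf'b : ∀ n, (f' n : ℝ) ≤ L ^ κ1 := fun n =>
    (g2 (f n) _ (hf n) (min_le_right _ _)).trans (Real.rpow_le_rpow_of_exponent_le q4 h2κ1)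
  obtain ⟨E, hE1, hE2, hE3⟩ := hb1 N (by omega) f' hf'b (fun i => t i.succ) (fun i => ht _) x s hs
  refine ⟨E, hE1, hE2.trans ?_, fun m hm hmE b hb G => ?_⟩
  · have hprod0 : (0 : ℝ) ≤ ∏ i : Fin k, (x i : ℝ) := prod_nonneg fun i _ => Nat.cast_nonneg _
    apply mul_le_mul_of_nonneg_left _ hprod0
    exact Real.rpow_le_rpow_of_exponent_le q4 (by linarith)
  · have hJ1 : 0 < J + 1 := by omega
    have hdiv : ∀ n, f' n / (J + 1) = f n := by
      intro n
      rw [hf']
      simp only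
      rw [mul_comm, Nat.mul_add_div hJ1, Nat.div_eq_of_lt (lt_of_le_of_lt (min_le_right _ _) (Nat.lt_succ_self J)), add_zero]
    have hmod : ∀ n, f' n % (J + 1) = min (cardFactors (n + h0)) J := by
      intro n
      rw [hf']
      simp only
      rw [mul_comm, Nat.mul_add_mod, Nat.mod_eq_of_lt (lt_of_le_of_lt (min_le_right _ _) (Nat.lt_succ_self J))]
    have hcons : ∀ n : ℕ, (fun i : Fin (j + 1) => cardFactors (n + t i)) =
        (Fin.cons (cardFactors (n + h0)) (fun i : Fin j => cardFactors (n + t i.succ)) : Fin (j + 1) → ℕ) := by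
      intro n
      funext i
      refine Fin.cases ?_ (fun i' => ?_) i
      · simp [hh0]
      · simp
    set b' : ℕ → (Fin j → ℕ) → ℝ := fun c u => if c % (J + 1) < J then b (c / (J + 1)) (Fin.cons (c % (J + 1)) u : Fin (j + 1) → ℕ) else 0 with hb'
    set G' : ℕ → (Fin j → ℕ) → Fin k → ℕ := fun c u => G (c / (J + 1)) (Fin.cons (c % (J + 1)) u : Fin (j + 1) → ℕ) with hG'
    have s2 := hE3 m hm hmE b' (fun c u => by
      rw [hb']; simp only
      split_ifs
      · exact hb _ _
      · exact ⟨le_rfl, zero_le_one⟩) G'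
    -- the values of the weights
    have hval : ∀ n, cardFactors (n + h0) < J → b' (f' n) (fun i => cardFactors (n + t i.succ)) = b (f n) (fun i => cardFactors (n + t i)) ∧
        G' (f' n) (fun i => cardFactors (n + t i.succ)) = G (f n) (fun i => cardFactors (n + t i)) := by
      intro n hn
      rw [hb', hG']
      simp only
      rw [hdiv, hmod, min_eq_left hn.le, if_pos hn, hcons n]
      exact ⟨rfl, rfl⟩
    have hval2 : ∀ n, ¬ cardFactors (n + h0) < J → b' (f' n) (fun i => cardFactors (n + t i.succ)) = 0 := by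
      intro n hn
      rw [hb']
      simp only
      rw [hmod, min_eq_right (not_lt.1 hn), if_neg (lt_irrefl J)]
    have hcnt : ∑ n ∈ Icc 1 N, (if J ≤ cardFactors (n + h0) then (1 : ℝ) else 0) ≤ Ct * N / v ^ A := by
      have h1 := (sum_TJ N J (fun _ => 0) h0 ((B + 1) * N) (by rw [Nat.succ_mul]; have := ht 0; omega) {0}).trans t2
      rw [sum_singleton] at h1
      unfold TJ at h1
      simpa using h1
    set F : ℕ → ℝ := fun n => (if ∀ i, cardFactors (n + s i (m i)) = G (f n) (fun i => cardFactors (n + t i)) i then (1 : ℝ) else 0) -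
            ∏ i, pl N (G (f n) (fun i => cardFactors (n + t i)) i) with hF
    have hpl1 : ∀ l, pl N l ≤ 1 := by
      intro l
      unfold pl cn0
      have hN0 : (0 : ℝ) < N := by exact_mod_cast (by omega : 0 < N)
      rw [div_le_one hN0]
      calc _ ≤ ∑ n ∈ Icc 1 N, (1 : ℝ) := sum_le_sum fun _ _ => by split_ifs <;> norm_num
        _ = _ := by simp
    have hF1 : ∀ n, |F n| ≤ 1 := by
      intro n
      rw [hF]; simp only
      have h1 : 0 ≤ ∏ i, pl N (G (f n) (fun i => cardFactors (n + t i)) i) := prod_nonneg fun _ _ => pl_nonneg _ _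
      have h2 : ∏ i, pl N (G (f n) (fun i => cardFactors (n + t i)) i) ≤ 1 := prod_le_one (fun _ _ => pl_nonneg _ _) (fun _ _ => hpl1 _)
      rw [abs_le]
      split_ifs <;> constructor <;> linarith
    have e1 : |∑ n ∈ Icc 1 N, b (f n) (fun i => cardFactors (n + t i)) * F n -
        ∑ n ∈ Icc 1 N, b' (f' n) (fun i => cardFactors (n + t i.succ)) *
          ((if ∀ i, cardFactors (n + s i (m i)) = G' (f' n) (fun i => cardFactors (n + t i.succ)) i then (1 : ℝ) else 0) -
            ∏ i, pl N (G' (f' n) (fun i => cardFactors (n + t i.succ)) i))| ≤ Ct * N / v ^ A := by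
      rw [← sum_sub_distrib]
      refine (abs_sum_le_sum_abs _ _).trans (le_trans ?_ hcnt)
      apply sum_le_sum
      intro n _
      by_cases hn : cardFactors (n + h0) < J
      · obtain ⟨v1, v2⟩ := hval n hn
        rw [v1, v2, if_neg (show ¬ J ≤ cardFactors (n + h0) by omega)]
        rw [hF]; simp only
        rw [sub_self, abs_zero]
      · rw [hval2 n hn, zero_mul, sub_zero, if_pos (show J ≤ cardFactors (n + h0) by omega), abs_mul, abs_of_nonneg (hb _ _).1]
        calc _ ≤ (1 : ℝ) * 1 := by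
              have := (hb (f n) (fun i => cardFactors (n + t i))).2
              have := hF1 n
              have := abs_nonneg (F n)
              gcongr
          _ = 1 := by norm_num
    have e2 : ∑ n ∈ Icc 1 N, b' (f' n) (fun i => cardFactors (n + t i.succ)) ≤ ∑ n ∈ Icc 1 N, b (f n) (fun i => cardFactors (n + t i)) := by
      apply sum_le_sum
      intro n _
      by_cases hn : cardFactors (n + h0) < J
      · rw [(hval n hn).1]
      · rw [hval2 n hn]; exact (hb _ _).1
    have hu0 : 0 ≤ lll N * r1 N ^ (k + 1) := by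
      have h1 : 0 ≤ lll N := by unfold lll; linarith
      have h2 : 0 ≤ r1 N := by unfold r1; positivity
      positivity
    have hsum0 : 0 ≤ ∑ n ∈ Icc 1 N, b (f n) (fun i => cardFactors (n + t i)) := sum_nonneg fun _ _ => (hb _ _).1
    have e3 : C1 * (lll N * r1 N ^ (k + 1)) * ∑ n ∈ Icc 1 N, b' (f' n) (fun i => cardFactors (n + t i.succ)) ≤
        (C1 + Ct) * (lll N * r1 N ^ (k + 1)) * ∑ n ∈ Icc 1 N, b (f n) (fun i => cardFactors (n + t i)) := by
      calc _ ≤ C1 * (lll N * r1 N ^ (k + 1)) * ∑ n ∈ Icc 1 N, b (f n) (fun i => cardFactors (n + t i)) := by gcongr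
        _ ≤ _ := by
            apply mul_le_mul_of_nonneg_right _ hsum0
            apply mul_le_mul_of_nonneg_right _ hu0
            linarith
    have e4 : (C1 + Ct) * N / v ^ A = C1 * N / v ^ A + Ct * N / v ^ A := by ring
    rw [e4]
    rw [abs_le] at e1 s2 ⊢
    constructor <;> linarith

theorem locW (P B : ℕ) (hB : 1 ≤ B) (C0 : ℝ) (hC0 : 0 ≤ C0) (A j k : ℕ) : LocW P B C0 A j k := by
  induction j with
  | zero => exact locW_zero P B hB C0 hC0 A k
  | succ j ih => exact locW_succ P B C0 A j k ih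

end Pool.Agent.TH445.OI
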