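import Mathlib
import Pool.Agent.TH445.OI.A14
import Pool.Agent.TH823.Fam.Fam2
import Pool.Agent.TH823.MRS.Circ4

set_option autoImplicit false

/-! The sum over all tuples; the families: intervals, polynomial values, primes. -/

open Finset Filter

namespace Pool.Agent.TH445.OI

open Pool.Agent.H373R2.T7 (energy energy_poly)
open ArithmeticFunction (cardFactors)

/-- from test functions to the sum over all tuples -/
lemma tv_form (N K : ℕ) (φ : ℕ → Fin K → ℕ) (T : ℝ) (hT : 0 ≤ T)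
    (h : ∀ a : (Fin K → ℕ) → ℂ, (∀ l, ‖a l‖ ≤ 1) → ‖(1 / (N : ℂ)) * ∑ n ∈ Icc 1 N, a (φ n) - av N K a‖ ≤ T) :
    ∑' ℓ : Fin K → ℕ, |(1 / (N : ℝ)) * (((Icc 1 N).filter (fun n => ∀ i, φ n i = ℓ i + 1)).card : ℝ) -
      ∏ i : Fin K, ((1 / (N : ℝ)) * (((Icc 1 N).filter (fun n => cardFactors n = ℓ i + 1)).card : ℝ))| ≤ T := by
  classical
  set D : (Fin K → ℕ) → ℝ := fun ℓ => (1 / (N : ℝ)) * (((Icc 1 N).filter (fun n => ∀ i, φ n i = ℓ i + 1)).card : ℝ) -
      ∏ i : Fin K, ((1 / (N : ℝ)) * (((Icc 1 N).filter (fun n => cardFactors n = ℓ i + 1)).card : ℝ)) with hD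
  apply Real.tsum_le_of_sum_le (fun ℓ => abs_nonneg _)
  intro S
  set sg : (Fin K → ℕ) → ℝ := fun ℓ => if 0 ≤ D ℓ then 1 else -1 with hsg
  have hsgD : ∀ ℓ, |D ℓ| = sg ℓ * D ℓ := by
    intro ℓ
    rw [hsg]; simp only
    split_ifs with h1
    · rw [abs_of_nonneg h1, one_mul]
    · rw [abs_of_neg (not_le.1 h1), neg_one_mul]
  have hsg1 : ∀ ℓ, |sg ℓ| = 1 := by
    intro ℓ
    rw [hsg]; simp only
    split_ifs <;> simp
  set a : (Fin K → ℕ) → ℂ := fun l => ∑ ℓ ∈ S, (sg ℓ : ℂ) * (if ∀ i, l i = ℓ i + 1 then 1 else 0) with ha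
  have ha1 : ∀ l, ‖a l‖ ≤ 1 := by
    intro l
    rw [ha]; simp only
    by_cases hex : ∃ ℓ ∈ S, ∀ i, l i = ℓ i + 1
    · obtain ⟨ℓ0, hℓ0, hl⟩ := hex
      rw [sum_eq_single ℓ0]
      · rw [if_pos hl, mul_one, Complex.norm_real, Real.norm_eq_abs, hsg1]
      · intro ℓ _ hne
        rw [if_neg, mul_zero]
        intro h2
        apply hne
        funext i
        have := hl i
        have := h2 i
        omega
      · intro h2; exact absurd hℓ0 h2
    · rw [sum_eq_zero, norm_zero]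
      · exact zero_le_one
      · intro ℓ hℓ
        rw [if_neg, mul_zero]
        intro h2
        exact hex ⟨ℓ, hℓ, h2⟩
  have h1 := h a ha1
  have e1 : (1 / (N : ℂ)) * ∑ n ∈ Icc 1 N, a (φ n) = ∑ ℓ ∈ S, (sg ℓ : ℂ) * ((1 / (N : ℂ)) * (((Icc 1 N).filter (fun n => ∀ i, φ n i = ℓ i + 1)).card : ℂ)) := by
    rw [ha]; simp only
    rw [sum_comm, mul_sum]
    apply sum_congr rfl
    intro ℓ _
    rw [← mul_sum, card_filter]
    push_cast
    ring
  have e2 : av N K a = ∑ ℓ ∈ S, (sg ℓ : ℂ) * ∏ i : Fin K, ((1 / (N : ℂ)) * (((Icc 1 N).filter (fun n => cardFactors n = ℓ i + 1)).card : ℂ)) := by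
    unfold av
    rw [ha]; simp only
    rw [sum_comm, sum_div]
    apply sum_congr rfl
    intro ℓ _
    rw [← mul_sum, mul_div_assoc]
    congr 1
    rw [prod_mul_distrib, prod_const, card_univ, Fintype.card_fin, div_eq_mul_inv, mul_comm, one_div, inv_pow]
    congr 1
    have e3 : ∀ i : Fin K, (((Icc 1 N).filter (fun n => cardFactors n = ℓ i + 1)).card : ℂ) = ∑ n ∈ Icc 1 N, (if cardFactors n = ℓ i + 1 then (1 : ℂ) else 0) := by
      intro i; rw [card_filter]; push_cast; rfl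
    simp_rw [e3]
    rw [prod_univ_sum]
    apply sum_congr rfl
    intro r _
    by_cases hr : ∀ i, cardFactors (r i) = ℓ i + 1
    · rw [if_pos hr]
      symm
      apply prod_eq_one
      intro i _
      rw [if_pos (hr i)]
    · rw [if_neg hr]
      push Not at hr
      obtain ⟨i, hi⟩ := hr
      symm
      exact prod_eq_zero (mem_univ i) (if_neg hi)
  rw [e1, e2, ← sum_sub_distrib] at h1
  have e4 : ∑ ℓ ∈ S, ((sg ℓ : ℂ) * ((1 / (N : ℂ)) * (((Icc 1 N).filter (fun n => ∀ i, φ n i = ℓ i + 1)).card : ℂ)) -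
      (sg ℓ : ℂ) * ∏ i : Fin K, ((1 / (N : ℂ)) * (((Icc 1 N).filter (fun n => cardFactors n = ℓ i + 1)).card : ℂ))) = ((∑ ℓ ∈ S, |D ℓ| : ℝ) : ℂ) := by
    rw [Complex.ofReal_sum]
    apply sum_congr rfl
    intro ℓ _
    rw [hsgD, hD]
    push_cast
    ring
  rw [e4, Complex.norm_real, Real.norm_of_nonneg (sum_nonneg fun _ _ => abs_nonneg _)] at h1
  exact h1

/-- all shifts up to `B N` -/
lemma good_all (N B : ℕ) (hB : 1 ≤ B) : Good N B 1 1 (B * N) (fun m => m) := by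
  refine ⟨fun m hm => (mem_Icc.1 hm).2, ?_⟩
  have h1 := energy_one (B * N) (fun m => (m : ℤ)) (by intro a _ b _ h; exact_mod_cast h)
  have h2 : (energy 1 (B * N) (fun m => (m : ℤ)) : ℝ) ≤ (B * N : ℕ) := by exact_mod_cast h1
  have h3 : (N : ℝ) ≤ (B * N : ℕ) := by exact_mod_cast Nat.le_mul_of_pos_left _ (by omega)
  calc (energy 1 (B * N) (fun m => (m : ℤ)) : ℝ) * N ≤ (B * N : ℕ) * (B * N : ℕ) := by gcongr
    _ = 1 * ((B * N : ℕ) : ℝ) ^ (2 * 1) := by ring

/-- polynomial values -/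
lemma good_poly (F : Polynomial ℤ) (hd : 1 ≤ F.natDegree) (hl : 0 < F.leadingCoeff) (hp : ∀ m : ℕ, 1 ≤ m → 0 ≤ F.eval (m : ℤ)) (A : ℕ) :
    ∃ B p : ℕ, ∃ C : ℝ, 0 < C ∧ ∀ N x : ℕ, N ≤ A * x ^ F.natDegree → x ^ F.natDegree ≤ A * N →
      Good N B p C x (fun m => (F.eval (m : ℤ)).toNat) := by
  obtain ⟨A', hA'⟩ := Pool.Agent.TH823.Fam.poly_size F
  obtain ⟨p, C, hC, hen⟩ := energy_poly F hd hl
  refine ⟨A' * A, p, C * A + C + 1, by positivity, fun N x h1 h2 => ?_⟩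
  rcases Nat.eq_zero_or_pos x with hx | hx
  · subst hx
    have hN : N = 0 := by
      rw [zero_pow (by omega), mul_zero] at h1
      omega
    subst hN
    refine ⟨fun m hm => ?_, ?_⟩
    · rw [mem_Icc] at hm; omega
    · simp only [Nat.cast_zero, mul_zero]
      positivity
  · refine ⟨fun m hm => ?_, ?_⟩
    · have h3 := hA' x hx m hm
      have h4 := hp m (mem_Icc.1 hm).1
      rw [abs_of_nonneg h4] at h3
      have h5 : ((F.eval (m : ℤ)).toNat : ℤ) ≤ (A' * A * N : ℕ) := by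
        rw [Int.toNat_of_nonneg h4]
        refine h3.trans ?_
        push_cast
        have : (A' : ℤ) * x ^ F.natDegree ≤ A' * (A * N) := by
          apply mul_le_mul_of_nonneg_left _ (by positivity)
          exact_mod_cast h2
        linarith
      exact_mod_cast h5
    · have h3 := hen x hx
      have e1 : energy p x (fun m => (((F.eval (m : ℤ)).toNat : ℕ) : ℤ)) = energy p x (fun m => F.eval (m : ℤ)) := by
        unfold energy
        congr 1
        apply filter_congr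
        intro q hq
        rw [mem_product, Fintype.mem_piFinset, Fintype.mem_piFinset] at hq
        have e2 : ∀ i, (((F.eval (q.1 i : ℤ)).toNat : ℕ) : ℤ) = F.eval (q.1 i : ℤ) := fun i => Int.toNat_of_nonneg (hp _ (mem_Icc.1 (hq.1 i)).1)
        have e3 : ∀ i, (((F.eval (q.2 i : ℤ)).toNat : ℕ) : ℤ) = F.eval (q.2 i : ℤ) := fun i => Int.toNat_of_nonneg (hp _ (mem_Icc.1 (hq.2 i)).1)
        simp_rw [e2, e3]
      rw [e1]
      have h4 : (N : ℝ) ≤ A * (x : ℝ) ^ F.natDegree := by exact_mod_cast h1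
      have h5 : (0 : ℝ) ≤ (x : ℝ) ^ (2 * p) := by positivity
      calc (energy p x (fun m => F.eval (m : ℤ)) : ℝ) * N ≤ (energy p x (fun m => F.eval (m : ℤ)) : ℝ) * (A * (x : ℝ) ^ F.natDegree) := by gcongr
        _ = A * ((energy p x (fun m => F.eval (m : ℤ)) : ℝ) * (x : ℝ) ^ F.natDegree) := by ring
        _ ≤ A * (C * (x : ℝ) ^ (2 * p)) := by gcongr
        _ = (C * A) * (x : ℝ) ^ (2 * p) := by ring
        _ ≤ (C * A + C + 1) * (x : ℝ) ^ (2 * p) := by
            apply mul_le_mul_of_nonneg_right _ h5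
            linarith

open Pool.Agent.Helper602.MK (PP)

/-- the primes in `(√N, N]` -/
lemma good_primes : ∃ C : ℝ, 0 < C ∧ ∃ N₀ : ℕ, 3 ≤ N₀ ∧ ∀ N : ℕ, N₀ ≤ N → ∃ s : ℕ → ℕ,
    Set.BijOn s (Icc 1 (PP N).card) (PP N) ∧ Good N 1 2 C (PP N).card s := by
  classical
  obtain ⟨C, hC, k0, hk0, h⟩ := Pool.Agent.TH823.MRS.pp_family
  refine ⟨C, hC, k0, hk0, fun N hN => ?_⟩
  obtain ⟨s, h1, h2, h3, h4⟩ := h N hN
  set x := (PP N).card with hx
  have hmap : ∀ m ∈ Icc 1 x, (s m).toNat ∈ PP N := by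
    intro m hm
    by_contra hcon
    have h5 := h3 (fun p => p ∉ PP N)
    have h6 : ((PP N).filter (fun p => p ∉ PP N)).card = 0 := by
      rw [card_eq_zero, filter_eq_empty_iff]
      intro p hp hp'
      exact hp' hp
    rw [h6] at h5
    have h7 := card_eq_zero.1 h5.symm
    have h8 : m ∈ (Icc 1 x).filter (fun m => (s m).toNat ∉ PP N) := mem_filter.2 ⟨hm, hcon⟩
    rw [h7] at h8
    exact absurd h8 (notMem_empty _)
  have hone : ∀ p ∈ PP N, ((Icc 1 x).filter (fun m => (s m).toNat = p)).card = 1 := by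
    intro p hp
    rw [← h3 (fun q => q = p)]
    rw [card_eq_one]
    refine ⟨p, ?_⟩
    ext q
    rw [mem_filter, mem_singleton]
    exact ⟨fun h => h.2, fun h => ⟨h ▸ hp, h⟩⟩
  refine ⟨fun m => (s m).toNat, ⟨?_, ?_, ?_⟩, ?_, ?_⟩
  · intro m hm
    exact hmap m hm
  · intro m hm m' hm' hmm
    rw [mem_coe] at hm hm'
    obtain ⟨u, hu⟩ := card_eq_one.1 (hone _ (hmap m hm))
    have e1 : m ∈ (Icc 1 x).filter (fun m1 => (s m1).toNat = (s m).toNat) := mem_filter.2 ⟨hm, rfl⟩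
    have e2 : m' ∈ (Icc 1 x).filter (fun m1 => (s m1).toNat = (s m).toNat) := mem_filter.2 ⟨hm', hmm.symm⟩
    rw [hu, mem_singleton] at e1 e2
    rw [e1, e2]
  · intro p hp
    obtain ⟨u, hu⟩ := card_eq_one.1 (hone p hp)
    have e1 : u ∈ (Icc 1 x).filter (fun m1 => (s m1).toNat = p) := by rw [hu]; exact mem_singleton_self _
    rw [mem_filter] at e1
    exact ⟨u, e1.1, e1.2⟩
  · intro m hm
    have h5 := h1 m hm
    have h6 := h4 m hm
    rw [abs_of_nonneg h6] at h5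
    rw [one_mul]
    simp only
    omega
  · have e1 : energy 2 x (fun m => (((s m).toNat : ℕ) : ℤ)) = energy 2 x s := by
      unfold energy
      congr 1
      apply filter_congr
      intro q hq
      rw [mem_product, Fintype.mem_piFinset, Fintype.mem_piFinset] at hq
      have e2 : ∀ i, (((s (q.1 i)).toNat : ℕ) : ℤ) = s (q.1 i) := fun i => Int.toNat_of_nonneg (h4 _ (hq.1 i))
      have e3 : ∀ i, (((s (q.2 i)).toNat : ℕ) : ℤ) = s (q.2 i) := fun i => Int.toNat_of_nonneg (h4 _ (hq.2 i))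
      simp_rw [e2, e3]
    rw [e1]
    exact h2

end Pool.Agent.TH445.OI
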